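import Pool.Agent.Lib.MP_a7239a_co.GC.Defs

/-!
# Theorem R (rank two groups of exponent `t * m`): definitions

`FatFull H θ`: the subsets of cosets of `H` with more than `(|H| + θ) / 2` elements represent the
coset by `d` elements for all nontrivial `d`; `Flex`: a whole coset of `H` is represented by `n`
elements of `A`; `Fill`: the sums of `k` integers form an interval.
-/

open Finset

namespace Pool.Agent.Lib.MPa7239a.RK

open Pool.Agent.Lib.MPa7239a.GC

/-- large subsets of cosets of `H` are universal -/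
def FatFull {G : Type*} [AddCommGroup G] (H : AddSubgroup G) (θ : ℕ) : Prop :=
  ∀ (B : Finset G) (x₀ : G), (∀ x ∈ B, x - x₀ ∈ H) → Nat.card H + θ ≤ 2 * #B →
    ∀ d : ℕ, 2 ≤ d → d + 2 ≤ #B → ∀ y : G, y - d • x₀ ∈ H → Hit B d y

/-- all elements of `Y • e + H` are sums of `n` distinct elements of `A` -/
def Flex {G : Type*} [AddCommGroup G] (H : AddSubgroup G) (e : G) (A : Finset G) (n : ℕ)
    (Y : ℤ) : Prop :=
  ∀ g : G, g - Y • e ∈ H → Hit A n g

/-- every number between two sums of `k` elements is such a sum -/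
def Fill {G : Type*} (A : Finset G) (z : G → ℤ) (k : ℕ) : Prop :=
  ∀ T₁ ⊆ A, ∀ T₂ ⊆ A, #T₁ = k → #T₂ = k → ∀ Y : ℤ, ∑ x ∈ T₁, z x ≤ Y → Y ≤ ∑ x ∈ T₂, z x →
    ∃ T ⊆ A, #T = k ∧ ∑ x ∈ T, z x = Y

/-- row `i` -/
def row {G : Type*} (A : Finset G) (z : G → ℤ) (i : ℤ) : Finset G := A.filter (fun x => z x = i)

/-- the elements below row `i` -/
def low {G : Type*} (A : Finset G) (z : G → ℤ) (i : ℤ) : Finset G := A.filter (fun x => z x < i)

/-- the elements above row `i` -/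
def high {G : Type*} (A : Finset G) (z : G → ℤ) (i : ℤ) : Finset G := A.filter (fun x => i < z x)

/-- the elements at distance at least `d` from `[p, q]` -/
def out {G : Type*} (A : Finset G) (z : G → ℤ) (p q : ℤ) (d : ℕ) : Finset G :=
  A.filter (fun x => z x ≤ p - d ∨ q + d ≤ z x)

/-- the lifted set `A`, ready for the flexible interval: rows `p, ..., q` are not empty, the rows
`i₀ < i₁` have at least `Q + 5` elements, the other elements are few or near -/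
structure Ready {G : Type*} [AddCommGroup G] (H : AddSubgroup G) (e q₀ : G) (A : Finset G)
    (z : G → ℤ) (n c θ Q : ℕ) (p q i₀ i₁ : ℤ) : Prop where
  card : #A = n + c
  nq : n • q₀ = 0
  lift : ∀ x ∈ A, x - q₀ - z x • e ∈ H
  fat : FatFull H θ
  hQ : Q + #(out A z p q 1) + 3 ≤ n
  hc : 2 ≤ c
  le₀ : p ≤ i₀
  lt : i₀ < i₁
  le₁ : i₁ ≤ q
  rows : ∀ i, p ≤ i → i ≤ q → 5 ≤ #(row A z i)
  row₀ : Q + 5 ≤ #(row A z i₀)
  row₁ : Q + 5 ≤ #(row A z i₁)
  far : ∀ x ∈ A, ∀ d : ℕ, 1 ≤ d → (z x = q + d ∨ z x = p - d) →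
    d + (q - i₁) + (i₀ - p) ≤ (i₁ - i₀) * Q ∧
    d + (q - i₁) + (i₀ - p) + (i₁ - i₀) * (#(out A z p q d) + 2) ≤ (i₁ - i₀) * c

/-- the structure given by the ambient argument: `S ⊆ A` is `A` up to `loss` elements, lifted to
the integers modulo `H`; `G / H` is cyclic of order `o`, generated by `e`; the sums of `k` elements
of `S`, `n - loss ≤ k ≤ n`, have length at most `o - 2` -/
structure Amb {G : Type*} [AddCommGroup G] (H : AddSubgroup G) (e q₀ : G) (A S : Finset G)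
    (z : G → ℤ) (m t n c s o loss k t' : ℕ) (u v : ℤ) : Prop where
  nt : n = t * m
  card : #A = n + c
  sub : S ⊆ A
  hloss : #A ≤ #S + loss
  nq : n • q₀ = 0
  lift : ∀ x ∈ S, x - q₀ - z x • e ∈ H
  gen : ∀ x ∈ A, ∃ a : ℤ, x - q₀ - a • e ∈ H
  cardH : Nat.card H = m * s
  os : o * s = n
  s1 : 1 ≤ s
  st : s ≤ t
  order : addOrderOf (e : G ⧸ H) = o
  cardS : #S = k + t'
  kn : k ≤ n
  nk : n ≤ k + loss
  uv : u ≤ v
  hu : t' ≤ #(S.filter (fun x => z x ≤ u))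
  hv : t' ≤ #(S.filter (fun x => v ≤ z x))
  win : t' * (v - u) + ∑ x ∈ S.filter (fun x => v < z x), (z x - v) +
    ∑ x ∈ S.filter (fun x => z x < u), (u - z x) + 2 ≤ o

/-- the lifted set in the case `s ∣ t`: all but `E` elements in the rows `0, ..., b` -/
structure StrP {G : Type*} [AddCommGroup G] (H : AddSubgroup G) (e q₀ : G) (A : Finset G)
    (z : G → ℤ) (m n c s o b E : ℕ) : Prop where
  card : #A = n + c
  nq : n • q₀ = 0
  lift : ∀ x ∈ A, x - q₀ - z x • e ∈ H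
  cardH : Nat.card H = m * s
  hs : 1 ≤ s
  hb : 1 ≤ b
  hn : n = b * (m * s)
  ho : o = b * m
  order : addOrderOf (e : G ⧸ H) = o
  mc : m ≤ c
  cm : c ≤ m + E
  few : #(out A z 0 b 1) ≤ E
  near : ∀ x ∈ A, ∀ d : ℕ, 1 ≤ d → (z x = (b : ℤ) + d ∨ z x = 0 - d) → 2 * d ≤ o + 10

/-- the lifted set in the case `s ∣ t`: rows `0, ..., b - 1` nearly full, rows `- 1` and `b` not
small, at most `E` other elements -/
structure StrQ {G : Type*} [AddCommGroup G] (H : AddSubgroup G) (e q₀ : G) (A : Finset G)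
    (z : G → ℤ) (m n c s o b E L : ℕ) : Prop where
  card : #A = n + c
  nq : n • q₀ = 0
  lift : ∀ x ∈ A, x - q₀ - z x • e ∈ H
  cardH : Nat.card H = m * s
  hs : 1 ≤ s
  hb : 1 ≤ b
  hn : n = b * (m * s)
  ho : o = b * m
  order : addOrderOf (e : G ⧸ H) = o
  mc : m ≤ c
  cm : c ≤ m + E
  full : ∀ i : ℤ, 0 ≤ i → i < b → m * s ≤ #(row A z i) + E
  rowa : L ≤ #(row A z (-1))
  rowb : L ≤ #(row A z b)
  few : #(out A z (-1) b 1) ≤ E
  near : ∀ x ∈ A, ∀ d : ℕ, 1 ≤ d → (z x = (b : ℤ) + d ∨ z x = -1 - d) → 2 * d ≤ o + 10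

/-- the lifted set in the case `t = b * s + ρ`, `1 ≤ ρ < s` -/
structure StrR {G : Type*} [AddCommGroup G] (H : AddSubgroup G) (e q₀ : G) (A : Finset G)
    (z : G → ℤ) (m n c s o b ρ E : ℕ) : Prop where
  card : #A = n + c
  nq : n • q₀ = 0
  lift : ∀ x ∈ A, x - q₀ - z x • e ∈ H
  cardH : Nat.card H = m * s
  hb : 1 ≤ b
  hρ : 1 ≤ ρ
  hρs : ρ < s
  hn : n = b * (m * s) + m * ρ
  ho : o * s = n
  order : addOrderOf (e : G ⧸ H) = o
  mc : m ≤ c
  cm : b * c ≤ o + b * E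
  few : #(out A z 0 b 1) + b * m ≤ o + E
  near : ∀ x ∈ A, ∀ d : ℕ, 1 ≤ d → (z x = (b : ℤ) + d ∨ z x = 0 - d) →
    2 * d ≤ o + 10 ∧ d + b * (#(out A z 0 b d) + 2) ≤ b * c

/-- cyclically free: the obstruction is visible in a cyclic quotient -/
def CycFree {G : Type*} [AddCommGroup G] (A : Finset G) (n : ℕ) : Prop :=
  ∃ (o : ℕ) (φ : G →+ ZMod o), 1 < o ∧ Function.Surjective φ ∧
    ∀ T ⊆ A, #T = n → φ (∑ x ∈ T, x) ≠ 0

end Pool.Agent.Lib.MPa7239a.RK
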