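import Pool.Agent.Lib.MP_a7239a_co.GC.DL
import Pool.Agent.Lib.MP_a7239a_co.GC.DIS
import Pool.Agent.Lib.MP_a7239a_co.GC.FL
import Pool.Agent.Lib.MP_a7239a_co.RK.Defs

/-!
# FULL: a dense subset of a coset represents everything (Theorem R, module FULL, helper28)

If `B` lies in a coset `x₀ + K` and contains a little more than half of it, the sums of `d` distinct
elements of `B` are all the elements of `d x₀ + K`, for `2 ≤ d ≤ |B| - 2`.
-/

set_option autoImplicit false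

open Finset

namespace Pool.Agent.Lib.MPa7239a.RK

open Pool.Agent.Lib.MPa7239a.GC

/-- the complement of a represented sum -/
theorem Hit.compl {G : Type*} [AddCommGroup G] [DecidableEq G] {B : Finset G} {d : ℕ}
    (hd : d ≤ #B) {y : G} (h : Hit B (#B - d) (∑ a ∈ B, a - y)) : Hit B d y := by
  obtain ⟨T, hT, hc, hs⟩ := h
  refine ⟨B \ T, sdiff_subset, ?_, ?_⟩
  · rw [card_sdiff_of_subset hT, hc]
    omega
  · have h1 := sum_sdiff (f := fun a : G => a) hT
    have h2 : ∑ a ∈ B \ T, a = ∑ a ∈ B, a - ∑ a ∈ T, a := by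
      rw [← h1]
      abel
    rw [h2, hs]
    abel

/-- the sum of a subset of a coset -/
theorem sum_mem_coset {G : Type*} [AddCommGroup G] {K : AddSubgroup G} {x₀ : G}
    {T : Finset G} (hT : ∀ x ∈ T, x - x₀ ∈ K) : ∑ a ∈ T, a - #T • x₀ ∈ K := by
  have h : ∑ a ∈ T, (a - x₀) ∈ K := K.sum_mem hT
  rwa [sum_sub_distrib, sum_const] at h

/-- a filled subgroup, with free elements: everything is represented -/
theorem hit_of_fills {G : Type*} [AddCommGroup G] [DecidableEq G] {K : AddSubgroup G}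
    {B R : Finset G} {x₀ : G} (hRB : R ⊆ B) (hB : ∀ x ∈ B, x - x₀ ∈ K) (hF : Fills K R) {d : ℕ}
    (hd : #R ≤ d) (hd2 : d + #R ≤ #B) {y : G} (hy : y - d • x₀ ∈ K) : Hit B d y := by
  obtain ⟨r, c, hr⟩ := hF
  obtain ⟨T₁, hT₁, hc₁, hs₁⟩ := hr 0 K.zero_mem
  rw [add_zero] at hs₁
  have hrR : r ≤ #R := by
    rw [← hc₁]
    exact card_le_card hT₁
  have h1 := sum_mem_coset (K := K) (x₀ := x₀) (T := T₁) fun x hx => hB x (hRB (hT₁ hx))
  rw [hs₁, hc₁] at h1
  have hcard : #(B \ R) = #B - #R := card_sdiff_of_subset hRB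
  obtain ⟨T₀, hT₀, hc₀⟩ := exists_subset_card_eq (s := B \ R) (n := d - r) (by omega)
  have h2 := sum_mem_coset (K := K) (x₀ := x₀) (T := T₀) fun x hx =>
    hB x (sdiff_subset (hT₀ hx))
  rw [hc₀] at h2
  have h3 : y - ∑ a ∈ T₀, a - c ∈ K := by
    have h4 : y - ∑ a ∈ T₀, a - c = (y - d • x₀) - (∑ a ∈ T₀, a - (d - r) • x₀) -
        (c - r • x₀) := by
      have h5 : d • x₀ = (d - r) • x₀ + r • x₀ := by
        rw [← add_smul]
        congr 1
        omega
      rw [h5]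
      abel
    rw [h4]
    exact K.sub_mem (K.sub_mem hy h2) h1
  obtain ⟨T, hT, hc, hs⟩ := hr _ h3
  have hdis : Disjoint T T₀ := by
    rw [disjoint_left]
    intro x hx hx'
    exact (mem_sdiff.1 (hT₀ hx')).2 (hT hx)
  refine ⟨T ∪ T₀, union_subset (hT.trans hRB) (hT₀.trans sdiff_subset), ?_, ?_⟩
  · rw [card_union_of_disjoint hdis, hc, hc₀]
    omega
  · rw [sum_union hdis, hs]
    abel

/-- a set of more than half of a coset: each element of the subgroup is a difference -/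
theorem exists_sub {G : Type*} [AddCommGroup G] [Finite G] [DecidableEq G] {K : AddSubgroup G}
    {S : Finset G} {x₀ : G} (hS : ∀ x ∈ S, x - x₀ ∈ K) (hc : Nat.card K < 2 * #S) {h : G}
    (hh : h ∈ K) : ∃ a ∈ S, ∃ b ∈ S, b - a = h := by
  classical
  by_contra hcon
  push Not at hcon
  have hdis : Disjoint S (S.image (fun a => a + h)) := by
    rw [disjoint_left]
    intro x hx hx'
    obtain ⟨a, ha, hax⟩ := mem_image.1 hx'
    exact hcon a ha x hx (by rw [← hax]; abel)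
  have : Fintype K := Fintype.ofFinite K
  have hsub : S ∪ S.image (fun a => a + h) ⊆
      (univ : Finset K).image (fun g : K => (g : G) + x₀) := by
    intro x hx
    rw [mem_image]
    have hxK : x - x₀ ∈ K := by
      rcases mem_union.1 hx with h1 | h1
      · exact hS x h1
      · obtain ⟨a, ha, rfl⟩ := mem_image.1 h1
        have : a + h - x₀ = (a - x₀) + h := by abel
        rw [this]
        exact K.add_mem (hS a ha) hh
    exact ⟨⟨x - x₀, hxK⟩, mem_univ _, by simp⟩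
  have h1 := (card_le_card hsub).trans card_image_le
  rw [card_union_of_disjoint hdis, card_image_of_injective _ (add_left_injective h), card_univ,
    ← Nat.card_eq_fintype_card] at h1
  omega

/-- **FULL**, general form. -/
theorem fat_full {G : Type*} [AddCommGroup G] [Fintype G] [DecidableEq G]
    (h4 : ∀ s : G, #{x : G | x + x = s} ≤ 4) {ℓ b : ℕ} (hcard : Nat.card G ≤ 4 ^ ℓ)
    (hb : (b + 1) * Fintype.card G < 2 ^ b) (K : AddSubgroup G) {B : Finset G} {x₀ : G}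
    (hB : ∀ x ∈ B, x - x₀ ∈ K) (hK : Nat.card K + (56 * (ℓ * b) + 1) ≤ 2 * #B) {d : ℕ}
    (hd : 2 ≤ d) (hd2 : d + 2 ≤ #B) {y : G} (hy : y - d • x₀ ∈ K) : Hit B d y := by
  classical
  by_cases h1 : Nat.card K + 5 ≤ 2 * (d + 2)
  · exact dense_coset h4 K B x₀ hB hd2 h1 hy
  by_cases h2 : Nat.card K + 5 ≤ 2 * (#B - d + 2)
  · refine Hit.compl (by omega) (dense_coset h4 K B x₀ hB (by omega) h2 ?_)
    have h3 := sum_mem_coset hB
    have h5 : ∑ a ∈ B, a - y - (#B - d) • x₀ = (∑ a ∈ B, a - #B • x₀) - (y - d • x₀) := by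
      have h6 : #B • x₀ = (#B - d) • x₀ + d • x₀ := by
        rw [← add_smul]
        congr 1
        omega
      rw [h6]
      abel
    rw [h5]
    exact K.sub_mem h3 hy
  obtain ⟨V, S, hbox⟩ := exists_boxes (⊥ : AddSubgroup G) B (14 * ℓ) b hb
  have hwb : 14 * ℓ * (2 * b) = 28 * (ℓ * b) := by ring
  have hloss := hbox.loss
  rw [hwb] at hloss
  have hVB : (range (14 * ℓ)).biUnion V ⊆ B := by
    intro x hx
    obtain ⟨i, hi, hxi⟩ := mem_biUnion.1 hx
    exact hbox.sub i (mem_range.1 hi) hxi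
  have hVc : #((range (14 * ℓ)).biUnion V) ≤ 28 * (ℓ * b) := by
    rw [← hwb]
    refine (card_biUnion_le_card_mul _ _ _ fun i hi => hbox.card i (mem_range.1 hi)).trans ?_
    rw [card_range]
  have hbot : Fills (⊥ : AddSubgroup G) (∅ : Finset G) := by
    refine ⟨0, 0, fun h hh => ?_⟩
    rw [AddSubgroup.mem_bot.1 hh]
    exact ⟨∅, Subset.rfl, by simp, by simp⟩
  have hF : Fills K (∅ ∪ (range (14 * ℓ)).biUnion V) := by
    refine fill_of_ball hbot (disjoint_empty_left B) hbox hcard (k := 1) (by omega) ?_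
    intro x hx
    rw [mem_ball_one, mem_Dif]
    obtain ⟨a, ha, c, hc, hac⟩ := exists_sub (K := K) (S := S) (x₀ := x₀)
      (fun x hx => hB x (hbox.ssub hx)) (by omega) hx
    exact ⟨a, ha, c, hc, by rw [hac]⟩
  rw [empty_union] at hF
  exact hit_of_fills hVB hB hF (by omega) (by omega) hy

/-- **FULL** for `ZMod n × ZMod n`. -/
theorem fat_full_zmod {n ℓ : ℕ} [NeZero n] (hℓ : n < 2 ^ ℓ)
    (hb : (3 * ℓ + 1) * n ^ 2 < 2 ^ (3 * ℓ)) (K : AddSubgroup (ZMod n × ZMod n))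
    {B : Finset (ZMod n × ZMod n)} {x₀ : ZMod n × ZMod n} (hB : ∀ x ∈ B, x - x₀ ∈ K)
    (hK : Nat.card K + 170 * ℓ ^ 2 ≤ 2 * #B) {d : ℕ} (hd : 2 ≤ d) (hd2 : d + 2 ≤ #B)
    {y : ZMod n × ZMod n} (hy : y - d • x₀ ∈ K) : Hit B d y := by
  have hcardG : Fintype.card (ZMod n × ZMod n) = n ^ 2 := by
    rw [Fintype.card_prod, ZMod.card]
    ring
  have hn : 1 ≤ n := Nat.one_le_iff_ne_zero.2 (NeZero.ne n)
  have hℓ1 : 1 ≤ ℓ := by
    rcases Nat.eq_zero_or_pos ℓ with h | h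
    · rw [h, pow_zero] at hℓ
      omega
    · exact h
  have h1 : 1 ≤ ℓ ^ 2 := Nat.one_le_pow _ _ hℓ1
  refine fat_full four_solutions (ℓ := ℓ) (b := 3 * ℓ) ?_ ?_ K hB ?_ hd hd2 hy
  · rw [Nat.card_eq_fintype_card, hcardG]
    calc n ^ 2 ≤ (2 ^ ℓ) ^ 2 := Nat.pow_le_pow_left hℓ.le 2
      _ = 4 ^ ℓ := by rw [← pow_mul, mul_comm, pow_mul]; norm_num
  · rw [hcardG]
    exact hb
  · have h2 : 56 * (ℓ * (3 * ℓ)) = 168 * ℓ ^ 2 := by ring
    omega

/-- **FULL**, in the form of the Spec. -/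
theorem fatFull {n ℓ : ℕ} [NeZero n] (hℓ : n < 2 ^ ℓ) (hb : (3 * ℓ + 1) * n ^ 2 < 2 ^ (3 * ℓ))
    (H : AddSubgroup (ZMod n × ZMod n)) : FatFull H (600 * ℓ ^ 3) := by
  intro B x₀ hB hK d hd hd2 y hy
  refine fat_full_zmod hℓ hb H hB (le_trans (Nat.add_le_add_left ?_ _) hK) hd hd2 hy
  rcases Nat.eq_zero_or_pos ℓ with h | h
  · rw [h]
    norm_num
  · calc 170 * ℓ ^ 2 ≤ 600 * ℓ ^ 2 := Nat.mul_le_mul_right _ (by norm_num)
      _ ≤ 600 * ℓ ^ 3 := Nat.mul_le_mul_left _ (Nat.pow_le_pow_right h (by norm_num))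

end Pool.Agent.Lib.MPa7239a.RK
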