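import Pool.Agent.Lib.MP_a7239a_co.RK.Defs
import Pool.Agent.Lib.MP_a7239a_co.RK.FULL
import Pool.Agent.Lib.MP_a7239a_co.GC.MainA
import Pool.Agent.Lib.MP_a7239a_co.GC.SEL

/-!
# Two rows and the pigeonhole (Theorem R, module TWO)
-/

open Finset

namespace Pool.Agent.Lib.MPa7239a.RK

open Pool.Agent.Lib.MPa7239a.GC

/-- many sums of `a` elements of a set `R`, `1 ≤ a < |R|` -/
theorem exists_sums {G : Type*} [AddCommGroup G] [DecidableEq G] (R : Finset G) {a : ℕ}
    (ha : 1 ≤ a) (haR : a < #R) :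
    ∃ Q : Finset G, (∀ y ∈ Q, Hit R a y) ∧ max a (#R - a) + 1 ≤ #Q := by
  rcases le_total a (#R - a) with h | h
  · -- fix `a - 1` elements
    obtain ⟨P, hP, hPc⟩ := exists_subset_card_eq (s := R) (n := a - 1) (by omega)
    refine ⟨(R \ P).image (fun x => x + ∑ y ∈ P, y), ?_, ?_⟩
    · intro y hy
      obtain ⟨x, hx, rfl⟩ := mem_image.1 hy
      rw [mem_sdiff] at hx
      refine ⟨insert x P, insert_subset hx.1 hP, ?_, ?_⟩
      · rw [card_insert_of_notMem hx.2]
        omega
      · rw [sum_insert hx.2]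
    · rw [card_image_of_injective _ (add_left_injective _), card_sdiff_of_subset hP]
      omega
  · -- omit one of `a + 1` elements
    obtain ⟨W, hW, hWc⟩ := exists_subset_card_eq (s := R) (n := a + 1) (by omega)
    refine ⟨W.image (fun x => ∑ y ∈ W, y - x), ?_, ?_⟩
    · intro y hy
      obtain ⟨x, hx, rfl⟩ := mem_image.1 hy
      refine ⟨W.erase x, (erase_subset _ _).trans hW, ?_, ?_⟩
      · rw [card_erase_of_mem hx]
        omega
      · have := sum_erase_add W (fun y => y) hx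
        rw [← this]
        abel
    · rw [card_image_of_injective _ sub_right_injective]
      omega

/-- the pigeonhole in a coset -/
theorem exists_add {G : Type*} [AddCommGroup G] [Finite G] [DecidableEq G] {H : AddSubgroup G}
    {S T : Finset G} {x y w : G} (hS : ∀ a ∈ S, a - x ∈ H) (hT : ∀ a ∈ T, a - y ∈ H)
    (hw : w - x - y ∈ H) (hcard : Nat.card H < #S + #T) : ∃ s ∈ S, ∃ t ∈ T, s + t = w := by
  by_contra hcon
  push Not at hcon
  have h1 : Disjoint S (T.image (fun t => w - t)) := by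
    rw [disjoint_left]
    intro s hs hs'
    obtain ⟨t, ht, h⟩ := mem_image.1 hs'
    refine hcon s hs t ht ?_
    rw [← h]
    abel
  have h2 : #(S ∪ T.image (fun t => w - t)) ≤ Nat.card H := by
    refine card_le_of_coset H x fun a ha => ?_
    rcases mem_union.1 ha with h | h
    · exact hS a h
    · obtain ⟨t, ht, rfl⟩ := mem_image.1 h
      have := H.sub_mem hw (hT t ht)
      convert this using 1
      abel
  rw [card_union_of_disjoint h1, card_image_of_injective _ sub_right_injective] at h2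
  omega

/-- change the omitted elements inside two rows -/
theorem flex_core {G : Type*} [AddCommGroup G] [Finite G] [DecidableEq G] {H : AddSubgroup G}
    {e q₀ : G} {A : Finset G} {z : G → ℤ} {n c : ℕ} (hA : #A = n + c) (hnq : n • q₀ = 0)
    (hlift : ∀ x ∈ A, x - q₀ - z x • e ∈ H) {i f : ℤ} (hif : i ≠ f) {D : Finset G} (hD : D ⊆ A)
    (hc : #D = c) {S T : Finset G} (hS : ∀ y ∈ S, Hit (row A z i) #(row D z i) y)
    (hT : ∀ y ∈ T, Hit (row A z f) #(row D z f) y) (hcard : Nat.card H < #S + #T) :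
    Flex H e A n (∑ x ∈ A, z x - ∑ x ∈ D, z x) := by
  intro g hg
  set a := #(row D z i) with ha
  set b := #(row D z f) with hb
  set R := D.filter (fun x => z x ≠ i ∧ z x ≠ f) with hR
  have hrow : ∀ (B : Finset G) (j : ℤ) (x : G), x ∈ row B z j → x ∈ B ∧ z x = j :=
    fun B j x hx => mem_filter.1 hx
  -- decomposition of `D`
  have hd1 : Disjoint R (row D z i) := disjoint_left.2 fun x h h' =>
    (mem_filter.1 h).2.1 (hrow _ _ _ h').2
  have hd2 : Disjoint (R ∪ row D z i) (row D z f) := by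
    rw [disjoint_left]
    intro x h h'
    rcases mem_union.1 h with h | h
    · exact (mem_filter.1 h).2.2 (hrow _ _ _ h').2
    · exact hif ((hrow _ _ _ h).2.symm.trans (hrow _ _ _ h').2)
  have hDeq : D = R ∪ row D z i ∪ row D z f := by
    ext x
    rw [mem_union, mem_union, hR, row, row, mem_filter, mem_filter, mem_filter]
    tauto
  have hDc : #R + a + b = c := by
    rw [← hc]
    conv_rhs => rw [hDeq]
    rw [card_union_of_disjoint hd2, card_union_of_disjoint hd1]
  have hDz : ∑ x ∈ D, z x = ∑ x ∈ R, z x + a * i + b * f := by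
    conv_lhs => rw [hDeq]
    rw [sum_union hd2, sum_union hd1, sum_congr rfl fun x hx => (hrow D i x hx).2,
      sum_congr rfl fun x hx => (hrow D f x hx).2, sum_const, sum_const, nsmul_eq_mul,
      nsmul_eq_mul]
  -- the cosets
  have hRA : R ⊆ A := (filter_subset _ _).trans hD
  have h1 := sum_S z hlift A (Subset.refl A)
  have h2 := sum_S z hlift R hRA
  have hcos : ∀ (j : ℤ) (k : ℕ) (y : G), Hit (row A z j) k y → y - k • (q₀ + j • e) ∈ H := by
    rintro j k y ⟨T, hT, hTc, hTs⟩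
    rw [← hTs, ← hTc]
    refine sum_mem_coset fun x hx => ?_
    have h3 := hrow _ _ _ (hT hx)
    have h4 := hlift x h3.1
    rw [h3.2] at h4
    convert h4 using 1
    abel
  have hw : (∑ x ∈ A, x - ∑ x ∈ R, x - g) - a • (q₀ + i • e) - b • (q₀ + f • e) ∈ H := by
    have h3 := H.sub_mem (H.sub_mem h1 h2) hg
    rw [hA] at h3
    convert h3 using 1
    rw [hDz, ← hDc]
    simp only [smul_add, sub_smul, add_smul, hnq, mul_smul, natCast_zsmul]
    abel
  obtain ⟨s, hs, t, ht, hst⟩ := exists_add (fun y hy => hcos i a y (hS y hy))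
    (fun y hy => hcos f b y (hT y hy)) hw hcard
  obtain ⟨X, hX, hXc, hXs⟩ := hS s hs
  obtain ⟨Y, hY, hYc, hYs⟩ := hT t ht
  have hd3 : Disjoint R X := disjoint_left.2 fun x h h' =>
    (mem_filter.1 h).2.1 (hrow _ _ _ (hX h')).2
  have hd4 : Disjoint (R ∪ X) Y := by
    rw [disjoint_left]
    intro x h h'
    rcases mem_union.1 h with h | h
    · exact (mem_filter.1 h).2.2 (hrow _ _ _ (hY h')).2
    · exact hif ((hrow _ _ _ (hX h)).2.symm.trans (hrow _ _ _ (hY h')).2)
  have hsub : R ∪ X ∪ Y ⊆ A := union_subset (union_subset hRA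
    (hX.trans (filter_subset _ _))) (hY.trans (filter_subset _ _))
  have hcU : #(R ∪ X ∪ Y) = c := by
    rw [card_union_of_disjoint hd4, card_union_of_disjoint hd3, hXc, hYc]
    exact hDc
  refine ⟨A \ (R ∪ X ∪ Y), sdiff_subset, ?_, ?_⟩
  · rw [card_sdiff_of_subset hsub, hcU, hA]
    omega
  · have h5 := sum_sdiff (f := fun x : G => x) hsub
    rw [sum_union hd4, sum_union hd3, hXs, hYs, add_assoc, hst] at h5
    rw [eq_sub_of_add_eq h5]
    abel

theorem flex_two {G : Type*} [AddCommGroup G] [Finite G] [DecidableEq G] {H : AddSubgroup G}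
    {e q₀ : G} {A : Finset G} {z : G → ℤ} {n c : ℕ} (hA : #A = n + c) (hnq : n • q₀ = 0)
    (hlift : ∀ x ∈ A, x - q₀ - z x • e ∈ H) {i f : ℤ} (hif : i ≠ f) {D : Finset G} (hD : D ⊆ A)
    (hc : #D = c) (hi : 1 ≤ #(row D z i)) (hi' : #(row D z i) < #(row A z i))
    (hf : 1 ≤ #(row D z f)) (hf' : #(row D z f) < #(row A z f))
    (hsum : Nat.card H < (max #(row D z i) (#(row A z i) - #(row D z i)) + 1) +
      (max #(row D z f) (#(row A z f) - #(row D z f)) + 1)) :
    Flex H e A n (∑ x ∈ A, z x - ∑ x ∈ D, z x) := by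
  obtain ⟨S, hS, hSc⟩ := exists_sums (row A z i) hi hi'
  obtain ⟨T, hT, hTc⟩ := exists_sums (row A z f) hf hf'
  exact flex_core hA hnq hlift hif hD hc hS hT (by omega)

theorem flex_full {G : Type*} [AddCommGroup G] [Finite G] [DecidableEq G] {H : AddSubgroup G}
    {e q₀ : G} {A : Finset G} {z : G → ℤ} {n c : ℕ} (hA : #A = n + c) (hnq : n • q₀ = 0)
    (hlift : ∀ x ∈ A, x - q₀ - z x • e ∈ H) {f : ℤ} {D : Finset G} (hD : D ⊆ A)
    (hc : #D = c) (hf : #(row D z f) = 1) (hfull : #(row A z f) = Nat.card H) :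
    Flex H e A n (∑ x ∈ A, z x - ∑ x ∈ D, z x) := by
  refine flex_core hA hnq hlift (i := f + 1) (f := f) (by omega) hD hc
    (S := {∑ x ∈ row D z (f + 1), x}) (T := row A z f) ?_ ?_ ?_
  · intro y hy
    rw [mem_singleton] at hy
    exact ⟨row D z (f + 1), filter_subset_filter _ hD, rfl, hy.symm⟩
  · intro y hy
    rw [hf]
    exact ⟨{y}, singleton_subset_iff.2 hy, card_singleton y, sum_singleton _ _⟩
  · rw [card_singleton, hfull]
    omega

theorem hit_of_flex_mul {G : Type*} [AddCommGroup G] {H : AddSubgroup G} {e : G} {A : Finset G}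
    {n o : ℕ} (hoe : o • e ∈ H) {a : ℤ} (h : Flex H e A n (a * o)) : Hit A n 0 := by
  refine h 0 ?_
  rw [zero_sub, mul_smul, natCast_zsmul]
  exact H.neg_mem (H.zsmul_mem hoe a)

theorem hit_of_flex {G : Type*} [AddCommGroup G] {H : AddSubgroup G} {e : G} {A : Finset G}
    {n o : ℕ} (ho : 0 < o) (hoe : o • e ∈ H) {Y₁ Y₂ : ℤ} (hlen : Y₁ + o ≤ Y₂ + 1)
    (h : ∀ Y, Y₁ ≤ Y → Y ≤ Y₂ → Flex H e A n Y) : Hit A n 0 := by
  have ho' : (0 : ℤ) < o := by exact_mod_cast ho
  have h1 := Int.emod_add_mul_ediv Y₂ o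
  have h2 := Int.emod_nonneg Y₂ ho'.ne'
  have h3 := Int.emod_lt_of_pos Y₂ ho'
  refine hit_of_flex_mul hoe (a := Y₂ / o) (h _ ?_ ?_)
  · rw [mul_comm]
    linarith
  · rw [mul_comm]
    linarith

end Pool.Agent.Lib.MPa7239a.RK
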