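import Mathlib

/-!
# The embedding of `ZMod m × ZMod n` in `ZMod n × ZMod n` (Theorem R, module EMB)
-/

namespace Pool.Agent.Lib.MPa7239a.RK

theorem exists_emb {m n : ℕ} [NeZero m] [NeZero n] (h : m ∣ n) :
    ∃ ι : ZMod m × ZMod n →+ ZMod n × ZMod n, Function.Injective ι := by
  obtain ⟨k, rfl⟩ := h
  have hk : k ≠ 0 := by
    rintro rfl
    exact NeZero.ne (m * 0) (mul_zero m)
  have hm : m ≠ 0 := NeZero.ne m
  let f : ℤ →+ ZMod (m * k) := (Int.castAddHom (ZMod (m * k))).comp (AddMonoidHom.mulLeft (k : ℤ))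
  have hf : ∀ a : ℤ, f a = ((k * a : ℤ) : ZMod (m * k)) := fun a => rfl
  have hf0 : f m = 0 := by
    rw [hf, ZMod.intCast_zmod_eq_zero_iff_dvd]
    exact ⟨1, by push_cast; ring⟩
  let φ : ZMod m →+ ZMod (m * k) := ZMod.lift m ⟨f, hf0⟩
  have hφ : Function.Injective φ := by
    refine (ZMod.lift_injective m (f := ⟨f, hf0⟩)).2 ?_
    intro a ha
    change f a = 0 at ha
    rw [hf, ZMod.intCast_zmod_eq_zero_iff_dvd] at ha
    rw [ZMod.intCast_zmod_eq_zero_iff_dvd]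
    push_cast at ha
    rw [mul_comm (m : ℤ) (k : ℤ)] at ha
    exact Int.dvd_of_mul_dvd_mul_left (by exact_mod_cast hk) ha
  refine ⟨AddMonoidHom.prodMap φ (AddMonoidHom.id _), ?_⟩
  intro a b hab
  have h1 := congrArg Prod.fst hab
  have h2 := congrArg Prod.snd hab
  exact Prod.ext (hφ h1) h2

end Pool.Agent.Lib.MPa7239a.RK
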