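import Pool.Agent.Lib.MP_a7239a_co.GC.MainB
import Pool.Agent.Lib.MP_a7239a_co.RK.EMB
import Pool.Agent.Lib.MP_a7239a_co.RK.Defs

/-!
# Transfer from `ZMod m × ZMod n` to `ZMod n × ZMod n`
-/

open Finset

namespace Pool.Agent.Lib.MPa7239a.RK

open Pool.Agent.Lib.MPa7239a.GC

/-- transfer along an injective homomorphism -/
theorem hit_of_image {G₁ G₂ : Type*} [AddCommGroup G₁] [AddCommGroup G₂] [DecidableEq G₂]
    (ι : G₁ →+ G₂) (hι : Function.Injective ι) {A : Finset G₁} {n : ℕ}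
    (h : Hit (A.image ι) n 0) : Hit A n 0 := by
  obtain ⟨T', hT', hc, hs⟩ := h
  obtain ⟨T, hT, rfl⟩ := subset_image_iff.1 hT'
  rw [card_image_of_injective _ hι] at hc
  rw [sum_image fun x _ y _ h => hι h, ← map_sum, map_eq_zero_iff ι hι] at hs
  exact ⟨T, hT, hc, hs⟩

/-- the cyclic quotient -/
theorem exists_quot {G₁ G₂ : Type*} [AddCommGroup G₁] [AddCommGroup G₂] [Finite G₂]
    (ι : G₁ →+ G₂) {H : AddSubgroup G₂} {e : G₂} (hH : H ≤ ι.range) (he : e ∈ ι.range)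
    (hcard : Nat.card H * addOrderOf (e : G₂ ⧸ H) = Nat.card ι.range) :
    ∃ φ : G₁ →+ ZMod (addOrderOf (e : G₂ ⧸ H)), Function.Surjective φ ∧
      ∀ x, φ x = 0 ↔ ι x ∈ H := by
  have hle : H ⊔ AddSubgroup.zmultiples e ≤ ι.range := by
    rw [sup_le_iff, AddSubgroup.zmultiples_le]
    exact ⟨hH, he⟩
  have heq : H ⊔ AddSubgroup.zmultiples e = ι.range := by
    apply AddSubgroup.eq_of_le_of_card_ge hle
    have h1 := index_eq H e
    have h2 := AddSubgroup.card_mul_index H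
    have h3 := AddSubgroup.card_mul_index (H ⊔ AddSubgroup.zmultiples e)
    rw [h1] at h2
    have h4 : 0 < (H ⊔ AddSubgroup.zmultiples e).index :=
      Nat.pos_of_ne_zero AddSubgroup.index_ne_zero_of_finite
    have h5 : Nat.card H * addOrderOf (e : G₂ ⧸ H) * (H ⊔ AddSubgroup.zmultiples e).index =
        Nat.card (H ⊔ AddSubgroup.zmultiples e : AddSubgroup G₂) *
          (H ⊔ AddSubgroup.zmultiples e).index := by
      rw [h3, ← h2]
      ring
    have h6 := Nat.eq_of_mul_eq_mul_right h4 h5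
    rw [← hcard, h6]
  have hmem : ∀ x : G₁, ((ι x : G₂) : G₂ ⧸ H) ∈ AddSubgroup.zmultiples (e : G₂ ⧸ H) := by
    intro x
    have h1 : ι x ∈ H ⊔ AddSubgroup.zmultiples e := by
      rw [heq]
      exact ⟨x, rfl⟩
    rw [comap_zmultiples] at h1
    exact h1
  let f : G₁ →+ AddSubgroup.zmultiples (e : G₂ ⧸ H) :=
    ((QuotientAddGroup.mk' H).comp ι).codRestrict _ hmem
  have hf : ∀ x, ((f x : AddSubgroup.zmultiples (e : G₂ ⧸ H)) : G₂ ⧸ H) =
      ((ι x : G₂) : G₂ ⧸ H) := fun x => rfl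
  have hcyc : IsAddCyclic (AddSubgroup.zmultiples (e : G₂ ⧸ H)) := inferInstance
  let g := (zmodAddCyclicAddEquiv hcyc).symm
  have hcardz : Nat.card (AddSubgroup.zmultiples (e : G₂ ⧸ H)) = addOrderOf (e : G₂ ⧸ H) :=
    Nat.card_zmultiples _
  rw [← hcardz]
  refine ⟨g.toAddMonoidHom.comp f, ?_, ?_⟩
  · refine g.surjective.comp ?_
    rintro ⟨y, hy⟩
    obtain ⟨a, rfl⟩ := AddSubgroup.mem_zmultiples_iff.1 hy
    obtain ⟨x, hx⟩ := he
    refine ⟨a • x, ?_⟩
    apply Subtype.ext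
    rw [hf, map_zsmul, hx]
    rfl
  · intro x
    change g (f x) = 0 ↔ _
    rw [EmbeddingLike.map_eq_zero_iff, ← QuotientAddGroup.eq_zero_iff, ← hf]
    constructor
    · intro h
      rw [h]
      rfl
    · intro h
      exact Subtype.ext h

/-- the image -/
theorem exists_image {m n : ℕ} (hm : m ≠ 0) (hn : n ≠ 0) (hmn : m ∣ n) :
    ∃ ι : ZMod m × ZMod n →+ ZMod n × ZMod n, Function.Injective ι ∧
      Nat.card ι.range = m * n := by
  have : NeZero m := ⟨hm⟩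
  have : NeZero n := ⟨hn⟩
  obtain ⟨ι, hι⟩ := exists_emb hmn
  refine ⟨ι, hι, ?_⟩
  rw [← Nat.card_congr (AddMonoidHom.ofInjective hι).toEquiv, Nat.card_prod, Nat.card_zmod,
    Nat.card_zmod]

end Pool.Agent.Lib.MPa7239a.RK
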