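import Pool.Agent.Lib.MP_a7239a_co.RK.MAIN
import Pool.Agent.Lib.MP_a7239a_co.RK.TRANS

/-!
# Theorem R: the upper bounds in `ZMod m × ZMod (t * m)`
-/

open Finset

namespace Pool.Agent.Lib.MPa7239a.RK

open Pool.Agent.Lib.MPa7239a.GC

theorem upper_exact' {m t n : ℕ} (hm : 10000000 ≤ Nat.log 2 m) (ht : 2 ≤ t)
    (htm : t ≤ Nat.log 2 m) (hn : n = t * m) (hgood : ∀ s, s ∣ t * m → 3 ≤ s → s < t → s ∣ t)
    {A : Finset (ZMod m × ZMod n)}
    (hA : (¬ (Odd t ∧ Even m) ∧ #A = (t + 1) * m) ∨ #A = (t + 1) * m + 1) :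
    Hit A n 0 := by
  classical
  have hm0 : m ≠ 0 := by
    rintro rfl
    rw [Nat.log_zero_right] at hm
    omega
  have hn0 : n ≠ 0 := by
    rw [hn]
    exact Nat.mul_ne_zero (by omega) hm0
  obtain ⟨ι, hι, hcard⟩ := exists_image hm0 hn0 (hn ▸ Dvd.intro_left t rfl)
  apply hit_of_image ι hι
  have h1 : (t + 1) * m = n + m := by
    rw [hn]
    ring
  rw [h1] at hA
  have h2 : ∀ x ∈ A.image ι, x ∈ ι.range := by
    intro x hx
    obtain ⟨y, _, rfl⟩ := mem_image.1 hx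
    exact ⟨y, rfl⟩
  have h3 : #(A.image ι) = #A := card_image_of_injective _ hι
  rcases hA with ⟨h4, h5⟩ | h5
  · exact ambient_exact hm ht htm hn hgood ι.range hcard h2 (h3.trans h5) (Or.inl ⟨h4, rfl⟩)
  · exact ambient_exact hm ht htm hn hgood ι.range hcard h2 (c := m + 1) (by omega) (Or.inr rfl)

/-- the upper bound, exact form -/
theorem upper_exact {m t : ℕ} (hm : 10000000 ≤ Nat.log 2 m) (ht : 2 ≤ t)
    (htm : t ≤ Nat.log 2 m) (hgood : ∀ s, s ∣ t * m → 3 ≤ s → s < t → s ∣ t)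
    {A : Finset (ZMod m × ZMod (t * m))}
    (hA : (¬ (Odd t ∧ Even m) ∧ #A = (t + 1) * m) ∨ #A = (t + 1) * m + 1) :
    Hit A (t * m) 0 :=
  upper_exact' hm ht htm rfl hgood hA

theorem upper_cyc' {m t n N : ℕ} (hm : 10000000 ≤ Nat.log 2 m) (ht : 2 ≤ t)
    (htm : t ≤ Nat.log 2 m) (hn : n = t * m)
    (hN : ∀ A : Finset (ZMod m × ZMod n), CycFree A n → #A ≤ N) (hN1 : (t + 1) * m ≤ N + 2)
    (hN2 : Odd t → (t + 1) * m ≤ N + 1)
    {A : Finset (ZMod m × ZMod n)} (hA : #A = N + 2) : Hit A n 0 := by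
  classical
  have hm0 : m ≠ 0 := by
    rintro rfl
    rw [Nat.log_zero_right] at hm
    omega
  have hn0 : n ≠ 0 := by
    rw [hn]
    exact Nat.mul_ne_zero (by omega) hm0
  have : NeZero n := ⟨hn0⟩
  obtain ⟨ι, hι, hcard⟩ := exists_image hm0 hn0 (hn ▸ Dvd.intro_left t rfl)
  apply hit_of_image ι hι
  have h1 : (t + 1) * m = n + m := by
    rw [hn]
    ring
  rw [h1] at hN1 hN2
  obtain ⟨c, hc⟩ : ∃ c, N + 2 = n + c := ⟨N + 2 - n, by omega⟩
  have h2 : ∀ x ∈ A.image ι, x ∈ ι.range := by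
    intro x hx
    obtain ⟨y, _, rfl⟩ := mem_image.1 hx
    exact ⟨y, rfl⟩
  have h3 : #(A.image ι) = #A := card_image_of_injective _ hι
  refine ambient_cyc hm ht htm hn ι.range hcard h2 (by omega) (c := c) (by omega)
    (fun h => by have := hN2 h; omega) ?_
  intro H e hH he hcardH ho x hx
  obtain ⟨y, hy, rfl⟩ := mem_image.1 hx
  obtain ⟨φ, hφ, hφ0⟩ := exists_quot ι hH he (hcardH.trans hcard.symm)
  have h4 : ¬ CycFree (A.erase y) n := by
    intro h5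
    have h6 := hN _ h5
    rw [card_erase_of_mem hy] at h6
    omega
  have h5 : ∃ T ⊆ A.erase y, #T = n ∧ φ (∑ x ∈ T, x) = 0 := by
    by_contra hcon
    push Not at hcon
    exact h4 ⟨_, φ, ho, hφ, hcon⟩
  obtain ⟨T, hT, hTc, hTs⟩ := h5
  refine ⟨T.image ι, ?_, ?_, ?_⟩
  · rw [← image_erase hι]
    exact image_subset_image hT
  · rw [card_image_of_injective _ hι, hTc]
  · rw [sum_image fun x _ y _ h => hι h, ← map_sum]
    exact (hφ0 _).1 hTs

end Pool.Agent.Lib.MPa7239a.RK
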