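import Pool.Agent.Lib.MP_a7239a_co.RK.Defs
import Pool.Agent.Lib.MP_a7239a_co.GC.MainA

/-!
# Counting the rows
-/

open Finset

namespace Pool.Agent.Lib.MPa7239a.RK

open Pool.Agent.Lib.MPa7239a.GC

variable {G : Type*}

theorem mem_row {A : Finset G} {z : G → ℤ} {i : ℤ} {x : G} : x ∈ row A z i ↔ x ∈ A ∧ z x = i := by
  rw [row, mem_filter]

theorem mem_low {A : Finset G} {z : G → ℤ} {i : ℤ} {x : G} : x ∈ low A z i ↔ x ∈ A ∧ z x < i := by
  rw [low, mem_filter]

theorem mem_high {A : Finset G} {z : G → ℤ} {i : ℤ} {x : G} :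
    x ∈ high A z i ↔ x ∈ A ∧ i < z x := by
  rw [high, mem_filter]

theorem mem_out {A : Finset G} {z : G → ℤ} {p q : ℤ} {d : ℕ} {x : G} :
    x ∈ out A z p q d ↔ x ∈ A ∧ (z x ≤ p - d ∨ q + d ≤ z x) := by
  rw [out, mem_filter]

/-- the elements outside `[p, q]` -/
theorem card_out (A : Finset G) (z : G → ℤ) {p q : ℤ} (hpq : p ≤ q + 1) :
    #(out A z p q 1) = #(low A z p) + #(high A z q) := by
  classical
  rw [← card_union_of_disjoint]
  · congr 1
    ext x
    rw [mem_out, mem_union, mem_low, mem_high]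
    constructor
    · rintro ⟨h1, h2 | h2⟩
      · exact Or.inl ⟨h1, by push_cast at h2; omega⟩
      · exact Or.inr ⟨h1, by push_cast at h2; omega⟩
    · rintro (h | h)
      · exact ⟨h.1, Or.inl (by push_cast; omega)⟩
      · exact ⟨h.1, Or.inr (by push_cast; omega)⟩
  · rw [Finset.disjoint_left]
    intro x h1 h2
    rw [mem_low] at h1
    rw [mem_high] at h2
    omega

/-- the decomposition of `A` -/
theorem card_rows (A : Finset G) (z : G → ℤ) {p q : ℤ} (hpq : p ≤ q + 1) :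
    #A = #(low A z p) + ∑ i ∈ Icc p q, #(row A z i) + #(high A z q) := by
  classical
  have h1 : ∑ i ∈ Icc p q, #(row A z i) = #(A.filter (fun x => p ≤ z x ∧ z x ≤ q)) := by
    rw [card_eq_sum_card_fiberwise (f := z) (t := Icc p q)]
    · refine sum_congr rfl fun i hi => ?_
      congr 1
      ext x
      rw [mem_row, mem_filter, mem_filter]
      rw [mem_Icc] at hi
      constructor
      · rintro ⟨h2, h3⟩
        exact ⟨⟨h2, by omega⟩, h3⟩
      · rintro ⟨h2, h3⟩
        exact ⟨h2.1, h3⟩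
    · intro x hx
      have hx' := (mem_filter.1 (mem_coe.1 hx)).2
      exact mem_coe.2 (mem_Icc.2 hx')
  rw [h1, low, high]
  have h2 := card_filter_add_card_filter_not (s := A) (fun x => z x < p)
  have h3 := card_filter_add_card_filter_not (s := A.filter (fun x => ¬ z x < p)) (fun x => q < z x)
  have h4 : (A.filter (fun x => ¬ z x < p)).filter (fun x => q < z x) =
      A.filter (fun x => q < z x) := by
    ext x
    simp only [mem_filter]
    constructor
    · rintro ⟨⟨h5, _⟩, h6⟩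
      exact ⟨h5, h6⟩
    · rintro ⟨h5, h6⟩
      exact ⟨⟨h5, by omega⟩, h6⟩
  have h5 : (A.filter (fun x => ¬ z x < p)).filter (fun x => ¬ q < z x) =
      A.filter (fun x => p ≤ z x ∧ z x ≤ q) := by
    ext x
    simp only [mem_filter]
    constructor
    · rintro ⟨⟨h5, h6⟩, h7⟩
      exact ⟨h5, by omega, by omega⟩
    · rintro ⟨h5, h6, h7⟩
      exact ⟨⟨h5, by omega⟩, by omega⟩
  rw [h4, h5] at h3
  omega

variable [AddCommGroup G]

/-- the size of a row -/
theorem card_row_le [Finite G] {H : AddSubgroup G} {e q₀ : G} {A : Finset G} {z : G → ℤ}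
    (hlift : ∀ x ∈ A, x - q₀ - z x • e ∈ H) (i : ℤ) : #(row A z i) ≤ Nat.card H := by
  refine card_le_of_coset H (q₀ + i • e) ?_
  intro x hx
  rw [mem_row] at hx
  have h1 := hlift x hx.1
  rw [hx.2] at h1
  have h2 : x - (q₀ + i • e) = x - q₀ - i • e := by abel
  rw [h2]
  exact h1

/-- the other rows have at most `|H|` elements each: one row -/
theorem row_ge [Finite G] {H : AddSubgroup G} {e q₀ : G} {A : Finset G} {z : G → ℤ}
    (hlift : ∀ x ∈ A, x - q₀ - z x • e ∈ H) {b : ℕ} {i : ℤ} (hi0 : 0 ≤ i) (hib : i ≤ b) :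
    #A ≤ #(row A z i) + #(low A z 0) + #(high A z b) + b * Nat.card H := by
  classical
  have h1 := card_rows A z (p := 0) (q := b) (by omega)
  have hmem : i ∈ Icc (0 : ℤ) b := mem_Icc.2 ⟨hi0, hib⟩
  rw [← add_sum_erase _ _ hmem] at h1
  have h2 : ∑ j ∈ (Icc (0 : ℤ) b).erase i, #(row A z j) ≤ b * Nat.card H := by
    refine (sum_le_card_nsmul _ _ (Nat.card H) fun j _ => card_row_le hlift j).trans ?_
    rw [card_erase_of_mem hmem, Int.card_Icc, smul_eq_mul]
    refine Nat.mul_le_mul_right _ ?_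
    omega
  omega

/-- two rows -/
theorem rows_ge [Finite G] {H : AddSubgroup G} {e q₀ : G} {A : Finset G} {z : G → ℤ}
    (hlift : ∀ x ∈ A, x - q₀ - z x • e ∈ H) {b : ℕ} {i j : ℤ} (hi0 : 0 ≤ i) (hib : i ≤ b)
    (hj0 : 0 ≤ j) (hjb : j ≤ b) (hij : i ≠ j) :
    #A ≤ #(row A z i) + #(row A z j) + #(low A z 0) + #(high A z b) + (b - 1) * Nat.card H := by
  classical
  have h1 := card_rows A z (p := 0) (q := b) (by omega)
  have hmem : i ∈ Icc (0 : ℤ) b := mem_Icc.2 ⟨hi0, hib⟩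
  have hmem' : j ∈ (Icc (0 : ℤ) b).erase i := mem_erase.2 ⟨hij.symm, mem_Icc.2 ⟨hj0, hjb⟩⟩
  rw [← add_sum_erase _ _ hmem, ← add_sum_erase _ _ hmem'] at h1
  have h2 : ∑ k ∈ ((Icc (0 : ℤ) b).erase i).erase j, #(row A z k) ≤ (b - 1) * Nat.card H := by
    refine (sum_le_card_nsmul _ _ (Nat.card H) fun j _ => card_row_le hlift j).trans ?_
    rw [card_erase_of_mem hmem', card_erase_of_mem hmem, Int.card_Icc, smul_eq_mul]
    refine Nat.mul_le_mul_right _ ?_
    omega
  omega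

/-! ### Bounds for the sum over an omitted set -/

/-- `∑ D ≥ ∑ low` -/
theorem sum_ge_low {G : Type*} {A D : Finset G} {z : G → ℤ} (hD : D ⊆ A) :
    ∑ x ∈ low A z 0, z x ≤ ∑ x ∈ D, z x := by
  classical
  have h1 : ∑ x ∈ low A z 0, z x ≤ ∑ x ∈ low D z 0, z x := by
    have hsub : low D z 0 ⊆ low A z 0 := filter_subset_filter _ hD
    rw [← sum_sdiff hsub]
    have h2 : ∑ x ∈ low A z 0 \ low D z 0, z x ≤ 0 :=
      sum_nonpos fun x hx => (mem_low.1 (mem_sdiff.1 hx).1).2.le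
    omega
  refine h1.trans ?_
  have hsub : low D z 0 ⊆ D := filter_subset _ _
  rw [← sum_sdiff hsub]
  have h2 : 0 ≤ ∑ x ∈ D \ low D z 0, z x := by
    refine sum_nonneg fun x hx => ?_
    rw [mem_sdiff, mem_low, not_and, not_lt] at hx
    exact hx.2 hx.1
  omega

/-- `∑ D ≥ ∑ low + z x` for `x ∈ D` with `0 ≤ z x` -/
theorem sum_ge_low_of_mem {G : Type*} {A D : Finset G} {z : G → ℤ} (hD : D ⊆ A) {x : G}
    (hx : x ∈ D) (hzx : 0 ≤ z x) : ∑ y ∈ low A z 0, z y + z x ≤ ∑ y ∈ D, z y := by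
  classical
  have h1 : low A z 0 = low (A.erase x) z 0 := by
    ext y
    rw [mem_low, mem_low, mem_erase]
    constructor
    · rintro ⟨h2, h3⟩
      refine ⟨⟨?_, h2⟩, h3⟩
      rintro rfl
      omega
    · rintro ⟨⟨_, h2⟩, h3⟩
      exact ⟨h2, h3⟩
  have h2 := sum_ge_low (z := z) (erase_subset_erase x hD)
  rw [← h1] at h2
  have h3 := add_sum_erase D z hx
  omega

/-- `∑ D ≤ ∑ high + b (#D - #high)` -/
theorem sum_le_high {G : Type*} {A D : Finset G} {z : G → ℤ} (hD : D ⊆ A) {b : ℤ}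
    {c : ℕ} (hc : #D = c) (hle : #(high A z b) ≤ c) :
    ∑ x ∈ D, z x ≤ ∑ x ∈ high A z b, z x + b * (c - #(high A z b) : ℕ) := by
  classical
  have h1 : ∑ x ∈ D, (z x - b) ≤ ∑ x ∈ high D z b, (z x - b) := by
    have hsub : high D z b ⊆ D := filter_subset _ _
    rw [← sum_sdiff hsub]
    have h2 : ∑ x ∈ D \ high D z b, (z x - b) ≤ 0 := by
      refine sum_nonpos fun x hx => ?_
      rw [mem_sdiff, mem_high, not_and, not_lt] at hx
      have := hx.2 hx.1
      omega
    omega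
  have h2 : ∑ x ∈ high D z b, (z x - b) ≤ ∑ x ∈ high A z b, (z x - b) := by
    have hsub : high D z b ⊆ high A z b := filter_subset_filter _ hD
    rw [← sum_sdiff hsub]
    have h3 : 0 ≤ ∑ x ∈ high A z b \ high D z b, (z x - b) := by
      refine sum_nonneg fun x hx => ?_
      have := (mem_high.1 (mem_sdiff.1 hx).1).2
      omega
    omega
  have h3 := h1.trans h2
  rw [sum_sub_distrib, sum_sub_distrib, sum_const, sum_const, hc, nsmul_eq_mul, nsmul_eq_mul] at h3
  push_cast [Nat.cast_sub hle]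
  linarith

end Pool.Agent.Lib.MPa7239a.RK
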