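import Pool.Agent.Lib.MP_a7239a_co.RS.Defs

/-!
# The ambient structure from the structure of Theorem R* (Theorem R, module AMJ2)

`amb_of_amj`: for `j = 1` and a small loss the subgroup `H` has order `m * s` with `s ≤ t`.
-/

set_option autoImplicit false

open Finset

namespace Pool.Agent.Lib.MPa7239a.RK

open Pool.Agent.Lib.MPa7239a.GC

/-- the elements of `S` which are not in the rows `u, ..., v` are paid by the window -/
theorem card_out_le_win {G : Type*} [AddCommGroup G] (S : Finset G) (z : G → ℤ) {u v : ℤ} :
    (#(S.filter (fun x => v < z x)) : ℤ) + #(S.filter (fun x => z x < u)) ≤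
      ∑ x ∈ S.filter (fun x => v < z x), (z x - v) + ∑ x ∈ S.filter (fun x => z x < u), (u - z x) := by
  apply add_le_add
  · rw [card_eq_sum_ones, Nat.cast_sum]
    apply sum_le_sum
    intro x hx
    rw [mem_filter] at hx
    push_cast
    omega
  · rw [card_eq_sum_ones, Nat.cast_sum]
    apply sum_le_sum
    intro x hx
    rw [mem_filter] at hx
    push_cast
    omega

/-- MODULE AMJ2 -/
theorem amb_of_amj {G : Type*} [AddCommGroup G] {Γ H : AddSubgroup G} {e q : G} {A S : Finset G}
    {z : G → ℤ} {m n t c o loss k t' Z : ℕ} {u v : ℤ}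
    (h : RS.Amj Γ Γ H e q A S z m n c 1 o c loss k t' Z u v) (hn : n = t * m) (ht : 2 ≤ t)
    (hmc : m ≤ c) (hnq : n • q = 0) (hloss : 100 * (t + 1) * (loss + 1) ≤ m) :
    ∃ s, Amb H e q A S z m t n c s o loss k t' u v := by
  classical
  have hm0 : 0 < m := by
    have : 0 < 100 * (t + 1) * (loss + 1) := by positivity
    omega
  have hn0 : 0 < n := by
    rw [hn]
    positivity
  obtain ⟨s, hs⟩ := h.on
  have ho0 : 0 < o := by
    rcases Nat.eq_zero_or_pos o with h0 | h0
    · rw [h0, zero_mul] at hs
      omega
    · exact h0
  have hs0 : 0 < s := by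
    rcases Nat.eq_zero_or_pos s with h0 | h0
    · rw [h0, mul_zero] at hs
      omega
    · exact h0
  have hcardH : Nat.card H = m * s := by
    have h1 := h.cardH
    have h2 := h.cardK
    rw [mul_one] at h2
    rw [h2, hs] at h1
    have h3 : Nat.card H * o = (m * s) * o := by
      rw [h1]
      ring
    exact Nat.eq_of_mul_eq_mul_right ho0 h3
  have hS : n + c ≤ #S + loss := h.hloss
  have hcS := h.cardS
  have hkn := h.kn
  have ht' : c ≤ t' + loss := by omega
  have hst : s ≤ t := by
    by_contra hlt
    push Not at hlt
    -- `o` is smaller than `m`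
    have h1 : o * (t + 1) ≤ t * m := by
      rw [← hn, hs]
      exact Nat.mul_le_mul_left _ hlt
    have h2 : o + 100 * (loss + 1) ≤ m := by
      by_contra h3
      push Not at h3
      have h4 : (m + 1) * (t + 1) ≤ (o + 100 * (loss + 1)) * (t + 1) := Nat.mul_le_mul_right _ h3
      have h5 : (o + 100 * (loss + 1)) * (t + 1) = o * (t + 1) + 100 * (t + 1) * (loss + 1) := by ring
      have h6 : (m + 1) * (t + 1) = t * m + m + (t + 1) := by ring
      omega
    have hw := h.win
    have hout := card_out_le_win S z (u := u) (v := v)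
    rcases lt_or_eq_of_le h.uv with huv | huv
    · have h3 : (t' : ℤ) * 1 ≤ (t' : ℤ) * (v - u) :=
        mul_le_mul_of_nonneg_left (by omega) (Int.natCast_nonneg _)
      have h4 : (0 : ℤ) ≤ (#(S.filter (fun x => v < z x)) : ℤ) + #(S.filter (fun x => z x < u)) := by
        positivity
      have h5 : (t' : ℤ) + 2 ≤ o := by linarith
      have h6 : t' + 2 ≤ o := by exact_mod_cast h5
      omega
    · -- one row
      subst huv
      have h3 : (#(S.filter (fun x => u < z x)) : ℤ) + #(S.filter (fun x => z x < u)) + 2 ≤ o := by
        rw [sub_self, mul_zero] at hw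
        linarith
      have h4 : #(S.filter (fun x => u < z x)) + #(S.filter (fun x => z x < u)) + 2 ≤ o := by
        exact_mod_cast h3
      have h5 : #S ≤ #(S.filter (fun x => u < z x)) + #(S.filter (fun x => z x < u)) +
          #(S.filter (fun x => z x = u)) := by
        have h6 : S ⊆ (S.filter (fun x => u < z x) ∪ S.filter (fun x => z x < u)) ∪
            S.filter (fun x => z x = u) := by
          intro x hx
          simp only [mem_union, mem_filter]
          rcases lt_trichotomy u (z x) with h7 | h7 | h7
          · exact Or.inl (Or.inl ⟨hx, h7⟩)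
          · exact Or.inr ⟨hx, h7.symm⟩
          · exact Or.inl (Or.inr ⟨hx, h7⟩)
        refine (card_le_card h6).trans ((card_union_le _ _).trans ?_)
        exact Nat.add_le_add_right (card_union_le _ _) _
      have h8 := h.row (q + u • e) (S.filter (fun x => z x = u)) ((filter_subset _ _).trans h.sub) (by
        intro x hx
        rw [mem_filter] at hx
        have h9 := h.lift x hx.1
        rw [hx.2] at h9
        have h10 : x - (q + u • e) = x - q - u • e := by abel
        rw [h10]
        exact h9)
      omega
  refine ⟨s,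
    { nt := hn, card := h.card, sub := h.sub, hloss := ?_, nq := hnq, lift := h.lift, gen := ?_,
      cardH := hcardH, os := hs.symm, s1 := hs0, st := hst, order := h.order, cardS := hcS,
      kn := hkn, nk := h.nk, uv := h.uv, hu := h.hu, hv := h.hv, win := h.win }⟩
  · rw [h.card]
    exact hS
  · intro x hx
    exact h.gen _ (Γ.sub_mem (h.inΓ x hx) (h.inΓ q (h.sub h.qS)))

end Pool.Agent.Lib.MPa7239a.RK
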