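import Pool.Agent.Lib.MP_a7239a_co.RS.Defs

/-!
# The parameters for the exact theorem: the loss is about `m ^ (3/4)`
-/

open Finset

namespace Pool.Agent.Lib.MPa7239a.RK

open Pool.Agent.Lib.MPa7239a.GC

namespace PAR2M

theorem exists_fourth (m : ℕ) : ∃ a : ℕ, a ^ 4 ≤ m ∧ m < (a + 1) ^ 4 := by
  refine ⟨Nat.sqrt (Nat.sqrt m), ?_, ?_⟩
  · have h1 := Nat.sqrt_le' (Nat.sqrt m)
    have h2 := Nat.sqrt_le' m
    calc Nat.sqrt (Nat.sqrt m) ^ 4 = (Nat.sqrt (Nat.sqrt m) ^ 2) ^ 2 := by ring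
      _ ≤ Nat.sqrt m ^ 2 := Nat.pow_le_pow_left h1 2
      _ ≤ m := h2
  · have h1 : Nat.sqrt m + 1 ≤ (Nat.sqrt (Nat.sqrt m) + 1) ^ 2 := Nat.lt_succ_sqrt' (Nat.sqrt m)
    have h2 : m < (Nat.sqrt m + 1) ^ 2 := Nat.lt_succ_sqrt' m
    calc m < (Nat.sqrt m + 1) ^ 2 := h2
      _ ≤ ((Nat.sqrt (Nat.sqrt m) + 1) ^ 2) ^ 2 := Nat.pow_le_pow_left h1 2
      _ = (Nat.sqrt (Nat.sqrt m) + 1) ^ 4 := by ring

/-- the numbers; `x = ℓ ^ 3` -/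
theorem numbers {m a x t : ℕ} (h1 : a ^ 4 ≤ m) (h2 : m < (a + 1) ^ 4) (hx : 1 ≤ x)
    (ha : 10 ^ 10 * (t + 1) ^ 4 * x ≤ a) :
    3 * m ≤ (3 * m / (5 * a ^ 3) + 1) * (5 * a ^ 3) ∧
      6 * a ^ 2 * (3 * m / (5 * a ^ 3) + 1) < 5 * a ^ 3 ∧ 26 * m ≤ (6 * a ^ 2) ^ 2 ∧
      28 * (3 * m / (5 * a ^ 3) + 1) ^ 2 ≤ 5 * a ^ 3 ∧
      2592 * 400000 * (5 * a ^ 3) * x ≤ m := by
  have ht1 : 1 ≤ (t + 1) ^ 4 := Nat.one_le_pow _ _ (by omega)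
  have ha' : 10 ^ 10 * x ≤ a := by
    calc 10 ^ 10 * x = 10 ^ 10 * 1 * x := by ring
      _ ≤ 10 ^ 10 * (t + 1) ^ 4 * x := Nat.mul_le_mul_right _ (Nat.mul_le_mul_left _ ht1)
      _ ≤ a := ha
  have ha10 : 10 ^ 10 ≤ a := by omega
  have hm4 : m ≤ 2 * a ^ 4 := by
    have h3 : 10 * (a + 1) ≤ 11 * a := by omega
    have h4 : (10 * (a + 1)) ^ 4 ≤ (11 * a) ^ 4 := Nat.pow_le_pow_left h3 4
    have h5 : (10 * (a + 1)) ^ 4 = 10000 * (a + 1) ^ 4 := by ring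
    have h6 : (11 * a) ^ 4 = 14641 * a ^ 4 := by ring
    omega
  have hm5 : 26 * m ≤ 36 * a ^ 4 := by
    have h3 : 100 * (a + 1) ≤ 101 * a := by omega
    have h4 : (100 * (a + 1)) ^ 4 ≤ (101 * a) ^ 4 := Nat.pow_le_pow_left h3 4
    have h5 : (100 * (a + 1)) ^ 4 = 100000000 * (a + 1) ^ 4 := by ring
    have h6 : (101 * a) ^ 4 = 104060401 * a ^ 4 := by ring
    omega
  have ha3 : 0 < a ^ 3 := Nat.pow_pos (by omega)
  have ha34 : a ^ 4 = a * a ^ 3 := by ring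
  have ha23 : a ^ 3 = a * a ^ 2 := by ring
  set Λ := 3 * m / (5 * a ^ 3) + 1 with hΛ
  have hΛa : 10 * Λ ≤ 7 * a := by
    -- `3 m / (5 a ^ 3) ≤ 3 * 1.05 a / 5`
    have h3 : 3 * m / (5 * a ^ 3) ≤ 66 * a / 100 := by
      rw [Nat.le_div_iff_mul_le (by norm_num)]
      have h4 := Nat.div_mul_le_self (3 * m) (5 * a ^ 3)
      set y := 3 * m / (5 * a ^ 3)
      have h5 : 100 * (a + 1) ≤ 101 * a := by omega
      have h6 : (100 * (a + 1)) ^ 4 ≤ (101 * a) ^ 4 := Nat.pow_le_pow_left h5 4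
      have h7 : (100 * (a + 1)) ^ 4 = 100000000 * (a + 1) ^ 4 := by ring
      have h8 : (101 * a) ^ 4 = 104060401 * a ^ 4 := by ring
      have h9 : 100 * m ≤ 105 * a ^ 4 := by omega
      have h10 : (y * 100) * (5 * a ^ 3) ≤ (66 * a) * (5 * a ^ 3) := by
        calc (y * 100) * (5 * a ^ 3) = 100 * (y * (5 * a ^ 3)) := by ring
          _ ≤ 100 * (3 * m) := Nat.mul_le_mul_left _ h4
          _ = 3 * (100 * m) := by ring
          _ ≤ 3 * (105 * a ^ 4) := Nat.mul_le_mul_left _ h9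
          _ ≤ 330 * a ^ 4 := by omega
          _ = (66 * a) * (5 * a ^ 3) := by ring
      exact Nat.le_of_mul_le_mul_right h10 (by omega)
    omega
  refine ⟨?_, ?_, ?_, ?_, ?_⟩
  · have h3 := Nat.div_add_mod (3 * m) (5 * a ^ 3)
    have h4 := Nat.mod_lt (3 * m) (show 0 < 5 * a ^ 3 by omega)
    have h5 : (3 * m / (5 * a ^ 3) + 1) * (5 * a ^ 3) =
        5 * a ^ 3 * (3 * m / (5 * a ^ 3)) + 5 * a ^ 3 := by ring
    rw [hΛ, h5]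
    omega
  · have h3 : a ^ 2 * (10 * Λ) ≤ a ^ 2 * (7 * a) := Nat.mul_le_mul_left _ hΛa
    have h4 : a ^ 2 * (10 * Λ) = 10 * (a ^ 2 * Λ) := by ring
    have h5 : a ^ 2 * (7 * a) = 7 * a ^ 3 := by ring
    have h6 : 6 * a ^ 2 * Λ = 6 * (a ^ 2 * Λ) := by ring
    omega
  · have h3 : (6 * a ^ 2) ^ 2 = 36 * a ^ 4 := by ring
    rw [h3]
    exact hm5
  · have h3 : Λ ≤ a := by omega
    have h4 : Λ ^ 2 ≤ a ^ 2 := Nat.pow_le_pow_left h3 2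
    have h5 : 28 * a ^ 2 ≤ a * a ^ 2 := Nat.mul_le_mul_right _ (by omega)
    omega
  · have h3 : 10 ^ 10 * x * a ^ 3 ≤ a * a ^ 3 := Nat.mul_le_mul_right _ ha'
    have h4 : 2592 * 400000 * (5 * a ^ 3) * x = 5184000000 * (x * a ^ 3) := by ring
    have h5 : 10 ^ 10 * x * a ^ 3 = 10 ^ 10 * (x * a ^ 3) := by ring
    omega

/-- the last inequality -/
theorem final {m a x t loss E L : ℕ} (h1 : a ^ 4 ≤ m) (hx : 1 ≤ x) (ht : 2 ≤ t)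
    (ha : 10 ^ 10 * (t + 1) ^ 4 * x ≤ a) (hl : loss = 2592 * (5 * a ^ 3) * x)
    (hE : E = (t + 3) * (loss + 1)) (hL : L = (t + 2) * (E + 10)) :
    100 * (t + 1) * (t + 1) * (L + 2 * E + 600 * x + 10) ≤ m := by
  have ha1 : 1 ≤ a := by
    have : 1 ≤ 10 ^ 10 * (t + 1) ^ 4 * x := by
      have h2 : 1 ≤ (t + 1) ^ 4 := Nat.one_le_pow _ _ (by omega)
      calc 1 = 1 * 1 * 1 := by norm_num
        _ ≤ 10 ^ 10 * (t + 1) ^ 4 * x := Nat.mul_le_mul (Nat.mul_le_mul (by norm_num) h2) hx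
    omega
  have ha3 : 1 ≤ a ^ 3 := Nat.one_le_pow _ _ ha1
  set y := x * a ^ 3 with hy
  have hy1 : x ≤ y := Nat.le_mul_of_pos_right x (by omega)
  have hl' : loss = 12960 * y := by
    rw [hl, hy]
    ring
  have hE' : E ≤ 2 * (t + 1) * (12961 * y) := by
    rw [hE]
    refine Nat.mul_le_mul (by omega) (by omega)
  have hL' : L + 2 * E + 600 * x + 10 ≤ 2 * (t + 1) * (E + 10 + 600 * y) := by
    have h2 : 2 * (t + 1) * (E + 10 + 600 * y) = (t + 2) * (E + 10) + t * (E + 10) +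
        2 * (t + 1) * (600 * y) := by ring
    have h3 : 2 * (E + 10) ≤ t * (E + 10) := Nat.mul_le_mul_right _ ht
    have h4 : 1 * (600 * y) ≤ 2 * (t + 1) * (600 * y) := Nat.mul_le_mul_right _ (by omega)
    rw [h2, hL]
    omega
  have h5 : E + 10 + 600 * y ≤ 2 * (t + 1) * (13600 * y) := by
    have h6 : 1 * (610 * y) ≤ 2 * (t + 1) * (610 * y) := Nat.mul_le_mul_right _ (by omega)
    have h7 : 2 * (t + 1) * (13600 * y) = 2 * (t + 1) * (12961 * y) + 2 * (t + 1) * (610 * y) +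
      2 * (t + 1) * (29 * y) := by ring
    omega
  calc 100 * (t + 1) * (t + 1) * (L + 2 * E + 600 * x + 10)
      ≤ 100 * (t + 1) * (t + 1) * (2 * (t + 1) * (2 * (t + 1) * (13600 * y))) :=
        Nat.mul_le_mul_left _ (hL'.trans (Nat.mul_le_mul_left _ h5))
    _ = (5440000 * (t + 1) ^ 4 * x) * a ^ 3 := by
        rw [hy]
        ring
    _ ≤ a * a ^ 3 := by
        refine Nat.mul_le_mul_right _ (le_trans ?_ ha)
        exact Nat.mul_le_mul_right _ (Nat.mul_le_mul_right _ (by norm_num))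
    _ = a ^ 4 := by ring
    _ ≤ m := h1

end PAR2M

open PAR2M in
/-- the parameters for `m ≥ 10 ^ 40 (t + 1) ^ 16 (log n) ^ 12` -/
theorem exists_par2 {m t n : ℕ} (hn : n = t * m) (ht : 2 ≤ t)
    (hm : 10 ^ 40 * (t + 1) ^ 16 * (Nat.log 2 n + 1) ^ 12 ≤ m) :
    ∃ ℓ M Λ k E L loss : ℕ, RS.Par m n ℓ M Λ k ∧ loss = 2592 * M * ℓ ^ 3 ∧
      E = (t + 3) * (loss + 1) ∧ L = (t + 2) * (E + 10) ∧
      100 * (t + 1) * (t + 1) * (L + 2 * E + 600 * ℓ ^ 3 + 10) ≤ m := by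
  obtain ⟨a, ha1, ha2⟩ := exists_fourth m
  set ℓ := Nat.log 2 n + 1 with hℓ
  have hℓ1 : 1 ≤ ℓ := by omega
  have hx : 1 ≤ ℓ ^ 3 := Nat.one_le_pow _ _ hℓ1
  have ha : 10 ^ 10 * (t + 1) ^ 4 * ℓ ^ 3 ≤ a := by
    by_contra hlt
    push Not at hlt
    have h1 : (a + 1) ^ 4 ≤ (10 ^ 10 * (t + 1) ^ 4 * ℓ ^ 3) ^ 4 := Nat.pow_le_pow_left hlt 4
    have h2 : (10 ^ 10 * (t + 1) ^ 4 * ℓ ^ 3) ^ 4 = 10 ^ 40 * (t + 1) ^ 16 * ℓ ^ 12 := by ring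
    omega
  obtain ⟨n1, n2, n3, n4, n5⟩ := numbers ha1 ha2 hx ha
  have hmn : m ≤ n := by
    rw [hn]
    exact Nat.le_mul_of_pos_left m (by omega)
  have ha16 : 16 ≤ a := by
    have h2 : 1 ≤ (t + 1) ^ 4 := Nat.one_le_pow _ _ (by omega)
    have h3 : 10 ^ 10 * 1 * 1 ≤ 10 ^ 10 * (t + 1) ^ 4 * ℓ ^ 3 :=
      Nat.mul_le_mul (Nat.mul_le_mul_left _ h2) hx
    omega
  have ha3 : 1 ≤ a ^ 3 := Nat.one_le_pow _ _ (by omega)
  have ha2' : 1 ≤ a ^ 2 := Nat.one_le_pow _ _ (by omega)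
  have hn16 : 16 ≤ n := by
    have h1 : a ≤ a ^ 4 := Nat.le_self_pow (by norm_num) a
    omega
  have hℓ5 : 5 ≤ ℓ := by
    have h1 : 4 ≤ Nat.log 2 n := by
      refine Nat.le_log_of_pow_le (by norm_num) ?_
      norm_num
      exact hn16
    omega
  have hnℓ : n < 2 ^ ℓ := by
    rw [hℓ]
    exact Nat.lt_pow_succ_log_self (by norm_num) n
  have hk : 6 * a ^ 2 - 1 + 1 = 6 * a ^ 2 := by omega
  refine ⟨ℓ, 5 * a ^ 3, 3 * m / (5 * a ^ 3) + 1, 6 * a ^ 2 - 1, _, _, _,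
    ⟨hnℓ, ?_, by omega, hmn, n1, ?_, ?_, n4, n5⟩, rfl, rfl, rfl, ?_⟩
  · have hpow : ∀ x : ℕ, 5 ≤ x → 3 * x + 1 ≤ 2 ^ x := by
      intro x hx
      induction x, hx using Nat.le_induction with
      | base => norm_num
      | succ x hx ih =>
        have h9 : 2 ^ (x + 1) = 2 * 2 ^ x := by ring
        omega
    have h9 : n ^ 2 < (2 ^ ℓ) ^ 2 := Nat.pow_lt_pow_left hnℓ (by norm_num)
    have h10 : 2 ^ (3 * ℓ) = 2 ^ ℓ * (2 ^ ℓ) ^ 2 := by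
      rw [← pow_mul, ← pow_add]
      congr 1
      ring
    rw [h10]
    calc (3 * ℓ + 1) * n ^ 2 ≤ 2 ^ ℓ * n ^ 2 := Nat.mul_le_mul_right _ (hpow ℓ hℓ5)
      _ < 2 ^ ℓ * (2 ^ ℓ) ^ 2 := Nat.mul_lt_mul_of_pos_left h9 (by positivity)
  · rw [hk]
    exact n2
  · rw [hk]
    exact n3
  · exact final ha1 hx ht ha rfl rfl rfl

end Pool.Agent.Lib.MPa7239a.RK
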