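import Pool.Agent.Lib.MP_a7239a_co.RK.Defs

/-!
# Sets with given numbers of elements in two rows (Theorem R, module PROF)
-/

open Finset

namespace Pool.Agent.Lib.MPa7239a.RK

open Pool.Agent.Lib.MPa7239a.GC

/-- a given set, `α` elements of row `i` and `β` elements of row `f` -/
theorem exists_prof {G : Type*} [DecidableEq G] (A : Finset G) (z : G → ℤ) {L : Finset G}
    (hL : L ⊆ A) {c α β : ℕ} {i f : ℤ} (hif : i ≠ f) (hLi : ∀ x ∈ L, z x ≠ i)
    (hLf : ∀ x ∈ L, z x ≠ f) (hc : #L + α + β = c)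
    (hα : α ≤ #(row A z i)) (hβ : β ≤ #(row A z f)) :
    ∃ D ⊆ A, #D = c ∧ #(row D z i) = α ∧ #(row D z f) = β ∧
      ∑ x ∈ D, z x = ∑ x ∈ L, z x + α * i + β * f := by
  obtain ⟨X, hX, hXc⟩ := exists_subset_card_eq hα
  obtain ⟨Y, hY, hYc⟩ := exists_subset_card_eq hβ
  have hX' : ∀ x ∈ X, x ∈ A ∧ z x = i := fun x hx => mem_filter.1 (hX hx)
  have hY' : ∀ x ∈ Y, x ∈ A ∧ z x = f := fun x hx => mem_filter.1 (hY hx)
  have h1 : Disjoint L X := disjoint_left.2 fun x h h' => hLi x h (hX' x h').2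
  have h2 : Disjoint (L ∪ X) Y := by
    rw [disjoint_left]
    intro x h h'
    rcases mem_union.1 h with h | h
    · exact hLf x h (hY' x h').2
    · exact hif ((hX' x h).2.symm.trans (hY' x h').2)
  refine ⟨L ∪ X ∪ Y, ?_, ?_, ?_, ?_, ?_⟩
  · exact union_subset (union_subset hL fun x hx => (hX' x hx).1) fun x hx => (hY' x hx).1
  · rw [card_union_of_disjoint h2, card_union_of_disjoint h1, hXc, hYc]
    exact hc
  · rw [← hXc]
    congr 1
    ext x
    rw [row, mem_filter, mem_union, mem_union]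
    constructor
    · rintro ⟨(h | h) | h, h'⟩
      · exact absurd h' (hLi x h)
      · exact h
      · exact absurd (h'.symm.trans (hY' x h).2) hif
    · exact fun h => ⟨Or.inl (Or.inr h), (hX' x h).2⟩
  · rw [← hYc]
    congr 1
    ext x
    rw [row, mem_filter, mem_union, mem_union]
    constructor
    · rintro ⟨(h | h) | h, h'⟩
      · exact absurd h' (hLf x h)
      · exact absurd ((hX' x h).2.symm.trans h') hif
      · exact h
    · exact fun h => ⟨Or.inr h, (hY' x h).2⟩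
  · rw [sum_union h2, sum_union h1, sum_congr rfl fun x hx => (hX' x hx).2,
      sum_congr rfl fun x hx => (hY' x hx).2, sum_const, sum_const, hXc, hYc, nsmul_eq_mul,
      nsmul_eq_mul]

theorem exists_low {G : Type*} [DecidableEq G] (A : Finset G) (z : G → ℤ) {c α β : ℕ}
    {i f u : ℤ} (hif : i ≠ f) (hui : u ≤ i) (huf : u ≤ f) (hc : #(low A z u) + α + β = c)
    (hα : α ≤ #(row A z i)) (hβ : β ≤ #(row A z f)) :
    ∃ D ⊆ A, #D = c ∧ #(row D z i) = α ∧ #(row D z f) = β ∧
      ∑ x ∈ D, z x = ∑ x ∈ low A z u, z x + α * i + β * f := by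
  have h : ∀ x ∈ low A z u, z x < u := fun x hx => (mem_filter.1 hx).2
  exact exists_prof A z (filter_subset _ _) hif (fun x hx => ne_of_lt ((h x hx).trans_le hui))
    (fun x hx => ne_of_lt ((h x hx).trans_le huf)) hc hα hβ

theorem exists_high {G : Type*} [DecidableEq G] (A : Finset G) (z : G → ℤ) {c α β : ℕ}
    {i f u : ℤ} (hif : i ≠ f) (hui : i ≤ u) (huf : f ≤ u) (hc : #(high A z u) + α + β = c)
    (hα : α ≤ #(row A z i)) (hβ : β ≤ #(row A z f)) :
    ∃ D ⊆ A, #D = c ∧ #(row D z i) = α ∧ #(row D z f) = β ∧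
      ∑ x ∈ D, z x = ∑ x ∈ high A z u, z x + α * i + β * f := by
  have h : ∀ x ∈ high A z u, u < z x := fun x hx => (mem_filter.1 hx).2
  exact exists_prof A z (filter_subset _ _) hif (fun x hx => ne_of_gt (hui.trans_lt (h x hx)))
    (fun x hx => ne_of_gt (huf.trans_lt (h x hx))) hc hα hβ

end Pool.Agent.Lib.MPa7239a.RK
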