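import Pool.Agent.Lib.MP_a7239a_co.RK.ENDPa
import Pool.Agent.Lib.MP_a7239a_co.RK.FLX
import Pool.Agent.Lib.MP_a7239a_co.RK.TWO
import Pool.Agent.Lib.MP_a7239a_co.RK.PROF

/-!
# Theorem R, end game for `s ≥ 2`, `s ∣ t`, all but a few elements in the rows `0, ..., b`

`Z`, `SL`, `SH`: the sum of `z` over `A`, over the elements below `0`, above `b`. The flexible
intervals of two fat rows cover an interval of length `o`.
-/

open Finset

namespace Pool.Agent.Lib.MPa7239a.RK

open Pool.Agent.Lib.MPa7239a.GC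

/-- the numbers of the case -/
structure NumP {G : Type*} [AddCommGroup G] (H : AddSubgroup G) (A : Finset G)
    (z : G → ℤ) (m n c s o b E θ a a' : ℕ) : Prop where
  ha : #(low A z 0) = a
  ha' : #(high A z b) = a'
  few : a + a' ≤ E
  s2 : 2 ≤ s
  b1 : 1 ≤ b
  mc : m ≤ c
  cm : c ≤ m + E
  mbig : 200 * (E + θ + 10) ≤ m
  cardH : Nat.card H = m * s
  le : ∀ i : ℤ, #(row A z i) ≤ m * s
  one : ∀ i : ℤ, 0 ≤ i → i ≤ b → c ≤ a + a' + #(row A z i)
  two : ∀ i j : ℤ, i ≠ j → 0 ≤ i → i ≤ b → 0 ≤ j → j ≤ b →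
    m * s + c ≤ a + a' + (#(row A z i) + #(row A z j))

theorem numP {G : Type*} [AddCommGroup G] [Finite G] [DecidableEq G] {H : AddSubgroup G}
    {e q₀ : G} {A : Finset G} {z : G → ℤ} {m n c s o b E θ : ℕ}
    (h : StrP H e q₀ A z m n c s o b E) (hs : 2 ≤ s)
    (hm : 100 * (b + 1) * (E + θ + 10) ≤ m) :
    NumP H A z m n c s o b E θ #(low A z 0) #(high A z b) := by
  have hle : ∀ i : ℤ, #(row A z i) ≤ m * s := fun i => by
    rw [← h.cardH]; exact card_row_le_of_lift h.lift i
  have hb := h.hb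
  have hn := h.hn
  have hcard := h.card
  refine ⟨rfl, rfl, ?_, hs, hb, h.mc, h.cm, ?_, h.cardH, hle, ?_, ?_⟩
  · rw [← card_out_eq A z (b := (b : ℤ)) (by positivity)]; exact h.few
  · calc 200 * (E + θ + 10) = 100 * 2 * (E + θ + 10) := by ring
      _ ≤ 100 * (b + 1) * (E + θ + 10) := by
        apply Nat.mul_le_mul_right; omega
      _ ≤ m := hm
  · intro i h0 hi
    have h1 := rows_bound A z (b := b) hle {i} (by simpa using ⟨h0, hi⟩)
    rw [sum_singleton, card_singleton, Nat.add_sub_cancel, hcard, hn] at h1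
    omega
  · intro i j hij h0 hi h0' hj
    have h1 := rows_bound A z (b := b) hle {i, j} (by
      intro x hx
      rcases Finset.mem_insert.1 hx with rfl | hx
      · simpa using ⟨h0, hi⟩
      · rw [Finset.mem_singleton.1 hx]; simpa using ⟨h0', hj⟩)
    rw [sum_pair hij, card_pair hij, hcard, hn] at h1
    have h2 : (b + 1 - 2) * (m * s) + m * s = b * (m * s) := by
      obtain ⟨b', rfl⟩ : ∃ b', b = b' + 1 := ⟨b - 1, by omega⟩
      have : b' + 1 + 1 - 2 = b' := by omega
      rw [this]; ring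
    omega

theorem out_mono {G : Type*} (A : Finset G) (z : G → ℤ) (p q : ℤ) {d : ℕ} (hd : 1 ≤ d) :
    #(out A z p q d) ≤ #(out A z p q 1) := by
  apply Finset.card_le_card
  intro x hx
  have := Finset.mem_filter.1 hx
  refine Finset.mem_filter.2 ⟨this.1, ?_⟩
  push_cast
  rcases this.2 with h | h
  · left; omega
  · right; omega

theorem readyP {G : Type*} [AddCommGroup G] [Finite G] [DecidableEq G] {H : AddSubgroup G}
    {e q₀ : G} {A : Finset G} {z : G → ℤ} {m n c s o b E θ a a' Q : ℕ}
    (h : StrP H e q₀ A z m n c s o b E) (hFF : FatFull H θ)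
    (N : NumP H A z m n c s o b E θ a a') (hQ : m = Q + E + 5) :
    Ready H e q₀ A z n c θ Q 0 b 0 b := by
  obtain ⟨ha, ha', few, s2, b1, mc, cm, mbig, cardH, le, one, two⟩ := N
  have hout : #(out A z 0 b 1) ≤ E := h.few
  have hn := h.hn
  have hmn : m ≤ n := by
    rw [hn]
    calc m = 1 * (m * 1) := by ring
      _ ≤ b * (m * s) := Nat.mul_le_mul b1 (Nat.mul_le_mul_left _ (by omega))
  have hb' : (1 : ℤ) ≤ b := by exact_mod_cast b1
  refine ⟨h.card, h.nq, h.lift, hFF, by omega, by omega, le_rfl, by omega, le_rfl, ?_, ?_, ?_, ?_⟩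
  · intro i h0 hi
    have := one i h0 hi
    omega
  · have := one 0 le_rfl (by omega)
    omega
  · have := one b (by omega) le_rfl
    omega
  · intro x hx d hd hxd
    have h1 := h.near x hx d hd (by simpa using hxd)
    rw [h.ho] at h1
    have h2 : #(out A z 0 b d) ≤ E := (out_mono A z 0 b hd).trans hout
    have h3 : b * (2 * (E + 5) + 10) ≤ b * m := Nat.mul_le_mul_left _ (by omega)
    have h4 : b * (#(out A z 0 b d) + 2) ≤ b * (E + 2) := Nat.mul_le_mul_left _ (by omega)
    have h5 : b * m ≤ b * c := Nat.mul_le_mul_left _ mc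
    have h6 : b * m = b * Q + b * E + b * 5 := by rw [hQ]; ring
    have h7 : b * (2 * (E + 5) + 10) = 2 * (b * E) + 20 * b := by ring
    have h8 : b * (E + 2) = b * E + 2 * b := by ring
    constructor
    · have : d ≤ b * Q := by omega
      have h9 : (d : ℤ) ≤ b * Q := by exact_mod_cast this
      linarith
    · have : d + b * (#(out A z 0 b d) + 2) ≤ b * c := by omega
      have h9 : (d : ℤ) + b * (#(out A z 0 b d) + 2) ≤ b * c := by exact_mod_cast this
      linarith

/-- the numbers and the flexible intervals -/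
theorem flxP {G : Type*} [AddCommGroup G] [Finite G] [DecidableEq G] {H : AddSubgroup G}
    {e q₀ : G} {A : Finset G} {z : G → ℤ} {m n c s o b E θ a a' Q : ℕ}
    (N : NumP H A z m n c s o b E θ a a') (hR : Ready H e q₀ A z n c θ Q 0 b 0 b)
    {f i j : ℤ} (h0f : 0 ≤ f) (hfb : f ≤ b) (hfat : m * s + θ ≤ 2 * #(row A z f))
    (h0i : 0 ≤ i) (hif : i ≠ f) (hjb : j ≤ b) (hjf : j ≠ f)
    {α α' β β' : ℕ} (hα : α ≤ #(row A z i)) (h2α : 2 ≤ α') (hα' : α' ≤ c)
    (hβ : β ≤ #(row A z j)) (h2β : 2 ≤ β') (hβ' : β' ≤ c)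
    (h₁ : a + α + α' = c) (h₂ : a' + β + β' = c)
    (hbig : m * s + θ + 4 * E + 20 ≤ 2 * #(row A z f)) (Y : ℤ)
    (hY₁ : ∑ x ∈ A, z x - (∑ x ∈ high A z b, z x + β * j + β' * f) ≤ Y)
    (hY₂ : Y ≤ ∑ x ∈ A, z x - (∑ x ∈ low A z 0, z x + α * i + α' * f)) : Flex H e A n Y := by
  obtain ⟨ha, ha', few, s2, b1, mc, cm, mbig, cardH, le, one, two⟩ := N
  have h3 : m * 2 ≤ m * s := Nat.mul_le_mul_left _ s2
  have h4 : c + 2 ≤ #(row A z f) := by omega
  exact flx_num hR h0f hfb (by rw [cardH]; exact hfat) hif h0i h0f (by rw [ha]; exact h₁) hα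
    h2α (by omega) hjf hjb hfb (by rw [ha']; exact h₂) hβ h2β (by omega) Y hY₁ hY₂

/-- rows `1, ..., b` big -/
theorem low_end {G : Type*} [AddCommGroup G] [Finite G] [DecidableEq G] {H : AddSubgroup G}
    {e q₀ : G} {A : Finset G} {z : G → ℤ} {m n c s o b E θ a a' Q : ℕ}
    (N : NumP H A z m n c s o b E θ a a') (hR : Ready H e q₀ A z n c θ Q 0 b 0 b)
    (hbig : ∀ f : ℤ, 1 ≤ f → f ≤ b → m * s + θ + 4 * E + 20 ≤ 2 * #(row A z f))
    {α α' k' : ℕ} (hα : α ≤ #(row A z 0)) (h2 : 2 ≤ α') (hE : α' ≤ E + 2)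
    (h₁ : a + α + α' = c) (h₂ : a' + k' = c) (Y : ℤ)
    (hY₁ : ∑ x ∈ A, z x - (∑ x ∈ high A z b, z x + b * k') ≤ Y)
    (hY₂ : Y ≤ ∑ x ∈ A, z x - (∑ x ∈ low A z 0, z x + α')) : Flex H e A n Y := by
  have N' := N
  obtain ⟨ha, ha', few, s2, b1, mc, cm, mbig, cardH, le, one, two⟩ := N'
  have hb' : (1 : ℤ) ≤ b := by exact_mod_cast b1
  have hSL := sum_low_le A z
  have hSH := le_sum_high A z b
  have hg1 := hbig 1 le_rfl hb'
  have hgb := hbig b hb' le_rfl
  have hSH0 : 0 ≤ ∑ x ∈ high A z b, z x := le_trans (by positivity) hSH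
  have hSL0 : ∑ x ∈ low A z 0, z x ≤ 0 := le_trans hSL (by simp)
  rcases Nat.eq_or_lt_of_le b1 with hb1 | hb2
  · subst hb1
    refine flxP N hR (f := 1) (i := 0) (j := 0) (α := α) (α' := α') (β := 0) (β' := k')
      (by omega) hb' (by omega) le_rfl (by omega) (by simp) (by omega) hα h2 (by omega)
      (by omega) (by omega) (by omega) h₁ (by omega) hg1 Y ?_ ?_
    · push_cast at hY₁ ⊢
      linarith
    · push_cast at hY₂ ⊢
      linarith
  · obtain ⟨k2, hk2⟩ : ∃ k2, k' = k2 + 2 := ⟨k' - 2, by omega⟩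
    have hb2' : (2 : ℤ) ≤ b := by exact_mod_cast hb2
    by_cases hY : Y ≤ ∑ x ∈ A, z x - (∑ x ∈ low A z 0, z x + α' * b)
    · refine flxP N hR (f := b) (i := 0) (j := 0) (α := α) (α' := α') (β := 0) (β' := k')
        (by omega) le_rfl (by omega) le_rfl (by omega) (by omega) (by omega) hα h2 (by omega)
        (by omega) (by omega) (by omega) h₁ (by omega) hgb Y ?_ ?_
      · push_cast
        linarith
      · push_cast
        linarith
    · push Not at hY
      have hR1 : k2 ≤ #(row A z b) := by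
        have h3 : m * 2 ≤ m * s := Nat.mul_le_mul_left _ s2
        omega
      refine flxP N hR (f := 1) (i := 0) (j := b) (α := α) (α' := α') (β := k2) (β' := 2)
        (by omega) hb' (by omega) le_rfl (by omega) le_rfl (by omega) hα h2 (by omega)
        hR1 (by omega) (by omega) h₁ (by omega) hg1 Y ?_ ?_
      · have h3 : (α' : ℤ) * b ≤ k2 * b := by
          exact_mod_cast Nat.mul_le_mul_right b (by omega : α' ≤ k2)
        push_cast
        linarith
      · push_cast
        linarith

/-- rows `0, ..., b - 1` big -/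
theorem high_end {G : Type*} [AddCommGroup G] [Finite G] [DecidableEq G] {H : AddSubgroup G}
    {e q₀ : G} {A : Finset G} {z : G → ℤ} {m n c s o b E θ a a' Q : ℕ}
    (N : NumP H A z m n c s o b E θ a a') (hR : Ready H e q₀ A z n c θ Q 0 b 0 b)
    (hbig : ∀ f : ℤ, 0 ≤ f → f < b → m * s + θ + 4 * E + 20 ≤ 2 * #(row A z f))
    {β β' k : ℕ} (hβ : β ≤ #(row A z b)) (h2 : 2 ≤ β') (hE : β' ≤ E + 2)
    (h₁ : a' + β + β' = c) (h₂ : a + k = c) (Y : ℤ)
    (hY₁ : ∑ x ∈ A, z x - (∑ x ∈ high A z b, z x + b * (β + β')) + β' ≤ Y)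
    (hY₂ : Y ≤ ∑ x ∈ A, z x - ∑ x ∈ low A z 0, z x) : Flex H e A n Y := by
  have N' := N
  obtain ⟨ha, ha', few, s2, b1, mc, cm, mbig, cardH, le, one, two⟩ := N'
  have hb' : (1 : ℤ) ≤ b := by exact_mod_cast b1
  have hSL := sum_low_le A z
  have hSH := le_sum_high A z b
  have hg0 := hbig 0 le_rfl (by omega)
  have hgb := hbig (b - 1) (by omega) (by omega)
  have hSH0 : 0 ≤ ∑ x ∈ high A z b, z x := le_trans (by positivity) hSH
  have hSL0 : ∑ x ∈ low A z 0, z x ≤ 0 := le_trans hSL (by simp)
  rcases Nat.eq_or_lt_of_le b1 with hb1 | hb2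
  · subst hb1
    refine flxP N hR (f := 0) (i := 1) (j := 1) (α := 0) (α' := k) (β := β) (β' := β')
      le_rfl (by omega) (by omega) (by omega) (by omega) (by simp) (by omega) (by omega)
      (by omega) (by omega) (by simpa using hβ) h2 (by omega) (by omega) h₁ hg0 Y ?_ ?_
    · push_cast at hY₁ ⊢
      linarith
    · push_cast at hY₂ ⊢
      linarith
  · obtain ⟨k2, hk2⟩ : ∃ k2, k = k2 + 2 := ⟨k - 2, by omega⟩
    have hb2' : (2 : ℤ) ≤ b := by exact_mod_cast hb2
    by_cases hY : ∑ x ∈ A, z x - (∑ x ∈ high A z b, z x + β * b) ≤ Y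
    · refine flxP N hR (f := 0) (i := b) (j := b) (α := 0) (α' := k) (β := β) (β' := β')
        le_rfl (by omega) (by omega) (by omega) (by omega) le_rfl (by omega) (by omega)
        (by omega) (by omega) hβ h2 (by omega) (by omega) h₁ hg0 Y ?_ ?_
      · push_cast
        linarith
      · push_cast
        linarith
    · push Not at hY
      have hR1 : k2 ≤ #(row A z 0) := by
        have h3 : m * 2 ≤ m * s := Nat.mul_le_mul_left _ s2
        omega
      refine flxP N hR (f := b - 1) (i := 0) (j := b) (α := k2) (α' := 2) (β := β) (β' := β')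
        (by omega) (by omega) (by omega) le_rfl (by omega) le_rfl (by omega) hR1 le_rfl
        (by omega) hβ h2 (by omega) (by omega) h₁ hgb Y ?_ ?_
      · push_cast at hY₁ ⊢
        linarith
      · have h3 : (2 : ℤ) * b ≤ β * b := by
          exact_mod_cast Nat.mul_le_mul_right b (by omega : 2 ≤ β)
        push_cast
        linarith

theorem nsmul_mem_of_order {G : Type*} [AddCommGroup G] {H : AddSubgroup G} {e : G} {o : ℕ}
    (h : addOrderOf (e : G ⧸ H) = o) : o • e ∈ H := by
  rw [← QuotientAddGroup.eq_zero_iff, QuotientAddGroup.mk_nsmul, ← h]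
  exact addOrderOf_nsmul_eq_zero _

/-- MODULE ENDP -/
theorem end_P {G : Type*} [AddCommGroup G] [Finite G] [DecidableEq G] {H : AddSubgroup G}
    {e q₀ : G} {A : Finset G} {z : G → ℤ} {m n c s o b E θ : ℕ}
    (h : StrP H e q₀ A z m n c s o b E) (hs : 2 ≤ s) (hFF : FatFull H θ)
    (hm : 100 * (b + 1) * (E + θ + 10) ≤ m) : Hit A n 0 := by
  have N := numP h hs hm
  set a := #(low A z 0) with ha0
  set a' := #(high A z b) with ha0'
  have N' := N
  obtain ⟨ha, ha', few, s2, b1, mc, cm, mbig, cardH, le, one, two⟩ := N'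
  obtain ⟨Q, hQ⟩ : ∃ Q, m = Q + E + 5 := ⟨m - E - 5, by omega⟩
  have hR := readyP h hFF N hQ
  have hoe := nsmul_mem_of_order h.order
  have ho := h.ho
  have hms : m * 2 ≤ m * s := Nat.mul_le_mul_left _ s2
  have hb' : (1 : ℤ) ≤ b := by exact_mod_cast b1
  have hSL := sum_low_le A z
  have hSH := le_sum_high A z b
  rw [← ha0] at hSL
  rw [← ha0'] at hSH
  obtain ⟨k, hk⟩ : ∃ k, a + k = c := ⟨c - a, by omega⟩
  obtain ⟨k', hk'⟩ : ∃ k', a' + k' = c := ⟨c - a', by omega⟩
  have ho0 : 0 < o := by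
    rw [ho]; exact Nat.mul_pos (by omega) (by omega)
  have hbc : (b : ℤ) * m ≤ b * c := by exact_mod_cast Nat.mul_le_mul_left b mc
  have hbk : (b : ℤ) * a' + b * k' = b * c := by
    have : (a' : ℤ) + k' = c := by exact_mod_cast hk'
    rw [← this]; ring
  have hoz : (o : ℤ) = b * m := by rw [ho]; push_cast; ring
  have hR0 := one 0 le_rfl (by omega)
  have hRb := one b (by omega) le_rfl
  have key : (b : ℤ) * c + a + a' ≤ ∑ x ∈ high A z b, z x + b * k' - ∑ x ∈ low A z 0, z x := by
    have : ((b : ℤ) + 1) * a' = b * a' + a' := by ring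
    linarith
  by_cases B0 : m * s + θ + 4 * E + 20 ≤ 2 * #(row A z 0)
  · by_cases Bb : m * s + θ + 4 * E + 20 ≤ 2 * #(row A z b)
    · -- both ends big
      refine hit_of_flex ho0 hoe (Y₁ := ∑ x ∈ A, z x - (∑ x ∈ high A z b, z x + b * k'))
        (Y₂ := ∑ x ∈ A, z x - ∑ x ∈ low A z 0, z x) (by linarith) ?_
      intro Y hY₁ hY₂
      obtain ⟨k2, hk2⟩ : ∃ k2, k = k2 + 2 := ⟨k - 2, by omega⟩
      obtain ⟨k2', hk2'⟩ : ∃ k2', k' = k2' + 2 := ⟨k' - 2, by omega⟩
      have hSH0 : 0 ≤ ∑ x ∈ high A z b, z x := le_trans (by positivity) hSH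
      have hSL0 : ∑ x ∈ low A z 0, z x ≤ 0 := le_trans hSL (by simp)
      by_cases hY : Y ≤ ∑ x ∈ A, z x - (∑ x ∈ low A z 0, z x + 2 * b)
      · refine flxP N hR (f := b) (i := 0) (j := 0) (α := k2) (α' := 2) (β := 0) (β' := k')
          (by omega) le_rfl (by omega) le_rfl (by omega) (by omega) (by omega) (by omega) le_rfl
          (by omega) (by omega) (by omega) (by omega) (by omega) (by omega) Bb Y ?_ ?_
        · push_cast
          linarith
        · push_cast
          linarith
      · push Not at hY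
        refine flxP N hR (f := 0) (i := b) (j := b) (α := 0) (α' := k) (β := k2') (β' := 2)
          le_rfl (by omega) (by omega) (by omega) (by omega) le_rfl (by omega) (by omega)
          (by omega) (by omega) (by omega) le_rfl (by omega) (by omega) (by omega) B0 Y ?_ ?_
        · have h3 : (2 : ℤ) * b ≤ k2' * b := by
            exact_mod_cast Nat.mul_le_mul_right b (by omega : 2 ≤ k2')
          push_cast
          linarith
        · push_cast
          linarith
    · -- row `b` not big
      have hbig : ∀ f : ℤ, 0 ≤ f → f < b → m * s + θ + 4 * E + 20 ≤ 2 * #(row A z f) := by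
        intro f h0 hf
        have := two f b (by omega) h0 hf.le (by omega) le_rfl
        omega
      by_cases hg : #(row A z b) < k'
      · -- `a ≥ k' - R_b`
        obtain ⟨r, hr⟩ : ∃ r, #(row A z b) = r + 1 := ⟨#(row A z b) - 1, by omega⟩
        obtain ⟨β', hβ'⟩ : ∃ β', k' = r + β' := ⟨k' - r, by omega⟩
        refine hit_of_flex ho0 hoe
          (Y₁ := ∑ x ∈ A, z x - (∑ x ∈ high A z b, z x + b * (r + β')) + β')
          (Y₂ := ∑ x ∈ A, z x - ∑ x ∈ low A z 0, z x) ?_ ?_
        · have h1 : (b : ℤ) * k' = b * (r + β') := by rw [hβ']; push_cast; ring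
          have h2 : (β' : ℤ) ≤ a + 1 := by exact_mod_cast (by omega : β' ≤ a + 1)
          linarith
        · intro Y hY₁ hY₂
          exact high_end N hR hbig (β := r) (β' := β') (k := k) (by omega) (by omega) (by omega)
            (by omega) hk Y hY₁ hY₂
      · obtain ⟨k2', hk2'⟩ : ∃ k2', k' = k2' + 2 := ⟨k' - 2, by omega⟩
        have hfl : ∀ Y : ℤ, ∑ x ∈ A, z x - (∑ x ∈ high A z b, z x + b * (k2' + 2)) + 2 ≤ Y →
            Y ≤ ∑ x ∈ A, z x - ∑ x ∈ low A z 0, z x → Flex H e A n Y := by
          intro Y hY₁ hY₂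
          exact high_end N hR hbig (β := k2') (β' := 2) (k := k) (by omega) le_rfl (by omega)
            (by omega) hk Y (by push_cast at hY₁ ⊢; exact hY₁) hY₂
        have h1 : (b : ℤ) * k' = b * (k2' + 2) := by rw [hk2']; push_cast; ring
        by_cases hc : m < c ∨ 1 ≤ a + a'
        · refine hit_of_flex ho0 hoe ?_ hfl
          rcases hc with hc | hc
          · have h2 : (b : ℤ) * m + b ≤ b * c := by
              have : b * (m + 1) ≤ b * c := Nat.mul_le_mul_left b hc
              have h3 : ((b * (m + 1) : ℕ) : ℤ) ≤ ((b * c : ℕ) : ℤ) := by exact_mod_cast this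
              push_cast at h3
              linarith
            have h4 : (0 : ℤ) ≤ a := by positivity
            have h5 : (0 : ℤ) ≤ a' := by positivity
            linarith
          · have h2 : (1 : ℤ) ≤ a + a' := by exact_mod_cast hc
            linarith
        · have hcm : c = m := by omega
          have haz : a = 0 := by omega
          have haz' : a' = 0 := by omega
          have hL0 : low A z 0 = ∅ := by rw [← card_eq_zero, ← ha0]; exact haz
          have hH0 : high A z b = ∅ := by rw [← card_eq_zero, ← ha0']; exact haz'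
          have hb1' : k2' + 1 ≤ #(row A z b) := by omega
          obtain ⟨D, hD, hDc, hDb, hDb', hsum⟩ := exists_high A z (c := c) (α := k2' + 1)
            (β := 1) (i := b) (f := b - 1) (u := b) (by omega) le_rfl (by omega) (by
              rw [hH0, card_empty]; omega) hb1' (by
              have := hbig (b - 1) (by omega) (by omega); omega)
          have h2 := two b (b - 1) (by omega) (by omega) le_rfl (by omega) (by omega)
          have hf2 := flex_two h.card h.nq h.lift (i := b) (f := b - 1) (by omega) hD hDc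
            (by omega) (by omega) (by omega) (by
              have := hbig (b - 1) (by omega) (by omega); omega) (by
              rw [cardH, hDb, hDb']
              have h3 := le_max_right (k2' + 1) (#(row A z b) - (k2' + 1))
              have h4 := le_max_right 1 (#(row A z (b - 1)) - 1)
              omega)
          rw [hsum, hH0, sum_empty] at hf2
          refine hit_of_flex ho0 hoe
            (Y₁ := ∑ x ∈ A, z x - (∑ x ∈ high A z b, z x + b * (k2' + 2)) + 1)
            (Y₂ := ∑ x ∈ A, z x - ∑ x ∈ low A z 0, z x) ?_ ?_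
          · linarith [(by positivity : (0 : ℤ) ≤ a), (by positivity : (0 : ℤ) ≤ a')]
          · intro Y hY₁ hY₂
            rcases eq_or_lt_of_le hY₁ with h5 | h5
            · have : ∑ x ∈ A, z x - (0 + ((k2' + 1 : ℕ) : ℤ) * b + ((1 : ℕ) : ℤ) * (b - 1)) = Y := by
                rw [← h5, hH0, sum_empty]; push_cast; ring
              rw [← this]; exact hf2
            · exact hfl Y (by linarith) hY₂
  · -- row `0` not big
    have hbig : ∀ f : ℤ, 1 ≤ f → f ≤ b → m * s + θ + 4 * E + 20 ≤ 2 * #(row A z f) := by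
      intro f h1 hf
      have := two 0 f (by omega) le_rfl (by omega) (by omega) hf
      omega
    by_cases hg : #(row A z 0) < k
    · obtain ⟨r, hr⟩ : ∃ r, #(row A z 0) = r + 1 := ⟨#(row A z 0) - 1, by omega⟩
      obtain ⟨α', hα'⟩ : ∃ α', k = r + α' := ⟨k - r, by omega⟩
      refine hit_of_flex ho0 hoe (Y₁ := ∑ x ∈ A, z x - (∑ x ∈ high A z b, z x + b * k'))
        (Y₂ := ∑ x ∈ A, z x - (∑ x ∈ low A z 0, z x + α')) ?_ ?_
      · have h2 : (α' : ℤ) ≤ a' + 1 := by exact_mod_cast (by omega : α' ≤ a' + 1)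
        linarith
      · intro Y hY₁ hY₂
        exact low_end N hR hbig (α := r) (α' := α') (k' := k') (by omega) (by omega) (by omega)
          (by omega) hk' Y hY₁ hY₂
    · obtain ⟨k2, hk2⟩ : ∃ k2, k = k2 + 2 := ⟨k - 2, by omega⟩
      have hfl : ∀ Y : ℤ, ∑ x ∈ A, z x - (∑ x ∈ high A z b, z x + b * k') ≤ Y →
          Y ≤ ∑ x ∈ A, z x - (∑ x ∈ low A z 0, z x + 2) → Flex H e A n Y := by
        intro Y hY₁ hY₂
        exact low_end N hR hbig (α := k2) (α' := 2) (k' := k') (by omega) le_rfl (by omega)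
          (by omega) hk' Y hY₁ (by push_cast; exact hY₂)
      by_cases hc : m < c ∨ 1 ≤ a + a'
      · refine hit_of_flex ho0 hoe ?_ hfl
        rcases hc with hc | hc
        · have h2 : (b : ℤ) * m + b ≤ b * c := by
            have : b * (m + 1) ≤ b * c := Nat.mul_le_mul_left b hc
            have h3 : ((b * (m + 1) : ℕ) : ℤ) ≤ ((b * c : ℕ) : ℤ) := by exact_mod_cast this
            push_cast at h3
            linarith
          have h4 : (0 : ℤ) ≤ a := by positivity
          have h5 : (0 : ℤ) ≤ a' := by positivity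
          linarith
        · have h2 : (1 : ℤ) ≤ a + a' := by exact_mod_cast hc
          linarith
      · have hcm : c = m := by omega
        have haz : a = 0 := by omega
        have haz' : a' = 0 := by omega
        have hL0 : low A z 0 = ∅ := by rw [← card_eq_zero, ← ha0]; exact haz
        have hb1' : k2 + 1 ≤ #(row A z 0) := by omega
        obtain ⟨D, hD, hDc, hDb, hDb', hsum⟩ := exists_low A z (c := c) (α := k2 + 1)
          (β := 1) (i := 0) (f := 1) (u := 0) (by omega) le_rfl (by omega) (by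
            rw [hL0, card_empty]; omega) hb1' (by
            have := hbig 1 (by omega) (by omega); omega)
        have h2 := two 0 1 (by omega) le_rfl (by omega) (by omega) (by omega)
        have hf2 := flex_two h.card h.nq h.lift (i := 0) (f := 1) (by omega) hD hDc
          (by omega) (by omega) (by omega) (by
            have := hbig 1 (by omega) (by omega); omega) (by
            rw [cardH, hDb, hDb']
            have h3 := le_max_right (k2 + 1) (#(row A z 0) - (k2 + 1))
            have h4 := le_max_right 1 (#(row A z 1) - 1)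
            omega)
        rw [hsum, hL0, sum_empty] at hf2
        refine hit_of_flex ho0 hoe (Y₁ := ∑ x ∈ A, z x - (∑ x ∈ high A z b, z x + b * k'))
          (Y₂ := ∑ x ∈ A, z x - (∑ x ∈ low A z 0, z x + 1)) ?_ ?_
        · linarith [(by positivity : (0 : ℤ) ≤ a), (by positivity : (0 : ℤ) ≤ a')]
        · intro Y hY₁ hY₂
          rcases eq_or_lt_of_le hY₂ with h5 | h5
          · have : ∑ x ∈ A, z x - (0 + ((k2 + 1 : ℕ) : ℤ) * 0 + ((1 : ℕ) : ℤ) * 1) = Y := by
              rw [h5, hL0, sum_empty]; push_cast; ring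
            rw [← this]; exact hf2
          · exact hfl Y hY₁ (by linarith)

end Pool.Agent.Lib.MPa7239a.RK
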