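import Pool.Agent.Lib.MP_a7239a_co.RK.CNT
import Pool.Agent.Lib.MP_a7239a_co.RK.TWO
import Pool.Agent.Lib.MP_a7239a_co.RK.FLX

/-!
# The end game: rows `0, ..., b - 1` nearly full, rows `- 1` and `b` not small
-/

open Finset

namespace Pool.Agent.Lib.MPa7239a.RK

open Pool.Agent.Lib.MPa7239a.GC

theorem endQ_card_low {G : Type*} (A : Finset G) (z : G → ℤ) (i : ℤ) :
    #(low A z (i + 1)) = #(low A z i) + #(row A z i) := by
  classical
  rw [← card_union_of_disjoint]
  · congr 1
    ext x
    rw [mem_union, mem_low, mem_low, mem_row]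
    constructor
    · rintro ⟨h1, h2⟩
      by_cases h3 : z x = i
      · exact Or.inr ⟨h1, h3⟩
      · exact Or.inl ⟨h1, by omega⟩
    · rintro (h | h)
      · exact ⟨h.1, by omega⟩
      · exact ⟨h.1, by omega⟩
  · rw [Finset.disjoint_left]
    intro x h1 h2
    rw [mem_low] at h1
    rw [mem_row] at h2
    omega

theorem endQ_card_high {G : Type*} (A : Finset G) (z : G → ℤ) (i : ℤ) :
    #(high A z (i - 1)) = #(high A z i) + #(row A z i) := by
  classical
  rw [← card_union_of_disjoint]
  · congr 1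
    ext x
    rw [mem_union, mem_high, mem_high, mem_row]
    constructor
    · rintro ⟨h1, h2⟩
      by_cases h3 : z x = i
      · exact Or.inr ⟨h1, h3⟩
      · exact Or.inl ⟨h1, by omega⟩
    · rintro (h | h)
      · exact ⟨h.1, by omega⟩
      · exact ⟨h.1, by omega⟩
  · rw [Finset.disjoint_left]
    intro x h1 h2
    rw [mem_high] at h1
    rw [mem_row] at h2
    omega

theorem endQ_smul_mem {G : Type*} [AddCommGroup G] {H : AddSubgroup G} {e : G} {o : ℕ}
    (h : addOrderOf (e : G ⧸ H) = o) : o • e ∈ H := by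
  have h1 : o • (e : G ⧸ H) = 0 := by
    rw [← h]
    exact addOrderOf_nsmul_eq_zero _
  rwa [← QuotientAddGroup.mk_nsmul, QuotientAddGroup.eq_zero_iff] at h1

variable {G : Type*} [AddCommGroup G] [Finite G] [DecidableEq G] {H : AddSubgroup G}
    {e q₀ : G} {A : Finset G} {z : G → ℤ} {m n c s o b E L θ : ℕ}

/-- the numbers of elements below row `0` and above row `b - 1` -/
theorem endQ_count (h : StrQ H e q₀ A z m n c s o b E L) :
    c ≤ #(low A z 0) + #(high A z (b - 1)) ∧
      #(low A z 0) + #(high A z (b - 1)) ≤ c + b * E ∧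
      #(low A z 0) = #(low A z (-1)) + #(row A z (-1)) ∧
      #(high A z (b - 1)) = #(high A z b) + #(row A z b) ∧
      #(low A z (-1)) + #(high A z b) ≤ E := by
  have hb := h.hb
  have h1 := card_rows A z (p := 0) (q := (b : ℤ) - 1) (by omega)
  have hcard : #(Icc (0 : ℤ) (b - 1)) = b := by
    rw [Int.card_Icc]
    omega
  have h2 : ∑ i ∈ Icc (0 : ℤ) (b - 1), #(row A z i) ≤ b * (m * s) := by
    have h3 := sum_le_card_nsmul (Icc (0 : ℤ) (b - 1)) (fun i => #(row A z i)) (Nat.card H)
      (fun i _ => card_row_le h.lift i)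
    rw [hcard, smul_eq_mul, h.cardH] at h3
    exact h3
  have h3 : b * (m * s) ≤ ∑ i ∈ Icc (0 : ℤ) (b - 1), #(row A z i) + b * E := by
    have h4 := card_nsmul_le_sum (Icc (0 : ℤ) (b - 1)) (fun i => #(row A z i) + E) (m * s)
      (fun i hi => by
        rw [mem_Icc] at hi
        exact h.full i hi.1 (by omega))
    rw [hcard, smul_eq_mul, sum_add_distrib, sum_const, hcard, smul_eq_mul] at h4
    exact h4
  have h4 := h.card
  have h5 := h.hn
  have h6 := endQ_card_low A z (-1)
  have h7 := endQ_card_high A z b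
  have h8 := card_out A z (p := -1) (q := b) (by omega)
  have h9 := h.few
  have h10 : (-1 : ℤ) + 1 = 0 := by norm_num
  rw [h10] at h6
  refine ⟨by omega, by omega, h6, h7, by omega⟩

theorem endQ_out_mono {G : Type*} (A : Finset G) (z : G → ℤ) (p q : ℤ) {d : ℕ} (hd : 1 ≤ d) :
    #(out A z p q d) ≤ #(out A z p q 1) := by
  refine card_le_card fun x hx => ?_
  rw [mem_out] at hx ⊢
  refine ⟨hx.1, ?_⟩
  rcases hx.2 with h | h
  · left
    push_cast
    omega
  · right
    push_cast
    omega

theorem endQ_ready (h : StrQ H e q₀ A z m n c s o b E L) (hFF : FatFull H θ)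
    (hL : (b + 2) * (E + 10) ≤ L) (hm : 100 * (b + 1) * (L + θ + 10) ≤ m) :
    ∃ (Q : ℕ) (i₀ i₁ : ℤ), Ready H e q₀ A z n c θ Q (-1) b i₀ i₁ := by
  have hL' : b * E + 2 * E + 10 * b + 20 ≤ L := by
    have : (b + 2) * (E + 10) = b * E + 2 * E + 10 * b + 20 := by ring
    omega
  have hm' : 100 * (b * L) + 100 * (b * θ) + 1000 * b + 100 * L + 100 * θ + 1000 ≤ m := by
    have : 100 * (b + 1) * (L + θ + 10) =
      100 * (b * L) + 100 * (b * θ) + 1000 * b + 100 * L + 100 * θ + 1000 := by ring
    omega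
  have hb := h.hb
  have hms : m ≤ m * s := Nat.le_mul_of_pos_right m h.hs
  have hmn : m * s ≤ n := by
    rw [h.hn]
    exact Nat.le_mul_of_pos_left _ hb
  have hmc := h.mc
  obtain ⟨hc1, hc2, hc3, hc4, hc5⟩ := endQ_count h
  have hrowa := h.rowa
  have hrowb := h.rowb
  have hfew := h.few
  have hho := h.ho
  have hbm : b * m ≤ 2 * (b * (m / 2)) + b := by
    have h1 : m ≤ 2 * (m / 2) + 1 := by omega
    calc b * m ≤ b * (2 * (m / 2) + 1) := Nat.mul_le_mul_left _ h1
      _ = 2 * (b * (m / 2)) + b := by ring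
  have hbL : 30 * b ≤ b * L := by
    rw [mul_comm 30 b]
    exact Nat.mul_le_mul_left _ (by omega)
  have hbc : b * m ≤ b * c := Nat.mul_le_mul_left _ hmc
  have hbEL : b * (E + 8) ≤ b * L := Nat.mul_le_mul_left _ (by omega)
  have hbm1 : m ≤ b * m := Nat.le_mul_of_pos_left _ hb
  have rows : ∀ i : ℤ, -1 ≤ i → i ≤ b → 5 ≤ #(row A z i) := by
    intro i hi hib
    by_cases h1 : i = -1
    · rw [h1]
      omega
    by_cases h2 : i = b
    · rw [h2]
      omega
    have := h.full i (by omega) (by omega)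
    omega
  by_cases ha : m / 2 + L ≤ #(row A z b)
  · obtain ⟨Q, hQ⟩ : ∃ Q, Q + 5 = m / 2 + L := ⟨m / 2 + L - 5, by omega⟩
    have h0 := h.full 0 le_rfl (by omega)
    have hbQ : b * Q + 5 * b = b * (m / 2) + b * L := by
      calc b * Q + 5 * b = b * (Q + 5) := by ring
        _ = b * (m / 2) + b * L := by rw [hQ]; ring
    refine ⟨Q, 0, b, h.card, h.nq, h.lift, hFF, by omega, by omega, by omega, by omega, le_rfl,
      rows, by omega, by omega, ?_⟩
    intro x hx d hd hz
    have h1 := h.near x hx d hd hz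
    have h2 := endQ_out_mono A z (-1) b hd
    have h3 : b * (#(out A z (-1) b d) + 2) ≤ b * (E + 2) := Nat.mul_le_mul_left _ (by omega)
    have h4 : b * (E + 2) + 6 * b = b * (E + 8) := by ring
    constructor
    · have h5 : d + 1 ≤ b * Q := by omega
      zify at h5
      linarith
    · have h5 : d + 1 + b * (#(out A z (-1) b d) + 2) ≤ b * c := by omega
      zify at h5
      linarith
  · by_cases ha' : m / 2 + L ≤ #(row A z (-1))
    · obtain ⟨Q, hQ⟩ : ∃ Q, Q + 5 = m / 2 + L := ⟨m / 2 + L - 5, by omega⟩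
      have h0 := h.full (b - 1) (by omega) (by omega)
      have hbQ : b * Q + 5 * b = b * (m / 2) + b * L := by
        calc b * Q + 5 * b = b * (Q + 5) := by ring
          _ = b * (m / 2) + b * L := by rw [hQ]; ring
      refine ⟨Q, -1, b - 1, h.card, h.nq, h.lift, hFF, by omega, by omega, le_rfl, by omega,
        by omega, rows, by omega, by omega, ?_⟩
      intro x hx d hd hz
      have h1 := h.near x hx d hd hz
      have h2 := endQ_out_mono A z (-1) b hd
      have h3 : b * (#(out A z (-1) b d) + 2) ≤ b * (E + 2) := Nat.mul_le_mul_left _ (by omega)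
      have h4 : b * (E + 2) + 6 * b = b * (E + 8) := by ring
      constructor
      · have h5 : d + 1 ≤ b * Q := by omega
        zify at h5
        linarith
      · have h5 : d + 1 + b * (#(out A z (-1) b d) + 2) ≤ b * c := by omega
        zify at h5
        linarith
    · obtain ⟨Q, hQ⟩ : ∃ Q, Q + 5 + E + L + m / 2 = m := ⟨m - (5 + E + L + m / 2), by omega⟩
      have hbQ : b * Q + 5 * b + b * E + b * L + b * (m / 2) = b * m := by
        calc b * Q + 5 * b + b * E + b * L + b * (m / 2) = b * (Q + 5 + E + L + m / 2) := by ring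
          _ = b * m := by rw [hQ]
      have hbm' : 2 * (b * (m / 2)) ≤ b * m := by
        calc 2 * (b * (m / 2)) = b * (2 * (m / 2)) := by ring
          _ ≤ b * m := Nat.mul_le_mul_left _ (by omega)
      refine ⟨Q, -1, b, h.card, h.nq, h.lift, hFF, by omega, by omega, le_rfl, by omega, le_rfl,
        rows, by omega, by omega, ?_⟩
      intro x hx d hd hz
      have h1 := h.near x hx d hd hz
      have h2 := endQ_out_mono A z (-1) b hd
      have h3 : (b + 1) * (#(out A z (-1) b d) + 2) ≤ (b + 1) * (E + 2) :=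
        Nat.mul_le_mul_left _ (by omega)
      have h4 : (b + 1) * (E + 2) = b * E + 2 * b + E + 2 := by ring
      have h6 : (b + 1) * Q = b * Q + Q := by ring
      have h7 : (b + 1) * c = b * c + c := by ring
      constructor
      · have h5 : d ≤ (b + 1) * Q := by omega
        zify at h5
        linarith
      · have h5 : d + (b + 1) * (#(out A z (-1) b d) + 2) ≤ (b + 1) * c := by omega
        zify at h5
        linarith

/-- MODULE ENDQ -/
theorem end_Q (h : StrQ H e q₀ A z m n c s o b E L) (_hn0 : ∀ x : G, n • x = 0)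
    (hFF : FatFull H θ) (hL : (b + 2) * (E + 10) ≤ L)
    (hm : 100 * (b + 1) * (L + θ + 10) ≤ m) : Hit A n 0 := by
  obtain ⟨Q, i₀, i₁, hR⟩ := endQ_ready h hFF hL hm
  have hL' : b * E + 2 * E + 10 * b + 20 ≤ L := by
    have : (b + 2) * (E + 10) = b * E + 2 * E + 10 * b + 20 := by ring
    omega
  have hm' : 100 * (b * L) + 100 * (b * θ) + 1000 * b + 100 * L + 100 * θ + 1000 ≤ m := by
    have : 100 * (b + 1) * (L + θ + 10) =
      100 * (b * L) + 100 * (b * θ) + 1000 * b + 100 * L + 100 * θ + 1000 := by ring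
    omega
  have hb := h.hb
  have hms : m ≤ m * s := Nat.le_mul_of_pos_right m h.hs
  have hmc := h.mc
  have hcm := h.cm
  obtain ⟨hc1, hc2, hc3, hc4, hc5⟩ := endQ_count h
  have hrowa := h.rowa
  have hrowb := h.rowb
  have hho := h.ho
  have hcH := h.cardH
  have h0 := h.full 0 le_rfl (by omega)
  have h0' := h.full (b - 1) (by omega) (by omega)
  have hbmc : b * m ≤ b * c := Nat.mul_le_mul_left _ hmc
  have hbm1 : m ≤ b * m := Nat.le_mul_of_pos_left _ hb
  have hlow : ∑ x ∈ low A z 0, z x ≤ -(#(low A z 0) : ℤ) := by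
    have := sum_le_card_nsmul (low A z 0) z (-1) (fun x hx => by
      have := (mem_low.1 hx).2
      omega)
    rw [nsmul_eq_mul] at this
    linarith
  have hhigh : (#(high A z (b - 1)) : ℤ) * b ≤ ∑ x ∈ high A z (b - 1), z x := by
    have := card_nsmul_le_sum (high A z (b - 1)) z (b : ℤ) (fun x hx => by
      have := (mem_high.1 hx).2
      omega)
    rw [nsmul_eq_mul] at this
    exact this
  have hoe := endQ_smul_mem h.order
  have ho0 : 0 < o := by omega
  set a := #(low A z 0) with ha
  set a' := #(high A z (b - 1)) with ha'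
  obtain ⟨k, hk⟩ : ∃ k, a + k + 2 = c := ⟨c - a - 2, by omega⟩
  obtain ⟨k', hk'⟩ : ∃ k', a' + k' + 2 = c := ⟨c - a' - 2, by omega⟩
  have hb1 : (1 : ℤ) ≤ b := by exact_mod_cast hb
  by_cases hb2 : b = 1
  · subst hb2
    have e1 : ((1 : ℕ) : ℤ) - 1 = 0 := by norm_num
    rw [e1] at ha' hhigh
    have key := flx_num hR (f := 0) (i := 1) (j := -1) (u := 0) (v := 0) (α := 0) (α' := k + 2)
      (β := 0) (β' := k' + 2) (by omega) (by omega) (by omega) (by omega) (by omega) le_rfl
      (by omega) (Nat.zero_le _) (by omega) (by omega) (by omega) (by omega) le_rfl (by omega)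
      (Nat.zero_le _) (by omega) (by omega)
    refine hit_of_flex ho0 hoe ?_ key
    have h1 : (o : ℤ) ≤ a + a' := by
      have : o ≤ a + a' := by omega
      exact_mod_cast this
    push_cast at hhigh ⊢
    linarith
  · have hb3 : 2 ≤ b := by omega
    have key1 := flx_num hR (f := 0) (i := 1) (j := b - 1) (u := 0) (v := b - 1) (α := 0)
      (α' := k + 2) (β := k') (β' := 2) (by omega) (by omega) (by omega) (by omega) (by omega)
      le_rfl (by omega) (Nat.zero_le _) (by omega) (by omega) (by omega) (by omega) (by omega)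
      (by omega) (by omega) (by omega) (by omega)
    have key2 := flx_num hR (f := b - 1) (i := 0) (j := 0) (u := 0) (v := b - 1) (α := k)
      (α' := 2) (β := 0) (β' := k' + 2) (by omega) (by omega) (by omega) (by omega) (by omega)
      (by omega) (by omega) (by omega) (by omega) (by omega) (by omega) (by omega) le_rfl
      (by omega) (Nat.zero_le _) (by omega) (by omega)
    push_cast at key1 key2
    refine hit_of_flex ho0 hoe (Y₁ := ∑ x ∈ A, z x - (∑ x ∈ high A z (b - 1), z x + 0 * 0 +
      (k' + 2) * (b - 1))) (Y₂ := ∑ x ∈ A, z x - (∑ x ∈ low A z 0, z x + 0 * 1 + (k + 2) * 0))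
      ?_ ?_
    · have h1 : (b : ℤ) * m ≤ b * c := by exact_mod_cast hbmc
      have h2 : (o : ℤ) = b * m := by exact_mod_cast hho
      have h3 : (c : ℤ) ≤ a + a' := by exact_mod_cast hc1
      have h4 : (a' : ℤ) + k' + 2 = c := by exact_mod_cast hk'
      nlinarith
    · intro Y hY1 hY2
      by_cases hY : ∑ x ∈ A, z x - (∑ x ∈ high A z (b - 1), z x + k' * (b - 1) + 2 * 0) ≤ Y
      · exact key1 Y hY hY2
      · refine key2 Y hY1 ?_
        push Not at hY
        have h5 : (2 : ℤ) * (b - 1) ≤ a' * b := by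
          have h6 : (2 : ℤ) ≤ a' := by
            have : 2 ≤ a' := by omega
            exact_mod_cast this
          nlinarith
        have h7 : (0 : ℤ) ≤ k' * (b - 1) := by
          have : (0 : ℤ) ≤ k' := by positivity
          exact mul_nonneg this (by omega)
        have h8 : (0 : ℤ) ≤ a := by positivity
        linarith

end Pool.Agent.Lib.MPa7239a.RK
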