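import Mathlib

/-!
# Theorem R: the explicit value for a divisor `s` of `t * m` that does not divide `t`
-/

namespace Pool.Agent.Lib.MPa7239a.RK

/-- Let `o = t m / s`, `b = ⌊t / s⌋` and `e = (b + 1) s - t`; the minimum of `⌊o / b⌋` and
`⌊(2 o + l m e) / (2 (b + 1))⌋` where `l = 1` if `s b` is even and `l = 2` if `s b` is odd. -/
def cstar (m t s : ℕ) : ℕ :=
  min (t * m / s / (t / s))
    ((2 * (t * m / s) + (if Even (s * (t / s)) then 1 else 2) * (m * ((t / s + 1) * s - t))) /
      (2 * (t / s + 1)))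

end Pool.Agent.Lib.MPa7239a.RK
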