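import Pool.Agent.Lib.MP_a7239a_co.RK.ENDR
import Pool.Agent.Lib.MP_a7239a_co.RK.CST

/-!
# Theorem R: upper bounds for the size of `A` in the case `t = b * s + ρ`, `1 ≤ ρ < s`
-/

open Finset

namespace Pool.Agent.Lib.MPa7239a.RK

open Pool.Agent.Lib.MPa7239a.GC

variable {G : Type*} [AddCommGroup G] [Finite G] [DecidableEq G] {H : AddSubgroup G} {e q₀ : G}
  {A : Finset G} {z : G → ℤ} {m n c s o b ρ E θ : ℕ}

theorem StrR.bounds_of_fat (h : StrR H e q₀ A z m n c s o b ρ E) (hFF : FatFull H θ)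
    (hm : 100 * s * (b + 1) * (E + θ + 10) ≤ m) (hfb : Nat.card H + θ ≤ 2 * #(row A z b))
    (hno : ¬ Hit A n 0) {k : ℕ} (hk : k + ρ = s) :
    b * c ≤ o ∧ (b + 1) * c ≤ o + m * k ∧
      (Even (s * b) → 2 * ((b + 1) * c) ≤ 2 * o + m * k + 2) := by
  obtain ⟨r, h3, h4, h5, h6, h7⟩ := h.numbers hm
  have hb := h.hb
  have hmc := h.mc
  have hn := h.hn
  have h9 : 2 * E + θ + 1000 ≤ 100 * (b + 1) * (E + θ + 10) := by nlinarith
  have hoe := order_smul_mem h.order
  have hflex : ∀ Y : ℤ, ∑ x ∈ A, z x -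
      (∑ x ∈ high A z b, z x + b * (c - #(high A z b) : ℕ)) ≤ Y →
      Y ≤ ∑ x ∈ A, z x - (∑ x ∈ low A z 0, z x + 2) → Flex H e A n Y := fun Y h1 h2 => by
    by_cases hf0 : Nat.card H + θ ≤ 2 * #(row A z 0)
    · exact h.flex_0b hFF hm hfb hf0 h1 (by linarith)
    · have hf1 : Nat.card H + θ ≤ 2 * #(row A z 1) :=
        h.fat_or hm le_rfl (by omega) (by omega) (by exact_mod_cast hb) (by omega) hf0
      exact h.flex_1b hFF hm hfb hf1 h1 h2
  have ho : 0 < o := by
    have : m ≤ b * m := Nat.le_mul_of_pos_left m hb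
    omega
  have hlen : ¬ ((∑ x ∈ A, z x -
      (∑ x ∈ high A z b, z x + b * (c - #(high A z b) : ℕ))) + o ≤
      (∑ x ∈ A, z x - (∑ x ∈ low A z 0, z x + 2)) + 1) := fun hlen =>
    hno (hit_of_flex ho hoe hlen hflex)
  have hlow := sum_low_le_neg_card (A := A) (z := z)
  have hhigh := card_le_sum_high (A := A) (z := z) b
  obtain ⟨a, ha⟩ : ∃ a, a = #(low A z 0) := ⟨_, rfl⟩
  obtain ⟨a', ha'⟩ : ∃ a', a' = #(high A z b) := ⟨_, rfl⟩
  rw [← ha] at hlow h7
  rw [← ha'] at hhigh h7 hflex hlen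
  have hac : a' ≤ c := by omega
  have hsum := sum_three A z b
  have hmid := sum_mid_le h.lift b
  have hmid' := sum_mid_le (z := fun x => (b : ℤ) - z x) (lift_rev h.lift b) b
  have hfil : A.filter (fun x => 0 ≤ (b : ℤ) - z x ∧ (b : ℤ) - z x ≤ b) =
      A.filter (fun x => 0 ≤ z x ∧ z x ≤ b) := by
    refine filter_congr fun x _ => ?_
    constructor
    · rintro ⟨h1, h2⟩
      omega
    · rintro ⟨h1, h2⟩
      omega
  rw [hfil, sum_rev] at hmid'
  have hrow := row_ge (b := b) h.lift (i := b) (by omega) le_rfl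
  have hrow' := card_row_le h.lift (b : ℤ)
  rw [← ha, ← ha', h.card, h.cardH] at hrow
  rw [h.cardH] at hrow'
  have hcard2 : #A = a + #(A.filter (fun x => 0 ≤ z x ∧ z x ≤ b)) + a' := by
    have h1 := card_filter_add_card_filter_not (s := A) (fun x => 0 ≤ z x ∧ z x ≤ b)
    have h2 : A.filter (fun x => ¬ (0 ≤ z x ∧ z x ≤ b)) = out A z 0 b 1 := by
      rw [out]
      refine filter_congr fun x _ => ?_
      push_cast
      constructor
      · intro h10
        by_cases h11 : 0 ≤ z x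
        · exact Or.inr (by
            by_contra h12
            exact h10 ⟨h11, by omega⟩)
        · exact Or.inl (by omega)
      · rintro (h10 | h10) ⟨h11, h12⟩
        · omega
        · omega
    rw [h2, card_out A z (by omega)] at h1
    omega
  obtain ⟨M, hM⟩ : ∃ M, M = #(A.filter (fun x => 0 ≤ z x ∧ z x ≤ b)) := ⟨_, rfl⟩
  rw [← hM] at hcard2 hmid'
  rw [h.card] at hcard2
  obtain ⟨s₁, hs₁⟩ : ∃ s₁, s₁ = ∑ x ∈ A.filter (fun x => 0 ≤ z x ∧ z x ≤ b), z x := ⟨_, rfl⟩
  obtain ⟨s₀, hs₀⟩ : ∃ s₀, s₀ = ∑ x ∈ low A z 0, z x := ⟨_, rfl⟩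
  obtain ⟨s₂, hs₂⟩ : ∃ s₂, s₂ = ∑ x ∈ high A z b, z x := ⟨_, rfl⟩
  rw [← hs₁] at hsum hmid hmid'
  rw [← hs₀] at hsum hlow hlen hflex
  rw [← hs₂] at hsum hhigh hlen hflex
  rw [hsum] at hlen hflex
  rw [h.cardH] at hmid hmid'
  have hbcN : b * c = b * (c - a') + b * a' := by
    rw [← mul_add]
    congr 1
    omega
  have hbc : (b : ℤ) * c = b * (c - a' : ℕ) + b * a' := by exact_mod_cast hbcN
  push Not at hlen
  -- the length
  have e6 : ((b : ℤ) + 1) * a' = b * a' + a' := by ring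
  rw [e6] at hhigh
  have hW : (b : ℤ) * c + a + a' ≤ o := by linarith
  have hWN : b * c + a + a' ≤ o := by exact_mod_cast hW
  -- the capacity
  have hms : m * s = m * k + m * ρ := by rw [← hk]; ring
  have hcap : c ≤ m * k + a + a' := by omega
  refine ⟨by omega, by rw [add_mul, one_mul]; omega, ?_⟩
  rintro ⟨K, hK⟩
  -- the multiple `K o`
  have hKo : 2 * ((K : ℤ) * o) = b * n := by
    have h10 : (K + K) * o = b * n := by
      rw [← hK, ← h.ho]
      ring
    have h11 : (((K + K) * o : ℕ) : ℤ) = ((b * n : ℕ) : ℤ) := by rw [h10]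
    push_cast at h11
    linarith
  have hb1 : (1 : ℤ) ≤ b := by exact_mod_cast hb
  have hMz : (M : ℤ) = n + c - a - a' := by omega
  have hnz : (m : ℤ) * s * (b + 1) = n + m * k := by
    have h10 : m * s * (b + 1) = n + m * k := by
      rw [hn, mul_add, mul_one]
      nth_rewrite 2 [hms]
      ring
    exact_mod_cast h10
  have e1 : (m : ℤ) * s * (b * (b + 1)) = b * n + b * (m * k) := by
    calc (m : ℤ) * s * (b * (b + 1)) = b * (m * s * (b + 1)) := by ring
      _ = b * (n + m * k) := by rw [hnz]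
      _ = _ := by ring
  push_cast at hmid hmid'
  rw [e1] at hmid hmid'
  rw [hMz] at hmid'
  have e2 : ((n : ℤ) + c - a - a') * b = b * n + b * c - b * a - b * a' := by ring
  rw [e2] at hmid'
  have hfin : 2 * (c : ℤ) ≤ 2 * (a + a') + m * k + 2 := by
    by_contra hcon
    push Not at hcon
    refine hno (hit_of_flex_mul hoe (a := (K : ℤ)) (hflex _ ?_ ?_))
    · -- otherwise `2 c < 2 a' + m k`
      by_contra h10
      push Not at h10
      have h11 : (b : ℤ) * (2 * c - 2 * a' - m * k) + 2 * a + 2 ≤ 0 := by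
        have : (b : ℤ) * (2 * c - 2 * a' - m * k) = 2 * (b * c) - 2 * (b * a') - b * (m * k) := by
          ring
        rw [this]
        linarith
      have h12 : 0 ≤ (b : ℤ) * (2 * c - 2 * a' - m * k) := by
        apply mul_nonneg (by omega)
        have : (0 : ℤ) ≤ a := by omega
        linarith
      omega
    · by_contra h10
      push Not at h10
      have h11 : (b : ℤ) * (2 * c - 2 * a - m * k) + 2 * a' ≤ 2 := by
        have : (b : ℤ) * (2 * c - 2 * a - m * k) =
            2 * (b * c) - 2 * (b * a) - b * (m * k) := by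
          ring
        rw [this]
        linarith
      have h13 : 0 ≤ 2 * (c : ℤ) - 2 * a - m * k := by
        have : (0 : ℤ) ≤ a' := by omega
        linarith
      have h12 : 2 * (c : ℤ) - 2 * a - m * k ≤ (b : ℤ) * (2 * c - 2 * a - m * k) :=
        le_mul_of_one_le_left h13 hb1
      linarith
  have hfin' : 2 * c ≤ 2 * (a + a') + m * k + 2 := by exact_mod_cast hfin
  rw [add_mul, one_mul]
  omega

/-- the three upper bounds -/
theorem StrR.bounds (h : StrR H e q₀ A z m n c s o b ρ E) (hn0 : ∀ x : G, n • x = 0)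
    (hFF : FatFull H θ) (hm : 100 * s * (b + 1) * (E + θ + 10) ≤ m)
    (hno : ¬ Hit A n 0) {k : ℕ} (hk : k + ρ = s) :
    b * c ≤ o ∧ (b + 1) * c ≤ o + m * k ∧
      (Even (s * b) → 2 * ((b + 1) * c) ≤ 2 * o + m * k + 2) := by
  have hb := h.hb
  by_cases hfb : Nat.card H + θ ≤ 2 * #(row A z b)
  · exact h.bounds_of_fat hFF hm hfb hno hk
  · have hf0 := h.fat_or hm (by omega) le_rfl le_rfl (by omega) (by omega) hfb
    refine (h.rev hn0).bounds_of_fat hFF hm ?_ hno hk
    rw [row_rev, sub_self]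
    exact hf0

/-- the bounds in terms of `cstar` -/
theorem le_cstar {m t c s o b ρ k : ℕ} (ht : t = b * s + ρ) (hρ : ρ < s) (hb : 1 ≤ b)
    (ho : o * s = t * m) (hk : k + ρ = s) (h1 : b * c ≤ o) (h2 : (b + 1) * c ≤ o + m * k)
    (h3 : Even (s * b) → 2 * ((b + 1) * c) ≤ 2 * o + m * k + 2) :
    c ≤ cstar m t s + 1 := by
  have hs : 0 < s := by omega
  have e1 : t / s = b := by
    rw [ht, mul_comm, Nat.mul_add_div hs, Nat.div_eq_of_lt hρ, add_zero]
  have e2 : t * m / s = o := by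
    rw [← ho]
    exact Nat.mul_div_cancel _ hs
  have e3 : (b + 1) * s - t = k := by
    rw [ht, add_mul, one_mul]
    omega
  rcases Nat.lt_or_ge c 1 with h5 | h5
  · omega
  obtain ⟨c', rfl⟩ : ∃ c', c = c' + 1 := ⟨c - 1, by omega⟩
  refine Nat.succ_le_succ ?_
  rw [cstar, e1, e2, e3, Nat.le_min]
  constructor
  · rw [Nat.le_div_iff_mul_le hb]
    rw [mul_add, mul_comm b c'] at h1
    omega
  · rw [Nat.le_div_iff_mul_le (by omega)]
    have h6 : c' * (2 * (b + 1)) + 2 * (b + 1) = 2 * ((b + 1) * (c' + 1)) := by ring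
    split_ifs with h7
    · have := h3 h7
      rw [one_mul]
      omega
    · omega

end Pool.Agent.Lib.MPa7239a.RK
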