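import Pool.Agent.Lib.MP_a7239a_co.RK.LIFT

/-!
# Theorem R: the structure of `A` for `s ∣ t` (modules STR0, STR1)
-/

set_option linter.unusedSectionVars false

open Finset

namespace Pool.Agent.Lib.MPa7239a.RK

open Pool.Agent.Lib.MPa7239a.GC

variable {G : Type*} [AddCommGroup G] [Finite G] [DecidableEq G] {H : AddSubgroup G} {e q₀ : G}
  {A S : Finset G} {z : G → ℤ} {m t n c s o loss k t' b E L : ℕ} {u v : ℤ}

theorem Amb.win' (h : Amb H e q₀ A S z m t n c s o loss k t' u v) :
    (t' : ℤ) * (v - u) + dsum S z u v + 2 ≤ o := by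
  have h1 := h.win
  unfold dsum
  linarith

theorem Amb.ct (h : Amb H e q₀ A S z m t n c s o loss k t' u v) : c ≤ t' + loss := by
  have h1 := h.card
  have h2 := h.hloss
  have h3 := h.cardS
  have h4 := h.kn
  omega

/-- the elements outside `[u, v]` and the rows -/
theorem Amb.card_le (h : Amb H e q₀ A S z m t n c s o loss k t' u v) {V : ℕ} (hV : v = u + V) :
    n + c ≤ #(out S z u v 1) + (V + 1) * (m * s) + loss := by
  have h1 := card_rows S z (p := u) (q := v) (by omega)
  have h2 := card_out S z (p := u) (q := v) (by omega)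
  have h3 : ∑ i ∈ Icc u v, #(row S z i) ≤ (V + 1) * (m * s) := by
    refine (sum_le_card_nsmul _ _ (Nat.card H) fun j _ => card_row_le h.lift j).trans ?_
    rw [Int.card_Icc, smul_eq_mul, h.cardH]
    refine Nat.mul_le_mul_right _ ?_
    omega
  have h4 := h.hloss
  have h5 := h.card
  omega

/-- one row inside -/
theorem Amb.row_le (h : Amb H e q₀ A S z m t n c s o loss k t' u v) {V : ℕ} (hV : v = u + V)
    {i : ℤ} (hi : u ≤ i) (hi' : i ≤ v) :
    n + c ≤ #(row S z i) + #(out S z u v 1) + V * (m * s) + loss := by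
  have h1 := card_rows S z (p := u) (q := v) (by omega)
  have h2 := card_out S z (p := u) (q := v) (by omega)
  have hmem : i ∈ Icc u v := mem_Icc.2 ⟨hi, hi'⟩
  rw [← add_sum_erase _ _ hmem] at h1
  have h3 : ∑ i ∈ (Icc u v).erase i, #(row S z i) ≤ V * (m * s) := by
    refine (sum_le_card_nsmul _ _ (Nat.card H) fun j _ => card_row_le h.lift j).trans ?_
    rw [card_erase_of_mem hmem, Int.card_Icc, smul_eq_mul, h.cardH]
    refine Nat.mul_le_mul_right _ ?_
    omega
  have h4 := h.hloss
  have h5 := h.card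
  omega

/-- the structure P from the elements of `S` -/
theorem mkP (h : Amb H e q₀ A S z m t n c s o loss k t' u v) (hn0 : ∀ x : G, n • x = 0)
    (hb1 : 1 ≤ b) (ho0 : 0 < o) (hn : n = b * (m * s)) (ho : o = b * m) (hmc : m ≤ c)
    (hcm : c ≤ m + E) (w : ℤ) (hfew : #(out S z w (w + b) 1) + loss ≤ E)
    (hnear : ∀ x ∈ S, ∀ d : ℕ, 1 ≤ d → (z x = w + b + d ∨ z x = w - d) → 2 * d ≤ o + 10) :
    StrP H e (q₀ + w • e) A (lf H e q₀ S z o w) m n c s o b E := by
  refine ⟨h.card, hn0 _, lf_lift ho0 (smul_mem_of_order h.order) h.lift h.gen w, h.cardH, h.s1,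
    hb1, hn, ho, h.order, hmc, hcm, ?_, ?_⟩
  · have h1 := card_out_lf (H := H) (e := e) (q₀ := q₀) (z := z) (o := o) h.sub h.hloss w 0 b 1
    have h2 : (0 : ℤ) + w = w := by ring
    have h3 : (b : ℤ) + w = w + b := by ring
    rw [h2, h3] at h1
    omega
  · intro x _ d hd hx
    by_cases hxS : x ∈ S
    · rw [lf_of_mem hxS] at hx
      exact hnear x hxS d hd (by omega)
    · have h1 := lf_of_notMem (H := H) (e := e) (q₀ := q₀) (z := z) (w := w) ho0 hxS
      omega

/-- the structure Q from the elements of `S` -/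
theorem mkQ (h : Amb H e q₀ A S z m t n c s o loss k t' u v) (hn0 : ∀ x : G, n • x = 0)
    (hb1 : 1 ≤ b) (ho0 : 0 < o) (hn : n = b * (m * s)) (ho : o = b * m) (hmc : m ≤ c)
    (hcm : c ≤ m + E) (w : ℤ)
    (hfull : ∀ i : ℤ, 0 ≤ i → i < b → m * s ≤ #(row S z (i + w)) + E)
    (ha : L ≤ #(row A (lf H e q₀ S z o w) (-1))) (hb : L ≤ #(row A (lf H e q₀ S z o w) b))
    (hfew : #(out S z (-1 + w) (b + w) 1) + loss ≤ E)
    (hnear : ∀ x ∈ S, ∀ d : ℕ, 1 ≤ d → (z x = w + b + d ∨ z x = w - 1 - d) → 2 * d ≤ o + 10) :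
    StrQ H e (q₀ + w • e) A (lf H e q₀ S z o w) m n c s o b E L := by
  refine ⟨h.card, hn0 _, lf_lift ho0 (smul_mem_of_order h.order) h.lift h.gen w, h.cardH, h.s1,
    hb1, hn, ho, h.order, hmc, hcm, ?_, ha, hb, ?_, ?_⟩
  · intro i hi hi'
    have h1 := card_row_lf (H := H) (e := e) (q₀ := q₀) (z := z) (o := o) h.sub w i
    have h2 := hfull i hi hi'
    omega
  · have h1 := card_out_lf (H := H) (e := e) (q₀ := q₀) (z := z) (o := o) h.sub h.hloss w (-1) b 1
    omega
  · intro x _ d hd hx
    by_cases hxS : x ∈ S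
    · rw [lf_of_mem hxS] at hx
      exact hnear x hxS d hd (by omega)
    · have h1 := lf_of_notMem (H := H) (e := e) (q₀ := q₀) (z := z) (w := w) ho0 hxS
      omega

/-- window of length `b` -/
theorem str_b (h : Amb H e q₀ A S z m t n c s o loss k t' u v) (hn0 : ∀ x : G, n • x = 0)
    (hb1 : 1 ≤ b) (hn : n = b * (m * s)) (ho : o = b * m) (hmc : m ≤ c)
    (hE : (b + 1) * loss + 1 ≤ E) (hm : 2 * b * loss + 1 ≤ m) (hV : v = u + b) :
    StrP H e (q₀ + u • e) A (lf H e q₀ S z o u) m n c s o b E := by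
  have hw := h.win'
  have hct := h.ct
  have ho0 : 0 < o := by
    rw [ho]
    exact Nat.mul_pos hb1 (by omega)
  have hD := card_out_le_dsum S z h.uv
  have hV' : v - u = b := by omega
  rw [hV'] at hw
  have hoz : (o : ℤ) = b * m := by exact_mod_cast ho
  -- `D + 2 ≤ b * loss`
  have h1 : dsum S z u v + 2 ≤ b * loss := by
    have h2 : (b : ℤ) * m ≤ b * (t' + loss) := by
      refine mul_le_mul_of_nonneg_left ?_ (by positivity)
      exact_mod_cast hmc.trans hct
    nlinarith
  have h3 : t' < m := by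
    by_contra hlt
    push Not at hlt
    have h4 : (b : ℤ) * m ≤ t' * b := by
      rw [mul_comm]
      refine mul_le_mul_of_nonneg_right ?_ (by positivity)
      exact_mod_cast hlt
    have h5 : (0 : ℤ) ≤ dsum S z u v := le_trans (by positivity) hD
    omega
  have h6 : (b + 1) * loss = b * loss + loss := by ring
  have h7 : b ≤ b * m := Nat.le_mul_of_pos_right _ (by omega)
  have h8 : ((b * loss : ℕ) : ℤ) = b * loss := by push_cast; ring
  have h9 : 2 * b * loss = 2 * (b * loss) := by ring
  have h10 : m ≤ b * m := Nat.le_mul_of_pos_left _ hb1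
  refine mkP h hn0 hb1 ho0 hn ho hmc (by omega) u ?_ ?_
  · rw [← hV]
    omega
  · intro x hx d hd hxd
    have h11 := dst_add_card_le S z h.uv hx
    have h12 : 1 ≤ #(out S z u v 1) := by
      rw [Nat.one_le_iff_ne_zero, ← Nat.pos_iff_ne_zero, card_pos]
      exact ⟨x, mem_out.2 ⟨hx, by omega⟩⟩
    have h13 : dst z u v x = d := by
      unfold dst
      split_ifs <;> omega
    omega

/-- window of length `b - 1` -/
theorem str_b1 (h : Amb H e q₀ A S z m t n c s o loss k t' u v) (hn0 : ∀ x : G, n • x = 0)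
    (hb1 : 1 ≤ b) (hn : n = b * (m * s)) (ho : o = b * m) (hmc : m ≤ c)
    (hE : (b + 1) * loss + 1 ≤ E) (hm : 2 * b * loss + 1 ≤ m) (hV : v + 1 = u + b) :
    ∃ (q₁ : G) (z' : G → ℤ), StrP H e q₁ A z' m n c s o b (L + 2 * E) ∨
      StrQ H e q₁ A z' m n c s o b E L := by
  classical
  have hw := h.win'
  have hct := h.ct
  have huv := h.uv
  have ho0 : 0 < o := by
    rw [ho]
    exact Nat.mul_pos hb1 (by omega)
  have hD := card_out_le_dsum S z h.uv
  obtain ⟨V, hVb⟩ : ∃ V : ℕ, b = V + 1 := ⟨b - 1, by omega⟩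
  have hV2 : v = u + V := by omega
  have hV' : v - u = V := by omega
  rw [hV'] at hw
  have hcard := h.card_le hV2
  rw [← hVb, ← hn] at hcard
  have hoz : (o : ℤ) = b * m := by exact_mod_cast ho
  have hbz : (b : ℤ) = V + 1 := by exact_mod_cast hVb
  -- `D - #out + 2 ≤ b * (m - c + loss)`
  have h1' : dsum S z u v + 2 ≤ b * (m - c + loss) + (c - loss : ℤ) := by
    have h2 : ((c : ℤ) - loss) * V ≤ t' * V := by
      refine mul_le_mul_of_nonneg_right ?_ (by positivity)
      have : (c : ℤ) ≤ t' + loss := by exact_mod_cast hct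
      omega
    rw [hoz] at hw
    rw [hbz] at hw ⊢
    nlinarith
  have h2 : (c : ℤ) - loss ≤ #(out S z u v 1) := by omega
  have h3 : (b : ℤ) * (m - c + loss) ≤ b * loss := by
    refine mul_le_mul_of_nonneg_left ?_ (by positivity)
    have : (m : ℤ) ≤ c := by exact_mod_cast hmc
    omega
  have h4 : dsum S z u v + 2 ≤ b * loss + #(out S z u v 1) := by omega
  have h5 : (#(out S z u v 2) : ℤ) + 2 ≤ b * loss := by omega
  have h6 : c < m + loss := by
    by_contra hlt
    push Not at hlt
    have h7 : (b : ℤ) * (m - c + loss) ≤ 0 := by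
      refine mul_nonpos_of_nonneg_of_nonpos (by positivity) ?_
      have : (m : ℤ) + loss ≤ c := by exact_mod_cast hlt
      omega
    omega
  have h6' : (b + 1) * loss = b * loss + loss := by ring
  have h8 : ((b * loss : ℕ) : ℤ) = b * loss := by push_cast; ring
  have h9 : 2 * b * loss = 2 * (b * loss) := by ring
  have h10 : m ≤ b * m := Nat.le_mul_of_pos_left _ hb1
  -- the distance of one element
  have hdist : ∀ x ∈ S, dst z u v x + 1 ≤ b * loss := by
    intro x hx
    have h11 := dst_add_card_le S z h.uv hx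
    omega
  by_cases ha : L ≤ #(row A (lf H e q₀ S z o u) (-1))
  · by_cases hb : L ≤ #(row A (lf H e q₀ S z o u) b)
    · refine ⟨_, _, Or.inr (mkQ h hn0 hb1 ho0 hn ho hmc (by omega) u ?_ ha hb ?_ ?_)⟩
      · intro i hi hi'
        have h12 := h.row_le hV2 (i := i + u) (by omega) (by omega)
        have h13 : n = V * (m * s) + m * s := by rw [hn, hVb]; ring
        -- `#out ≤ D`
        have h14 : (#(out S z u v 1) : ℤ) + 2 ≤ b * loss + (c - loss : ℤ) := by omega
        omega
      · have h15 : out S z (-1 + u) (b + u) 1 = out S z u v 2 := by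
          ext x
          rw [mem_out, mem_out]
          constructor
          · rintro ⟨h16, h17⟩
            exact ⟨h16, by omega⟩
          · rintro ⟨h16, h17⟩
            exact ⟨h16, by omega⟩
        rw [h15]
        omega
      · intro x hx d hd hxd
        have h11 := hdist x hx
        have h13 : dst z u v x = d + 1 := by
          unfold dst
          split_ifs <;> omega
        omega
    · push Not at hb
      refine ⟨_, _, Or.inl (mkP h hn0 hb1 ho0 hn ho hmc (by omega) (u - 1) ?_ ?_)⟩
      · have h15 : out S z (u - 1) (u - 1 + b) 1 ⊆ row S z (b + u) ∪ out S z u v 2 := by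
          intro x hx
          rw [mem_out] at hx
          rw [mem_union, mem_row, mem_out]
          by_cases h16 : z x = b + u
          · exact Or.inl ⟨hx.1, h16⟩
          · exact Or.inr ⟨hx.1, by omega⟩
        have h16 := (card_le_card h15).trans (card_union_le _ _)
        have h17 := card_row_lf (H := H) (e := e) (q₀ := q₀) (z := z) (o := o) h.sub u b
        omega
      · intro x hx d hd hxd
        have h11 := hdist x hx
        have h13 : (d : ℤ) ≤ dst z u v x := by
          unfold dst
          split_ifs <;> omega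
        omega
  · push Not at ha
    refine ⟨_, _, Or.inl (mkP h hn0 hb1 ho0 hn ho hmc (by omega) u ?_ ?_)⟩
    · have h15 : out S z u (u + b) 1 ⊆ row S z (-1 + u) ∪ out S z u v 2 := by
        intro x hx
        rw [mem_out] at hx
        rw [mem_union, mem_row, mem_out]
        by_cases h16 : z x = -1 + u
        · exact Or.inl ⟨hx.1, h16⟩
        · exact Or.inr ⟨hx.1, by omega⟩
      have h16 := (card_le_card h15).trans (card_union_le _ _)
      have h17 := card_row_lf (H := H) (e := e) (q₀ := q₀) (z := z) (o := o) h.sub u (-1)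
      omega
    · intro x hx d hd hxd
      have h11 := hdist x hx
      have h13 : (d : ℤ) ≤ dst z u v x := by
        unfold dst
        split_ifs <;> omega
      omega

/-- the window is not longer than `b` -/
theorem win_le (h : Amb H e q₀ A S z m t n c s o loss k t' u v) (ho : o = b * m) (hmc : m ≤ c)
    (hm : (b + 1) * loss + 1 ≤ m) : v ≤ u + b := by
  by_contra hlt
  push Not at hlt
  have hw := h.win'
  have hct := h.ct
  have hD := card_out_le_dsum S z h.uv
  have h0 : (0 : ℤ) ≤ dsum S z u v := le_trans (by positivity) hD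
  have hoz : (o : ℤ) = b * m := by exact_mod_cast ho
  have h1 : (t' : ℤ) * (b + 1) ≤ t' * (v - u) := by
    refine mul_le_mul_of_nonneg_left ?_ (by positivity)
    omega
  have h2 : ((m : ℤ) - loss) * (b + 1) ≤ t' * (b + 1) := by
    refine mul_le_mul_of_nonneg_right ?_ (by positivity)
    have : (m : ℤ) ≤ t' + loss := by exact_mod_cast hmc.trans hct
    omega
  have h3 : ((b : ℤ) + 1) * loss + 1 ≤ m := by exact_mod_cast hm
  nlinarith

/-- MODULE STR0 -/
theorem str0 (h : Amb H e q₀ A S z m t n c s o loss k t' u v) (hn0 : ∀ x : G, n • x = 0)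
    (hs : 2 ≤ s) (hb : t = b * s)
    (hmc : m ≤ c) (hE : (b + 3) * (loss + 1) ≤ E) (hL : (b + 2) * (E + 10) ≤ L)
    (hm : 100 * (b + 1) * (L + 10) ≤ m) :
    ∃ (q₁ : G) (z' : G → ℤ), StrP H e q₁ A z' m n c s o b (L + 2 * E) ∨
      StrQ H e q₁ A z' m n c s o b E L := by
  have hst := h.st
  have hb1 : 1 ≤ b := by
    rcases Nat.eq_zero_or_pos b with rfl | hb0
    · omega
    · exact hb0
  have hn : n = b * (m * s) := by
    rw [h.nt, hb]
    ring
  have ho : o = b * m := by
    have h1 := h.os
    have h2 : o * s = (b * m) * s := by rw [h1, hn]; ring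
    exact Nat.eq_of_mul_eq_mul_right (by omega) h2
  have hE1 : (b + 1) * loss + 1 ≤ E := by nlinarith
  have hLE : E ≤ L := by nlinarith
  have hmL : 2 * (b + 1) * L + 1 ≤ m := by nlinarith
  have hm1 : 2 * b * loss + 1 ≤ m := by nlinarith
  have hm2 : (b + 1) * loss + 1 ≤ m := by nlinarith
  have hV1 := win_le h ho hmc hm2
  have huv := h.uv
  rcases lt_trichotomy (v + 1) (u + b) with hlt | heq | hgt
  · exfalso
    obtain ⟨V, hV⟩ : ∃ V : ℕ, v = u + V := ⟨(v - u).toNat, by omega⟩
    have hw := h.win'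
    have hct := h.ct
    have hD := card_out_le_dsum S z h.uv
    have hcard := h.card_le hV
    have hV' : v - u = V := by omega
    rw [hV'] at hw
    have hVb : V + 2 ≤ b := by omega
    have hoz : (o : ℤ) = b * m := by exact_mod_cast ho
    have hnz : (n : ℤ) = b * (m * s) := by exact_mod_cast hn
    have hcz : (n : ℤ) + c ≤ #(out S z u v 1) + (V + 1) * (m * s) + loss := by exact_mod_cast hcard
    have h0 : (0 : ℤ) ≤ #(out S z u v 2) := by positivity
    have h1 : (m : ℤ) - loss ≤ t' := by
      have : (m : ℤ) ≤ t' + loss := by exact_mod_cast hmc.trans hct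
      omega
    have h2 : ((m : ℤ) - loss) * V ≤ t' * V := mul_le_mul_of_nonneg_right h1 (by positivity)
    have h3 : (0 : ℤ) ≤ ((b : ℤ) - V - 1) * (m * (s - 2)) := by
      refine mul_nonneg (by omega) (mul_nonneg (by positivity) ?_)
      have : (2 : ℤ) ≤ s := by exact_mod_cast hs
      omega
    have h4 : (m : ℤ) ≤ c := by exact_mod_cast hmc
    have h5 : (0 : ℤ) ≤ ((b : ℤ) - V - 2) * m := mul_nonneg (by omega) (by positivity)
    have h6 : (0 : ℤ) ≤ ((b : ℤ) - V - 1) * loss := mul_nonneg (by omega) (by positivity)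
    have h7 : ((b : ℤ) + 1) * loss + 1 ≤ m := by exact_mod_cast hm2
    nlinarith
  · exact str_b1 h hn0 hb1 hn ho hmc hE1 hm1 heq
  · have hV : v = u + b := by omega
    refine ⟨_, _, Or.inl (str_b h hn0 hb1 hn ho hmc ?_ hm1 hV)⟩
    omega

/-- MODULE STR1 -/
theorem str1 (h : Amb H e q₀ A S z m t n c 1 o loss k t' u v) (hn0 : ∀ x : G, n • x = 0)
    (ht : 2 ≤ t)
    (hmc : m ≤ c) (hE : (t + 3) * (loss + 1) ≤ E) (hL : (t + 2) * (E + 10) ≤ L)
    (hm : 100 * (t + 1) * (L + 10) ≤ m) :
    ∃ (q₁ : G) (z' : G → ℤ), StrP H e q₁ A z' m n c 1 o t (L + 2 * E) ∨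
      StrQ H e q₁ A z' m n c 1 o t E L := by
  have hb1 : 1 ≤ t := by omega
  have hn : n = t * (m * 1) := by
    rw [h.nt]
    ring
  have ho : o = t * m := by
    have h1 := h.os
    rw [mul_one] at h1
    rw [h1, h.nt]
  have hE1 : (t + 1) * loss + 1 ≤ E := by nlinarith
  have hLE : E ≤ L := by nlinarith
  have hmL : 2 * (t + 1) * L + 1 ≤ m := by nlinarith
  have hm1 : 2 * t * loss + 1 ≤ m := by nlinarith
  have hm2 : (t + 1) * loss + 1 ≤ m := by nlinarith
  have hV1 := win_le h ho hmc hm2
  have huv := h.uv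
  rcases lt_trichotomy (v + 1) (u + t) with hlt | heq | hgt
  · obtain ⟨V, hV⟩ : ∃ V : ℕ, v = u + V := ⟨(v - u).toNat, by omega⟩
    have hw := h.win'
    have hct := h.ct
    have hD := card_out_le_dsum S z h.uv
    have hcard := h.card_le hV
    have hV' : v - u = V := by omega
    rw [hV'] at hw
    have hVb : V + 2 ≤ t := by omega
    have hoz : (o : ℤ) = t * m := by exact_mod_cast ho
    have hnz : (n : ℤ) = t * (m * 1) := by exact_mod_cast hn
    have hcz : (n : ℤ) + c ≤ #(out S z u v 1) + (V + 1) * (m * 1) + loss := by exact_mod_cast hcard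
    have h1 : (c : ℤ) - loss ≤ t' := by
      have : (c : ℤ) ≤ t' + loss := by exact_mod_cast hct
      omega
    have h2 : ((c : ℤ) - loss) * V ≤ t' * V := mul_le_mul_of_nonneg_right h1 (by positivity)
    have h4 : (m : ℤ) ≤ c := by exact_mod_cast hmc
    have h7 : ((t : ℤ) + 1) * loss + 1 ≤ m := by exact_mod_cast hm2
    -- `D - #out + 2 ≤ (V + 1) * (m - c + loss)`
    have h8 : dsum S z u v + 2 ≤ (V + 1) * ((m : ℤ) - c + loss) + #(out S z u v 1) := by
      nlinarith
    have h9 : ((V : ℤ) + 1) * ((m : ℤ) - c + loss) ≤ (V + 1) * loss := by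
      refine mul_le_mul_of_nonneg_left ?_ (by positivity)
      omega
    have h10 : ((V : ℤ) + 1) * loss ≤ t * loss := by
      refine mul_le_mul_of_nonneg_right ?_ (by positivity)
      omega
    have h11 : (#(out S z u v 2) : ℤ) + 2 ≤ t * loss := by omega
    have h12 : c < m + loss := by
      by_contra hge
      push Not at hge
      have h13 : ((V : ℤ) + 1) * ((m : ℤ) - c + loss) ≤ 0 := by
        refine mul_nonpos_of_nonneg_of_nonpos (by positivity) ?_
        have : (m : ℤ) + loss ≤ c := by exact_mod_cast hge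
        omega
      omega
    -- the elements outside are in the two rows next to the window
    have h14 : out S z u v 1 ⊆ (row S z (u - 1) ∪ row S z (v + 1)) ∪ out S z u v 2 := by
      intro x hx
      rw [mem_out] at hx
      rw [mem_union, mem_union, mem_row, mem_row, mem_out]
      by_cases h15 : z x = u - 1
      · exact Or.inl (Or.inl ⟨hx.1, h15⟩)
      by_cases h16 : z x = v + 1
      · exact Or.inl (Or.inr ⟨hx.1, h16⟩)
      exact Or.inr ⟨hx.1, by omega⟩
    have h15 : #(out S z u v 1) ≤ m + m + #(out S z u v 2) := by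
      refine (card_le_card h14).trans ((card_union_le _ _).trans ?_)
      refine Nat.add_le_add_right ((card_union_le _ _).trans ?_) _
      have h16 := card_row_le h.lift (u - 1)
      have h17 := card_row_le h.lift (v + 1)
      rw [h.cardH, mul_one] at h16 h17
      omega
    have h16 : V + 2 = t := by
      by_contra hne
      have h17 : (0 : ℤ) ≤ ((t : ℤ) - V - 3) * m := mul_nonneg (by omega) (by positivity)
      have h18 : (#(out S z u v 1) : ℤ) ≤ m + m + #(out S z u v 2) := by exact_mod_cast h15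
      nlinarith
    have ho0 : 0 < o := by
      rw [ho]
      exact Nat.mul_pos hb1 (by omega)
    have h19 : ((t * loss : ℕ) : ℤ) = t * loss := by push_cast; ring
    have h20 : (t + 1) * loss = t * loss + loss := by ring
    have h21 : 2 * t * loss = 2 * (t * loss) := by ring
    have h22 : m ≤ t * m := Nat.le_mul_of_pos_left _ hb1
    refine ⟨_, _, Or.inl (mkP h hn0 hb1 ho0 hn ho hmc (by omega) (u - 1) ?_ ?_)⟩
    · have h23 : out S z (u - 1) (u - 1 + t) 1 = out S z u v 2 := by
        ext x
        rw [mem_out, mem_out]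
        constructor
        · rintro ⟨h24, h25⟩
          exact ⟨h24, by omega⟩
        · rintro ⟨h24, h25⟩
          exact ⟨h24, by omega⟩
      rw [h23]
      omega
    · intro x hx d hd hxd
      have h24 := dst_add_card_le S z h.uv hx
      have h13 : dst z u v x = d + 1 := by
        unfold dst
        split_ifs <;> omega
      omega
  · exact str_b1 h hn0 hb1 hn ho hmc hE1 hm1 heq
  · have hV : v = u + t := by omega
    refine ⟨_, _, Or.inl (str_b h hn0 hb1 hn ho hmc ?_ hm1 hV)⟩
    omega

end Pool.Agent.Lib.MPa7239a.RK
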