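import Pool.Agent.Lib.MP_a7239a_co.RK.STRC

/-!
# The structure for `t = b * s + ρ`, and the case of a large `c`
-/

open Finset

namespace Pool.Agent.Lib.MPa7239a.RK

open Pool.Agent.Lib.MPa7239a.GC

/-- the numbers of `Amb`, over the integers -/
theorem Amb.nums {G : Type*} [AddCommGroup G] [Finite G] [DecidableEq G] {H : AddSubgroup G}
    {e q₀ : G} {A S : Finset G} {z : G → ℤ} {m t n c s o loss k t' : ℕ} {u v : ℤ}
    (h : Amb H e q₀ A S z m t n c s o loss k t' u v) :
    ∃ r R : ℤ, R = dist S z u v ∧ v = u + r ∧ 0 ≤ r ∧ 0 ≤ R ∧ (t' : ℤ) * r + R + 2 ≤ o ∧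
      (c : ℤ) ≤ t' + loss ∧ (n : ℤ) + c ≤ loss + R + (r + 1) * (m * s) ∧ (o : ℤ) * s = n ∧
      (n : ℤ) = t * m ∧ (1 : ℤ) ≤ s ∧ (s : ℤ) ≤ t := by
  refine ⟨v - u, dist S z u v, rfl, by ring, by linarith [h.uv], dist_nonneg' S z u v, ?_, ?_, ?_,
    by exact_mod_cast h.os, by exact_mod_cast h.nt, by exact_mod_cast h.s1,
    by exact_mod_cast h.st⟩
  · have h1 := h.win
    rw [dist]
    linarith
  · have h1 := h.cardS
    have h2 := h.card
    have h3 := h.kn
    have h4 := h.hloss
    have h5 : c ≤ t' + loss := by omega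
    exact_mod_cast h5
  · have h1 := card_le_out h.lift h.uv
    rw [h.cardH] at h1
    have h2 : n + c ≤ #S + loss := by
      have := h.card
      have := h.hloss
      omega
    have h3 : (n : ℤ) + c ≤ #S + loss := by exact_mod_cast h2
    push_cast at h1
    linarith

theorem strR {G : Type*} [AddCommGroup G] [Finite G] [DecidableEq G] {H : AddSubgroup G}
    {e q₀ : G} {A S : Finset G} {z : G → ℤ} {m t n c s o loss k t' b ρ E : ℕ} {u v : ℤ}
    (h : Amb H e q₀ A S z m t n c s o loss k t' u v) (hn0 : ∀ x : G, n • x = 0)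
    (hb : t = b * s + ρ) (hρ : 1 ≤ ρ)
    (hρs : ρ < s) (hmc : m ≤ c) (hE : (b + 3) * (loss + 1) ≤ E)
    (hm : 100 * s * (b + 1) * (E + 10) ≤ m) :
    ∃ (q₁ : G) (z' : G → ℤ), StrR H e q₁ A z' m n c s o b ρ E := by
  obtain ⟨r, R, hR, hv, hr0, hR0, hwin, hct, hcnt, hos, hn, hs1, hst⟩ := h.nums
  have hb1 : 1 ≤ b := by
    rcases Nat.eq_zero_or_pos b with rfl | h1
    · have := h.st
      omega
    · exact h1
  have hs2 : 2 ≤ s := by omega
  have ho : 0 < o := by
    rcases Nat.eq_zero_or_pos o with h1 | h1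
    · exfalso
      rw [h1] at hwin
      have : 0 ≤ (t' : ℤ) * r := by positivity
      push_cast at hwin
      linarith
    · exact h1
  -- integers
  have hbZ : (t : ℤ) = b * s + ρ := by exact_mod_cast hb
  have hρZ : (1 : ℤ) ≤ ρ := by exact_mod_cast hρ
  have hρsZ : (ρ : ℤ) + 1 ≤ s := by exact_mod_cast hρs
  have hmcZ : (m : ℤ) ≤ c := by exact_mod_cast hmc
  have hEZ : ((b : ℤ) + 3) * (loss + 1) ≤ E := by exact_mod_cast hE
  have hmZ : 100 * (s : ℤ) * (b + 1) * (E + 10) ≤ m := by exact_mod_cast hm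
  have hb1Z : (1 : ℤ) ≤ b := by exact_mod_cast hb1
  have hs2Z : (2 : ℤ) ≤ s := by exact_mod_cast hs2
  have hl0 : (0 : ℤ) ≤ loss := by positivity
  have hnZ : (n : ℤ) = b * s * m + ρ * m := by rw [hn, hbZ]; ring
  -- `m` is large
  have hsb : (0 : ℤ) ≤ s * (b + 1) := by positivity
  have hbl : (0 : ℤ) ≤ b * loss := by positivity
  have hEl : (loss : ℤ) + 3 ≤ E + 10 := by linarith
  have hm2 : 100 * ((s : ℤ) * (b + 1)) * (loss + 3) ≤ m := by
    have h1 : 100 * ((s : ℤ) * (b + 1)) * (loss + 3) ≤ 100 * ((s : ℤ) * (b + 1)) * (E + 10) :=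
      mul_le_mul_of_nonneg_left hEl (by positivity)
    linarith
  have hm0 : (0 : ℤ) ≤ m := by positivity
  have hP : (0 : ℤ) ≤ s * b * loss := by positivity
  have hP' : (0 : ℤ) ≤ s * loss := by positivity
  have hP'' : (0 : ℤ) ≤ s * b := by positivity
  have hP3 : (0 : ℤ) ≤ b * loss := by positivity
  have hP4 : (0 : ℤ) ≤ loss * (s - 1) := mul_nonneg hl0 (by linarith)
  have hP5 : (0 : ℤ) ≤ loss * b * (s - 1) := mul_nonneg (by positivity) (by linarith)
  -- number of rows
  have hrb : r ≤ b := by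
    by_contra hcon
    have h1 : (b : ℤ) + 1 ≤ r := by omega
    have h2 : ((m : ℤ) - loss) * (b + 1) ≤ t' * r := by
      have h3 : (m : ℤ) - loss ≤ t' := by linarith
      have h4 : 0 ≤ (t' : ℤ) := by positivity
      exact (mul_le_mul_of_nonneg_right h3 (by linarith)).trans
        (mul_le_mul_of_nonneg_left h1 h4)
    have h3 : (((m : ℤ) - loss) * (b + 1) + 2) * s ≤ o * s :=
      mul_le_mul_of_nonneg_right (by linarith) (by linarith)
    rw [hos, hnZ] at h3
    have h5 : (1 : ℤ) * m ≤ (s - ρ) * m := mul_le_mul_of_nonneg_right (by linarith) hm0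
    linarith
  have hbr : (b : ℤ) ≤ r := by
    by_contra hcon
    have h1 : r ≤ b - 1 := by omega
    obtain ⟨j, hj⟩ : ∃ j : ℤ, r = b - 1 - j := ⟨b - 1 - r, by ring⟩
    have hj0 : 0 ≤ j := by linarith
    have h2 : ((m : ℤ) - loss) * r ≤ t' * r :=
      mul_le_mul_of_nonneg_right (by linarith) hr0
    have h3 : ((((m : ℤ) - loss) * r) + ((n : ℤ) + m - loss - (r + 1) * (m * s)) + 2) * s ≤
        o * s := by
      refine mul_le_mul_of_nonneg_right ?_ (by linarith)
      linarith
    rw [hos, hnZ] at h3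
    -- the coefficient of `m` is `j s (s - 1) + (s - 1) ρ`
    have h4 : ((((m : ℤ) - loss) * r) + ((b * s * m + ρ * m : ℤ) + m - loss -
        (r + 1) * (m * s)) + 2) * s - (b * s * m + ρ * m) =
        m * (j * (s * (s - 1)) + (s - 1) * ρ) - loss * s * (r + 1) + 2 * s := by
      rw [hj]
      ring
    have h5 : (1 : ℤ) ≤ j * (s * (s - 1)) + (s - 1) * ρ := by
      have h6 : 0 ≤ j * (s * (s - 1)) := mul_nonneg hj0 (mul_nonneg (by linarith) (by linarith))
      have h7 : (1 : ℤ) * ρ ≤ (s - 1) * ρ :=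
        mul_le_mul_of_nonneg_right (by linarith) (by linarith)
      linarith
    have h6 : (m : ℤ) * 1 ≤ m * (j * (s * (s - 1)) + (s - 1) * ρ) :=
      mul_le_mul_of_nonneg_left h5 hm0
    have h7 : (loss : ℤ) * s * (r + 1) ≤ loss * s * b :=
      mul_le_mul_of_nonneg_left (by linarith) (by positivity)
    linarith
  have hr : r = b := le_antisymm hrb hbr
  subst hr
  have hv' : v = u + b := hv
  have hwb : (c : ℤ) * b + R + 2 ≤ o + loss * b := by
    have h1 : ((c : ℤ) - loss) * b ≤ t' * b :=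
      mul_le_mul_of_nonneg_right (by linarith) (by linarith)
    linarith
  obtain ⟨z', hz1, hz2, hz3⟩ := exists_lift (z := z) u ho h.lift h.gen h.order
  have hout : ∀ d : ℕ, #(out A z' 0 b d) ≤ #(out S z u v d) + loss := by
    intro d
    have h1 := card_out_le hz1 h.sub h.hloss 0 b d
    rw [zero_add, add_comm (b : ℤ) u, ← hv'] at h1
    exact h1
  have hdist : ∀ d : ℕ, 1 ≤ d → (d : ℤ) * #(out S z u v d) ≤ R := by
    intro d hd
    rw [hR]
    exact mul_card_out_le S z u v hd
  refine ⟨q₀ + u • e, z', ⟨h.card, hn0 _, hz2, h.cardH, hb1, hρ, hρs, ?_, h.os, h.order, hmc,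
    ?_, ?_, ?_⟩⟩
  · rw [h.nt, hb]
    ring
  · -- `b c ≤ o + b E`
    have h1 : (b : ℤ) * c ≤ o + b * E := by
      have h2 : (loss : ℤ) ≤ E := by linarith
      have h3 : (loss : ℤ) * b ≤ E * b := mul_le_mul_of_nonneg_right h2 (by linarith)
      linarith
    exact_mod_cast h1
  · -- few
    have h1 := hout 1
    have h2 := hdist 1 le_rfl
    have h3 : (#(out A z' 0 b 1) : ℤ) ≤ #(out S z u v 1) + loss := by exact_mod_cast h1
    have h4 : (#(out A z' 0 b 1) : ℤ) + b * m ≤ o + E := by
      have h5 : (m : ℤ) * b ≤ c * b := mul_le_mul_of_nonneg_right hmcZ (by linarith)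
      push_cast at h2
      linarith
    exact_mod_cast h4
  · -- near
    intro x hx d hd hzx
    have hd' : (1 : ℤ) ≤ d := by exact_mod_cast hd
    obtain ⟨N, hN⟩ : ∃ N : ℤ, N = (#(out S z u v d) : ℤ) := ⟨_, rfl⟩
    have hN0 : 0 ≤ N := by
      rw [hN]
      positivity
    have h1 : (#(out A z' 0 b d) : ℤ) ≤ N + loss := by
      rw [hN]
      exact_mod_cast hout d
    have h2 : (d : ℤ) * N ≤ R := by
      rw [hN]
      exact hdist d hd
    -- if `x ∈ S` then `1 ≤ N`
    have h3 : x ∈ S → 1 ≤ N := by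
      intro hxS
      have h4 : 0 < #(out S z u v d) := by
        refine card_pos.2 ⟨x, mem_out.2 ⟨hxS, ?_⟩⟩
        rw [hz1 x hxS] at hzx
        rcases hzx with h5 | h5
        · right
          linarith
        · left
          linarith
      have h5 : 1 ≤ #(out S z u v d) := h4
      rw [hN]
      exact_mod_cast h5
    -- `2 R ≤ o`
    have hsm : (s : ℤ) * m ≤ b * (s * m) := by
      have h4 : (0 : ℤ) ≤ s * m := by positivity
      have h5 := mul_le_mul_of_nonneg_right hb1Z h4
      linarith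
    have hR2 : 2 * R ≤ o := by
      have h4 : (s : ℤ) * o ≤ 2 * (b * (s * m)) - m := by
        have h5 : (ρ : ℤ) * m ≤ (s - 1) * m := mul_le_mul_of_nonneg_right (by linarith) hm0
        linarith
      have h5 : (m : ℤ) * b ≤ c * b := mul_le_mul_of_nonneg_right hmcZ (by linarith)
      have h6 : R ≤ o + loss * b - m * b - 2 := by linarith
      have h7 : (s : ℤ) * (2 * R) ≤ s * (2 * (o + loss * b - m * b - 2)) :=
        mul_le_mul_of_nonneg_left (by linarith) (by linarith)
      have h8 : (s : ℤ) * (2 * R) ≤ s * o := by linarith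
      exact le_of_mul_le_mul_left h8 (by linarith)
    have hxS' : x ∉ S → 2 * (d : ℤ) ≤ o := by
      intro hxS
      have h4 := hz3 x hx hxS
      rcases hzx with h5 | h5
      · rw [h5] at h4
        rw [abs_of_nonneg (by positivity)] at h4
        linarith
      · rw [h5, zero_sub, abs_neg, abs_of_nonneg (by positivity)] at h4
        exact h4
    constructor
    · have h4 : 2 * (d : ℤ) ≤ o + 10 := by
        by_cases hxS : x ∈ S
        · have h5 := mul_le_mul_of_nonneg_left (h3 hxS) (by linarith : (0 : ℤ) ≤ d)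
          linarith
        · linarith [hxS' hxS]
      exact_mod_cast h4
    · have hgoal : (d : ℤ) + b * (N + loss + 2) ≤ b * c := by
        have h5 : (m : ℤ) * (b + 1) ≤ c * (b + 1) :=
          mul_le_mul_of_nonneg_right hmcZ (by linarith)
        by_cases hN1 : 1 ≤ N
        · have h4 : (d : ℤ) + N ≤ R + 1 := by
            have h5 := mul_nonneg (by linarith : (0 : ℤ) ≤ d - 1) (by linarith : 0 ≤ N - 1)
            linarith
          -- `o + loss (b + 1) + 1 ≤ m (b + 1)`
          have h6 : (s : ℤ) * (o + loss * (b + 1) + 1) ≤ s * (m * (b + 1)) := by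
            have h7 : (1 : ℤ) * m ≤ (s - ρ) * m := mul_le_mul_of_nonneg_right (by linarith) hm0
            linarith
          have h7 : (o : ℤ) + loss * (b + 1) + 1 ≤ m * (b + 1) :=
            le_of_mul_le_mul_left h6 (by linarith)
          have h8 : R + loss + 3 ≤ c := by linarith
          have h9 : (b : ℤ) * (R + loss + 3) ≤ b * c :=
            mul_le_mul_of_nonneg_left h8 (by linarith)
          have h10 : (b : ℤ) * (d + N) ≤ b * (R + 1) :=
            mul_le_mul_of_nonneg_left h4 (by linarith)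
          have h11 : (1 : ℤ) * d ≤ b * d := mul_le_mul_of_nonneg_right hb1Z (by linarith)
          linarith
        · have hN00 : N = 0 := by omega
          have hxS : x ∉ S := fun hxS => hN1 (h3 hxS)
          have h4 := hxS' hxS
          rw [hN00]
          have h6 : (s : ℤ) * (o + 2 * b * (loss + 2)) ≤ s * (2 * b * m) := by
            have h7 : (ρ : ℤ) * m ≤ (s - 1) * m := mul_le_mul_of_nonneg_right (by linarith) hm0
            linarith
          have h7 : (o : ℤ) + 2 * b * (loss + 2) ≤ 2 * b * m :=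
            le_of_mul_le_mul_left h6 (by linarith)
          have h8 : (b : ℤ) * m ≤ b * c := mul_le_mul_of_nonneg_left hmcZ (by linarith)
          linarith
      have h4 : (d : ℤ) + b * (#(out A z' 0 b d) + 2) ≤ b * c := by
        have h5 : (b : ℤ) * (#(out A z' 0 b d) + 2) ≤ b * (N + loss + 2) :=
          mul_le_mul_of_nonneg_left (by linarith) (by linarith)
        linarith
      exact_mod_cast h4

theorem big_c {G : Type*} [AddCommGroup G] [Finite G] [DecidableEq G] {H : AddSubgroup G}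
    {e q₀ : G} {A S : Finset G} {z : G → ℤ} {m t n c s o loss k t' : ℕ} {u v : ℤ}
    (h : Amb H e q₀ A S z m t n c s o loss k t' u v) (ht : 2 ≤ t) (hm : 1000 * t * (loss + 1) ≤ m)
    (hc : c + 3 * loss = n) : False := by
  obtain ⟨r, R, hR, hv, hr0, hR0, hwin, hct, hcnt, hos, hn, hs1, hst⟩ := h.nums
  have htZ : (2 : ℤ) ≤ t := by exact_mod_cast ht
  have hmZ : 1000 * (t : ℤ) * (loss + 1) ≤ m := by exact_mod_cast hm
  have hcZ : (c : ℤ) + 3 * loss = n := by exact_mod_cast hc
  have hl0 : (0 : ℤ) ≤ loss := by positivity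
  have hm0 : (0 : ℤ) ≤ m := by positivity
  have ho0 : (0 : ℤ) ≤ o := by positivity
  have hm1 : 2000 * ((loss : ℤ) + 1) ≤ m := by
    have h1 := mul_le_mul_of_nonneg_right htZ (by linarith : (0 : ℤ) ≤ 1000 * (loss + 1))
    linarith
  have hn2 : 2 * (m : ℤ) ≤ n := by
    rw [hn]
    exact mul_le_mul_of_nonneg_right htZ hm0
  have hon : (o : ℤ) ≤ n := by
    have h1 := mul_le_mul_of_nonneg_left hs1 ho0
    linarith
  have hms : (m : ℤ) * s ≤ n := by
    rw [hn, mul_comm]
    exact mul_le_mul_of_nonneg_right hst hm0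
  have ht' : (n : ℤ) - 4 * loss ≤ t' := by linarith
  have ht0 : (0 : ℤ) ≤ t' := by positivity
  rcases (by omega : r = 0 ∨ r = 1 ∨ 2 ≤ r) with h0 | h0 | h0
  · rw [h0] at hwin hcnt
    rcases (by omega : (s : ℤ) = 1 ∨ 2 ≤ (s : ℤ)) with h1 | h1
    · rw [h1] at hcnt
      linarith
    · have h2 : 2 * (o : ℤ) ≤ n := by
        have h3 := mul_le_mul_of_nonneg_left h1 ho0
        linarith
      linarith
  · rw [h0] at hwin hcnt
    rcases (by omega : (s : ℤ) = 1 ∨ 2 ≤ (s : ℤ)) with h1 | h1
    · rw [h1] at hcnt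
      linarith
    · have h2 : 2 * (o : ℤ) ≤ n := by
        have h3 := mul_le_mul_of_nonneg_left h1 ho0
        linarith
      linarith
  · have h1 := mul_le_mul_of_nonneg_left h0 ht0
    linarith

end Pool.Agent.Lib.MPa7239a.RK
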