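import Pool.Agent.Lib.MP_a7239a_co.RK.Defs

/-!
# Lower bounds in `ZMod m × ZMod (t * m)` (Theorem R, module LOW: low1, low2, cyc1, cyc2)
-/

open Finset

namespace Pool.Agent.Lib.MPa7239a.RK

open Pool.Agent.Lib.MPa7239a.GC

/-- cyclically free sets are free -/
theorem CycFree.not_hit {G : Type*} [AddCommGroup G] {A : Finset G} {n : ℕ}
    (h : CycFree A n) : ¬ Hit A n 0 := by
  rintro ⟨T, hT, hTc, hTs⟩
  obtain ⟨o, φ, -, -, hφ⟩ := h
  exact hφ T hT hTc (by rw [hTs, map_zero])

/-- the sum of all residues -/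
theorem sum_zmod (m : ℕ) [NeZero m] :
    ∑ x : ZMod m, x = ((∑ i ∈ range m, i : ℕ) : ZMod m) := by
  obtain ⟨k, rfl⟩ : ∃ k, m = k + 1 := ⟨m - 1, by have := NeZero.ne m; omega⟩
  have h1 : ∑ x : ZMod (k + 1), x = ∑ x : Fin (k + 1), ((x : ℕ) : ZMod (k + 1)) :=
    sum_congr rfl fun x _ => (ZMod.natCast_zmod_val x).symm
  rw [h1, Fin.sum_univ_eq_sum_range (fun i => (i : ZMod (k + 1))) (k + 1), Nat.cast_sum]

theorem sum_zmod_ne {m : ℕ} [NeZero m] (hm : Even m) : ∑ x : ZMod m, x ≠ 0 := by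
  rw [sum_zmod, Ne, ZMod.natCast_eq_zero_iff]
  rintro ⟨k, hk⟩
  have h1 := sum_range_id_mul_two m
  rw [hk] at h1
  have hm0 : 0 < m := Nat.pos_of_ne_zero (NeZero.ne m)
  have h2 : k * 2 = m - 1 := by
    refine Nat.eq_of_mul_eq_mul_left hm0 ?_
    rw [← h1]
    ring
  obtain ⟨r, hr⟩ := hm
  omega

theorem two_sum_zmod (m : ℕ) [NeZero m] : 2 • ∑ x : ZMod m, x = 0 := by
  rw [sum_zmod, nsmul_eq_mul, ← Nat.cast_mul, ZMod.natCast_eq_zero_iff, mul_comm,
    sum_range_id_mul_two]
  exact dvd_mul_right _ _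

section TwoRows

variable {m n : ℕ} {P Q : Finset (ZMod n)} {T : Finset (ZMod m × ZMod n)}

/-- the sum of the first coordinates for a subset of two rows -/
theorem fst_sum_two (hm : 1 < m)
    (hT : T ⊆ ({0} : Finset (ZMod m)) ×ˢ P ∪ ({1} : Finset (ZMod m)) ×ˢ Q) :
    (∑ x ∈ T, x).1 = (#(T.filter (fun x => x.1 = 1)) : ZMod m) ∧
      #(T.filter (fun x => x.1 = 1)) ≤ #Q := by
  have : Fact (1 < m) := ⟨hm⟩
  have h1 : ∀ x ∈ T, x.1 = if x.1 = 1 then 1 else 0 := by
    intro x hx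
    rcases mem_union.1 (hT hx) with h | h
    · have h2 := mem_singleton.1 (mem_product.1 h).1
      rw [h2, if_neg (zero_ne_one)]
    · have h2 := mem_singleton.1 (mem_product.1 h).1
      rw [h2, if_pos rfl]
  constructor
  · rw [Prod.fst_sum, sum_congr rfl h1, sum_boole]
  · have h2 : T.filter (fun x => x.1 = 1) ⊆ ({1} : Finset (ZMod m)) ×ˢ Q := by
      intro x hx
      obtain ⟨hx1, hx2⟩ := mem_filter.1 hx
      rcases mem_union.1 (hT hx1) with h | h
      · have h3 := mem_singleton.1 (mem_product.1 h).1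
        rw [hx2] at h3
        exact absurd h3 one_ne_zero
      · exact h
    have h3 := card_le_card h2
    rwa [card_product, card_singleton, one_mul] at h3

/-- if the sum of the first coordinates is zero, `T` lies in the first row -/
theorem subset_of_fst (hm : 1 < m)
    (hT : T ⊆ ({0} : Finset (ZMod m)) ×ˢ P ∪ ({1} : Finset (ZMod m)) ×ˢ Q) (hQ : #Q < m)
    (h0 : (∑ x ∈ T, x).1 = 0) : T ⊆ ({0} : Finset (ZMod m)) ×ˢ P := by
  obtain ⟨h1, h2⟩ := fst_sum_two hm hT
  rw [h1, ZMod.natCast_eq_zero_iff] at h0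
  have h3 := Nat.eq_zero_of_dvd_of_lt h0 (by omega)
  rw [card_eq_zero] at h3
  intro x hx
  rcases mem_union.1 (hT hx) with h | h
  · exact h
  · have h4 : x ∈ T.filter (fun x => x.1 = 1) :=
      mem_filter.2 ⟨hx, mem_singleton.1 (mem_product.1 h).1⟩
    rw [h3] at h4
    exact absurd h4 (notMem_empty _)

theorem card_two (hm : 1 < m) : #(({0} : Finset (ZMod m)) ×ˢ P ∪ ({1} : Finset (ZMod m)) ×ˢ Q) =
    #P + #Q := by
  have : Fact (1 < m) := ⟨hm⟩
  rw [card_union_of_disjoint, card_product, card_product, card_singleton, card_singleton,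
    one_mul, one_mul]
  rw [disjoint_left]
  intro x h h'
  have h1 := mem_singleton.1 (mem_product.1 h).1
  have h2 := mem_singleton.1 (mem_product.1 h').1
  exact zero_ne_one (h1.symm.trans h2)

end TwoRows

theorem cyc1 {m t : ℕ} (ht : 2 ≤ t) (hm : 3 ≤ m) :
    ∃ A : Finset (ZMod m × ZMod (t * m)), #A + 2 = (t + 1) * m ∧ CycFree A (t * m) := by
  have hn : 0 < t * m := by positivity
  have : NeZero (t * m) := ⟨hn.ne'⟩
  have hmn : m ≤ t * m := Nat.le_mul_of_pos_left m (by omega)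
  have hcard : #(univ : Finset (ZMod (t * m))) = t * m := by rw [card_univ, ZMod.card]
  obtain ⟨P, -, hP⟩ := exists_subset_card_eq (s := (univ : Finset (ZMod (t * m))))
    (n := t * m - 1) (by omega)
  obtain ⟨Q, -, hQ⟩ := exists_subset_card_eq (s := (univ : Finset (ZMod (t * m))))
    (n := m - 1) (by omega)
  refine ⟨({0} : Finset (ZMod m)) ×ˢ P ∪ ({1} : Finset (ZMod m)) ×ˢ Q, ?_,
    m, AddMonoidHom.fst _ _, by omega, Prod.fst_surjective, ?_⟩
  · rw [card_two (by omega), hP, hQ, add_mul, one_mul]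
    omega
  · intro T hT hTc h0
    have h1 := subset_of_fst (by omega) hT (by omega) h0
    have h2 := card_le_card h1
    rw [card_product, card_singleton, one_mul, hP, hTc] at h2
    omega

/-- the rows `0, ..., t` -/
theorem rows_all {m t : ℕ} (ht : 2 ≤ t) (hm : 3 ≤ m) [NeZero m] [NeZero (t * m)] :
    ∃ J : Finset (ZMod (t * m)), #J = t + 1 ∧ (∀ y ∈ J, y.val ≤ t) ∧
      (∀ j ≤ t, ((j : ℕ) : ZMod (t * m)) ∈ J) ∧
      ∑ x ∈ (univ : Finset (ZMod m)) ×ˢ J, x.2.val * 2 = m * (t * (t + 1)) := by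
  have htm : t < t * m := by nlinarith
  have hval : ∀ j ≤ t, ((j : ℕ) : ZMod (t * m)).val = j := fun j hj =>
    ZMod.val_cast_of_lt (by omega)
  have hinj : Set.InjOn (fun j : ℕ => (j : ZMod (t * m))) (range (t + 1)) := by
    intro a ha b hb hab
    rw [coe_range, Set.mem_Iio] at ha hb
    have := congrArg ZMod.val hab
    rwa [hval a (by omega), hval b (by omega)] at this
  refine ⟨(range (t + 1)).image (fun j : ℕ => (j : ZMod (t * m))), ?_, ?_, ?_, ?_⟩
  · rw [card_image_of_injOn hinj, card_range]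
  · intro y hy
    obtain ⟨j, hj, rfl⟩ := mem_image.1 hy
    rw [mem_range] at hj
    rw [hval j (by omega)]
    omega
  · intro j hj
    exact mem_image.2 ⟨j, mem_range.2 (by omega), rfl⟩
  · rw [sum_product]
    simp only
    rw [sum_const, card_univ, ZMod.card, smul_eq_mul, sum_image hinj]
    congr 1
    have h1 : ∑ j ∈ range (t + 1), ((j : ℕ) : ZMod (t * m)).val * 2 =
        ∑ j ∈ range (t + 1), j * 2 := by
      refine sum_congr rfl fun j hj => ?_
      rw [mem_range] at hj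
      rw [hval j (by omega)]
    rw [h1, ← sum_mul, sum_range_id_mul_two, Nat.add_sub_cancel, mul_comm]

/-- the second coordinate of a sum -/
theorem snd_sum {m n : ℕ} [NeZero n] (T : Finset (ZMod m × ZMod n)) :
    (∑ x ∈ T, x).2 = ((∑ x ∈ T, x.2.val : ℕ) : ZMod n) := by
  rw [Prod.snd_sum, Nat.cast_sum]
  exact sum_congr rfl fun x _ => (ZMod.natCast_zmod_val x.2).symm

theorem cyc2 {m t : ℕ} (ht : 2 ≤ t) (hm : 3 ≤ m) (hto : Odd t) :
    ∃ A : Finset (ZMod m × ZMod (t * m)), #A + 1 = (t + 1) * m ∧ CycFree A (t * m) := by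
  have hn : 0 < t * m := by positivity
  have : NeZero (t * m) := ⟨hn.ne'⟩
  have : NeZero m := ⟨by omega⟩
  have htm : t < t * m := by nlinarith
  obtain ⟨J, hJc, hJv, hJm, hJs⟩ := rows_all ht hm
  set F := (univ : Finset (ZMod m)) ×ˢ J with hF
  have hFc : #F = m * (t + 1) := by rw [hF, card_product, card_univ, ZMod.card, hJc]
  set a : ZMod m × ZMod (t * m) := (0, ((1 : ℕ) : ZMod (t * m))) with ha
  have haF : a ∈ F := mem_product.2 ⟨mem_univ _, hJm 1 (by omega)⟩
  have hav : a.2.val = 1 := ZMod.val_cast_of_lt (by omega)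
  refine ⟨F.erase a, ?_, t * m, AddMonoidHom.snd _ _, by omega, Prod.snd_surjective, ?_⟩
  · rw [card_erase_of_mem haF, hFc, mul_comm m]
    have : 0 < (t + 1) * m := by positivity
    omega
  · intro T hT hTc h0
    rw [AddMonoidHom.coe_snd, snd_sum, ZMod.natCast_eq_zero_iff] at h0
    have h1 := sum_sdiff (f := fun x : ZMod m × ZMod (t * m) => x.2.val) hT
    have h2 := add_sum_erase F (fun x : ZMod m × ZMod (t * m) => x.2.val) haF
    rw [hav] at h2
    have h3 : ∑ x ∈ F.erase a \ T, x.2.val ≤ #(F.erase a \ T) * t := by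
      refine sum_le_card_nsmul _ _ _ fun x hx => ?_
      exact hJv _ (mem_product.1 (mem_of_mem_erase (mem_sdiff.1 hx).1)).2
    rw [card_sdiff_of_subset hT, card_erase_of_mem haF, hFc, hTc] at h3
    rw [← sum_mul] at hJs
    obtain ⟨k, hk⟩ := h0
    obtain ⟨r, hr⟩ := hto
    -- `t = 2 r + 1`, `∑_F = m t (r + 1)`
    have h4 : ∑ x ∈ F, x.2.val = t * m * (r + 1) := by
      have : (∑ x ∈ F, x.2.val) * 2 = t * m * (r + 1) * 2 := by
        rw [hJs, hr]
        ring
      omega
    have h5 : m * (t + 1) - 1 - t * m = m - 1 := by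
      have : m * (t + 1) = t * m + m := by ring
      omega
    rw [h5] at h3
    have h6 : (m - 1) * t + t = t * m := by
      obtain ⟨m', rfl⟩ : ∃ m', m = m' + 1 := ⟨m - 1, by omega⟩
      rw [Nat.add_sub_cancel]
      ring
    -- `t m k` is strictly between `t m r` and `t m (r + 1)`
    have h7 : t * m * k < t * m * (r + 1) := by omega
    have h8 : t * m * r < t * m * k := by
      have : t * m * (r + 1) = t * m * r + t * m := by ring
      omega
    have h9 := Nat.lt_of_mul_lt_mul_left h7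
    have h10 := Nat.lt_of_mul_lt_mul_left h8
    omega

theorem low1 {m t : ℕ} (ht : 2 ≤ t) (hm : 3 ≤ m) :
    ∃ A : Finset (ZMod m × ZMod (t * m)), #A + 1 = (t + 1) * m ∧ ¬ Hit A (t * m) 0 := by
  rcases Nat.even_or_odd t with hte | hto
  · have hn : 0 < t * m := by positivity
    have : NeZero (t * m) := ⟨hn.ne'⟩
    have hmn : m ≤ t * m := Nat.le_mul_of_pos_left m (by omega)
    have hcard : #(univ : Finset (ZMod (t * m))) = t * m := by rw [card_univ, ZMod.card]
    obtain ⟨Q, -, hQ⟩ := exists_subset_card_eq (s := (univ : Finset (ZMod (t * m))))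
      (n := m - 1) (by omega)
    refine ⟨({0} : Finset (ZMod m)) ×ˢ univ ∪ ({1} : Finset (ZMod m)) ×ˢ Q, ?_, ?_⟩
    · rw [card_two (by omega), hcard, hQ, add_mul, one_mul]
      omega
    · rintro ⟨T, hT, hTc, hTs⟩
      have h1 := subset_of_fst (by omega) hT (by omega) (by rw [hTs]; rfl)
      have h2 : T = ({0} : Finset (ZMod m)) ×ˢ univ := by
        refine eq_of_subset_of_card_le h1 ?_
        rw [card_product, card_singleton, one_mul, hcard, hTc]
      have h3 : (∑ x ∈ T, x).2 = 0 := by rw [hTs]; rfl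
      rw [h2, Prod.snd_sum, sum_product] at h3
      simp only [sum_singleton] at h3
      exact sum_zmod_ne (hte.mul_right m) h3
  · obtain ⟨A, hA, hcyc⟩ := cyc2 ht hm hto
    exact ⟨A, hA, hcyc.not_hit⟩

theorem low2 {m t : ℕ} (ht : 2 ≤ t) (hm : 3 ≤ m) (hto : Odd t) (hme : Even m) :
    ∃ A : Finset (ZMod m × ZMod (t * m)), #A = (t + 1) * m ∧ ¬ Hit A (t * m) 0 := by
  have hn : 0 < t * m := by positivity
  have : NeZero (t * m) := ⟨hn.ne'⟩
  have : NeZero m := ⟨by omega⟩
  have htm : t < t * m := by nlinarith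
  obtain ⟨J, hJc, hJv, hJm, hJs⟩ := rows_all ht hm
  set F := (univ : Finset (ZMod m)) ×ˢ J with hF
  have hFc : #F = m * (t + 1) := by rw [hF, card_product, card_univ, ZMod.card, hJc]
  refine ⟨F, by rw [hFc, mul_comm], ?_⟩
  rintro ⟨T, hT, hTc, hTs⟩
  have h0 : (∑ x ∈ T, x).2 = 0 := by rw [hTs]; rfl
  rw [snd_sum, ZMod.natCast_eq_zero_iff] at h0
  have h1 := sum_sdiff (f := fun x : ZMod m × ZMod (t * m) => x.2.val) hT
  have hle : ∀ x ∈ F \ T, x.2.val ≤ t := fun x hx =>
    hJv _ (mem_product.1 (mem_sdiff.1 hx).1).2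
  have hDc : #(F \ T) = m := by
    rw [card_sdiff_of_subset hT, hFc, hTc]
    have : m * (t + 1) = t * m + m := by ring
    omega
  have h3 : ∑ x ∈ F \ T, x.2.val ≤ m * t := by
    have := sum_le_card_nsmul (F \ T) (fun x => x.2.val) t hle
    rwa [hDc] at this
  rw [← sum_mul] at hJs
  obtain ⟨k, hk⟩ := h0
  obtain ⟨r, hr⟩ := hto
  have h4 : ∑ x ∈ F, x.2.val = t * m * (r + 1) := by
    have : (∑ x ∈ F, x.2.val) * 2 = t * m * (r + 1) * 2 := by
      rw [hJs, hr]
      ring
    omega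
  -- the omitted rows
  have h5 : ∃ j : ZMod (t * m), j ∈ J ∧ ∀ x ∈ F \ T, x.2 = j := by
    have h6 : t * m * k ≤ t * m * (r + 1) := by omega
    have h7 : t * m * r ≤ t * m * k := by
      have h8 : t * m * (r + 1) = t * m * r + t * m := by ring
      have h9 : m * t = t * m := mul_comm _ _
      omega
    have h6' := Nat.le_of_mul_le_mul_left h6 hn
    have h7' := Nat.le_of_mul_le_mul_left h7 hn
    rcases (show k = r + 1 ∨ k = r by omega) with h | h
    · refine ⟨((0 : ℕ) : ZMod (t * m)), hJm 0 (by omega), fun x hx => ?_⟩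
      have h8 : ∑ x ∈ F \ T, x.2.val = 0 := by
        rw [hk, h4, h] at h1
        omega
      have h9 := (sum_eq_zero_iff.1 h8) x hx
      rw [← ZMod.natCast_zmod_val x.2, h9]
    · refine ⟨((t : ℕ) : ZMod (t * m)), hJm t le_rfl, fun x hx => ?_⟩
      have h8 : ∑ x ∈ F \ T, x.2.val = m * t := by
        rw [hk, h4, h] at h1
        have h10 : t * m * (r + 1) = t * m * r + m * t := by ring
        omega
      have h9 : x.2.val = t := by
        by_contra hne
        have hlt : x.2.val < t := lt_of_le_of_ne (hle x hx) hne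
        have h10 : ∑ x ∈ F \ T, x.2.val < ∑ _x ∈ F \ T, t :=
          sum_lt_sum hle ⟨x, hx, hlt⟩
        rw [sum_const, hDc, smul_eq_mul] at h10
        omega
      rw [← ZMod.natCast_zmod_val x.2, h9]
  obtain ⟨j, hj, hjD⟩ := h5
  have h6 : F \ T = (univ : Finset (ZMod m)) ×ˢ {j} := by
    refine eq_of_subset_of_card_le (fun x hx => ?_) ?_
    · exact mem_product.2 ⟨mem_univ _, mem_singleton.2 (hjD x hx)⟩
    · rw [card_product, card_univ, ZMod.card, card_singleton, mul_one, hDc]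
  -- the first coordinates
  have h7 := sum_sdiff (f := fun x : ZMod m × ZMod (t * m) => x.1) hT
  have h8 : ∑ x ∈ T, x.1 = 0 := by
    rw [← Prod.fst_sum, hTs]
    rfl
  rw [h8, add_zero, h6, hF, sum_product, sum_product] at h7
  simp only [sum_const, card_singleton, one_smul, hJc] at h7
  rw [← smul_sum, succ_nsmul, hr] at h7
  have h9 : (2 * r + 1) • ∑ x : ZMod m, x = 0 := by
    have h10 : ∑ x : ZMod m, x = (2 * r + 1) • ∑ x : ZMod m, x + ∑ x : ZMod m, x := h7
    have h11 := sub_eq_zero.2 h10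
    rw [← neg_eq_zero]
    rw [← h11]
    abel
  rw [succ_nsmul, mul_comm, mul_smul, two_sum_zmod, smul_zero, zero_add] at h9
  exact sum_zmod_ne hme h9

end Pool.Agent.Lib.MPa7239a.RK
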