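import Pool.Agent.Lib.MP_a7239a_co.GC.WIN

/-!
# The window of the `k`-subset sums with two thresholds
-/

open Finset

namespace Pool.Agent.Lib.MPa7239a.RK

/-- the `t` largest elements, with their least value `v` -/
theorem top_value {G : Type*} [DecidableEq G] (S : Finset G) (z : G → ℤ) {t : ℕ} (ht : 1 ≤ t)
    (hS : t ≤ #S) : ∃ T ⊆ S, ∃ v : ℤ, #T = t ∧ (∀ x ∈ T, v ≤ z x) ∧ (∀ x ∈ S \ T, z x ≤ v) ∧
      #(S.filter (fun x => v < z x)) < t ∧ ∑ x ∈ T, z x = t * v + ∑ x ∈ S.filter (fun x => v < z x), (z x - v) := by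
  obtain ⟨T, hT, hTc, hTz⟩ := GC.exists_top S z hS
  have hne : T.Nonempty := by
    rw [← card_pos]
    omega
  obtain ⟨w, hw, hmin⟩ := exists_min_image T z hne
  refine ⟨T, hT, z w, hTc, hmin, fun x hx => hTz w hw x hx, ?_⟩
  have h1 : S.filter (fun x => z w < z x) = T.filter (fun x => z w < z x) := by
    ext x
    rw [mem_filter, mem_filter]
    constructor
    · rintro ⟨h, h2⟩
      refine ⟨?_, h2⟩
      by_contra hx
      have := hTz w hw x (mem_sdiff.2 ⟨h, hx⟩)
      omega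
    · rintro ⟨h, h2⟩
      exact ⟨hT h, h2⟩
  have h2 : ∑ x ∈ T.filter (fun x => z w < z x), (z x - z w) = ∑ x ∈ T, (z x - z w) := by
    refine sum_filter_of_ne fun x hx h => ?_
    have := hmin x hx
    omega
  rw [h1]
  constructor
  · rw [← hTc]
    refine card_lt_card ⟨filter_subset _ _, fun h => ?_⟩
    exact lt_irrefl _ (mem_filter.1 (h hw)).2
  · rw [h2, sum_sub_distrib, sum_const, hTc, nsmul_eq_mul]
    ring

/-- **window with two thresholds** -/
theorem window2 {G : Type*} [DecidableEq G] (S : Finset G) (z : G → ℤ) {k t : ℕ} (ht : 1 ≤ t)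
    (htk : t ≤ k) (hS : #S = k + t) :
    ∃ u v : ℤ, u ≤ v ∧ t ≤ #(S.filter (fun x => z x ≤ u)) ∧
      t ≤ #(S.filter (fun x => v ≤ z x)) ∧
      ∃ U₁ ⊆ S, ∃ U₂ ⊆ S, #U₁ = k ∧ #U₂ = k ∧
        ∑ x ∈ U₁, z x + (t * (v - u) + ∑ x ∈ S.filter (fun x => v < z x), (z x - v) +
          ∑ x ∈ S.filter (fun x => z x < u), (u - z x)) ≤ ∑ x ∈ U₂, z x := by
  obtain ⟨T, hT, v, hTc, hTv, hTv', hTn, hTs⟩ := top_value S z (t := t) ht (by omega)
  obtain ⟨B, hB, u', hBc, hBu, hBu', -, hBs⟩ := top_value S (fun x => -z x) (t := t) ht (by omega)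
  obtain ⟨u, rfl⟩ : ∃ u, u' = -u := ⟨-u', by ring⟩
  have h3 : S.filter (fun x => -u < -z x) = S.filter (fun x => z x < u) :=
    filter_congr fun x _ => neg_lt_neg_iff
  have h4 : ∑ x ∈ S.filter (fun x => z x < u), (-z x - -u) =
      ∑ x ∈ S.filter (fun x => z x < u), (u - z x) := sum_congr rfl fun x _ => by ring
  rw [h3, h4, sum_neg_distrib] at hBs
  refine ⟨u, v, ?_, ?_, ?_, S \ T, sdiff_subset, S \ B, sdiff_subset, ?_, ?_, ?_⟩
  · by_contra hcon
    push Not at hcon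
    have h5 : S \ B ⊆ S.filter (fun x => v < z x) := by
      intro x hx
      have h6 := hBu' x hx
      exact mem_filter.2 ⟨(mem_sdiff.1 hx).1, by omega⟩
    have h6 := card_le_card h5
    rw [card_sdiff_of_subset hB] at h6
    omega
  · rw [← hBc]
    refine card_le_card fun x hx => mem_filter.2 ⟨hB hx, ?_⟩
    have := hBu x hx
    omega
  · rw [← hTc]
    exact card_le_card fun x hx => mem_filter.2 ⟨hT hx, hTv x hx⟩
  · rw [card_sdiff_of_subset hT]
    omega
  · rw [card_sdiff_of_subset hB]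
    omega
  · have h6 := sum_sdiff (f := z) hT
    have h7 := sum_sdiff (f := z) hB
    linarith

end Pool.Agent.Lib.MPa7239a.RK
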