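import Pool.Agent.Lib.MP_a7239a_co.RK.Defs
import Pool.Agent.Lib.MP_a7239a_co.RK.WIN2
import Pool.Agent.Lib.MP_a7239a_co.GC.MainC

/-!
# The ambient argument (Theorem R, module AMB)

`Str A' n loss`: the structure of a dense subset, in the form used for the window. `amb_of`: the
minimal coset is everything, and the window inequality holds.
-/

set_option autoImplicit false

open Finset

namespace Pool.Agent.Lib.MPa7239a.RK

open Pool.Agent.Lib.MPa7239a.GC

/-- the structure of a dense subset `A'` -/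
def Str {G : Type*} [AddCommGroup G] (A' : Finset G) (n loss : ℕ) : Prop :=
  ∃ (H : AddSubgroup G) (e q₀ : G) (S : Finset G) (z : G → ℤ),
    S ⊆ A' ∧ q₀ ∈ S ∧ #A' ≤ #S + loss ∧ (∀ x ∈ S, x - q₀ - z x • e ∈ H) ∧
    (∀ K : AddSubgroup G, (∀ x ∈ A', ∀ y ∈ A', y - x ∈ K) → H ≤ K ∧ e ∈ K) ∧
    (∀ o : ℕ, 0 < o → o • e ∈ H → (∀ x ∈ A', ∃ a : ℤ, x - q₀ - a • e ∈ H) → ¬ Hit A' n 0 →
      ∃ k, k ≤ n ∧ n ≤ k + loss ∧ ∀ U₁ ⊆ S, ∀ U₂ ⊆ S, #U₁ = k → #U₂ = k →
        ∑ x ∈ U₂, z x + 1 < ∑ x ∈ U₁, z x + o)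

/-- dense coset or bound for the rows -/
theorem row_le' {G : Type*} [AddCommGroup G] [Fintype G] [DecidableEq G] {n : ℕ}
    (hG : ∀ x : G, n • x = 0) (h4 : ∀ s : G, #{x : G | x + x = s} ≤ 4) {A : Finset G}
    (hno : ¬ Hit A n 0) (K : AddSubgroup G) (hK : Nat.card K < 2 * n) {B : Finset G}
    (hBA : B ⊆ A) (x₀ : G) (hB : ∀ x ∈ B, x - x₀ ∈ K) : #B ≤ n + 1 := by
  by_contra hlt
  push Not at hlt
  refine hno (Hit.mono hBA (dense_coset h4 K B x₀ hB (by omega) (by omega) ?_))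
  rw [hG, sub_zero]
  exact K.zero_mem

/-- the minimal coset inside `Γ` -/
theorem exists_minimal' {G : Type*} [AddCommGroup G] [Fintype G] [DecidableEq G]
    {n m c g₀ : ℕ} (hm : 2 ≤ m) (hn : 1 ≤ n) (Γ : AddSubgroup G) (hΓ : Nat.card Γ = m * n)
    {A : Finset G} (hAΓ : ∀ x ∈ A, x ∈ Γ) (hA : n + c ≤ #A + 1) :
    ∃ (K : AddSubgroup G) (x₀ : G) (A' : Finset G) (j : ℕ), K ≤ Γ ∧
      A' ⊆ A ∧ (∀ x ∈ A', x - x₀ ∈ K) ∧ (j = 1 → A' = A ∧ K = Γ) ∧
      Nat.card K * j = m * n ∧ 1 ≤ j ∧ 2 * j ≤ m ∧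
      n + c ≤ #A' + j + g₀ * (1 + Nat.log 2 j) ∧
      ∀ (K' : AddSubgroup G) (y : G) (B : Finset G) (j' : ℕ), K' ≤ Γ → B ⊆ A →
        (∀ x ∈ B, x - y ∈ K') → B.Nonempty → Nat.card K' * j' = m * n → 2 * j' ≤ m →
        Nat.card K' < Nat.card K → #B + j' + g₀ * (1 + Nat.log 2 j') < n + c := by
  classical
  have hex : ∃ N, ∃ (K : AddSubgroup G) (x₀ : G) (j : ℕ), Nat.card K = N ∧ K ≤ Γ ∧ x₀ ∈ Γ ∧
      Nat.card K * j = m * n ∧ 2 * j ≤ m ∧
      n + c ≤ #(A.filter (fun x => x - x₀ ∈ K)) + j + g₀ * (1 + Nat.log 2 j) := by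
    refine ⟨_, Γ, 0, 1, rfl, le_rfl, Γ.zero_mem, by rw [hΓ, mul_one], by omega, ?_⟩
    have h1 : A.filter (fun x => x - 0 ∈ Γ) = A := by
      rw [filter_eq_self]
      intro x hx
      rw [sub_zero]
      exact hAΓ x hx
    rw [h1]
    exact hA.trans (Nat.le_add_right _ _)
  obtain ⟨K, x₀, j, hKm, hKΓ, hx₀, hKj, hK2, hKg⟩ := Nat.find_spec hex
  have hmn : 0 < m * n := Nat.mul_pos (by omega) (by omega)
  have hj1 : 1 ≤ j := by
    rcases Nat.eq_zero_or_pos j with h | h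
    · rw [h, mul_zero] at hKj
      omega
    · exact h
  refine ⟨K, x₀, A.filter (fun x => x - x₀ ∈ K), j, hKΓ, filter_subset _ _,
    fun x hx => (mem_filter.1 hx).2, ?_, hKj, hj1, hK2, hKg, ?_⟩
  · intro h
    rw [h, mul_one, ← hΓ] at hKj
    have hKeq : K = Γ := by
      apply SetLike.coe_injective
      exact Set.eq_of_subset_of_ncard_le hKΓ (le_of_eq hKj.symm) (Set.toFinite _)
    refine ⟨?_, hKeq⟩
    rw [filter_eq_self]
    intro x hx
    rw [hKeq]
    exact Γ.sub_mem (hAΓ x hx) hx₀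
  · intro K' y B j' hK'Γ hB hBK hBne hK' hj' hlt
    by_contra hle
    push Not at hle
    have hy : y ∈ Γ := by
      obtain ⟨b, hb⟩ := hBne
      have h1 := Γ.sub_mem (hAΓ b (hB hb)) (hK'Γ (hBK b hb))
      rwa [sub_sub_cancel] at h1
    refine Nat.find_min hex (m := Nat.card K') (by rw [← hKm]; exact hlt)
      ⟨K', y, j', rfl, hK'Γ, hy, hK', hj', ?_⟩
    have h1 : #B ≤ #(A.filter (fun x => x - y ∈ K')) :=
      card_le_card fun x hx => mem_filter.2 ⟨hB hx, hBK x hx⟩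
    omega

/-- the relative index -/
theorem rel_index {G : Type*} [AddCommGroup G] [Finite G] {H K : AddSubgroup G} (h : H ≤ K)
    {N j : ℕ} (hK : Nat.card K * j = N) :
    ∃ i, 1 ≤ i ∧ Nat.card H * (i * j) = N ∧ (H ≠ K → 2 ≤ i) := by
  have h1 : Nat.card H * H.relIndex K = Nat.card K := by
    have a1 := AddSubgroup.relIndex_mul_index h
    have a2 := AddSubgroup.card_mul_index H
    have a3 := AddSubgroup.card_mul_index K
    rw [← a3, ← a1, ← mul_assoc] at a2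
    exact Nat.eq_of_mul_eq_mul_right
      (Nat.pos_of_ne_zero AddSubgroup.index_ne_zero_of_finite) a2
  have h3 : H.relIndex K ≠ 0 := by
    intro h4
    rw [h4, mul_zero] at h1
    have := Nat.card_pos (α := K)
    omega
  refine ⟨H.relIndex K, by omega, ?_, ?_⟩
  · rw [← mul_assoc, h1, hK]
  · intro hne
    have h2 : H.relIndex K ≠ 1 := by
      intro h4
      rw [AddSubgroup.relIndex_eq_one] at h4
      exact hne (le_antisymm h h4)
    omega

/-- numbers: two rows of a small subgroup -/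
theorem num_a {n c R O G' loss j G o PM Sc g₀ : ℕ} (h1 : R + O + G' < n + c)
    (h2 : n + c ≤ Sc + loss + j + G) (h3 : Sc = PM + R) (h4 : PM + 2 ≤ o) (h5 : o + j ≤ O + 1)
    (h6 : G + g₀ ≤ G') (h7 : 2 * loss + 4 ≤ g₀) : False := by omega

theorem num_b {m o j loss G : ℕ} (h1 : m ≤ o + j + loss + G) (h2 : 2 * (o * j) ≤ m)
    (ho : 2 ≤ o) (hj : 1 ≤ j) (hG : 400 * G ≤ m) (hl : 800 * loss ≤ m) (hm : 1000 ≤ m) :
    False := by
  have h3 : 4 * j ≤ m := by
    have : 2 * j ≤ o * j := Nat.mul_le_mul_right _ ho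
    omega
  have h4 : 2 * o ≤ m := by
    have : o * 1 ≤ o * j := Nat.mul_le_mul_left _ hj
    omega
  omega

theorem num_c {m o j loss G : ℕ} (h1 : m ≤ o + j + loss + G) (h2 : o * j ≤ m)
    (ho : 2 ≤ o) (hj : 2 ≤ j) (hG : 400 * G ≤ m) (hl : 800 * loss ≤ m) (hm : 1000 ≤ m) :
    False := by
  obtain ⟨a, rfl⟩ := Nat.exists_eq_add_of_le ho
  obtain ⟨b, rfl⟩ := Nat.exists_eq_add_of_le hj
  have : (2 + a) * (2 + b) = 4 + 2 * a + 2 * b + a * b := by ring
  rw [this] at h2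
  omega

theorem num_d {m t s o loss g₀ ℓ : ℕ} (h1 : m ≤ o + 1 + loss + g₀) (h2 : o * s = t * m)
    (hg : 2 * loss + 4 ≤ g₀) (hgm : 400 * ℓ * g₀ ≤ m) (ht : 2 ≤ t) (htℓ : t ≤ ℓ) : s ≤ t := by
  by_contra hlt
  push Not at hlt
  have h3 : o * (t + 1) ≤ t * m := by
    rw [← h2]
    exact Nat.mul_le_mul_left _ hlt
  have h4 : (t + 1) * m ≤ (t + 1) * (o + 2 * g₀) := Nat.mul_le_mul_left _ (by omega)
  have h5 : (t + 1) * (o + 2 * g₀) = o * (t + 1) + 2 * ((t + 1) * g₀) := by ring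
  have h6 : (t + 1) * g₀ ≤ (2 * ℓ) * g₀ := Nat.mul_le_mul_right _ (by omega)
  have h7 : 400 * ℓ * g₀ = 400 * (ℓ * g₀) := by ring
  have h8 : 2 * ℓ * g₀ = 2 * (ℓ * g₀) := by ring
  have h9 : (t + 1) * m = t * m + m := by ring
  have h10 : 1 * g₀ ≤ ℓ * g₀ := Nat.mul_le_mul_right _ (by omega)
  omega

/-- the window is at least `τ b` -/
theorem num_window {n τ t' V PM R Sc h b o : ℕ} (hw : t' * V + PM + 2 ≤ o) (hon : o ≤ n)
    (hS : Sc = PM + R) (hR : R ≤ (V + 1) * h) (hSτ : n + τ ≤ Sc) (hτ : τ ≤ t')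
    (hbn : b * h ≤ n) : τ * b + 2 ≤ o := by
  rcases Nat.le_total τ h with hτh | hτh
  · rcases Nat.lt_or_ge V b with hV | hV
    · obtain ⟨a, rfl⟩ := Nat.exists_eq_add_of_lt hV
      have h1 : τ * V ≤ t' * V := Nat.mul_le_mul_right _ hτ
      have h2 : a * τ ≤ a * h := Nat.mul_le_mul_left _ hτh
      have h3 : (V + a + 1) * h = (V + 1) * h + a * h := by ring
      have h4 : τ * (V + a + 1) = τ * V + τ + a * τ := by ring
      rw [h4]
      rw [h3] at hbn
      omega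
    · have h1 : τ * b ≤ t' * V := Nat.mul_le_mul hτ hV
      omega
  · exfalso
    have h1 : τ * V ≤ t' * V := Nat.mul_le_mul_right _ hτ
    have h2 : (V + 1) * h ≤ (V + 1) * τ := Nat.mul_le_mul_left _ hτh
    have h3 : (V + 1) * τ = τ * V + τ := by ring
    omega

theorem num_two' {m t s o τ b loss g₀ ℓ : ℕ} (h1 : τ * b + 2 ≤ o) (hos : o * s = t * m)
    (hb : t * 2 < s * (b + 1)) (hb1 : 1 ≤ b) (hτ : m ≤ τ + (loss + 2 + 2 * g₀))
    (hg : 2 * loss + 4 ≤ g₀) (hgm : 400 * ℓ * g₀ ≤ m) (ht : 2 ≤ t) (htℓ : t ≤ ℓ) : False := by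
  have h2 : s * (b + 1) ≤ 2 * (s * b) := by
    have : s * 1 ≤ s * b := Nat.mul_le_mul_left _ hb1
    have e : s * (b + 1) = s * b + s := by ring
    omega
  have h3 : t + 1 ≤ s * b := by omega
  have h4 : τ * (t + 1) ≤ t * m := by
    calc τ * (t + 1) ≤ τ * (s * b) := Nat.mul_le_mul_left _ h3
      _ = (τ * b) * s := by ring
      _ ≤ o * s := Nat.mul_le_mul_right _ (by omega)
      _ = t * m := hos
  have h5 : (t + 1) * m ≤ (t + 1) * (τ + 3 * g₀) := Nat.mul_le_mul_left _ (by omega)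
  have h6 : (t + 1) * (τ + 3 * g₀) = τ * (t + 1) + 3 * ((t + 1) * g₀) := by ring
  have h7 : (t + 1) * g₀ ≤ (2 * ℓ) * g₀ := Nat.mul_le_mul_right _ (by omega)
  have h8 : 400 * ℓ * g₀ = 400 * (ℓ * g₀) := by ring
  have h9 : 2 * ℓ * g₀ = 2 * (ℓ * g₀) := by ring
  have h10 : (t + 1) * m = t * m + m := by ring
  have h11 : 1 * g₀ ≤ ℓ * g₀ := Nat.mul_le_mul_right _ (by omega)
  omega

theorem num_three' {m t s o τ b loss G j : ℕ} (h1 : τ * b + 2 ≤ o) (hos : o * s = t * m)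
    (hb : t * j < s * (b + 1)) (hb1 : 1 ≤ b) (hτ : m ≤ τ + (loss + j + G)) (hj : 3 ≤ j)
    (hj2 : 2 * j ≤ m) (hG : 400 * G ≤ m) (hl : 800 * loss ≤ m) (hm : 1000 ≤ m)
    (ht : 2 ≤ t) : False := by
  have h2 : s * (b + 1) ≤ 2 * (s * b) := by
    have : s * 1 ≤ s * b := Nat.mul_le_mul_left _ hb1
    have e : s * (b + 1) = s * b + s := by ring
    omega
  have h4 : τ * (t * j) ≤ 2 * (t * m) := by
    calc τ * (t * j) ≤ τ * (2 * (s * b)) := Nat.mul_le_mul_left _ (by omega)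
      _ = 2 * ((τ * b) * s) := by ring
      _ ≤ 2 * (o * s) := Nat.mul_le_mul_left _ (Nat.mul_le_mul_right _ (by omega))
      _ = 2 * (t * m) := by rw [hos]
  have h5 : τ * j ≤ 2 * m := by
    have e1 : τ * (t * j) = t * (τ * j) := by ring
    have e2 : 2 * (t * m) = t * (2 * m) := by ring
    rw [e1, e2] at h4
    exact Nat.le_of_mul_le_mul_left h4 (by omega)
  have h6 : 199 * m ≤ 200 * (τ + j) := by omega
  obtain ⟨a, rfl⟩ := Nat.exists_eq_add_of_le hj
  obtain ⟨b', hb'⟩ := Nat.exists_eq_add_of_le hj2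
  have h7 : 199 * m * (3 + a) ≤ 200 * (τ + (3 + a)) * (3 + a) := Nat.mul_le_mul_right _ h6
  have h8 : 200 * (τ + (3 + a)) * (3 + a) = 200 * (τ * (3 + a)) + 200 * (3 + a) ^ 2 := by ring
  have h9 : 199 * m * (3 + a) ≤ 400 * m + 200 * (3 + a) ^ 2 := by omega
  have h10 : m * (3 + a) = 2 * (3 + a) ^ 2 + b' * (3 + a) := by
    rw [hb']
    ring
  subst hb'
  nlinarith

/-- THE AMBIENT ARGUMENT -/
theorem amb_of {G : Type*} [AddCommGroup G] [Fintype G] [DecidableEq G]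
    {n m t c ℓ g₀ loss : ℕ} (hG : ∀ x : G, n • x = 0) (h4 : ∀ s : G, #{x : G | x + x = s} ≤ 4)
    (ht : 2 ≤ t) (htℓ : t ≤ ℓ) (hn : n = t * m) (hmℓ : m < 2 ^ ℓ) (hg : 2 * loss + 4 ≤ g₀)
    (hgm : 400 * ℓ * g₀ ≤ m) (Γ : AddSubgroup G) (hΓ : Nat.card Γ = m * n) {A : Finset G}
    (hAΓ : ∀ x ∈ A, x ∈ Γ) (hA : #A = n + c) (hmc : m ≤ c) (hcn : c + 3 * loss ≤ n)
    (hno : ¬ Hit A n 0) (hstr : ∀ A' ⊆ A, n + loss ≤ #A' → Str A' n loss) :
    ∃ (H : AddSubgroup G) (e q₀ : G) (S : Finset G) (z : G → ℤ) (s o k t' : ℕ) (u v : ℤ),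
      H ≤ Γ ∧ e ∈ Γ ∧ Amb H e q₀ A S z m t n c s o loss k t' u v := by
  classical
  -- sizes
  have hm : 1000 ≤ m := by
    have h1 : 800 * 4 ≤ 400 * ℓ * g₀ := Nat.mul_le_mul (by omega) (by omega)
    omega
  have hg1 : 400 * g₀ ≤ m := by
    refine le_trans ?_ hgm
    calc 400 * g₀ = 400 * 1 * g₀ := by ring
      _ ≤ 400 * ℓ * g₀ := Nat.mul_le_mul_right _ (by omega)
  have hloss : 800 * loss ≤ m := by omega
  have hn1 : 1 ≤ n := by
    rw [hn]
    exact Nat.mul_pos (by omega) (by omega)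
  have hmn : m ≤ n := by
    rw [hn]
    calc m = 1 * m := (one_mul m).symm
      _ ≤ t * m := Nat.mul_le_mul_right _ (by omega)
  obtain ⟨K, x₀, A', j, hKΓ, hA'A, hA'K, htop, hKj, hj1, hj2, hA'c, hmin⟩ :=
    exists_minimal' (g₀ := g₀) (by omega) hn1 Γ hΓ hAΓ (c := c) (by omega)
  have hno' : ¬ Hit A' n 0 := fun h => hno (Hit.mono hA'A h)
  have hlog : 1 + Nat.log 2 j ≤ ℓ := by
    have h1 : Nat.log 2 j < ℓ := Nat.log_lt_of_lt_pow (by omega) (by omega)
    omega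
  have hgj : 400 * (g₀ * (1 + Nat.log 2 j)) ≤ m := by
    have h1 : g₀ * (1 + Nat.log 2 j) ≤ g₀ * ℓ := Nat.mul_le_mul_left _ hlog
    have h2 : 400 * ℓ * g₀ = 400 * (g₀ * ℓ) := by ring
    omega
  obtain ⟨H, e, q₀, S, z, hSA', hq₀, hSc, hz, hcos, hwin⟩ := hstr A' hA'A (by omega)
  have hSA : S ⊆ A := hSA'.trans hA'A
  have hS1 : n + c ≤ #S + loss + j + g₀ * (1 + Nat.log 2 j) := by omega
  have hS2 : #S ≤ n + c := (card_le_card hSA).trans (le_of_eq hA)
  have hdiff : ∀ x ∈ A', ∀ y ∈ A', y - x ∈ K := by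
    intro x hx y hy
    have h1 := K.sub_mem (hA'K y hy) (hA'K x hx)
    have h2 : y - x = y - x₀ - (x - x₀) := by abel
    rw [h2]
    exact h1
  obtain ⟨hHK, heK⟩ := hcos K hdiff
  have hKK : H ⊔ AddSubgroup.zmultiples e ≤ K := by
    rw [sup_le_iff]
    refine ⟨hHK, ?_⟩
    rw [AddSubgroup.zmultiples_le]
    exact heK
  have hSK : ∀ x ∈ S, x - q₀ ∈ H ⊔ AddSubgroup.zmultiples e := by
    intro x hx
    have h1 : x - q₀ = (x - q₀ - z x • e) + z x • e := by abel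
    rw [h1]
    exact AddSubgroup.add_mem_sup (hz x hx) (AddSubgroup.zsmul_mem_zmultiples e (z x))
  -- `K = H + ⟨e⟩`
  obtain ⟨i, hi1, hi2, hi3⟩ := rel_index hKK hKj
  have hKe : H ⊔ AddSubgroup.zmultiples e = K := by
    by_contra hne
    have hi := hi3 hne
    have hij : 2 * j ≤ i * j := Nat.mul_le_mul_right _ hi
    rcases Nat.lt_or_ge m (2 * (i * j)) with h1 | h1
    · have h2 : Nat.card (H ⊔ AddSubgroup.zmultiples e : AddSubgroup G) < 2 * n := by
        by_contra hle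
        push Not at hle
        have h3 : (2 * n) * (i * j) ≤ m * n := by
          rw [← hi2]
          exact Nat.mul_le_mul_right _ hle
        have h5 : (2 * n) * (i * j) = (2 * (i * j)) * n := by ring
        rw [h5] at h3
        have := Nat.le_of_mul_le_mul_right h3 hn1
        omega
      have h3 := row_le' hG h4 hno _ h2 hSA q₀ hSK
      omega
    · have h2 := hmin _ q₀ S (i * j) (hKK.trans hKΓ) hSA hSK ⟨q₀, hq₀⟩ hi2 h1
        (card_lt_of_lt (lt_of_le_of_ne hKK hne))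
      have h3 := log_two_mul_le hj1 hij
      have h5 : g₀ * (1 + Nat.log 2 j) + g₀ ≤ g₀ * (1 + Nat.log 2 (i * j)) := by
        calc g₀ * (1 + Nat.log 2 j) + g₀ = g₀ * (1 + (Nat.log 2 j + 1)) := by ring
          _ ≤ _ := Nat.mul_le_mul_left _ (by omega)
      omega
  -- the order of `e`
  obtain ⟨o, ho⟩ : ∃ o, o = addOrderOf (e : G ⧸ H) := ⟨_, rfl⟩
  have ho0 : 0 < o := by
    rw [ho]
    exact addOrderOf_pos _
  have hoe : o • e ∈ H := by
    rw [← QuotientAddGroup.eq_zero_iff, QuotientAddGroup.mk_nsmul, ho]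
    exact addOrderOf_nsmul_eq_zero _
  have hHo : Nat.card H * o = Nat.card K := by
    have a1 := index_eq H e
    rw [hKe, ← ho] at a1
    have a2 := AddSubgroup.card_mul_index H
    have a3 := AddSubgroup.card_mul_index K
    rw [← a3, a1, ← mul_assoc] at a2
    exact Nat.eq_of_mul_eq_mul_right
      (Nat.pos_of_ne_zero AddSubgroup.index_ne_zero_of_finite) a2
  have hHc : Nat.card H * (o * j) = m * n := by
    rw [← mul_assoc, hHo, hKj]
  have hgen : ∀ x ∈ A', ∃ a : ℤ, x - q₀ - a • e ∈ H := by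
    intro x hx
    have h1 : x - q₀ ∈ K := hdiff q₀ (hSA' hq₀) x hx
    rw [← hKe, AddSubgroup.mem_sup] at h1
    obtain ⟨y, hy, y', hy', hyy⟩ := h1
    obtain ⟨a, rfl⟩ := AddSubgroup.mem_zmultiples_iff.1 hy'
    refine ⟨a, ?_⟩
    rw [← hyy, add_sub_cancel_right]
    exact hy
  obtain ⟨k, hk1, hk2, hk3⟩ := hwin o ho0 hoe hgen hno'
  have hodvd : o ∣ n := by
    rw [ho]
    apply addOrderOf_dvd_of_nsmul_eq_zero
    rw [← QuotientAddGroup.mk_nsmul, hG]
    rfl
  obtain ⟨s, hos⟩ := hodvd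
  have hs1 : 1 ≤ s := by
    rcases Nat.eq_zero_or_pos s with h | h
    · rw [h, mul_zero] at hos
      omega
    · exact h
  have hHjs : Nat.card H * j = m * s := by
    have h1 : o * (Nat.card H * j) = o * (m * s) := by
      calc o * (Nat.card H * j) = Nat.card H * (o * j) := by ring
        _ = m * n := hHc
        _ = o * (m * s) := by rw [hos]; ring
    exact Nat.eq_of_mul_eq_mul_left ho0 h1
  have hos' : o * s = t * m := by rw [← hos, hn]
  have hon : o ≤ n := by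
    rw [hos]
    calc o = o * 1 := (mul_one o).symm
      _ ≤ o * s := Nat.mul_le_mul_left _ hs1
  -- the window
  obtain ⟨t', ht'⟩ : ∃ t', #S = k + t' := ⟨#S - k, by omega⟩
  obtain ⟨u, v, huv, hu, hv, U₁, hU₁, U₂, hU₂, hc₁, hc₂, hw⟩ :=
    window2 S z (k := k) (t := t') (by omega) (by omega) ht'
  have hX := hk3 U₁ hU₁ U₂ hU₂ hc₁ hc₂
  have hwin' : t' * (v - u) + ∑ x ∈ S.filter (fun x => v < z x), (z x - v) +
      ∑ x ∈ S.filter (fun x => z x < u), (u - z x) + 2 ≤ o := by linarith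
  -- in numbers
  obtain ⟨V, hV⟩ := Int.eq_ofNat_of_zero_le (show 0 ≤ v - u by omega)
  have hVn : t' * V + (#(S.filter (fun x => v < z x)) + #(S.filter (fun x => z x < u))) + 2 ≤
      o := by
    have h1 : (#(S.filter (fun x => v < z x)) : ℤ) ≤
        ∑ x ∈ S.filter (fun x => v < z x), (z x - v) := by
      rw [card_eq_sum_ones, Nat.cast_sum]
      apply sum_le_sum
      intro x hx
      rw [mem_filter] at hx
      push_cast
      omega
    have h2 : (#(S.filter (fun x => z x < u)) : ℤ) ≤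
        ∑ x ∈ S.filter (fun x => z x < u), (u - z x) := by
      rw [card_eq_sum_ones, Nat.cast_sum]
      apply sum_le_sum
      intro x hx
      rw [mem_filter] at hx
      push_cast
      omega
    rw [hV] at hwin'
    have h3 : ((t' * V + (#(S.filter (fun x => v < z x)) + #(S.filter (fun x => z x < u))) + 2 :
        ℕ) : ℤ) ≤ o := by
      push_cast
      linarith
    exact_mod_cast h3
  have hsum : #S = (#(S.filter (fun x => v < z x)) + #(S.filter (fun x => z x < u))) +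
      #(S.filter (fun x => u ≤ z x ∧ z x ≤ v)) := by
    have h1 : S = (S.filter (fun x => v < z x) ∪ S.filter (fun x => z x < u)) ∪
        S.filter (fun x => u ≤ z x ∧ z x ≤ v) := by
      ext x
      simp only [mem_union, mem_filter]
      constructor
      · intro hx
        rcases lt_or_ge v (z x) with h | h
        · exact Or.inl (Or.inl ⟨hx, h⟩)
        · rcases lt_or_ge (z x) u with h' | h'
          · exact Or.inl (Or.inr ⟨hx, h'⟩)
          · exact Or.inr ⟨hx, h', h⟩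
      · rintro ((h | h) | h)
        · exact h.1
        · exact h.1
        · exact h.1
    have h2 : Disjoint (S.filter (fun x => v < z x)) (S.filter (fun x => z x < u)) := by
      rw [disjoint_filter]
      intro x _ h3 h5
      omega
    have h3 : Disjoint (S.filter (fun x => v < z x) ∪ S.filter (fun x => z x < u))
        (S.filter (fun x => u ≤ z x ∧ z x ≤ v)) := by
      rw [disjoint_union_left, disjoint_filter, disjoint_filter]
      refine ⟨?_, ?_⟩
      · intro x _ h3 h5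
        omega
      · intro x _ h3 h5
        omega
    conv_lhs => rw [h1]
    rw [card_union_of_disjoint h3, card_union_of_disjoint h2]
  have hrow : ∀ i : ℤ, ∀ x ∈ S.filter (fun x => z x = i), x - (q₀ + i • e) ∈ H := by
    intro i x hx
    rw [mem_filter] at hx
    have h1 := hz x hx.1
    rw [hx.2] at h1
    have h2 : x - (q₀ + i • e) = x - q₀ - i • e := by abel
    rw [h2]
    exact h1
  have hR : #(S.filter (fun x => u ≤ z x ∧ z x ≤ v)) ≤ (V + 1) * Nat.card H := by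
    have h1 : #(S.filter (fun x => u ≤ z x ∧ z x ≤ v)) ≤ Nat.card H * #(Icc u v) := by
      refine card_le_mul_card_image_of_maps_to (f := z) ?_ _ ?_
      · intro x hx
        rw [mem_filter] at hx
        exact mem_Icc.2 hx.2
      · intro b _
        refine card_le_of_coset H (q₀ + b • e) ?_
        intro x hx
        rw [mem_filter, mem_filter] at hx
        exact hrow b x (mem_filter.2 ⟨hx.1.1, hx.2⟩)
    rw [Int.card_Icc] at h1
    have h2 : (v + 1 - u).toNat = V + 1 := by omega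
    rw [h2, mul_comm] at h1
    exact h1
  obtain ⟨PM, hPM⟩ : ∃ PM, PM = #(S.filter (fun x => v < z x)) + #(S.filter (fun x => z x < u)) :=
    ⟨_, rfl⟩
  obtain ⟨R, hRd⟩ : ∃ R, R = #(S.filter (fun x => u ≤ z x ∧ z x ≤ v)) := ⟨_, rfl⟩
  rw [← hPM] at hVn hsum
  rw [← hRd] at hsum hR
  have ho2 : 2 ≤ o := by omega
  have hV0 : V = 0 → R = #(S.filter (fun x => z x = u)) := by
    intro h
    rw [hRd]
    congr 1
    ext x
    simp only [mem_filter]
    have : v = u := by omega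
    rw [this]
    constructor
    · rintro ⟨h1, h2, h3⟩
      exact ⟨h1, by omega⟩
    · rintro ⟨h1, h2⟩
      exact ⟨h1, by omega, by omega⟩
  have hVt : 1 ≤ V → t' ≤ t' * V := fun h => by
    calc t' = t' * 1 := (mul_one t').symm
      _ ≤ t' * V := Nat.mul_le_mul_left _ h
  obtain ⟨τ, hτ⟩ : ∃ τ, m = τ + (loss + j + g₀ * (1 + Nat.log 2 j)) :=
    ⟨m - (loss + j + g₀ * (1 + Nat.log 2 j)), by omega⟩
  -- `j = 1` and `s ≤ t`
  have hjs : j = 1 ∧ s ≤ t := by
    rcases Nat.lt_or_ge m (o * j) with hO | hO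
    · -- many classes
      have hst : s < t * j := by
        by_contra hle
        push Not at hle
        have h1 : o * (t * j) ≤ o * s := Nat.mul_le_mul_left _ hle
        rw [hos'] at h1
        have h2 : o * (t * j) = t * (o * j) := by ring
        rw [h2] at h1
        have := Nat.le_of_mul_le_mul_left h1 (by omega)
        omega
      obtain ⟨b, hb⟩ : ∃ b, b = t * j / s := ⟨_, rfl⟩
      have hb1 : 1 ≤ b := by
        rw [hb, Nat.le_div_iff_mul_le (by omega)]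
        omega
      have hbs : b * s ≤ t * j := by
        rw [hb]
        exact Nat.div_mul_le_self _ _
      have hbs' : t * j < s * (b + 1) := by
        rw [hb]
        exact Nat.lt_mul_div_succ _ (by omega)
      have hbn : b * Nat.card H ≤ n := by
        have h1 : b * Nat.card H * j ≤ n * j := by
          calc b * Nat.card H * j = b * (Nat.card H * j) := by ring
            _ = (b * s) * m := by rw [hHjs]; ring
            _ ≤ (t * j) * m := Nat.mul_le_mul_right _ hbs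
            _ = n * j := by rw [hn]; ring
        exact Nat.le_of_mul_le_mul_right h1 (by omega)
      have hW := num_window hVn hon hsum hR (τ := τ) (b := b) (by omega) (by omega) hbn
      rcases Nat.lt_or_ge j 2 with hj | hj
      · have hj' : j = 1 := by omega
        refine ⟨hj', ?_⟩
        rw [hj'] at hst
        omega
      · exfalso
        rcases Nat.lt_or_ge j 3 with hj' | hj'
        · have hj'' : j = 2 := by omega
          have hlog2 : Nat.log 2 2 = 1 := Nat.log_pow one_lt_two 1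
          rw [hj''] at hbs' hτ
          rw [hlog2] at hτ
          exact num_two' hW hos' hbs' hb1 (by omega) hg hgm ht htℓ
        · exact num_three' hW hos' hbs' hb1 (by omega) hj' hj2 hgj hloss hm ht
    · rcases Nat.lt_or_ge m (2 * (o * j)) with hO2 | hO2
      · -- rows of at most `n + 1` elements
        have h2 : Nat.card H < 2 * n := by
          by_contra hle
          push Not at hle
          have h3 : (2 * n) * (o * j) ≤ m * n := by
            rw [← hHc]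
            exact Nat.mul_le_mul_right _ hle
          have h5 : (2 * n) * (o * j) = (2 * (o * j)) * n := by ring
          rw [h5] at h3
          have := Nat.le_of_mul_le_mul_right h3 hn1
          omega
        have h3 : m ≤ o + j + loss + g₀ * (1 + Nat.log 2 j) := by
          rcases Nat.eq_zero_or_pos V with h | h
          · have h5 := row_le' hG h4 hno H h2 ((filter_subset _ _).trans hSA) _ (hrow u)
            rw [← hV0 h] at h5
            omega
          · have h5 := hVt h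
            omega
        rcases Nat.lt_or_ge j 2 with hj | hj
        · have hj' : j = 1 := by omega
          refine ⟨hj', ?_⟩
          rw [hj', Nat.log_one_right, add_zero, mul_one] at h3
          exact num_d h3 hos' hg hgm ht htℓ
        · exact (num_c h3 hO ho2 hj hgj hloss hm).elim
      · -- a small subgroup of classes
        exfalso
        rcases Nat.eq_zero_or_pos V with h | h
        · have hR0 : 0 < R := by
            have h5 : o ≤ o * j := by
              calc o = o * 1 := (mul_one o).symm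
                _ ≤ o * j := Nat.mul_le_mul_left _ hj1
            omega
          have hHltK : Nat.card H < Nat.card K := by
            rw [← hHo]
            calc Nat.card H = Nat.card H * 1 := (mul_one _).symm
              _ < Nat.card H * o := Nat.mul_lt_mul_of_pos_left (by omega) Nat.card_pos
          have h5 := hmin H _ _ (o * j) (hHK.trans hKΓ) ((filter_subset _ _).trans hSA) (hrow u)
            (card_pos.1 (by rw [← hV0 h]; exact hR0)) hHc hO2 hHltK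
          rw [← hV0 h] at h5
          have h6 : 2 * j ≤ o * j := Nat.mul_le_mul_right _ ho2
          have h7 := log_two_mul_le hj1 h6
          have h8 : g₀ * (1 + Nat.log 2 j) + g₀ ≤ g₀ * (1 + Nat.log 2 (o * j)) := by
            calc g₀ * (1 + Nat.log 2 j) + g₀ = g₀ * (1 + (Nat.log 2 j + 1)) := by ring
              _ ≤ _ := Nat.mul_le_mul_left _ (by omega)
          exact num_a h5 hS1 hsum (by omega) (add_le_mul_add ho0 hj1) h8 hg
        · have h5 := hVt h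
          exact num_b (m := m) (o := o) (j := j) (loss := loss) (G := g₀ * (1 + Nat.log 2 j))
            (by omega) hO2 ho2 hj1 hgj hloss hm
  obtain ⟨hj, hst⟩ := hjs
  obtain ⟨hA'eq, hKeq⟩ := htop hj
  rw [hj, mul_one] at hHjs
  rw [hA'eq] at hSc hgen
  rw [hKeq] at hHK heK
  exact ⟨H, e, q₀, S, z, s, o, k, t', u, v, hHK, heK,
    { nt := hn, card := hA, sub := hSA, hloss := hSc, nq := hG q₀, lift := hz, gen := hgen,
      cardH := hHjs, os := hos.symm, s1 := hs1, st := hst, order := ho.symm, cardS := ht',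
      kn := hk1, nk := hk2, uv := huv, hu := hu, hv := hv, win := hwin' }⟩

/-- the structure of a dense subset, from `core` and `select` -/
theorem str_of_core {n ℓ w Λ₀ Λ κ loss : ℕ} [NeZero n] (hℓ : n < 2 ^ ℓ)
    (hb : (3 * ℓ + 1) * n ^ 2 < 2 ^ (3 * ℓ)) (hw₂ : n ≤ Λ₀ * w) (hΛ₀ : 1000 ≤ Λ₀) (hΛ : Λ₀ ≤ Λ)
    (hκ : 7 * Λ ^ 2 ≤ 2 ^ κ) (hbig : (4 * Λ ^ 2) ^ (4 * κ + 13) ≤ n)
    (hloss : loss = (2 * ℓ + 1) * (w * (2 * (3 * ℓ)))) (hln : loss ≤ n)
    {A' : Finset (ZMod n × ZMod n)} (hlin : Lin A' ℓ w Λ κ) (hA' : n + loss ≤ #A') :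
    Str A' n loss := by
  obtain ⟨H, R, S, V, e, q₀, z, hRA, hfill, hbox, hq₀, heC, hz, hzb, hTF, hl⟩ :=
    core (A := A') hℓ hb hw₂ hΛ₀ hΛ hκ hbig (by rw [← hloss]; exact hA') hlin
  rw [← hloss] at hl
  have hSA' : S ⊆ A' := hbox.ssub.trans sdiff_subset
  have hSc : #A' ≤ #S + loss := by
    have h1 := hbox.loss
    have h2 : #(A' \ R) = #A' - #R := card_sdiff_of_subset hRA
    omega
  have hCP : (2 * Λ) ^ κ ≤ (4 * Λ ^ 2) ^ κ := Nat.pow_le_pow_left (by nlinarith) _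
  have hP1 : 4000000 ≤ 4 * Λ ^ 2 := by nlinarith
  have hnP : (4 * Λ ^ 2) ^ (κ + 5) ≤ n := (pow_bound (by omega) (by omega)).trans hbig
  have hCw : 2 * (4 * Λ ^ 2) * (2 * Λ) ^ κ ≤ w := by
    by_contra hlt
    push Not at hlt
    have h1 : Λ₀ * w < Λ₀ * (2 * (4 * Λ ^ 2) * (2 * Λ) ^ κ) :=
      Nat.mul_lt_mul_of_pos_left hlt (by omega)
    have h2 : Λ₀ * (2 * (4 * Λ ^ 2) * (2 * Λ) ^ κ) ≤ (4 * Λ ^ 2) ^ (κ + 5) := by
      have h3 : Λ₀ * 2 * (4 * Λ ^ 2) ≤ (4 * Λ ^ 2) ^ 5 := by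
        have h4 : Λ₀ * 2 ≤ 4 * Λ ^ 2 := by nlinarith
        calc Λ₀ * 2 * (4 * Λ ^ 2) ≤ (4 * Λ ^ 2) * (4 * Λ ^ 2) :=
              Nat.mul_le_mul_right _ h4
          _ = (4 * Λ ^ 2) ^ 2 := by ring
          _ ≤ _ := pow_bound (by omega) (by norm_num)
      calc Λ₀ * (2 * (4 * Λ ^ 2) * (2 * Λ) ^ κ)
          = (Λ₀ * 2 * (4 * Λ ^ 2)) * (2 * Λ) ^ κ := by ring
        _ ≤ (4 * Λ ^ 2) ^ 5 * (4 * Λ ^ 2) ^ κ := Nat.mul_le_mul h3 hCP
        _ = (4 * Λ ^ 2) ^ (κ + 5) := by ring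
    omega
  refine ⟨H, e, q₀, S, z, hSA', hq₀, hSc, hz, ?_, ?_⟩
  · intro K hdiff
    have hHK : H ≤ K := fills_le hfill fun x hx y hy => hdiff x (hRA hx) y (hRA hy)
    exact ⟨hHK, mem_of_ball hHK (fun x hx y hy => hdiff x (hSA' hx) y (hSA' hy)) heC⟩
  · intro o ho0 hoe hgen hno
    by_contra hall
    push Not at hall
    refine hno (select hRA hfill hbox heC hCw (n_nsmul q₀) z hz hzb ho0 hoe hgen hl hln ?_)
    intro k hk1 hk2
    obtain ⟨U₁, h1, U₂, h2, h3, h4, h5⟩ := hall k hk1 hk2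
    exact ⟨U₁, h1, U₂, h2, h3, h4, h5⟩

/-- MODULE AMB -/
theorem amb {n m t c ℓ w Λ₀ Λ κ loss : ℕ} [NeZero n] (ht : 2 ≤ t) (htℓ : t ≤ ℓ)
    (hn : n = t * m) (hℓ : n < 2 ^ ℓ) (hb : (3 * ℓ + 1) * n ^ 2 < 2 ^ (3 * ℓ))
    (hw₁ : 100000000 * ℓ ^ 7 * w ≤ n) (hw₂ : n ≤ Λ₀ * w) (hΛ₀ : 1000 ≤ Λ₀) (hΛ : Λ₀ ≤ Λ)
    (hκ : 7 * Λ ^ 2 ≤ 2 ^ κ) (hbig : (4 * Λ ^ 2) ^ (4 * κ + 13) ≤ n)
    (hlin : ∀ A' : Finset (ZMod n × ZMod n), Lin A' ℓ w Λ κ)
    (hloss : loss = (2 * ℓ + 1) * (w * (2 * (3 * ℓ))))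
    (Γ : AddSubgroup (ZMod n × ZMod n)) (hΓ : Nat.card Γ = m * n)
    {A : Finset (ZMod n × ZMod n)} (hAΓ : ∀ x ∈ A, x ∈ Γ) (hA : #A = n + c) (hmc : m ≤ c)
    (hcn : c + 3 * loss ≤ n) (hno : ¬ Hit A n 0) :
    ∃ (H : AddSubgroup (ZMod n × ZMod n)) (e q₀ : ZMod n × ZMod n)
      (S : Finset (ZMod n × ZMod n)) (z : ZMod n × ZMod n → ℤ) (s o k t' : ℕ) (u v : ℤ),
      H ≤ Γ ∧ e ∈ Γ ∧ Amb H e q₀ A S z m t n c s o loss k t' u v := by
  have hn1 : 1 ≤ n := Nat.one_le_iff_ne_zero.2 (NeZero.ne n)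
  have hm1 : 1 ≤ m := by
    rcases Nat.eq_zero_or_pos m with h | h
    · rw [h, mul_zero] at hn
      omega
    · exact h
  have hw0 : 1 ≤ w := by
    rcases Nat.eq_zero_or_pos w with h | h
    · rw [h, mul_zero] at hw₂
      omega
    · exact h
  have hmn : m ≤ n := by
    rw [hn]
    calc m = 1 * m := (one_mul m).symm
      _ ≤ t * m := Nat.mul_le_mul_right _ (by omega)
  have hwm : 100000000 * ℓ ^ 6 * w ≤ m := by
    have h1 : ℓ * (100000000 * ℓ ^ 6 * w) ≤ ℓ * m := by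
      calc ℓ * (100000000 * ℓ ^ 6 * w) = 100000000 * ℓ ^ 7 * w := by ring
        _ ≤ n := hw₁
        _ = t * m := hn
        _ ≤ ℓ * m := Nat.mul_le_mul_right _ htℓ
    exact Nat.le_of_mul_le_mul_left h1 (by omega)
  have hℓ1 : 1 ≤ ℓ := by omega
  have hloss2 : 2 * loss + 4 ≤ 50 * ℓ ^ 2 * w := by
    have e1 : 2 * ((2 * ℓ + 1) * (w * (2 * (3 * ℓ)))) + 4 =
        24 * (ℓ ^ 2 * w) + 12 * (ℓ * w) + 4 := by ring
    have e2 : ℓ * w ≤ ℓ ^ 2 * w := Nat.mul_le_mul_right _ (by nlinarith)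
    have e3 : 1 ≤ ℓ * w := Nat.mul_pos hℓ1 hw0
    have e4 : 50 * ℓ ^ 2 * w = 50 * (ℓ ^ 2 * w) := by ring
    rw [hloss, e1, e4]
    omega
  have hgm : 400 * ℓ * (50 * ℓ ^ 2 * w) ≤ m := by
    refine le_trans ?_ hwm
    have e1 : 400 * ℓ * (50 * ℓ ^ 2 * w) = 20000 * (ℓ ^ 3 * w) := by ring
    have e2 : ℓ ^ 3 * w ≤ ℓ ^ 6 * w :=
      Nat.mul_le_mul_right _ (Nat.pow_le_pow_right hℓ1 (by norm_num))
    have e3 : 100000000 * ℓ ^ 6 * w = 100000000 * (ℓ ^ 6 * w) := by ring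
    rw [e1, e3]
    omega
  have hln : loss ≤ n := by
    have h1 : 1 * (50 * ℓ ^ 2 * w) ≤ 400 * ℓ * (50 * ℓ ^ 2 * w) :=
      Nat.mul_le_mul_right _ (by omega)
    omega
  exact amb_of n_nsmul (fun s => four_solutions s) ht htℓ hn (hmn.trans_lt hℓ) hloss2 hgm Γ hΓ
    hAΓ hA hmc hcn hno fun A' _ hA' =>
      str_of_core hℓ hb hw₂ hΛ₀ hΛ hκ hbig hloss hln (hlin A') hA'

end Pool.Agent.Lib.MPa7239a.RK
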