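import Pool.Agent.Lib.MP_a7239a_co.RK.Defs

/-!
# Theorem R: numbers of the rows

Elementary facts used by ENDP: a row has at most `|H|` elements, the rows `0, ..., b` contain all
but `#low + #high` elements, sums over the low and high elements.
-/

open Finset

namespace Pool.Agent.Lib.MPa7239a.RK

open Pool.Agent.Lib.MPa7239a.GC

theorem card_row_le_of_lift {G : Type*} [AddCommGroup G] [Finite G] {H : AddSubgroup G}
    {e q₀ : G} {A : Finset G} {z : G → ℤ} (hl : ∀ x ∈ A, x - q₀ - z x • e ∈ H) (i : ℤ) :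
    #(row A z i) ≤ Nat.card H := by
  classical
  have : Fintype H := Fintype.ofFinite H
  rw [Nat.card_eq_fintype_card, ← Finset.card_univ]
  refine Finset.card_le_card_of_injOn
    (fun x => if hx : x - q₀ - i • e ∈ H then (⟨x - q₀ - i • e, hx⟩ : H) else 0)
    (fun x _ => by simp) ?_
  intro x hx y hy hxy
  have hx' := Finset.mem_filter.1 (Finset.mem_coe.1 hx)
  have hy' := Finset.mem_filter.1 (Finset.mem_coe.1 hy)
  have h1 : x - q₀ - i • e ∈ H := by have := hl x hx'.1; rwa [hx'.2] at this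
  have h2 : y - q₀ - i • e ∈ H := by have := hl y hy'.1; rwa [hy'.2] at this
  simp only [dif_pos h1, dif_pos h2, Subtype.mk.injEq] at hxy
  simpa using hxy

theorem card_split {G : Type*} [DecidableEq G] (A : Finset G) (z : G → ℤ) {b : ℤ} (hb : 0 ≤ b) :
    #A = #(low A z 0) + #(high A z b) + ∑ i ∈ Icc (0 : ℤ) b, #(row A z i) := by
  have h1 : A.filter (fun x => 0 ≤ z x ∧ z x ≤ b) ∪ (low A z 0 ∪ high A z b) = A := by
    ext x
    simp only [low, high, mem_union, mem_filter]
    constructor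
    · rintro (h | h | h) <;> exact h.1
    · intro h
      rcases lt_or_ge (z x) 0 with h0 | h0
      · exact Or.inr (Or.inl ⟨h, h0⟩)
      rcases lt_or_ge b (z x) with h2 | h2
      · exact Or.inr (Or.inr ⟨h, h2⟩)
      · exact Or.inl ⟨h, h0, h2⟩
  have h2 : Disjoint (A.filter (fun x => 0 ≤ z x ∧ z x ≤ b)) (low A z 0 ∪ high A z b) := by
    rw [Finset.disjoint_left]
    intro x hx hy
    simp only [low, high, mem_union, mem_filter] at hx hy
    rcases hy with hy | hy <;> omega
  have h3 : Disjoint (low A z 0) (high A z b) := by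
    rw [Finset.disjoint_left]
    intro x hx hy
    simp only [low, high, mem_filter] at hx hy
    omega
  have h4 : #(A.filter (fun x => 0 ≤ z x ∧ z x ≤ b)) = ∑ i ∈ Icc (0 : ℤ) b, #(row A z i) := by
    rw [Finset.card_eq_sum_card_fiberwise (f := z) (t := Icc (0 : ℤ) b)]
    · refine Finset.sum_congr rfl fun i hi => ?_
      congr 1
      ext x
      simp only [row, mem_filter]
      have := Finset.mem_Icc.1 hi
      constructor
      · rintro ⟨⟨h, _⟩, h'⟩; exact ⟨h, h'⟩
      · rintro ⟨h, h'⟩; exact ⟨⟨h, by omega⟩, h'⟩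
    · intro x hx
      have := Finset.mem_filter.1 (Finset.mem_coe.1 hx)
      exact Finset.mem_coe.2 (Finset.mem_Icc.2 this.2)
  calc #A = #(A.filter (fun x => 0 ≤ z x ∧ z x ≤ b) ∪ (low A z 0 ∪ high A z b)) := by rw [h1]
    _ = _ := by rw [card_union_of_disjoint h2, card_union_of_disjoint h3, h4]; ring

theorem card_out_eq {G : Type*} [DecidableEq G] (A : Finset G) (z : G → ℤ) {b : ℤ} (hb : 0 ≤ b) :
    #(out A z 0 b 1) = #(low A z 0) + #(high A z b) := by
  have h3 : Disjoint (low A z 0) (high A z b) := by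
    rw [Finset.disjoint_left]
    intro x hx hy
    simp only [low, high, mem_filter] at hx hy
    omega
  rw [← card_union_of_disjoint h3]
  congr 1
  ext x
  simp only [out, low, high, mem_union, mem_filter]
  constructor
  · rintro ⟨h, h' | h'⟩
    · exact Or.inl ⟨h, by push_cast at h'; omega⟩
    · exact Or.inr ⟨h, by push_cast at h'; omega⟩
  · rintro (⟨h, h'⟩ | ⟨h, h'⟩)
    · exact ⟨h, Or.inl (by push_cast; omega)⟩
    · exact ⟨h, Or.inr (by push_cast; omega)⟩

theorem sum_low_le {G : Type*} (A : Finset G) (z : G → ℤ) :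
    ∑ x ∈ low A z 0, z x ≤ - (#(low A z 0) : ℤ) := by
  have h : ∑ x ∈ low A z 0, z x ≤ #(low A z 0) • (-1 : ℤ) :=
    Finset.sum_le_card_nsmul _ _ _ fun x hx => by
      have := (Finset.mem_filter.1 hx).2
      omega
  simpa using h

theorem le_sum_high {G : Type*} (A : Finset G) (z : G → ℤ) (b : ℤ) :
    (b + 1) * (#(high A z b) : ℤ) ≤ ∑ x ∈ high A z b, z x := by
  have h : #(high A z b) • (b + 1) ≤ ∑ x ∈ high A z b, z x :=
    Finset.card_nsmul_le_sum _ _ _ fun x hx => by
      have := (Finset.mem_filter.1 hx).2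
      omega
  simpa [mul_comm] using h

/-- all rows but those of `I` have at most `M` elements -/
theorem rows_bound {G : Type*} [DecidableEq G] (A : Finset G) (z : G → ℤ) {b M : ℕ}
    (hM : ∀ i : ℤ, #(row A z i) ≤ M) (I : Finset ℤ) (hI : I ⊆ Icc (0 : ℤ) b) :
    #A ≤ #(low A z 0) + #(high A z b) + ∑ i ∈ I, #(row A z i) + (b + 1 - #I) * M := by
  rw [card_split A z (b := (b : ℤ)) (by positivity), add_assoc _ (∑ i ∈ I, _) _,
    ← Finset.sum_sdiff hI]
  have h1 : ∑ i ∈ Icc (0 : ℤ) b \ I, #(row A z i) ≤ (b + 1 - #I) * M := by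
    have h := Finset.sum_le_card_nsmul (Icc (0 : ℤ) b \ I) (fun i => #(row A z i)) M
      (fun i _ => hM i)
    rw [Finset.card_sdiff_of_subset hI, Int.card_Icc, smul_eq_mul] at h
    have : ((b : ℤ) + 1 - 0).toNat = b + 1 := by omega
    rwa [this] at h
  omega

end Pool.Agent.Lib.MPa7239a.RK
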