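import Pool.Agent.Lib.MP_a7239a_co.RK.CNT

/-!
# Reversal of the rows
-/

open Finset

namespace Pool.Agent.Lib.MPa7239a.RK

open Pool.Agent.Lib.MPa7239a.GC

variable {G : Type*}

theorem row_rev (A : Finset G) (z : G → ℤ) (k i : ℤ) :
    row A (fun x => k - z x) i = row A z (k - i) := by
  rw [row, row]
  refine filter_congr fun x _ => ?_
  constructor <;> intro h <;> omega

theorem low_rev (A : Finset G) (z : G → ℤ) (k i : ℤ) :
    low A (fun x => k - z x) i = high A z (k - i) := by
  rw [low, high]
  refine filter_congr fun x _ => ?_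
  constructor <;> intro h <;> omega

theorem high_rev (A : Finset G) (z : G → ℤ) (k i : ℤ) :
    high A (fun x => k - z x) i = low A z (k - i) := by
  rw [low, high]
  refine filter_congr fun x _ => ?_
  constructor <;> intro h <;> omega

theorem out_rev (A : Finset G) (z : G → ℤ) (k p q : ℤ) (d : ℕ) :
    out A (fun x => k - z x) p q d = out A z (k - q) (k - p) d := by
  rw [out, out]
  refine filter_congr fun x _ => ?_
  constructor
  · rintro (h | h)
    · exact Or.inr (by omega)
    · exact Or.inl (by omega)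
  · rintro (h | h)
    · exact Or.inr (by omega)
    · exact Or.inl (by omega)

theorem sum_rev (A : Finset G) (z : G → ℤ) (k : ℤ) :
    ∑ x ∈ A, (k - z x) = #A * k - ∑ x ∈ A, z x := by
  rw [sum_sub_distrib, sum_const, nsmul_eq_mul]

variable [AddCommGroup G] {H : AddSubgroup G} {e q₀ : G} {A : Finset G} {z : G → ℤ}

theorem lift_rev (hlift : ∀ x ∈ A, x - q₀ - z x • e ∈ H) (k : ℤ) :
    ∀ x ∈ A, x - (q₀ + k • e) - (k - z x) • (-e) ∈ H := by
  intro x hx
  have h1 := hlift x hx
  have h2 : x - (q₀ + k • e) - (k - z x) • (-e) = x - q₀ - z x • e := by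
    rw [smul_neg, sub_smul]
    abel
  rw [h2]
  exact h1

theorem nq_rev {n : ℕ} (hn0 : ∀ x : G, n • x = 0) (k : ℤ) : n • (q₀ + k • e) = 0 := hn0 _

theorem order_rev {o : ℕ} (h : addOrderOf (e : G ⧸ H) = o) :
    addOrderOf ((-e : G) : G ⧸ H) = o := by
  rw [QuotientAddGroup.mk_neg, addOrderOf_neg]
  exact h

theorem StrP.rev {m n c s o b E : ℕ} (h : StrP H e q₀ A z m n c s o b E)
    (hn0 : ∀ x : G, n • x = 0) :
    StrP H (-e) (q₀ + (b : ℤ) • e) A (fun x => (b : ℤ) - z x) m n c s o b E where
  card := h.card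
  nq := hn0 _
  lift := lift_rev h.lift b
  cardH := h.cardH
  hs := h.hs
  hb := h.hb
  hn := h.hn
  ho := h.ho
  order := order_rev h.order
  mc := h.mc
  cm := h.cm
  few := by
    rw [out_rev, sub_self, sub_zero]
    exact h.few
  near := by
    intro x hx d hd h1
    refine h.near x hx d hd ?_
    rcases h1 with h1 | h1
    · exact Or.inr (by omega)
    · exact Or.inl (by omega)

theorem StrR.rev {m n c s o b ρ E : ℕ} (h : StrR H e q₀ A z m n c s o b ρ E)
    (hn0 : ∀ x : G, n • x = 0) :
    StrR H (-e) (q₀ + (b : ℤ) • e) A (fun x => (b : ℤ) - z x) m n c s o b ρ E where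
  card := h.card
  nq := hn0 _
  lift := lift_rev h.lift b
  cardH := h.cardH
  hb := h.hb
  hρ := h.hρ
  hρs := h.hρs
  hn := h.hn
  ho := h.ho
  order := order_rev h.order
  mc := h.mc
  cm := h.cm
  few := by
    rw [out_rev, sub_self, sub_zero]
    exact h.few
  near := by
    intro x hx d hd h1
    rw [out_rev, sub_self, sub_zero]
    refine h.near x hx d hd ?_
    rcases h1 with h1 | h1
    · exact Or.inr (by omega)
    · exact Or.inl (by omega)

end Pool.Agent.Lib.MPa7239a.RK
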