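import Pool.Agent.Lib.MP_a7239a_co.RK.FLX
import Pool.Agent.Lib.MP_a7239a_co.RK.TWO
import Pool.Agent.Lib.MP_a7239a_co.RK.PROF
import Pool.Agent.Lib.MP_a7239a_co.RK.REV
import Pool.Agent.Lib.MP_a7239a_co.GC.SEL

/-!
# The end of the argument for `t = b * s + ρ`, `1 ≤ ρ < s`
-/

open Finset

namespace Pool.Agent.Lib.MPa7239a.RK

open Pool.Agent.Lib.MPa7239a.GC

variable {G : Type*} [AddCommGroup G] [Finite G] [DecidableEq G] {H : AddSubgroup G} {e q₀ : G}
  {A : Finset G} {z : G → ℤ} {m n c s o b ρ E θ : ℕ}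

omit [Finite G] [DecidableEq G] in
/-- the numbers -/
theorem StrR.numbers (h : StrR H e q₀ A z m n c s o b ρ E)
    (hm : 100 * s * (b + 1) * (E + θ + 10) ≤ m) :
    ∃ r : ℕ, o = b * m + r ∧ r * s = m * ρ ∧ m ≤ 2 * (r * (s - 1)) ∧
      r + 100 * (b + 1) * (E + θ + 10) ≤ m ∧ #(low A z 0) + #(high A z b) ≤ r + E := by
  obtain ⟨-, -, -, -, hb, hρ, hρs, hn, ho, -, hmc, -, hfew, -⟩ := h
  have hs : 0 < s := by omega
  have h1 : b * m * s ≤ o * s := by
    rw [ho, hn]
    have : b * (m * s) = b * m * s := by ring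
    omega
  have h2 : b * m ≤ o := Nat.le_of_mul_le_mul_right h1 hs
  obtain ⟨r, hr⟩ := Nat.exists_eq_add_of_le h2
  have h3 : r * s = m * ρ := by
    rw [hr, hn] at ho
    have : (b * m + r) * s = b * (m * s) + r * s := by ring
    omega
  refine ⟨r, hr, h3, ?_, ?_, ?_⟩
  · obtain ⟨s', rfl⟩ : ∃ s', s = s' + 2 := ⟨s - 2, by omega⟩
    have h4 : m ≤ m * ρ := Nat.le_mul_of_pos_right m hρ
    have h5 : r * (s' + 2) ≤ 2 * (r * (s' + 2 - 1)) := by
      rw [show s' + 2 - 1 = s' + 1 by omega]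
      have : 2 * (r * (s' + 1)) = r * (s' + 2) + r * s' := by ring
      omega
    omega
  · have h4 : (r + 100 * (b + 1) * (E + θ + 10)) * s ≤ m * s := by
      have h5 : m * ρ + m ≤ m * s := by
        calc m * ρ + m = m * (ρ + 1) := by ring
          _ ≤ m * s := Nat.mul_le_mul_left _ hρs
      have h6 : 100 * (b + 1) * (E + θ + 10) * s = 100 * s * (b + 1) * (E + θ + 10) := by ring
      rw [add_mul, h3, h6]
      omega
    exact Nat.le_of_mul_le_mul_right h4 hs
  · rw [card_out A z (by omega)] at hfew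
    omega

omit [DecidableEq G] in
/-- every row has more than `c` elements -/
theorem StrR.row_big (h : StrR H e q₀ A z m n c s o b ρ E) {r : ℕ}
    (h3 : r * s = m * ρ) (h5 : m ≤ 2 * (r * (s - 1)))
    (h7 : #(low A z 0) + #(high A z b) ≤ r + E) {i : ℤ} (hi0 : 0 ≤ i) (hib : i ≤ b) :
    2 * c + m ≤ 2 * #(row A z i) + 2 * E := by
  have h1 := row_ge h.lift hi0 hib
  rw [h.card, h.cardH, h.hn] at h1
  have hs : 1 ≤ s := by have := h.hρs; omega
  obtain ⟨s', rfl⟩ : ∃ s', s = s' + 1 := ⟨s - 1, by omega⟩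
  rw [Nat.add_sub_cancel] at h5
  have h8 : r * (s' + 1) = r * s' + r := by ring
  omega

omit [DecidableEq G] in
theorem StrR.ready (h : StrR H e q₀ A z m n c s o b ρ E) (hFF : FatFull H θ)
    (hm : 100 * s * (b + 1) * (E + θ + 10) ≤ m) :
    Ready H e q₀ A z n c θ m 0 b 0 b := by
  obtain ⟨r, h2, h3, h5, h6, h7⟩ := h.numbers hm
  have hb := h.hb
  have hmc := h.mc
  have h9 : 1000 ≤ 100 * (b + 1) * (E + θ + 10) := by
    calc 1000 = 100 * 1 * 10 := by norm_num
      _ ≤ _ := Nat.mul_le_mul (Nat.mul_le_mul_left _ (by omega)) (by omega)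
  have h10 : 100 * (E + 10) ≤ 100 * (b + 1) * (E + θ + 10) := by
    calc 100 * (E + 10) = 100 * 1 * (E + 10) := by ring
      _ ≤ _ := Nat.mul_le_mul (Nat.mul_le_mul_left _ (by omega)) (by omega)
  have hrow : ∀ i : ℤ, 0 ≤ i → i ≤ b → m + 5 ≤ #(row A z i) := by
    intro i hi0 hib
    have := h.row_big h3 h5 h7 hi0 hib
    omega
  have hs2 : 2 ≤ s := by have := h.hρ; have := h.hρs; omega
  have hn3 : 3 * m ≤ n := by
    rw [h.hn]
    have h11 : 1 * (m * 2) ≤ b * (m * s) := Nat.mul_le_mul hb (Nat.mul_le_mul_left _ hs2)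
    have h12 : m * 1 ≤ m * ρ := Nat.mul_le_mul_left _ h.hρ
    omega
  refine ⟨h.card, h.nq, h.lift, hFF, ?_, by omega, le_rfl, by exact_mod_cast hb, le_rfl, ?_, ?_, ?_, ?_⟩
  · rw [card_out A z (by omega)]
    omega
  · intro i hi0 hib
    have := hrow i hi0 hib
    omega
  · exact hrow 0 le_rfl (by omega)
  · exact hrow b (by omega) le_rfl
  · intro x hx d hd h1
    obtain ⟨h12, h13⟩ := h.near x hx d hd h1
    have h14 : (2 * d : ℕ) ≤ b * m + r + 10 := by omega
    have h15 : m ≤ b * m := Nat.le_mul_of_pos_left m hb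
    have h16 : d ≤ b * m := by omega
    have h17 : (d : ℤ) ≤ (b : ℤ) * (m : ℤ) := by exact_mod_cast h16
    have h18 : (d : ℤ) + (b : ℤ) * ((#(out A z 0 b d) : ℤ) + 2) ≤ (b : ℤ) * (c : ℤ) := by
      exact_mod_cast h13
    refine ⟨?_, ?_⟩
    · rw [sub_self, sub_zero, add_zero, add_zero]
      exact h17
    · rw [sub_self, sub_zero, add_zero, add_zero]
      exact h18

omit [DecidableEq G] in
/-- two rows: one of them is fat -/
theorem StrR.fat_or (h : StrR H e q₀ A z m n c s o b ρ E)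
    (hm : 100 * s * (b + 1) * (E + θ + 10) ≤ m) {i j : ℤ} (hi0 : 0 ≤ i) (hib : i ≤ b)
    (hj0 : 0 ≤ j) (hjb : j ≤ b) (hij : i ≠ j) (hi : ¬ Nat.card H + θ ≤ 2 * #(row A z i)) :
    Nat.card H + θ ≤ 2 * #(row A z j) := by
  obtain ⟨r, h2, h3, h5, h6, h7⟩ := h.numbers hm
  by_contra hj
  have hb := h.hb
  have hmc := h.mc
  have h1 := rows_ge h.lift hi0 hib hj0 hjb hij
  rw [h.card, h.cardH, h.hn] at h1
  rw [h.cardH] at hi hj
  push Not at hi hj
  obtain ⟨b', rfl⟩ : ∃ b', b = b' + 1 := ⟨b - 1, by omega⟩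
  rw [Nat.add_sub_cancel] at h1
  have h8 : (b' + 1) * (m * s) = b' * (m * s) + m * s := by ring
  have h9 : m * 1 ≤ m * ρ := Nat.mul_le_mul_left _ h.hρ
  have h10 : E + θ ≤ 100 * (b' + 1 + 1) * (E + θ + 10) := by nlinarith
  omega

omit [AddCommGroup G] [Finite G] [DecidableEq G] in
theorem sum_high_nonneg {b : ℕ} : 0 ≤ ∑ x ∈ high A z b, z x :=
  sum_nonneg fun x hx => by
    have := (mem_high.1 hx).2
    omega

omit [AddCommGroup G] [Finite G] [DecidableEq G] in
theorem sum_low_nonpos : ∑ x ∈ low A z 0, z x ≤ 0 :=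
  sum_nonpos fun _ hx => (mem_low.1 hx).2.le

/-- the flexible interval of row `b` -/
theorem StrR.flex_b (h : StrR H e q₀ A z m n c s o b ρ E) (hFF : FatFull H θ)
    (hm : 100 * s * (b + 1) * (E + θ + 10) ≤ m) (hfb : Nat.card H + θ ≤ 2 * #(row A z b)) {Y : ℤ}
    (h1 : ∑ x ∈ A, z x - (∑ x ∈ high A z b, z x + b * (c - #(high A z b) : ℕ)) ≤ Y)
    (h2 : Y ≤ ∑ x ∈ A, z x - (∑ x ∈ low A z 0, z x + 2 * b)) : Flex H e A n Y := by
  obtain ⟨r, h3, h4, h5, h6, h7⟩ := h.numbers hm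
  have hb := h.hb
  have hmc := h.mc
  have h9 : 2 * E + 1000 ≤ 100 * (b + 1) * (E + θ + 10) := by nlinarith
  have hR0 := h.row_big h4 h5 h7 (i := 0) le_rfl (by omega)
  have hRb := h.row_big h4 h5 h7 (i := b) (by omega) le_rfl
  refine flx_num (h.ready hFF hm) (f := b) (i := 0) (j := 0) (u := 0) (v := b) (by omega) le_rfl hfb
    (α := c - #(low A z 0) - 2) (α' := 2) (β := 0) (β' := c - #(high A z b))
    (by omega) le_rfl (by omega) (by omega) (by omega) le_rfl (by omega) (by omega) (by omega)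
    le_rfl (by omega) (by omega) (by omega) (by omega) Y ?_ ?_
  · refine le_trans (le_of_eq ?_) h1
    push_cast
    ring
  · refine h2.trans (le_of_eq ?_)
    push_cast
    ring

/-- the flexible interval of rows `0` and `b` -/
theorem StrR.flex_0b (h : StrR H e q₀ A z m n c s o b ρ E) (hFF : FatFull H θ)
    (hm : 100 * s * (b + 1) * (E + θ + 10) ≤ m) (hfb : Nat.card H + θ ≤ 2 * #(row A z b))
    (hf0 : Nat.card H + θ ≤ 2 * #(row A z 0)) {Y : ℤ}
    (h1 : ∑ x ∈ A, z x - (∑ x ∈ high A z b, z x + b * (c - #(high A z b) : ℕ)) ≤ Y)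
    (h2 : Y ≤ ∑ x ∈ A, z x - ∑ x ∈ low A z 0, z x) : Flex H e A n Y := by
  by_cases h2' : Y ≤ ∑ x ∈ A, z x - (∑ x ∈ low A z 0, z x + 2 * b)
  · exact h.flex_b hFF hm hfb h1 h2'
  obtain ⟨r, h3, h4, h5, h6, h7⟩ := h.numbers hm
  have hb := h.hb
  have hmc := h.mc
  have h9 : 2 * E + 1000 ≤ 100 * (b + 1) * (E + θ + 10) := by nlinarith
  have hR0 := h.row_big h4 h5 h7 (i := 0) le_rfl (by omega)
  have hRb := h.row_big h4 h5 h7 (i := b) (by omega) le_rfl
  have hhi := sum_high_nonneg (A := A) (z := z) (b := b)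
  have hlo := sum_low_nonpos (A := A) (z := z)
  have hbc : (b : ℤ) * 2 ≤ b * (c - #(high A z b) - 2 : ℕ) := by
    exact_mod_cast Nat.mul_le_mul_left b (show 2 ≤ c - #(high A z b) - 2 by omega)
  push Not at h2'
  refine flx_num (h.ready hFF hm) (f := 0) (i := b) (j := b) (u := 0) (v := b) le_rfl (by omega) hf0
    (α := 0) (α' := c - #(low A z 0)) (β := c - #(high A z b) - 2) (β' := 2)
    (by omega) (by omega) (by omega) (by omega) (by omega) (by omega) (by omega) (by omega)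
    (by omega) (by omega) (by omega) (by omega) le_rfl (by omega) Y ?_ ?_
  · push_cast at h2' hbc ⊢
    nlinarith
  · refine h2.trans (le_of_eq ?_)
    push_cast
    ring

/-- the flexible interval of rows `1` and `b` -/
theorem StrR.flex_1b (h : StrR H e q₀ A z m n c s o b ρ E) (hFF : FatFull H θ)
    (hm : 100 * s * (b + 1) * (E + θ + 10) ≤ m) (hfb : Nat.card H + θ ≤ 2 * #(row A z b))
    (hf1 : Nat.card H + θ ≤ 2 * #(row A z 1)) {Y : ℤ}
    (h1 : ∑ x ∈ A, z x - (∑ x ∈ high A z b, z x + b * (c - #(high A z b) : ℕ)) ≤ Y)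
    (h2 : Y ≤ ∑ x ∈ A, z x - (∑ x ∈ low A z 0, z x + 2)) : Flex H e A n Y := by
  by_cases h2' : Y ≤ ∑ x ∈ A, z x - (∑ x ∈ low A z 0, z x + 2 * b)
  · exact h.flex_b hFF hm hfb h1 h2'
  have hb := h.hb
  have hb2 : b ≠ 1 := by
    rintro rfl
    apply h2'
    push_cast
    linarith
  obtain ⟨r, h3, h4, h5, h6, h7⟩ := h.numbers hm
  have hmc := h.mc
  have h9 : 2 * E + 1000 ≤ 100 * (b + 1) * (E + θ + 10) := by nlinarith
  have hR0 := h.row_big h4 h5 h7 (i := 0) le_rfl (by omega)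
  have hR1 := h.row_big h4 h5 h7 (i := 1) (by omega) (by omega)
  have hRb := h.row_big h4 h5 h7 (i := b) (by omega) le_rfl
  have hhi := sum_high_nonneg (A := A) (z := z) (b := b)
  have hlo := sum_low_nonpos (A := A) (z := z)
  have hbc : (b : ℤ) * 2 ≤ b * (c - #(high A z b) - 2 : ℕ) := by
    exact_mod_cast Nat.mul_le_mul_left b (show 2 ≤ c - #(high A z b) - 2 by omega)
  push Not at h2'
  refine flx_num (h.ready hFF hm) (f := 1) (i := 0) (j := b) (u := 0) (v := b) (by omega) (by omega)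
    hf1 (α := c - #(low A z 0) - 2) (α' := 2) (β := c - #(high A z b) - 2) (β' := 2)
    (by omega) (by omega) (by omega) (by omega) (by omega) (by omega) (by omega) (by omega)
    (by omega) (by omega) (by omega) (by omega) le_rfl (by omega) Y ?_ ?_
  · push_cast at h2' hbc ⊢
    nlinarith
  · refine h2.trans (le_of_eq ?_)
    push_cast
    ring

omit [Finite G] in
/-- the sum of `n` elements in `H` -/
theorem dvd_of_sum_mem {o : ℕ} (hnq : n • q₀ = 0) (hlift : ∀ x ∈ A, x - q₀ - z x • e ∈ H)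
    (horder : addOrderOf (e : G ⧸ H) = o) {T : Finset G} (hT : T ⊆ A) (hTc : #T = n)
    (hTs : ∑ y ∈ T, y ∈ H) : ∃ k : ℤ, ∑ x ∈ T, z x = k * o := by
  have h1 := sum_S z hlift T hT
  rw [hTc, hnq, sub_zero] at h1
  have h2 : (∑ x ∈ T, z x) • e ∈ H := by
    have h3 := H.sub_mem hTs h1
    rwa [sub_sub_cancel] at h3
  rw [← QuotientAddGroup.eq_zero_iff, QuotientAddGroup.mk_zsmul,
    ← addOrderOf_dvd_iff_zsmul_eq_zero, horder] at h2
  obtain ⟨k, hk⟩ := h2
  exact ⟨k, by rw [hk]; ring⟩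

omit [Finite G] [DecidableEq G] in
theorem order_smul_mem {o : ℕ} (horder : addOrderOf (e : G ⧸ H) = o) : o • e ∈ H := by
  rw [← QuotientAddGroup.eq_zero_iff, QuotientAddGroup.mk_nsmul, ← horder]
  exact addOrderOf_nsmul_eq_zero _

/-- the case that row `b` is fat -/
theorem StrR.hit_of_fat (h : StrR H e q₀ A z m n c s o b ρ E) (hFF : FatFull H θ)
    (hm : 100 * s * (b + 1) * (E + θ + 10) ≤ m)
    (hcyc : ∀ x ∈ A, ∃ T ⊆ A.erase x, #T = n ∧ ∑ y ∈ T, y ∈ H)
    (hfb : Nat.card H + θ ≤ 2 * #(row A z b)) : Hit A n 0 := by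
  obtain ⟨r, h3, h4, h5, h6, h7⟩ := h.numbers hm
  have hb := h.hb
  have hmc := h.mc
  have h9 : 2 * E + 1000 ≤ 100 * (b + 1) * (E + θ + 10) := by nlinarith
  have hR0 := h.row_big h4 h5 h7 (i := 0) le_rfl (by omega)
  have hRb := h.row_big h4 h5 h7 (i := b) (by omega) le_rfl
  have hoe := order_smul_mem h.order
  -- the set of `n` elements omitting `x`
  have key : ∀ x ∈ A, ∃ D : Finset G, D ⊆ A ∧ #D = c ∧ x ∈ D ∧
      (Flex H e A n (∑ x ∈ A, z x - ∑ x ∈ D, z x) → Hit A n 0) := by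
    intro x hx
    obtain ⟨T, hT, hTc, hTs⟩ := hcyc x hx
    have hTA : T ⊆ A := hT.trans (erase_subset _ _)
    refine ⟨A \ T, sdiff_subset, ?_, ?_, ?_⟩
    · rw [card_sdiff_of_subset hTA, h.card, hTc]
      omega
    · rw [mem_sdiff]
      exact ⟨hx, fun h8 => by
        have := hT h8
        rw [mem_erase] at this
        exact this.1 rfl⟩
    · intro hflex
      obtain ⟨k, hk⟩ := dvd_of_sum_mem h.nq h.lift h.order hTA hTc hTs
      have h8 := sum_sdiff (f := z) hTA
      have h10 : ∑ x ∈ A, z x - ∑ x ∈ A \ T, z x = k * o := by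
        rw [← hk]
        omega
      rw [h10] at hflex
      exact hit_of_flex_mul hoe hflex
  have hup : ∀ D ⊆ A, #D = c → ∑ x ∈ D, z x ≤
      ∑ x ∈ high A z b, z x + b * (c - #(high A z b) : ℕ) := fun D hD hDc =>
    sum_le_high hD hDc (by omega)
  by_cases hf0 : Nat.card H + θ ≤ 2 * #(row A z 0)
  · have hne : A.Nonempty := by
      rw [← card_pos, h.card]
      omega
    obtain ⟨x, hx⟩ := hne
    obtain ⟨D, hD, hDc, -, hhit⟩ := key x hx
    apply hhit
    have h10 := hup D hD hDc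
    have h11 := sum_ge_low (z := z) hD
    exact h.flex_0b hFF hm hfb hf0 (by omega) (by omega)
  · have hf1 : Nat.card H + θ ≤ 2 * #(row A z 1) := by
      exact h.fat_or hm le_rfl (by omega) (by omega) (by exact_mod_cast hb) (by omega) hf0
    by_cases h2 : ∃ x ∈ A, 2 ≤ z x
    · obtain ⟨x, hx, hzx⟩ := h2
      obtain ⟨D, hD, hDc, hxD, hhit⟩ := key x hx
      apply hhit
      have h10 := hup D hD hDc
      have h11 := sum_ge_low_of_mem (z := z) hD hxD (by omega)
      exact h.flex_1b hFF hm hfb hf1 (by omega) (by omega)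
    · push Not at h2
      have hb1 : b = 1 := by
        by_contra hne
        have h8 : 0 < #(row A z b) := by omega
        obtain ⟨x, hx⟩ := card_pos.1 h8
        rw [mem_row] at hx
        have := h2 x hx.1
        omega
      have hhigh : #(high A z b) = 0 := by
        rw [card_eq_zero, high, filter_eq_empty_iff]
        intro x hx h8
        have := h2 x hx
        omega
      subst hb1
      have h8 : 0 < #(row A z ((1 : ℕ) : ℤ)) := by omega
      obtain ⟨x, hx⟩ := card_pos.1 h8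
      rw [mem_row] at hx
      obtain ⟨D, hD, hDc, hxD, hhit⟩ := key x hx.1
      apply hhit
      have h10 := hup D hD hDc
      have h11 := sum_ge_low_of_mem (z := z) hD hxD (by omega)
      by_cases h12 : ∑ x ∈ low A z 0, z x + 2 ≤ ∑ x ∈ D, z x
      · exact h.flex_1b hFF hm hfb hf1 (by omega) (by omega)
      have h13 : ∑ x ∈ D, z x = ∑ x ∈ low A z 0, z x + 1 := by
        rw [hx.2] at h11
        push_cast at h11
        omega
      -- two rows
      obtain ⟨D', hD', hDc', hr0, hr1, hs'⟩ := exists_low A z (c := c)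
        (α := c - #(low A z 0) - 1) (β := 1) (i := 0) (f := 1) (u := 0) (by omega) le_rfl
        (by omega) (by omega) (by omega) (by push_cast at hRb; omega)
      have h14 : ∑ x ∈ D, z x = ∑ x ∈ D', z x := by
        rw [h13, hs']
        push_cast
        ring
      rw [h14]
      have h15 := rows_ge (b := 1) h.lift (i := 0) (j := 1) le_rfl (by omega) (by omega)
        (by simp) (by omega)
      rw [hhigh, h.card, Nat.sub_self, zero_mul] at h15
      have h16 : Nat.card H ≤ n := by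
        rw [h.cardH, h.hn]
        omega
      push_cast at hRb
      refine flex_two h.card h.nq h.lift (i := 0) (f := 1) (by omega) hD' hDc' ?_ ?_ ?_ ?_ ?_
      · rw [hr0]; omega
      · rw [hr0]; omega
      · rw [hr1]
      · rw [hr1]; omega
      · rw [hr0, hr1]
        have h17 := le_max_right (c - #(low A z 0) - 1) (#(row A z 0) - (c - #(low A z 0) - 1))
        have h18 := le_max_right 1 (#(row A z 1) - 1)
        omega

/-- MODULE ENDR, part 1 -/
theorem end_R (h : StrR H e q₀ A z m n c s o b ρ E) (hn0 : ∀ x : G, n • x = 0)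
    (hFF : FatFull H θ) (hm : 100 * s * (b + 1) * (E + θ + 10) ≤ m)
    (hcyc : ∀ x ∈ A, ∃ T ⊆ A.erase x, #T = n ∧ ∑ y ∈ T, y ∈ H) : Hit A n 0 := by
  have hb := h.hb
  by_cases hfb : Nat.card H + θ ≤ 2 * #(row A z b)
  · exact h.hit_of_fat hFF hm hcyc hfb
  · have hf0 := h.fat_or hm (by omega) le_rfl le_rfl (by omega) (by omega) hfb
    refine (h.rev hn0).hit_of_fat hFF hm hcyc ?_
    rw [row_rev, sub_self]
    exact hf0

omit [DecidableEq G] in
/-- the sum over the middle rows, from above -/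
theorem sum_mid_le (hlift : ∀ x ∈ A, x - q₀ - z x • e ∈ H) (b : ℕ) :
    2 * ∑ x ∈ A.filter (fun x => 0 ≤ z x ∧ z x ≤ b), z x ≤ Nat.card H * (b * (b + 1)) := by
  classical
  have h1 : ∀ x ∈ A.filter (fun x => 0 ≤ z x ∧ z x ≤ b), (z x).toNat ∈ range (b + 1) := by
    intro x hx
    rw [mem_filter] at hx
    rw [mem_range]
    omega
  have h2 : ∑ x ∈ A.filter (fun x => 0 ≤ z x ∧ z x ≤ b), z x ≤
      ∑ i ∈ range (b + 1), (Nat.card H : ℤ) * i := by
    rw [← sum_fiberwise_of_maps_to h1]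
    refine sum_le_sum fun i _ => ?_
    have h3 : ∑ x ∈ (A.filter (fun x => 0 ≤ z x ∧ z x ≤ b)).filter (fun x => (z x).toNat = i), z x =
        #((A.filter (fun x => 0 ≤ z x ∧ z x ≤ b)).filter (fun x => (z x).toNat = i)) * (i : ℤ) := by
      rw [← nsmul_eq_mul, ← sum_const]
      refine sum_congr rfl fun x hx => ?_
      rw [mem_filter, mem_filter] at hx
      omega
    rw [h3]
    refine mul_le_mul_of_nonneg_right ?_ (by omega)
    have h4 : (A.filter (fun x => 0 ≤ z x ∧ z x ≤ b)).filter (fun x => (z x).toNat = i) ⊆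
        row A z i := by
      intro x hx
      rw [mem_filter, mem_filter] at hx
      rw [mem_row]
      exact ⟨hx.1.1, by omega⟩
    exact_mod_cast (card_le_card h4).trans (card_row_le hlift _)
  rw [← mul_sum] at h2
  have h5 : ((∑ i ∈ range (b + 1), i : ℕ) : ℤ) * 2 = ((b + 1) * b : ℕ) := by
    exact_mod_cast sum_range_id_mul_two (b + 1)
  push_cast at h5 h2
  nlinarith

omit [AddCommGroup G] [Finite G] in
/-- the sum over `A` in three parts -/
theorem sum_three (A : Finset G) (z : G → ℤ) (b : ℕ) :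
    ∑ x ∈ A, z x = ∑ x ∈ low A z 0, z x +
      ∑ x ∈ A.filter (fun x => 0 ≤ z x ∧ z x ≤ b), z x + ∑ x ∈ high A z b, z x := by
  have h1 : A = (low A z 0 ∪ A.filter (fun x => 0 ≤ z x ∧ z x ≤ b)) ∪ high A z b := by
    ext x
    rw [mem_union, mem_union, mem_low, mem_filter, mem_high]
    constructor
    · intro hx
      by_cases h2 : z x < 0
      · exact Or.inl (Or.inl ⟨hx, h2⟩)
      · by_cases h3 : (b : ℤ) < z x
        · exact Or.inr ⟨hx, h3⟩
        · exact Or.inl (Or.inr ⟨hx, by omega, by omega⟩)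
    · rintro ((h | h) | h)
      · exact h.1
      · exact h.1
      · exact h.1
  conv_lhs => rw [h1]
  rw [sum_union, sum_union]
  · rw [Finset.disjoint_left]
    intro x h2 h3
    rw [mem_low] at h2
    rw [mem_filter] at h3
    omega
  · rw [Finset.disjoint_left]
    intro x h2 h3
    rw [mem_union, mem_low, mem_filter] at h2
    rw [mem_high] at h3
    omega

omit [AddCommGroup G] [Finite G] [DecidableEq G] in
theorem sum_low_le_neg_card : ∑ x ∈ low A z 0, z x ≤ -#(low A z 0) := by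
  have h1 : ∑ x ∈ low A z 0, z x ≤ ∑ _x ∈ low A z 0, (-1 : ℤ) :=
    sum_le_sum fun x hx => by
      have := (mem_low.1 hx).2
      omega
  rw [sum_const, nsmul_eq_mul] at h1
  linarith

omit [AddCommGroup G] [Finite G] [DecidableEq G] in
theorem card_le_sum_high (b : ℕ) : ((b : ℤ) + 1) * #(high A z b) ≤ ∑ x ∈ high A z b, z x := by
  have h1 : ∑ _x ∈ high A z b, ((b : ℤ) + 1) ≤ ∑ x ∈ high A z b, z x :=
    sum_le_sum fun x hx => by
      have := (mem_high.1 hx).2
      omega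
  rw [sum_const, nsmul_eq_mul] at h1
  linarith

/-- MODULE ENDR, part 2 -/
theorem end_R2 (h : StrR H e q₀ A z m n c 2 o b 1 E) (hFF : FatFull H θ)
    (hm' : 200 * (b + 1) * (E + θ + 10) ≤ m) : Hit A n 0 := by
  have hm : 100 * 2 * (b + 1) * (E + θ + 10) ≤ m := hm'
  obtain ⟨r, h3, h4, h5, h6, h7⟩ := h.numbers hm
  have hb := h.hb
  have hmc := h.mc
  have hn := h.hn
  have h9 : 2 * E + θ + 1000 ≤ 100 * (b + 1) * (E + θ + 10) := by nlinarith
  have hR0 := h.row_big h4 h5 h7 (i := 0) le_rfl (by omega)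
  have hRb := h.row_big h4 h5 h7 (i := b) (by omega) le_rfl
  have hoe := order_smul_mem h.order
  have hf0 : Nat.card H + θ ≤ 2 * #(row A z 0) := by
    rw [h.cardH]
    omega
  have hfb : Nat.card H + θ ≤ 2 * #(row A z b) := by
    rw [h.cardH]
    omega
  have hflex : ∀ Y : ℤ, ∑ x ∈ A, z x -
      (∑ x ∈ high A z b, z x + b * (c - #(high A z b) : ℕ)) ≤ Y →
      Y ≤ ∑ x ∈ A, z x - ∑ x ∈ low A z 0, z x → Flex H e A n Y := fun Y h1 h2 =>
    h.flex_0b hFF hm hfb hf0 h1 h2
  have ho : 0 < o := by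
    have : m ≤ b * m := Nat.le_mul_of_pos_left m hb
    omega
  by_cases hlen : (∑ x ∈ A, z x -
      (∑ x ∈ high A z b, z x + b * (c - #(high A z b) : ℕ))) + o ≤
      (∑ x ∈ A, z x - ∑ x ∈ low A z 0, z x) + 1
  · exact hit_of_flex ho hoe hlen hflex
  -- the multiple `b o`
  have hlow := sum_low_le_neg_card (A := A) (z := z)
  have hhigh := card_le_sum_high (A := A) (z := z) b
  obtain ⟨a, ha⟩ : ∃ a, a = #(low A z 0) := ⟨_, rfl⟩
  obtain ⟨a', ha'⟩ : ∃ a', a' = #(high A z b) := ⟨_, rfl⟩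
  rw [← ha] at hlow h7
  rw [← ha'] at hhigh h7 hflex hlen
  have hac : a' ≤ c := by omega
  have hsum := sum_three A z b
  have hmid := sum_mid_le h.lift b
  have hmid' := sum_mid_le (z := fun x => (b : ℤ) - z x) (lift_rev h.lift b) b
  have hfil : A.filter (fun x => 0 ≤ (b : ℤ) - z x ∧ (b : ℤ) - z x ≤ b) =
      A.filter (fun x => 0 ≤ z x ∧ z x ≤ b) := by
    refine filter_congr fun x _ => ?_
    constructor
    · rintro ⟨h1, h2⟩
      omega
    · rintro ⟨h1, h2⟩
      omega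
  rw [hfil, sum_rev] at hmid'
  have hcard := card_rows A z (p := 0) (q := b) (by omega)
  have hcard2 : #A = a + #(A.filter (fun x => 0 ≤ z x ∧ z x ≤ b)) + a' := by
    have h1 := card_filter_add_card_filter_not (s := A) (fun x => 0 ≤ z x ∧ z x ≤ b)
    have h2 : A.filter (fun x => ¬ (0 ≤ z x ∧ z x ≤ b)) = out A z 0 b 1 := by
      rw [out]
      refine filter_congr fun x _ => ?_
      push_cast
      constructor
      · intro h10
        by_cases h11 : 0 ≤ z x
        · exact Or.inr (by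
            by_contra h12
            exact h10 ⟨h11, by omega⟩)
        · exact Or.inl (by omega)
      · rintro (h10 | h10) ⟨h11, h12⟩
        · omega
        · omega
    rw [h2, card_out A z (by omega)] at h1
    omega
  obtain ⟨M, hM⟩ : ∃ M, M = #(A.filter (fun x => 0 ≤ z x ∧ z x ≤ b)) := ⟨_, rfl⟩
  rw [← hM] at hcard2 hmid'
  rw [h.card] at hcard2
  obtain ⟨s₁, hs₁⟩ : ∃ s₁, s₁ = ∑ x ∈ A.filter (fun x => 0 ≤ z x ∧ z x ≤ b), z x := ⟨_, rfl⟩
  obtain ⟨s₀, hs₀⟩ : ∃ s₀, s₀ = ∑ x ∈ low A z 0, z x := ⟨_, rfl⟩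
  obtain ⟨s₂, hs₂⟩ : ∃ s₂, s₂ = ∑ x ∈ high A z b, z x := ⟨_, rfl⟩
  rw [← hs₁] at hsum hmid hmid'
  rw [← hs₀] at hsum hlow hlen hflex
  rw [← hs₂] at hsum hhigh hlen hflex
  rw [hsum] at hlen hflex
  rw [h.cardH] at hmid hmid'
  have hbcN : b * c = b * (c - a') + b * a' := by
    rw [← mul_add]
    congr 1
    omega
  have hbc : (b : ℤ) * c = b * (c - a' : ℕ) + b * a' := by exact_mod_cast hbcN
  have hbmc : (b : ℤ) * m ≤ b * c := by exact_mod_cast Nat.mul_le_mul_left b hmc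
  have hr2 : (r : ℤ) * 2 = m := by
    have : r * 2 = m := by omega
    exact_mod_cast this
  have hoz : (o : ℤ) = b * m + r := by exact_mod_cast h3
  have hnz : (n : ℤ) = b * (m * 2) + m := by
    have : n = b * (m * 2) + m := by omega
    exact_mod_cast this
  have hMz : (M : ℤ) = n + c - a - a' := by omega
  push Not at hlen
  have haa : (a : ℤ) + a' ≤ r := by
    rw [hoz] at hlen
    linarith
  have hb0 : (0 : ℤ) ≤ b := by omega
  have ha0 : (0 : ℤ) ≤ a := by omega
  have ha'0 : (0 : ℤ) ≤ a' := by omega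
  have hcz : (m : ℤ) ≤ c := by exact_mod_cast hmc
  have e1 : (b : ℤ) * a ≤ b * r := mul_le_mul_of_nonneg_left (by linarith) hb0
  have e2 : (b : ℤ) * a' ≤ b * r := mul_le_mul_of_nonneg_left (by linarith) hb0
  refine hit_of_flex_mul hoe (a := (b : ℤ)) (hflex _ ?_ ?_)
  · rw [hoz]
    push_cast at hmid
    have e3 : (m : ℤ) * 2 * (b * (b + 1)) = 2 * (b * (b * m)) + 2 * (b * m) := by ring
    have e4 : (b : ℤ) * (b * m + r) = b * (b * m) + b * r := by ring
    rw [e3] at hmid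
    rw [e4]
    linarith
  · rw [hoz]
    rw [hMz, hnz] at hmid'
    push_cast at hmid'
    have e3 : (m : ℤ) * 2 * (b * (b + 1)) = 2 * (b * (b * m)) + 2 * (b * m) := by ring
    have e4 : (b : ℤ) * (b * m + r) = b * (b * m) + b * r := by ring
    have e5 : (b * (m * 2) + m + c - a - a' : ℤ) * b =
        2 * (b * (b * m)) + b * m + b * c - b * a - b * a' := by ring
    have e6 : ((b : ℤ) + 1) * a' = b * a' + a' := by ring
    have e7 : (b : ℤ) * m = 2 * (b * r) := by rw [← hr2]; ring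
    rw [e3, e5] at hmid'
    rw [e6] at hhigh
    rw [e4]
    linarith

end Pool.Agent.Lib.MPa7239a.RK
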