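import Pool.Agent.Lib.MP_a7239a_co.RK.CNT
import Pool.Agent.Lib.MP_a7239a_co.RK.PROF
import Pool.Agent.Lib.MP_a7239a_co.RK.TWO
import Pool.Agent.Lib.MP_a7239a_co.RK.FLX

/-!
# The case `s = 1` (Theorem R, module ENDS)
-/

open Finset

namespace Pool.Agent.Lib.MPa7239a.RK

open Pool.Agent.Lib.MPa7239a.GC

namespace ENDS

/-- splitting a sum by rows -/
theorem sum_split {G M : Type*} [AddCommMonoid M] (A : Finset G) (z : G → ℤ) (g : G → M) (b : ℕ) :
    ∑ x ∈ A, g x = ∑ x ∈ low A z 0, g x + ∑ x ∈ high A z b, g x +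
      ∑ i ∈ range (b + 1), ∑ x ∈ row A z i, g x := by
  classical
  have h1 : ∑ x ∈ A, g x = ∑ x ∈ low A z 0, g x + ∑ x ∈ A.filter (fun x => ¬ z x < 0), g x :=
    (sum_filter_add_sum_filter_not A (fun x => z x < 0) g).symm
  have h2 : ∑ x ∈ A.filter (fun x => ¬ z x < 0), g x = ∑ x ∈ high A z b, g x +
      ∑ x ∈ (A.filter (fun x => ¬ z x < 0)).filter (fun x => ¬ (b : ℤ) < z x), g x := by
    rw [← sum_filter_add_sum_filter_not (A.filter (fun x => ¬ z x < 0)) (fun x => (b : ℤ) < z x) g]
    congr 1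
    apply sum_congr _ fun _ _ => rfl
    ext x
    simp only [high, mem_filter]
    constructor
    · rintro ⟨⟨h1, h2⟩, h3⟩
      exact ⟨h1, h3⟩
    · rintro ⟨h1, h3⟩
      exact ⟨⟨h1, by omega⟩, h3⟩
  have h3 : ∑ i ∈ range (b + 1), ∑ x ∈ row A z i, g x =
      ∑ x ∈ (A.filter (fun x => ¬ z x < 0)).filter (fun x => ¬ (b : ℤ) < z x), g x := by
    rw [← sum_fiberwise_of_maps_to (s := (A.filter (fun x => ¬ z x < 0)).filter
      (fun x => ¬ (b : ℤ) < z x)) (t := range (b + 1)) (g := fun x => (z x).toNat)]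
    · refine sum_congr rfl fun i hi => sum_congr ?_ fun _ _ => rfl
      rw [mem_range] at hi
      ext x
      simp only [row, mem_filter]
      constructor
      · rintro ⟨h1, h2⟩
        exact ⟨⟨⟨h1, by omega⟩, by omega⟩, by omega⟩
      · rintro ⟨⟨⟨h1, h2⟩, h3⟩, h4⟩
        exact ⟨h1, by omega⟩
    · intro x hx
      simp only [mem_filter] at hx
      rw [mem_range]
      omega
  rw [h1, h2, h3, add_assoc]

variable {G : Type*} [AddCommGroup G] {H : AddSubgroup G} {e q₀ : G} {A : Finset G} {z : G → ℤ}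
  {m n c o b E θ : ℕ}

theorem cardH (h : StrP H e q₀ A z m n c 1 o b E) : Nat.card H = m := by
  rw [h.cardH, mul_one]

theorem hn (h : StrP H e q₀ A z m n c 1 o b E) : n = b * m := by
  rw [h.hn, mul_one]

theorem few (h : StrP H e q₀ A z m n c 1 o b E) : #(low A z 0) + #(high A z b) ≤ E := by
  have h1 := h.few
  rw [card_out A z (by omega)] at h1
  exact h1

theorem row_le [Finite G] (h : StrP H e q₀ A z m n c 1 o b E) (i : ℤ) : #(row A z i) ≤ m := by
  have h1 := card_row_le h.lift i
  rwa [cardH h] at h1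

theorem le_row [Finite G] (h : StrP H e q₀ A z m n c 1 o b E) {i : ℤ} (hi : 0 ≤ i) (hib : i ≤ b) :
    c ≤ #(row A z i) + #(low A z 0) + #(high A z b) := by
  have h1 := row_ge h.lift hi hib
  rw [cardH h, h.card, hn h] at h1
  omega

/-- the hypotheses of the flexible interval -/
theorem ready [Finite G] (h : StrP H e q₀ A z m n c 1 o b E) (hb : 2 ≤ b) (hFF : FatFull H θ)
    (hm : 300 * (E + θ + 10) ≤ m) : Ready H e q₀ A z n c θ (m / 2 + 6) 0 b 0 b := by
  have hmc := h.mc
  have hfew := few h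
  have hbm : 2 * m ≤ b * m := Nat.mul_le_mul_right m hb
  refine ⟨h.card, h.nq, h.lift, hFF, ?_, by omega, le_rfl, by omega, le_rfl, ?_, ?_, ?_, ?_⟩
  · have h1 := h.few
    rw [hn h]
    omega
  · intro i hi hib
    have h1 := le_row h hi hib
    omega
  · have h1 := le_row h (i := 0) le_rfl (by omega)
    omega
  · have h1 := le_row h (i := b) (by omega) le_rfl
    omega
  · intro x hx d hd hzx
    have h1 := h.near x hx d hd hzx
    rw [h.ho] at h1
    have h2 : #(out A z 0 b d) ≤ E := by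
      refine le_trans (card_le_card ?_) h.few
      intro y hy
      rw [mem_out] at hy ⊢
      refine ⟨hy.1, ?_⟩
      rcases hy.2 with h3 | h3
      · exact Or.inl (by push_cast; omega)
      · exact Or.inr (by push_cast; omega)
    have h3 : b * m ≤ b * (2 * (m / 2) + 1) := Nat.mul_le_mul_left b (by omega)
    have h4 : b * (#(out A z 0 b d) + 2) + b * (m / 2 + 6) ≤ b * c := by
      rw [← Nat.mul_add]
      exact Nat.mul_le_mul_left b (by omega)
    have h5 : d ≤ b * (m / 2 + 6) := by
      have h6 : b * (2 * (m / 2) + 1) = 2 * (b * (m / 2)) + b := by ring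
      have h7 : b * (m / 2 + 6) = b * (m / 2) + 6 * b := by ring
      omega
    constructor
    · push_cast
      have h8 : (d : ℤ) ≤ b * ((m / 2 : ℕ) + 6) := by exact_mod_cast h5
      push_cast at h8
      linarith
    · have h8 : (b : ℤ) * (#(out A z 0 b d) + 2) + b * ((m / 2 : ℕ) + 6) ≤ b * c := by
        exact_mod_cast h4
      have h9 : (d : ℤ) ≤ b * ((m / 2 : ℕ) + 6) := by exact_mod_cast h5
      linarith

/-- the lower half of the flexible range of sums of omitted sets -/
theorem flex_low [Finite G] [DecidableEq G] (h : StrP H e q₀ A z m n c 1 o b E) (hb : 2 ≤ b)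
    (hFF : FatFull H θ) (hm : 300 * (E + θ + 10) ≤ m) {y : ℤ}
    (h1 : ∑ x ∈ low A z 0, z x + 1 ≤ y)
    (h2 : ∑ x ∈ low A z 0, z x + ((c : ℤ) - #(low A z 0) - #(row A z 0)) + 1 ≤ y)
    (h3 : y ≤ ∑ x ∈ high A z b, z x + (m / 2 : ℕ) * b) :
    Flex H e A n (∑ x ∈ A, z x - y) := by
  have hmc := h.mc
  have hcm := h.cm
  have hfew := few h
  have hr0 := le_row h (i := 0) le_rfl (by omega)
  have hr0' := row_le h 0
  have hr1 := le_row h (i := 1) (by omega) (by omega)
  have hr1' := row_le h 1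
  have hrb := le_row h (i := b) (by omega) le_rfl
  have hrb' := row_le h b
  by_cases hc : (0 : ℤ) ≤ (c : ℤ) - #(low A z 0) - #(row A z 0) ∧
      y = ∑ x ∈ low A z 0, z x + ((c : ℤ) - #(low A z 0) - #(row A z 0)) + 1
  · obtain ⟨hc1, hc2⟩ := hc
    obtain ⟨D, hD, hDc, hD0, hD1, hDs⟩ := exists_low A z (c := c) (α := #(row A z 0) - 1)
      (β := c - #(low A z 0) - #(row A z 0) + 1) (i := 0) (f := 1) (u := 0) (by omega) le_rfl
      (by omega) (by omega) (by omega) (by omega)
    have hy : y = ∑ x ∈ D, z x := by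
      rw [hDs, hc2]
      omega
    rw [hy]
    refine flex_two h.card h.nq h.lift (i := 0) (f := 1) (by omega) hD hDc (by omega) (by omega)
      (by omega) (by omega) ?_
    rw [cardH h, hD0, hD1]
    omega
  · refine flx_num (ready h hb hFF hm) (f := 0) (i := 1) (j := b) (u := 0) (v := b)
      (α := c - #(low A z 0) - min (#(row A z 0) - 2) (c - #(low A z 0)))
      (α' := min (#(row A z 0) - 2) (c - #(low A z 0))) (β := m / 2)
      (β' := c - #(high A z b) - m / 2) le_rfl (by omega) ?_ (by omega) (by omega) le_rfl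
      (by omega) (by omega) (by omega) (by omega) (by omega) le_rfl (by omega) (by omega)
      (by omega) (by omega) (by omega) _ ?_ ?_
    · rw [cardH h]
      omega
    · rw [mul_zero, add_zero]
      linarith
    · rw [mul_zero, add_zero, mul_one]
      omega

/-- the upper half -/
theorem flex_high [Finite G] [DecidableEq G] (h : StrP H e q₀ A z m n c 1 o b E) (hb : 2 ≤ b)
    (hFF : FatFull H θ) (hm : 300 * (E + θ + 10) ≤ m) {y : ℤ}
    (h1 : y + 1 ≤ ∑ x ∈ high A z b, z x + ((c : ℤ) - #(high A z b)) * b)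
    (h2 : y + 1 + ((c : ℤ) - #(high A z b) - #(row A z b)) ≤
      ∑ x ∈ high A z b, z x + ((c : ℤ) - #(high A z b)) * b)
    (h3 : ∑ x ∈ low A z 0, z x + (m / 2 : ℕ) * b ≤ y) :
    Flex H e A n (∑ x ∈ A, z x - y) := by
  have hmc := h.mc
  have hcm := h.cm
  have hfew := few h
  have hr0 := le_row h (i := 0) le_rfl (by omega)
  have hr0' := row_le h 0
  have hr1 := le_row h (i := (b : ℤ) - 1) (by omega) (by omega)
  have hr1' := row_le h ((b : ℤ) - 1)
  have hrb := le_row h (i := b) (by omega) le_rfl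
  have hrb' := row_le h b
  have key : ∀ β β' : ℕ, #(high A z b) + β + β' = c →
      (β : ℤ) * ((b : ℤ) - 1) + β' * b = ((c : ℤ) - #(high A z b)) * b - β := by
    intro β β' hβ
    have h5 : (c : ℤ) - #(high A z b) = β + β' := by omega
    rw [h5]
    ring
  by_cases hc : (0 : ℤ) ≤ (c : ℤ) - #(high A z b) - #(row A z b) ∧
      y + 1 + ((c : ℤ) - #(high A z b) - #(row A z b)) =
        ∑ x ∈ high A z b, z x + ((c : ℤ) - #(high A z b)) * b
  · obtain ⟨hc1, hc2⟩ := hc
    obtain ⟨D, hD, hDc, hD0, hD1, hDs⟩ := exists_high A z (c := c)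
      (α := c - #(high A z b) - #(row A z b) + 1) (β := #(row A z b) - 1)
      (i := (b : ℤ) - 1) (f := b) (u := b) (by omega) (by omega)
      le_rfl (by omega) (by omega) (by omega)
    have hy : y = ∑ x ∈ D, z x := by
      have h5 := key (c - #(high A z b) - #(row A z b) + 1) (#(row A z b) - 1) (by omega)
      rw [hDs]
      omega
    rw [hy]
    refine flex_two h.card h.nq h.lift (i := (b : ℤ) - 1) (f := b) (by omega) hD hDc (by omega)
      (by omega) (by omega) (by omega) ?_
    rw [cardH h, hD0, hD1]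
    omega
  · have h5 := key (c - #(high A z b) - min (#(row A z b) - 2) (c - #(high A z b)))
      (min (#(row A z b) - 2) (c - #(high A z b))) (by omega)
    refine flx_num (ready h hb hFF hm) (f := b) (i := 0) (j := (b : ℤ) - 1) (u := 0) (v := b)
      (α := c - #(low A z 0) - m / 2) (α' := m / 2)
      (β := c - #(high A z b) - min (#(row A z b) - 2) (c - #(high A z b)))
      (β' := min (#(row A z b) - 2) (c - #(high A z b))) (by omega) le_rfl ?_ (by omega) le_rfl
      (by omega) (by omega) (by omega) (by omega) (by omega) (by omega) (by omega) le_rfl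
      (by omega) (by omega) (by omega) (by omega) _ ?_ ?_
    · rw [cardH h]
      omega
    · omega
    · rw [mul_zero, add_zero]
      linarith

omit [AddCommGroup G] in
/-- the sum over the elements below row `0` -/
theorem sum_low_le (A : Finset G) (z : G → ℤ) : ∑ x ∈ low A z 0, z x ≤ - (#(low A z 0) : ℤ) := by
  have h1 : ∑ x ∈ low A z 0, z x ≤ ∑ _x ∈ low A z 0, (-1 : ℤ) :=
    sum_le_sum fun x hx => by
      have := (mem_low.1 hx).2
      omega
  rw [sum_const, nsmul_eq_mul] at h1
  linarith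

omit [AddCommGroup G] in
/-- the sum over the elements above row `b` -/
theorem le_sum_high (A : Finset G) (z : G → ℤ) (b : ℕ) :
    (#(high A z b) : ℤ) * (b + 1) ≤ ∑ x ∈ high A z b, z x := by
  have h1 : ∑ _x ∈ high A z b, ((b : ℤ) + 1) ≤ ∑ x ∈ high A z b, z x :=
    sum_le_sum fun x hx => by
      have := (mem_high.1 hx).2
      omega
  rw [sum_const, nsmul_eq_mul] at h1
  exact h1

/-- the flexible range -/
theorem flex_mid [Finite G] [DecidableEq G] (h : StrP H e q₀ A z m n c 1 o b E) (hb : 2 ≤ b)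
    (hFF : FatFull H θ) (hm : 300 * (E + θ + 10) ≤ m) {y : ℤ}
    (h1 : ∑ x ∈ low A z 0, z x + 1 ≤ y)
    (h2 : ∑ x ∈ low A z 0, z x + ((c : ℤ) - #(low A z 0) - #(row A z 0)) + 1 ≤ y)
    (h3 : y + 1 ≤ ∑ x ∈ high A z b, z x + ((c : ℤ) - #(high A z b)) * b)
    (h4 : y + 1 + ((c : ℤ) - #(high A z b) - #(row A z b)) ≤
      ∑ x ∈ high A z b, z x + ((c : ℤ) - #(high A z b)) * b) :
    Flex H e A n (∑ x ∈ A, z x - y) := by
  rcases le_total y (∑ x ∈ high A z b, z x + (m / 2 : ℕ) * b) with h5 | h5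
  · exact flex_low h hb hFF hm h1 h2 h5
  · refine flex_high h hb hFF hm h3 h4 ?_
    have h6 := sum_low_le A z
    have h7 := le_sum_high A z b
    have h8 : (0 : ℤ) ≤ (#(high A z b) : ℤ) * (b + 1) := by positivity
    have h9 : (0 : ℤ) ≤ (#(low A z 0) : ℤ) := by positivity
    linarith

/-- the sum over the rows -/
theorem gauss {b : ℕ} {m κ : ℤ} {w : ℕ → ℤ} (h : ∀ i < b, (i : ℤ) * w i = i * m)
    (hb : w b = m - κ) : 2 * ∑ i ∈ range (b + 1), (i : ℤ) * w i = b * (m * (b + 1) - 2 * κ) := by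
  have h1 : ∑ i ∈ range (b + 1), (i : ℤ) * w i = (∑ i ∈ range (b + 1), (i : ℤ)) * m - b * κ := by
    rw [sum_range_succ, sum_range_succ, sum_congr rfl fun i hi => h i (mem_range.1 hi), hb,
      ← sum_mul]
    ring
  have h2 : (∑ i ∈ range (b + 1), (i : ℤ)) * 2 = (b + 1) * b := by
    have h3 := congrArg (Nat.cast : ℕ → ℤ) (sum_range_id_mul_two (b + 1))
    rw [Nat.add_sub_cancel, Nat.cast_mul, Nat.cast_sum, Nat.cast_mul] at h3
    push_cast at h3
    exact h3
  rw [h1]
  linear_combination m * h2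

omit [AddCommGroup G] in
theorem sum_z (A : Finset G) (z : G → ℤ) (b : ℕ) :
    ∑ x ∈ A, z x = ∑ x ∈ low A z 0, z x + ∑ x ∈ high A z b, z x +
      ∑ i ∈ range (b + 1), (i : ℤ) * (#(row A z i) : ℤ) := by
  rw [sum_split A z z b]
  congr 1
  refine sum_congr rfl fun i _ => ?_
  rw [sum_congr rfl fun x hx => (mem_row.1 hx).2, sum_const, nsmul_eq_mul, mul_comm]

/-- the sum of a full row -/
theorem sum_full [Finite G] (hlift : ∀ x ∈ A, x - q₀ - z x • e ∈ H) {i : ℤ}
    (hfull : #(row A z i) = Nat.card H) (hodd : Odd n) (hn0 : ∀ x : G, n • x = 0) :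
    ∑ x ∈ row A z i, x = Nat.card H • (q₀ + i • e) := by
  classical
  have hfin : (H : Set G).Finite := Set.toFinite _
  set K : Finset G := hfin.toFinset with hK
  have hKc : #K = Nat.card H := by
    rw [hK, ← Set.ncard_eq_toFinset_card _ hfin]
    rfl
  have hinj : Set.InjOn (fun x => x - (q₀ + i • e)) (row A z i : Set G) :=
    fun x _ y _ hxy => sub_left_injective hxy
  have himg : (row A z i).image (fun x => x - (q₀ + i • e)) = K := by
    refine eq_of_subset_of_card_le ?_ ?_
    · intro y hy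
      obtain ⟨x, hx, rfl⟩ := mem_image.1 hy
      rw [mem_row] at hx
      have h1 := hlift x hx.1
      rw [hx.2] at h1
      rw [hK, Set.Finite.mem_toFinset, SetLike.mem_coe]
      have h2 : x - (q₀ + i • e) = x - q₀ - i • e := by abel
      rw [h2]
      exact h1
    · rw [card_image_of_injOn hinj, hfull, hKc]
  have h1 : ∑ x ∈ row A z i, (x - (q₀ + i • e)) = ∑ y ∈ K, y := by
    rw [← himg, sum_image hinj]
  have h2 : ∑ y ∈ K, y = - ∑ y ∈ K, y := by
    rw [← sum_neg_distrib]
    refine sum_bij (fun x _ => - x) ?_ ?_ ?_ ?_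
    · intro x hx
      rw [hK, Set.Finite.mem_toFinset, SetLike.mem_coe] at hx ⊢
      exact H.neg_mem hx
    · intro x _ y _ hxy
      exact neg_injective hxy
    · intro x hx
      rw [hK, Set.Finite.mem_toFinset, SetLike.mem_coe] at hx
      exact ⟨- x, by rw [hK, Set.Finite.mem_toFinset, SetLike.mem_coe]; exact H.neg_mem hx,
        neg_neg x⟩
    · intro x _
      rw [neg_neg]
  have h3 : ∑ y ∈ K, y = 0 := by
    obtain ⟨k, hk⟩ := hodd
    have h4 := hn0 (∑ y ∈ K, y)
    have h5 : 2 • ∑ y ∈ K, y = 0 := by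
      rw [two_nsmul]
      exact eq_neg_iff_add_eq_zero.1 h2
    rw [hk, add_nsmul, one_nsmul, mul_nsmul, h5, nsmul_zero, zero_add] at h4
    exact h4
  rw [sum_sub_distrib, sum_const, h3, hfull] at h1
  exact sub_eq_zero.1 h1

/-- all rows full, `b` and `m` odd -/
theorem full_case [Finite G] (h : StrP H e q₀ A z m n c 1 o b E) (hn0 : ∀ x : G, n • x = 0)
    (hc : c = m) (h1 : #(low A z 0) = 0) (h2 : #(high A z b) = 0)
    (h3 : ∀ i : ℕ, i ≤ b → #(row A z i) = m) (hbo : Odd b) (hmo : Odd m) : Hit A n 0 := by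
  classical
  have hlow : low A z 0 = ∅ := card_eq_zero.1 h1
  have hhigh : high A z b = ∅ := card_eq_zero.1 h2
  have hno : Odd n := by
    rw [hn h]
    exact hbo.mul hmo
  have hsub : row A z b ⊆ A := filter_subset _ _
  refine ⟨A \ row A z b, sdiff_subset, ?_, ?_⟩
  · rw [card_sdiff_of_subset hsub, h.card, hc, h3 b le_rfl]
    omega
  · have h4 := sum_sdiff (f := fun x : G => x) hsub
    have h5 := sum_split A z (fun x : G => x) b
    rw [hlow, hhigh, sum_empty, zero_add, zero_add, sum_range_succ] at h5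
    rw [h5] at h4
    have h6 := add_right_cancel h4
    rw [h6]
    have h7 : ∀ i ∈ range b, ∑ x ∈ row A z (i : ℤ), x = m • q₀ + (m * i) • e := by
      intro i hi
      rw [mem_range] at hi
      rw [sum_full h.lift (by rw [h3 i hi.le, cardH h]) hno hn0, cardH h, nsmul_add, mul_nsmul',
        natCast_zsmul]
    rw [sum_congr rfl h7, sum_add_distrib, sum_const, card_range, ← mul_nsmul', ← hn h, h.nq,
      zero_add, ← sum_smul, ← mul_sum]
    obtain ⟨k, hk⟩ := hbo
    have h8 : ∑ i ∈ range b, i = b * k := by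
      have h9 := sum_range_id_mul_two b
      have h10 : b - 1 = 2 * k := by omega
      rw [h10] at h9
      have h11 : (∑ i ∈ range b, i) * 2 = (b * k) * 2 := by
        rw [h9]
        ring
      omega
    rw [h8]
    have h9 : m * (b * k) = k * n := by
      rw [hn h]
      ring
    rw [h9, mul_nsmul, hn0]

/-- the numbers in the extremal case -/
theorem tight [Finite G] (h : StrP H e q₀ A z m n c 1 o b E) (hb : 2 ≤ b) {a₁ a₂ : ℤ}
    (ha₁ : a₁ = max (∑ x ∈ low A z 0, z x)
      (∑ x ∈ low A z 0, z x + ((c : ℤ) - #(low A z 0) - #(row A z 0))))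
    (ha₂ : a₂ = min (∑ x ∈ high A z b, z x + ((c : ℤ) - #(high A z b)) * b)
      (∑ x ∈ high A z b, z x + ((c : ℤ) - #(high A z b)) * b -
        ((c : ℤ) - #(high A z b) - #(row A z b)))) (hle : a₂ ≤ a₁ + o) :
    a₂ = a₁ + o ∧ c = m ∧ ∃ κ : ℤ, κ ≤ E ∧ - (E : ℤ) ≤ κ ∧
      2 * (∑ x ∈ A, z x - a₁) = b * (m * (b + 1) + 2 * κ) ∧
      (κ = 0 → #(low A z 0) = 0 ∧ #(high A z b) = 0 ∧ ∀ i : ℕ, i ≤ b → #(row A z i) = m) := by
  have hmc := h.mc
  have hcm := h.cm
  have hfew := few h
  have hlow := sum_low_le A z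
  have hhigh := le_sum_high A z b
  have hr := fun i : ℕ => row_le h (i : ℤ)
  have hr' := fun (i : ℕ) (hi : i ≤ b) => le_row h (i := (i : ℤ)) (by omega) (by omega)
  have hr0 := hr 0
  have hr0' := hr' 0 (by omega)
  have hrb := hr b
  have hrb' := hr' b le_rfl
  have hrr : ∀ i j : ℕ, i ≤ b → j ≤ b → i ≠ j → m + c ≤ #(row A z i) + #(row A z j) +
      #(low A z 0) + #(high A z b) := by
    intro i j hi hj hij
    have h1 := rows_ge h.lift (i := (i : ℤ)) (j := (j : ℤ)) (b := b) (by omega) (by omega)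
      (by omega) (by omega) (by omega)
    rw [cardH h, h.card, hn h] at h1
    have h2 : (b - 1) * m + m = b * m := by
      rw [← Nat.succ_mul]
      congr 1
      omega
    omega
  have h0b := hrr 0 b (by omega) le_rfl (by omega)
  have hZ := sum_z A z b
  set S₁ := ∑ x ∈ low A z 0, z x with hS₁
  set S₂ := ∑ x ∈ high A z b, z x with hS₂
  set k₁ := #(low A z 0) with hk₁
  set k₂ := #(high A z b) with hk₂
  have ho : (o : ℤ) = b * m := by exact_mod_cast h.ho
  obtain ⟨j, hj⟩ := Nat.exists_eq_add_of_le hmc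
  have hj' : (c : ℤ) = m + j := by exact_mod_cast hj
  have hjb : (2 : ℤ) * j ≤ b * j := by
    have h1 : 2 * j ≤ b * j := Nat.mul_le_mul_right j hb
    exact_mod_cast h1
  have hk₂b : (k₂ : ℤ) * (b + 1) = (k₂ : ℤ) * b + k₂ := by ring
  have hcb : ((c : ℤ) - k₂) * b = b * m + b * j - k₂ * b := by
    rw [hj']
    ring
  rw [hcb] at ha₂
  rw [hk₂b] at hhigh
  simp only [Nat.cast_zero] at hr0 hr0' h0b
  -- the three cases
  rcases le_or_gt ((c : ℤ) - k₁ - #(row A z 0)) 0 with hl₁ | hl₁
  · rcases le_or_gt ((c : ℤ) - k₂ - #(row A z b)) 0 with hl₂ | hl₂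
    · -- everything is full
      have e1 : j = 0 := by omega
      have e2 : k₁ = 0 := by omega
      have e3 : k₂ = 0 := by omega
      have e4 : S₁ = 0 := by omega
      have e5 : S₂ = 0 := by
        rw [e3] at hhigh ha₂
        rw [e1] at ha₂
        simp only [Nat.cast_zero, zero_mul, mul_zero, add_zero] at hhigh ha₂
        omega
      have e6 : ∀ i : ℕ, i ≤ b → #(row A z i) = m := by
        intro i hi
        have h1 := hr i
        have h2 := hr' i hi
        omega
      have e7 := gauss (b := b) (m := m) (κ := 0) (w := fun i => (#(row A z i) : ℤ))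
        (fun i hi => by rw [e6 i hi.le]) (by rw [e6 b le_rfl, sub_zero])
      refine ⟨?_, by omega, 0, by omega, by omega, ?_, fun _ => ⟨e2, e3, e6⟩⟩
      · rw [e3, e1, e5] at ha₂
        simp only [Nat.cast_zero, zero_mul, mul_zero, add_zero, sub_zero, zero_add] at ha₂
        omega
      · have e8 : a₁ = 0 := by omega
        rw [hZ, e8, e4, e5]
        linear_combination e7
    · -- row `b` is not full
      have e1 : j = 0 := by omega
      have e3 : k₂ = 0 := by omega
      have e0 : (k₂ : ℤ) * b = 0 := by rw [e3]; simp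
      have e0' : (b : ℤ) * j = 0 := by rw [e1]; simp
      rw [e0] at hhigh ha₂
      rw [e0'] at ha₂
      have e4 : S₁ = - (k₁ : ℤ) := by omega
      have e5 : S₂ = 0 := by omega
      have e6 : (#(row A z b) : ℤ) = m - k₁ := by omega
      have e7 : ∀ i : ℕ, i < b → #(row A z i) = m := by
        intro i hi
        have h1 := hr i
        have h2 := hrr i b hi.le le_rfl hi.ne
        omega
      have e8 := gauss (b := b) (m := m) (κ := k₁) (w := fun i => (#(row A z i) : ℤ))
        (fun i hi => by rw [e7 i hi]) e6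
      refine ⟨by omega, by omega, - (k₁ : ℤ), by omega, by omega, ?_, fun h1 => ?_⟩
      · have e9 : a₁ = S₁ := by omega
        rw [hZ, e9, e5]
        linear_combination e8
      · exfalso
        omega
  · rcases le_or_gt ((c : ℤ) - k₂ - #(row A z b)) 0 with hl₂ | hl₂
    · -- row `0` is not full
      have e1 : j = 0 := by omega
      have e2 : k₁ = 0 := by omega
      have e0' : (b : ℤ) * j = 0 := by rw [e1]; simp
      rw [e0'] at ha₂
      have e4 : S₁ = 0 := by omega
      have e5 : S₂ = (k₂ : ℤ) * b + k₂ := by omega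
      have e6 : (c : ℤ) - k₁ - #(row A z 0) = k₂ := by omega
      have e7 : ∀ i : ℕ, i ≤ b → i ≠ 0 → #(row A z i) = m := by
        intro i hi hi0
        have h1 := hr i
        have h2 := hrr 0 i (by omega) hi hi0.symm
        simp only [Nat.cast_zero] at h2
        omega
      have e8 := gauss (b := b) (m := m) (κ := 0) (w := fun i => (#(row A z i) : ℤ))
        (fun i hi => by
          rcases Nat.eq_zero_or_pos i with h0 | h0
          · rw [h0]
            simp
          · rw [e7 i hi.le (by omega)]) (by rw [e7 b le_rfl (by omega), sub_zero])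
      refine ⟨by omega, by omega, (k₂ : ℤ), by omega, by omega, ?_, fun h1 => ?_⟩
      · have e9 : a₁ = k₂ := by omega
        rw [hZ, e9, e4, e5]
        linear_combination e8
      · exfalso
        omega
    · exfalso
      omega

end ENDS

theorem end_S {G : Type*} [AddCommGroup G] [Finite G] [DecidableEq G] {H : AddSubgroup G}
    {e q₀ : G} {A : Finset G} {z : G → ℤ} {m n c o b E θ : ℕ}
    (h : StrP H e q₀ A z m n c 1 o b E) (hb : 2 ≤ b) (hn0 : ∀ x : G, n • x = 0)
    (hFF : FatFull H θ) (hm : 100 * (b + 1) * (E + θ + 10) ≤ m)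
    (hcase : m + 1 ≤ c ∨ Even b ∨ Odd m) : Hit A n 0 := by
  have hm' : 300 * (E + θ + 10) ≤ m :=
    (Nat.mul_le_mul_right _ (show 300 ≤ 100 * (b + 1) by omega)).trans hm
  have hoe : o • e ∈ H := by
    have h1 := addOrderOf_nsmul_eq_zero ((e : G) : G ⧸ H)
    rw [h.order, ← QuotientAddGroup.mk_nsmul, QuotientAddGroup.eq_zero_iff] at h1
    exact h1
  have ho : 0 < o := by
    rw [h.ho]
    exact Nat.mul_pos (by omega) (by omega)
  obtain ⟨a₁, ha₁⟩ : ∃ a₁ : ℤ, a₁ = max (∑ x ∈ low A z 0, z x)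
    (∑ x ∈ low A z 0, z x + ((c : ℤ) - #(low A z 0) - #(row A z 0))) := ⟨_, rfl⟩
  obtain ⟨a₂, ha₂⟩ : ∃ a₂ : ℤ, a₂ = min (∑ x ∈ high A z b, z x + ((c : ℤ) - #(high A z b)) * b)
      (∑ x ∈ high A z b, z x + ((c : ℤ) - #(high A z b)) * b -
        ((c : ℤ) - #(high A z b) - #(row A z b))) := ⟨_, rfl⟩
  have key : ∀ Y : ℤ, ∑ x ∈ A, z x - a₂ < Y → Y < ∑ x ∈ A, z x - a₁ → Flex H e A n Y := by
    intro Y h1 h2
    have h3 := ENDS.flex_mid h hb hFF hm' (y := ∑ x ∈ A, z x - Y) (by omega) (by omega) (by omega)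
      (by omega)
    rwa [sub_sub_cancel] at h3
  rcases le_or_gt (a₁ + o + 1) a₂ with h1 | h1
  · exact hit_of_flex ho hoe (Y₁ := ∑ x ∈ A, z x - a₂ + 1) (Y₂ := ∑ x ∈ A, z x - a₁ - 1) (by omega)
      fun Y h2 h3 => key Y (by omega) (by omega)
  · obtain ⟨h2, h3, κ, hκ₁, hκ₂, h4, h5⟩ := ENDS.tight h hb ha₁ ha₂ (by omega)
    have ho' : (0 : ℤ) < o := by exact_mod_cast ho
    have h6 := Int.emod_add_mul_ediv (∑ x ∈ A, z x - a₁) o
    have h7 := Int.emod_nonneg (∑ x ∈ A, z x - a₁) ho'.ne'
    have h8 := Int.emod_lt_of_pos (∑ x ∈ A, z x - a₁) ho'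
    rcases h7.eq_or_lt with h9 | h9
    · -- the sum is a multiple of `o`: the rows are full
      rw [← h9, zero_add] at h6
      set a := (∑ x ∈ A, z x - a₁) / o with ha
      have h10 : (o : ℤ) = b * m := by exact_mod_cast h.ho
      have h11 : (b : ℤ) * (2 * (m * a)) = b * (m * (b + 1) + 2 * κ) := by
        rw [← h4, ← h6, h10]
        ring
      have hb0 : (b : ℤ) ≠ 0 := by
        have : 0 < b := by omega
        exact_mod_cast this.ne'
      have h12 := mul_left_cancel₀ hb0 h11
      have h13 : (m : ℤ) * (2 * a - (b + 1)) = 2 * κ := by linear_combination h12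
      have hm0 : (0 : ℤ) < m := by
        have : 0 < m := by omega
        exact_mod_cast this
      have h14 : 2 * a - ((b : ℤ) + 1) = 0 := by
        rcases lt_trichotomy (2 * a - ((b : ℤ) + 1)) 0 with h15 | h15 | h15
        · exfalso
          have h16 : (m : ℤ) * (2 * a - (b + 1)) ≤ m * (-1) :=
            mul_le_mul_of_nonneg_left (by omega) hm0.le
          omega
        · exact h15
        · exfalso
          have h16 : (m : ℤ) * 1 ≤ m * (2 * a - (b + 1)) :=
            mul_le_mul_of_nonneg_left (by omega) hm0.le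
          omega
      rw [h14, mul_zero] at h13
      obtain ⟨h15, h16, h17⟩ := h5 (by omega)
      have hbo : Odd b := by
        rcases Nat.even_or_odd b with h18 | h18
        · exfalso
          obtain ⟨k, hk⟩ := h18
          omega
        · exact h18
      have hmo : Odd m := by
        rcases hcase with h18 | h18 | h18
        · omega
        · exact absurd hbo (Nat.not_odd_iff_even.2 h18)
        · exact h18
      exact ENDS.full_case h hn0 h3 h15 h16 h17 hbo hmo
    · refine hit_of_flex_mul hoe (a := (∑ x ∈ A, z x - a₁) / o) (key _ ?_ ?_)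
      · rw [mul_comm]
        omega
      · rw [mul_comm]
        omega

end Pool.Agent.Lib.MPa7239a.RK
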