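import Pool.Agent.Lib.MP_a7239a_co.RK.Defs

/-!
# The sums of `n` integers form an interval
-/

open Finset

namespace Pool.Agent.Lib.MPa7239a.RK

open Pool.Agent.Lib.MPa7239a.GC

namespace FillH

variable {G : Type*} [DecidableEq G]

/-- one step up -/
theorem step {B : Finset G} {z : G → ℤ} {p q : ℤ} (hB : ∀ x ∈ B, p ≤ z x ∧ z x ≤ q)
    (rows : ∀ i, p ≤ i → i ≤ q → 1 ≤ #(row B z i)) {T T₂ : Finset G} (hT : T ⊆ B) (hT₂ : T₂ ⊆ B)
    (hc : #T = #T₂) (hlt : ∑ x ∈ T, z x < ∑ x ∈ T₂, z x) :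
    ∃ T' ⊆ B, #T' = #T ∧ ∑ x ∈ T', z x = ∑ x ∈ T, z x + 1 := by
  -- pairs
  set P := ((T ×ˢ (B \ T)).filter (fun w => z w.1 < z w.2)) with hP
  have hPne : P.Nonempty := by
    by_contra hne
    rw [not_nonempty_iff_eq_empty] at hne
    have h1 : ∀ x ∈ T \ T₂, ∀ y ∈ T₂ \ T, z y ≤ z x := by
      intro x hx y hy
      by_contra hlt'
      have h2 : (x, y) ∈ P := by
        rw [hP, mem_filter, mem_product]
        exact ⟨⟨(mem_sdiff.1 hx).1, mem_sdiff.2 ⟨hT₂ (mem_sdiff.1 hy).1, (mem_sdiff.1 hy).2⟩⟩,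
          not_le.1 hlt'⟩
      rw [hne] at h2
      exact notMem_empty _ h2
    have h3 : #(T \ T₂) = #(T₂ \ T) := by
      have h4 := card_sdiff_add_card_inter T T₂
      have h5 := card_sdiff_add_card_inter T₂ T
      rw [inter_comm] at h5
      omega
    have h6 : ∑ x ∈ T, z x = ∑ x ∈ T \ T₂, z x + ∑ x ∈ T ∩ T₂, z x := by
      rw [← sum_union (disjoint_sdiff_inter _ _), sdiff_union_inter]
    have h7 : ∑ x ∈ T₂, z x = ∑ x ∈ T₂ \ T, z x + ∑ x ∈ T ∩ T₂, z x := by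
      rw [inter_comm, ← sum_union (disjoint_sdiff_inter _ _), sdiff_union_inter]
    have h8 : ∑ x ∈ T₂ \ T, z x ≤ ∑ x ∈ T \ T₂, z x := by
      obtain ⟨φ⟩ : Nonempty ((T₂ \ T : Finset G) ≃ (T \ T₂ : Finset G)) := by
        refine ⟨Finset.equivOfCardEq h3.symm⟩
      rw [← sum_coe_sort (T₂ \ T), ← sum_coe_sort (T \ T₂), ← Equiv.sum_comp φ]
      exact sum_le_sum fun y _ => h1 _ (φ y).2 _ y.2
    linarith
  obtain ⟨w, hw, hmin⟩ := exists_min_image P (fun w => z w.2 - z w.1) hPne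
  obtain ⟨x, y⟩ := w
  rw [hP, mem_filter, mem_product] at hw
  obtain ⟨⟨hx, hy⟩, hxy⟩ := hw
  simp only at hx hy hxy hmin
  have hy' := mem_sdiff.1 hy
  have hone : z y = z x + 1 := by
    by_contra hne
    have h2 : z x + 1 < z y := by omega
    have h3 := rows (z x + 1) (by have := hB x (hT hx); omega) (by have := hB y hy'.1; omega)
    obtain ⟨v, hv⟩ := card_pos.1 (show 0 < #(row B z (z x + 1)) by omega)
    have hv' := mem_filter.1 hv
    by_cases hvT : v ∈ T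
    · have h4 := hmin (v, y) (by
        rw [hP, mem_filter, mem_product]
        exact ⟨⟨hvT, hy⟩, by simp only; omega⟩)
      simp only at h4
      omega
    · have h4 := hmin (x, v) (by
        rw [hP, mem_filter, mem_product]
        exact ⟨⟨hx, mem_sdiff.2 ⟨hv'.1, hvT⟩⟩, by simp only; omega⟩)
      simp only at h4
      omega
  refine ⟨insert y (T.erase x), ?_, ?_, ?_⟩
  · intro v hv
    rcases mem_insert.1 hv with rfl | hv
    · exact hy'.1
    · exact hT (mem_of_mem_erase hv)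
  · rw [card_insert_of_notMem (fun h => hy'.2 (mem_of_mem_erase h)), card_erase_of_mem hx]
    have := card_pos.2 ⟨x, hx⟩
    omega
  · rw [sum_insert (fun h => hy'.2 (mem_of_mem_erase h))]
    have := add_sum_erase T z hx
    linarith

theorem intv {B : Finset G} {z : G → ℤ} {p q : ℤ} (hB : ∀ x ∈ B, p ≤ z x ∧ z x ≤ q)
    (rows : ∀ i, p ≤ i → i ≤ q → 1 ≤ #(row B z i)) (k : ℕ) : Fill B z k := by
  intro T₁ hT₁ T₂ hT₂ hc₁ hc₂ Y hY₁ hY₂
  obtain ⟨j, hj⟩ : ∃ j : ℕ, Y = ∑ x ∈ T₁, z x + j :=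
    ⟨(Y - ∑ x ∈ T₁, z x).toNat, by omega⟩
  have h : ∀ j : ℕ, ∑ x ∈ T₁, z x + j ≤ ∑ x ∈ T₂, z x →
      ∃ T ⊆ B, #T = k ∧ ∑ x ∈ T, z x = ∑ x ∈ T₁, z x + j := by
    intro j
    induction j with
    | zero => exact fun _ => ⟨T₁, hT₁, hc₁, by push_cast; ring⟩
    | succ j ih =>
      intro hj
      push_cast at hj
      obtain ⟨T, hT, hTc, hTs⟩ := ih (by linarith)
      obtain ⟨T', hT', hTc', hTs'⟩ := step hB rows hT hT₂ (hTc.trans hc₂.symm) (by linarith)
      exact ⟨T', hT', hTc'.trans hTc, by rw [hTs', hTs]; push_cast; ring⟩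
  rw [hj]
  exact h j (by rw [← hj]; exact hY₂)

omit [DecidableEq G] in
theorem fill_neg {A : Finset G} {z : G → ℤ} {k : ℕ} (h : Fill A (fun x => - z x) k) :
    Fill A z k := by
  intro T₁ hT₁ T₂ hT₂ hc₁ hc₂ Y hY₁ hY₂
  obtain ⟨T, hT, hTc, hTs⟩ := h T₂ hT₂ T₁ hT₁ hc₂ hc₁ (- Y)
    (by rw [sum_neg_distrib]; linarith) (by rw [sum_neg_distrib]; linarith)
  rw [sum_neg_distrib] at hTs
  exact ⟨T, hT, hTc, by linarith⟩

/-- a new maximum -/
theorem add_max {B : Finset G} {z : G → ℤ} {n : ℕ} (h1 : Fill B z n) (h2 : Fill B z (n - 1))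
    (hn : 1 ≤ n) {x : G} (hx : x ∉ B) (hmax : ∀ y ∈ B, z y ≤ z x) {U₁ U₂ : Finset G}
    (hU₁ : U₁ ⊆ B) (hU₂ : U₂ ⊆ B) (hc₁ : #U₁ = n - 1) (hc₂ : #U₂ = n)
    (hle : z x + ∑ y ∈ U₁, z y ≤ ∑ y ∈ U₂, z y + 1) : Fill (insert x B) z n := by
  -- every sum is a sum with or without `x`
  have hwithout : ∀ T ⊆ insert x B, #T = n → x ∉ T → T ⊆ B := by
    intro T hT _ hxT y hy
    rcases mem_insert.1 (hT hy) with rfl | h
    · exact absurd hy hxT
    · exact h
  have hwith : ∀ T ⊆ insert x B, #T = n → x ∈ T → T.erase x ⊆ B ∧ #(T.erase x) = n - 1 ∧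
      ∑ y ∈ T, z y = z x + ∑ y ∈ T.erase x, z y := by
    intro T hT hTc hxT
    refine ⟨?_, ?_, (add_sum_erase T z hxT).symm⟩
    · intro y hy
      rcases mem_insert.1 (hT (mem_of_mem_erase hy)) with rfl | h
      · exact absurd rfl (ne_of_mem_erase hy)
      · exact h
    · rw [card_erase_of_mem hxT, hTc]
  have hback : ∀ T ⊆ B, #T = n - 1 → ∃ T' ⊆ insert x B, #T' = n ∧
      ∑ y ∈ T', z y = z x + ∑ y ∈ T, z y := by
    intro T hT hTc
    refine ⟨insert x T, insert_subset_insert x hT, ?_, ?_⟩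
    · rw [card_insert_of_notMem (fun h => hx (hT h)), hTc]
      omega
    · rw [sum_insert (fun h => hx (hT h))]
  intro T₁ hT₁ T₂ hT₂ hTc₁ hTc₂ Y hY₁ hY₂
  -- from `T₁` without `x` get `T₁'` with `x` below; etc.
  by_cases hYU : Y ≤ ∑ y ∈ U₂, z y
  · -- below `U₂`
    by_cases hx₁ : x ∈ T₁
    · obtain ⟨ha, hb, hc⟩ := hwith T₁ hT₁ hTc₁ hx₁
      -- either `Y` is a sum with `x`
      by_cases hYU' : Y ≤ z x + ∑ y ∈ U₁, z y
      · obtain ⟨T, hT, hTc, hTs⟩ := h2 _ ha _ hU₁ hb hc₁ (Y - z x) (by linarith) (by linarith)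
        obtain ⟨T', hT', hTc', hTs'⟩ := hback T hT hTc
        exact ⟨T', hT', hTc', by linarith⟩
      · -- `z x + U₁ < Y ≤ U₂`: a sum without `x`; a lower one without `x`
        obtain ⟨y, hy⟩ : (U₂ \ U₁).Nonempty := by
          rw [nonempty_iff_ne_empty, Ne, sdiff_eq_empty_iff_subset]
          intro h
          have := card_le_card h
          omega
        have hy' := mem_sdiff.1 hy
        have h5 : insert y U₁ ⊆ B := insert_subset (hU₂ hy'.1) hU₁
        have h6 : #(insert y U₁) = n := by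
          rw [card_insert_of_notMem hy'.2, hc₁]
          omega
        have h7 : ∑ v ∈ insert y U₁, z v = z y + ∑ v ∈ U₁, z v := sum_insert hy'.2
        have h8 := hmax y (hU₂ hy'.1)
        obtain ⟨T, hT, hTc, hTs⟩ := h1 _ h5 _ hU₂ h6 hc₂ Y (by linarith) hYU
        exact ⟨T, hT.trans (subset_insert _ _), hTc, hTs⟩
    · obtain ⟨T, hT, hTc, hTs⟩ := h1 _ (hwithout T₁ hT₁ hTc₁ hx₁) _ hU₂ hTc₁ hc₂ Y hY₁ hYU
      exact ⟨T, hT.trans (subset_insert _ _), hTc, hTs⟩
  · -- above `U₂`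
    have hge : z x + ∑ y ∈ U₁, z y ≤ Y := by omega
    by_cases hx₂ : x ∈ T₂
    · obtain ⟨ha, hb, hc⟩ := hwith T₂ hT₂ hTc₂ hx₂
      obtain ⟨T, hT, hTc, hTs⟩ := h2 _ hU₁ _ ha hc₁ hb (Y - z x) (by linarith) (by linarith)
      obtain ⟨T', hT', hTc', hTs'⟩ := hback T hT hTc
      exact ⟨T', hT', hTc', by linarith⟩
    · obtain ⟨T, hT, hTc, hTs⟩ := h1 _ hU₂ _ (hwithout T₂ hT₂ hTc₂ hx₂) hc₂ hTc₂ Y (by omega) hY₂
      exact ⟨T, hT.trans (subset_insert _ _), hTc, hTs⟩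

/-- the two sets for `add_max` -/
theorem exists_U {B : Finset G} {z : G → ℤ} {n c Q : ℕ} {i₀ i₁ y : ℤ} (hB : #B + 1 = n + c)
    (hQ : Q < n) (h : i₀ < i₁) (hc : 1 ≤ c) (row₀ : Q + 1 ≤ #(row B z i₀))
    (row₁ : Q + 1 ≤ #(row B z i₁)) (far₁ : y - i₁ ≤ (i₁ - i₀) * Q)
    (far₂ : y - i₁ ≤ (i₁ - i₀) * (c - 1 : ℕ)) :
    ∃ U₁ U₂ : Finset G, U₁ ⊆ B ∧ U₂ ⊆ B ∧ #U₁ = n - 1 ∧ #U₂ = n ∧
      y + ∑ v ∈ U₁, z v ≤ ∑ v ∈ U₂, z v + 1 := by
  set w := min Q (c - 1) with hw
  have hwQ : w ≤ Q := min_le_left _ _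
  have hwc : w ≤ c - 1 := min_le_right _ _
  have hfar : y - i₁ ≤ (i₁ - i₀) * (w : ℤ) := by
    rcases min_choice Q (c - 1) with h3 | h3
    · rw [hw, h3]
      exact far₁
    · rw [hw, h3]
      exact far₂
  obtain ⟨E₀, hE₀, hE₀c⟩ := exists_subset_card_eq (show w ≤ #(row B z i₀) by omega)
  obtain ⟨E₁, hE₁, hE₁c⟩ := exists_subset_card_eq (show w + 1 ≤ #(row B z i₁) by omega)
  have hdis : Disjoint E₀ E₁ := by
    rw [disjoint_left]
    intro v hv hv'
    have h3 := (mem_filter.1 (hE₀ hv)).2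
    have h4 := (mem_filter.1 (hE₁ hv')).2
    omega
  have hE₀B : E₀ ⊆ B := hE₀.trans (filter_subset _ _)
  have hE₁B : E₁ ⊆ B := hE₁.trans (filter_subset _ _)
  have hcd : #(B \ (E₀ ∪ E₁)) = #B - (w + (w + 1)) := by
    rw [card_sdiff_of_subset (union_subset hE₀B hE₁B), card_union_of_disjoint hdis, hE₀c, hE₁c]
  have hle2 : w + (w + 1) ≤ #B := by
    rw [← hE₀c]
    have h5 := card_le_card (union_subset hE₀B hE₁B)
    rw [card_union_of_disjoint hdis, hE₁c] at h5
    omega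
  obtain ⟨W, hW, hWc⟩ := exists_subset_card_eq (show c - 1 - w ≤ #(B \ (E₀ ∪ E₁)) by omega)
  have hWB : W ⊆ B := hW.trans sdiff_subset
  have hW₀ : Disjoint E₀ W := by
    rw [disjoint_left]
    intro v hv hv'
    exact (mem_sdiff.1 (hW hv')).2 (mem_union_left _ hv)
  have hW₁ : Disjoint E₁ W := by
    rw [disjoint_left]
    intro v hv hv'
    exact (mem_sdiff.1 (hW hv')).2 (mem_union_right _ hv)
  have hs₀ : ∑ v ∈ E₀, z v = w * i₀ := by
    rw [sum_congr rfl (g := fun _ => i₀) (fun v hv => (mem_filter.1 (hE₀ hv)).2), sum_const, hE₀c,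
      nsmul_eq_mul]
  have hs₁ : ∑ v ∈ E₁, z v = (w + 1) * i₁ := by
    rw [sum_congr rfl (g := fun _ => i₁) (fun v hv => (mem_filter.1 (hE₁ hv)).2), sum_const, hE₁c,
      nsmul_eq_mul]
    push_cast
    ring
  refine ⟨B \ (E₁ ∪ W), B \ (E₀ ∪ W), sdiff_subset, sdiff_subset, ?_, ?_, ?_⟩
  · rw [card_sdiff_of_subset (union_subset hE₁B hWB), card_union_of_disjoint hW₁, hE₁c, hWc]
    omega
  · rw [card_sdiff_of_subset (union_subset hE₀B hWB), card_union_of_disjoint hW₀, hE₀c, hWc]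
    omega
  · have h3 := sum_sdiff (f := z) (union_subset hE₁B hWB)
    have h4 := sum_sdiff (f := z) (union_subset hE₀B hWB)
    rw [sum_union hW₁, hs₁] at h3
    rw [sum_union hW₀, hs₀] at h4
    nlinarith

/-- removing the farthest element, the case above -/
theorem upper_case {A : Finset G} {z : G → ℤ} {n c Q : ℕ}
    {p q i₀ i₁ : ℤ} (hA : #A = n + c) (hQ : Q + #(out A z p q 1) < n) (h₀ : p ≤ i₀)
    (h : i₀ < i₁) (h₁ : i₁ ≤ q)
    (row₀ : Q + 1 ≤ #(row A z i₀)) (row₁ : Q + 1 ≤ #(row A z i₁)) {x : G} (hx : x ∈ A) {d : ℕ}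
    (hd : 1 ≤ d) (hzx : z x = q + d) (hmax : ∀ y ∈ A, z y ≤ z x)
    (far : d + (q - i₁) + (i₀ - p) ≤ (i₁ - i₀) * Q ∧
      d + (q - i₁) + (i₀ - p) + (i₁ - i₀) * #(out A z p q d) ≤ (i₁ - i₀) * c)
    (h2 : Fill (A.erase x) z n) (h3 : Fill (A.erase x) z (n - 1)) : Fill A z n := by
  have hout : 1 ≤ #(out A z p q d) := card_pos.2 ⟨x, mem_filter.2 ⟨hx, Or.inr (by omega)⟩⟩
  have hout' : (1 : ℤ) ≤ #(out A z p q d) := by exact_mod_cast hout
  have hpos : 0 < i₁ - i₀ := by omega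
  have hc : 1 ≤ c := by
    by_contra hc0
    have hc1 : c = 0 := by omega
    have h4 := far.2
    rw [hc1] at h4
    push_cast at h4
    nlinarith
  have hrow : ∀ i, i ≤ q → #(row (A.erase x) z i) = #(row A z i) := by
    intro i hi
    congr 1
    ext y
    rw [row, row, mem_filter, mem_filter, mem_erase]
    constructor
    · rintro ⟨⟨_, h4⟩, h5⟩
      exact ⟨h4, h5⟩
    · rintro ⟨h4, h5⟩
      exact ⟨⟨fun h6 => by rw [h6] at h5; omega, h4⟩, h5⟩
  have hcard : #(A.erase x) + 1 = n + c := by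
    rw [card_erase_of_mem hx, hA]
    omega
  obtain ⟨U₁, U₂, hU₁, hU₂, hc₁, hc₂, hle⟩ := exists_U (z := z) (Q := Q) (y := z x) hcard (by omega) h hc
    (by rw [hrow _ (by omega)]; exact row₀) (by rw [hrow _ (by omega)]; exact row₁)
    (by rw [hzx]; linarith [far.1]) (by
      have h4 : ((c - 1 : ℕ) : ℤ) = (c : ℤ) - 1 := by omega
      rw [h4, hzx]
      nlinarith [far.2])
  have h5 := add_max h2 h3 (by omega) (notMem_erase x A)
    (fun y hy => hmax y (mem_of_mem_erase hy)) hU₁ hU₂ hc₁ hc₂ hle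
  rwa [insert_erase hx] at h5

end FillH

open FillH

theorem fill_all {G : Type*} [DecidableEq G] {A : Finset G} {z : G → ℤ} {n c Q : ℕ}
    {p q i₀ i₁ : ℤ} (hA : #A = n + c) (hQ : Q + #(out A z p q 1) < n) (h₀ : p ≤ i₀)
    (h : i₀ < i₁) (h₁ : i₁ ≤ q) (rows : ∀ i, p ≤ i → i ≤ q → 1 ≤ #(row A z i))
    (row₀ : Q + 1 ≤ #(row A z i₀)) (row₁ : Q + 1 ≤ #(row A z i₁))
    (far : ∀ x ∈ A, ∀ d : ℕ, 1 ≤ d → (z x = q + d ∨ z x = p - d) →
      d + (q - i₁) + (i₀ - p) ≤ (i₁ - i₀) * Q ∧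
      d + (q - i₁) + (i₀ - p) + (i₁ - i₀) * #(out A z p q d) ≤ (i₁ - i₀) * c) :
    Fill A z n := by
  obtain ⟨N, hN⟩ : ∃ N, #(out A z p q 1) = N := ⟨_, rfl⟩
  induction N generalizing A n c with
  | zero =>
    refine intv (p := p) (q := q) (fun x hx => ?_) rows n
    rw [card_eq_zero] at hN
    by_contra hne
    have h2 : x ∈ out A z p q 1 := mem_filter.2 ⟨hx, by push_cast; omega⟩
    rw [hN] at h2
    exact notMem_empty _ h2
  | succ N ih =>
    -- the distance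
    have hne : (out A z p q 1).Nonempty := card_pos.1 (by omega)
    obtain ⟨x, hx, hmax⟩ := exists_max_image (out A z p q 1) (fun y => max (z y - q) (p - z y)) hne
    have hxA := (mem_filter.1 hx).1
    have hx1 := (mem_filter.1 hx).2
    have hpq : p ≤ q := by omega
    obtain ⟨d, hd⟩ : ∃ d : ℕ, (d : ℤ) = max (z x - q) (p - z x) :=
      ⟨(max (z x - q) (p - z x)).toNat, by push_cast at hx1; omega⟩
    have hd1 : 1 ≤ d := by push_cast at hx1; omega
    have hmax' : ∀ y ∈ A, z y ≤ q + d ∧ p - d ≤ z y := by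
      intro y hy
      by_cases h2 : y ∈ out A z p q 1
      · have h3 := hmax y h2
        omega
      · have h3 : ¬ (z y ≤ p - (1 : ℕ) ∨ q + (1 : ℕ) ≤ z y) := fun h4 => h2 (mem_filter.2 ⟨hy, h4⟩)
        push_cast at h3
        omega
    set B := A.erase x with hB
    have houtB : ∀ j : ℕ, 1 ≤ j → j ≤ d → #(out B z p q j) + 1 = #(out A z p q j) := by
      intro j hj hjd
      have h2 : x ∈ out A z p q j := mem_filter.2 ⟨hxA, by omega⟩
      have h3 : out B z p q j = (out A z p q j).erase x := by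
        ext y
        rw [out, out, mem_erase, mem_filter, mem_filter, hB, mem_erase]
        tauto
      rw [h3, card_erase_of_mem h2]
      have := card_pos.2 ⟨x, h2⟩
      omega
    have hzx : z x = q + d ∨ z x = p - d := by omega
    have hfarx := far x hxA d hd1 hzx
    have hrowB : ∀ i, p ≤ i → i ≤ q → #(row B z i) = #(row A z i) := by
      intro i hi hi'
      congr 1
      ext y
      rw [row, row, mem_filter, mem_filter, hB, mem_erase]
      constructor
      · rintro ⟨⟨_, h4⟩, h5⟩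
        exact ⟨h4, h5⟩
      · rintro ⟨h4, h5⟩
        exact ⟨⟨fun h6 => by rw [h6] at h5; omega, h4⟩, h5⟩
    have hpos : 0 < i₁ - i₀ := by omega
    have hdZ : (1 : ℤ) ≤ d := by exact_mod_cast hd1
    have hout' : (1 : ℤ) ≤ #(out A z p q d) := by
      have := houtB d hd1 le_rfl
      omega
    have hc : 1 ≤ c := by
      by_contra hc0
      have hc1 : c = 0 := by omega
      have h4 := hfarx.2
      rw [hc1] at h4
      push_cast at h4
      nlinarith
    have hN1 := houtB 1 le_rfl hd1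
    have hcardB : #B + 1 = n + c := by
      rw [hB, card_erase_of_mem hxA, hA]
      omega
    have hfarB : ∀ y ∈ B, ∀ j : ℕ, 1 ≤ j → (z y = q + j ∨ z y = p - j) →
        j + (q - i₁) + (i₀ - p) ≤ (i₁ - i₀) * Q ∧
        j + (q - i₁) + (i₀ - p) + (i₁ - i₀) * #(out B z p q j) ≤ (i₁ - i₀) * (c - 1 : ℕ) := by
      intro y hy j hj hzy
      have hyA := mem_of_mem_erase hy
      have h2 := far y hyA j hj hzy
      refine ⟨h2.1, ?_⟩
      have h3 : j ≤ d := by
        have := hmax' y hyA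
        omega
      have h4 := houtB j hj h3
      have h5 : (#(out A z p q j) : ℤ) = #(out B z p q j) + 1 := by exact_mod_cast h4.symm
      have h6 : ((c - 1 : ℕ) : ℤ) = (c : ℤ) - 1 := by omega
      have h7 := h2.2
      rw [h5] at h7
      rw [h6]
      nlinarith
    have hfarB' : ∀ y ∈ B, ∀ j : ℕ, 1 ≤ j → (z y = q + j ∨ z y = p - j) →
        j + (q - i₁) + (i₀ - p) ≤ (i₁ - i₀) * Q ∧
        j + (q - i₁) + (i₀ - p) + (i₁ - i₀) * #(out B z p q j) ≤ (i₁ - i₀) * c := by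
      intro y hy j hj hzy
      have h2 := hfarB y hy j hj hzy
      refine ⟨h2.1, h2.2.trans ?_⟩
      exact mul_le_mul_of_nonneg_left (by omega) (by omega)
    have hF1 : Fill B z n := by
      refine ih (n := n) (c := c - 1) (by omega) (by omega) ?_ ?_ ?_ hfarB (by omega)
      · intro i hi hi'
        rw [hrowB i hi hi']
        exact rows i hi hi'
      · rw [hrowB i₀ h₀ (by omega)]
        exact row₀
      · rw [hrowB i₁ (by omega) h₁]
        exact row₁
    have hF2 : Fill B z (n - 1) := by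
      refine ih (n := n - 1) (c := c) (by omega) (by omega) ?_ ?_ ?_ hfarB' (by omega)
      · intro i hi hi'
        rw [hrowB i hi hi']
        exact rows i hi hi'
      · rw [hrowB i₀ h₀ (by omega)]
        exact row₀
      · rw [hrowB i₁ (by omega) h₁]
        exact row₁
    rcases hzx with hzx | hzx
    · exact upper_case hA hQ h₀ h h₁ row₀ row₁ hxA hd1 hzx
        (fun y hy => by have := hmax' y hy; omega) hfarx hF1 hF2
    · -- the mirror
      apply fill_neg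
      have hrown : ∀ i, row A (fun y => - z y) (-i) = row A z i := by
        intro i
        ext y
        rw [row, row, mem_filter, mem_filter]
        constructor
        · rintro ⟨h4, h5⟩
          exact ⟨h4, by linarith⟩
        · rintro ⟨h4, h5⟩
          exact ⟨h4, by linarith⟩
      have houtn : ∀ j : ℕ, out A (fun y => - z y) (-q) (-p) j = out A z p q j := by
        intro j
        ext y
        rw [out, out, mem_filter, mem_filter]
        constructor
        · rintro ⟨h4, h5⟩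
          exact ⟨h4, by omega⟩
        · rintro ⟨h4, h5⟩
          exact ⟨h4, by omega⟩
      have hneg : ∀ k : ℕ, Fill B z k → Fill B (fun y => - z y) k := by
        intro k hk
        apply fill_neg
        intro T₁ hT₁ T₂ hT₂ hc₁ hc₂ Y hY₁ hY₂
        simp only [neg_neg] at hY₁ hY₂ ⊢
        exact hk T₁ hT₁ T₂ hT₂ hc₁ hc₂ Y hY₁ hY₂
      refine upper_case (p := -q) (q := -p) (i₀ := -i₁) (i₁ := -i₀) (d := d) (Q := Q) hA
        (by rw [houtn]; exact hQ) (by omega) (by omega) (by omega) (by rw [hrown]; exact row₁)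
        (by rw [hrown]; exact row₀) hxA hd1 (by omega)
        (fun y hy => by have := hmax' y hy; omega) ?_ (hneg _ hF1) (hneg _ hF2)
      rw [houtn]
      constructor
      · have h4 := hfarx.1
        have h5 : (-i₀ - -i₁) = i₁ - i₀ := by ring
        rw [h5]
        linarith
      · have h4 := hfarx.2
        have h5 : (-i₀ - -i₁) = i₁ - i₀ := by ring
        rw [h5]
        linarith

end Pool.Agent.Lib.MPa7239a.RK
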