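import Pool.Agent.Lib.MP_a7239a_co.RK.CNT

/-!
# Theorem R: the lift of all of `A` and the distances of the elements outside the window
-/

open Finset

namespace Pool.Agent.Lib.MPa7239a.RK

open Pool.Agent.Lib.MPa7239a.GC

/-! ### Distances -/

section dist

variable {G : Type*}

/-- the distance of `x` from `[u, v]` -/
def dst (z : G → ℤ) (u v : ℤ) (x : G) : ℤ :=
  if v < z x then z x - v else if z x < u then u - z x else 0

/-- the sum of the distances -/
def dsum (S : Finset G) (z : G → ℤ) (u v : ℤ) : ℤ :=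
  ∑ x ∈ S.filter (fun x => v < z x), (z x - v) + ∑ x ∈ S.filter (fun x => z x < u), (u - z x)

theorem dst_nonneg {z : G → ℤ} {u v : ℤ} {x : G} : 0 ≤ dst z u v x := by
  unfold dst
  split_ifs <;> omega

theorem dsum_eq (S : Finset G) (z : G → ℤ) {u v : ℤ} (huv : u ≤ v) :
    dsum S z u v = ∑ x ∈ S, dst z u v x := by
  unfold dsum dst
  rw [sum_filter, sum_filter, ← sum_add_distrib]
  refine sum_congr rfl fun x _ => ?_
  by_cases h1 : v < z x
  · rw [if_pos h1, if_pos h1, if_neg (by omega)]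
    omega
  · rw [if_neg h1, if_neg h1]
    omega

/-- the number of elements outside and the number at distance at least two -/
theorem card_out_le_dsum (S : Finset G) (z : G → ℤ) {u v : ℤ} (huv : u ≤ v) :
    (#(out S z u v 1) : ℤ) + #(out S z u v 2) ≤ dsum S z u v := by
  rw [dsum_eq S z huv]
  unfold out
  rw [card_filter, card_filter]
  push_cast
  rw [← sum_add_distrib]
  refine sum_le_sum fun x _ => ?_
  unfold dst
  split_ifs <;> omega

/-- one element and all the others -/
theorem dst_add_card_le (S : Finset G) (z : G → ℤ) {u v : ℤ} (huv : u ≤ v) {x : G} (hx : x ∈ S) :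
    dst z u v x + #(out S z u v 1) ≤ dsum S z u v + 1 := by
  classical
  rw [dsum_eq S z huv, ← add_sum_erase S _ hx]
  have h1 : #(out S z u v 1) ≤ #(out (S.erase x) z u v 1) + 1 := by
    have h2 : out S z u v 1 ⊆ insert x (out (S.erase x) z u v 1) := by
      intro y hy
      rw [mem_out] at hy
      rw [mem_insert, mem_out, mem_erase]
      by_cases h : y = x
      · exact Or.inl h
      · exact Or.inr ⟨⟨h, hy.1⟩, hy.2⟩
    exact (card_le_card h2).trans (card_insert_le _ _)
  have h3 : (#(out (S.erase x) z u v 1) : ℤ) ≤ ∑ y ∈ S.erase x, dst z u v y := by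
    unfold out
    rw [card_filter]
    push_cast
    refine sum_le_sum fun y _ => ?_
    unfold dst
    split_ifs <;> omega
  omega

/-- `ν` elements at distance at least `d` -/
theorem mul_card_out_le_dsum (S : Finset G) (z : G → ℤ) {u v : ℤ} (huv : u ≤ v) {d : ℕ} (hd : 1 ≤ d) :
    (d : ℤ) * #(out S z u v d) ≤ dsum S z u v := by
  rw [dsum_eq S z huv]
  unfold out
  rw [card_filter]
  push_cast
  rw [mul_sum]
  refine sum_le_sum fun x _ => ?_
  unfold dst
  split_ifs <;> omega

end dist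

/-! ### The lift -/

/-- the representative of `a` modulo `o` in `[-o/2, o/2)` -/
def bal (a : ℤ) (o : ℕ) : ℤ := (a + (o : ℤ) / 2) % o - (o : ℤ) / 2

theorem bal_spec (a : ℤ) {o : ℕ} (ho : 0 < o) :
    (∃ j : ℤ, a - bal a o = o * j) ∧ -(o : ℤ) ≤ 2 * bal a o ∧ 2 * bal a o ≤ o := by
  have h1 := Int.emod_nonneg (a + (o : ℤ) / 2) (b := (o : ℤ)) (by omega)
  have h2 := Int.emod_lt_of_pos (a + (o : ℤ) / 2) (b := (o : ℤ)) (by omega)
  have h3 := Int.mul_ediv_add_emod (a + (o : ℤ) / 2) o
  unfold bal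
  refine ⟨⟨(a + (o : ℤ) / 2) / o, by linarith⟩, ?_, ?_⟩ <;> omega

variable {G : Type*} [AddCommGroup G]

open scoped Classical in
/-- the lift of all elements: `z - w` on `S`, balanced elsewhere -/
noncomputable def lf (H : AddSubgroup G) (e q₀ : G) (S : Finset G) (z : G → ℤ) (o : ℕ) (w : ℤ) :
    G → ℤ := fun x =>
  if x ∈ S then z x - w
  else if h : ∃ a : ℤ, x - q₀ - a • e ∈ H then bal (h.choose - w) o else 0

theorem lf_of_mem {H : AddSubgroup G} {e q₀ : G} {S : Finset G} {z : G → ℤ} {o : ℕ} {w : ℤ}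
    {x : G} (hx : x ∈ S) : lf H e q₀ S z o w x = z x - w := by
  unfold lf
  rw [if_pos hx]

theorem lf_of_notMem {H : AddSubgroup G} {e q₀ : G} {S : Finset G} {z : G → ℤ} {o : ℕ} {w : ℤ}
    (ho : 0 < o) {x : G} (hx : x ∉ S) :
    -(o : ℤ) ≤ 2 * lf H e q₀ S z o w x ∧ 2 * lf H e q₀ S z o w x ≤ o := by
  unfold lf
  rw [if_neg hx]
  split_ifs with h
  · exact (bal_spec _ ho).2
  · constructor <;> omega

theorem lf_lift {H : AddSubgroup G} {e q₀ : G} {A S : Finset G} {z : G → ℤ} {o : ℕ} (ho : 0 < o)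
    (hoe : o • e ∈ H) (hlift : ∀ x ∈ S, x - q₀ - z x • e ∈ H)
    (hgen : ∀ x ∈ A, ∃ a : ℤ, x - q₀ - a • e ∈ H) (w : ℤ) :
    ∀ x ∈ A, x - (q₀ + w • e) - lf H e q₀ S z o w x • e ∈ H := by
  intro x hx
  by_cases hxS : x ∈ S
  · rw [lf_of_mem hxS]
    have h1 : x - (q₀ + w • e) - (z x - w) • e = x - q₀ - z x • e := by
      rw [sub_smul]
      abel
    rw [h1]
    exact hlift x hxS
  · have h := hgen x hx
    unfold lf
    rw [if_neg hxS, dif_pos h]
    obtain ⟨j, hj⟩ := (bal_spec (h.choose - w) ho).1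
    have h2 : x - (q₀ + w • e) - bal (h.choose - w) o • e =
        (x - q₀ - h.choose • e) + j • (o • e) := by
      have h3 : bal (h.choose - w) o = h.choose - w - o * j := by omega
      rw [h3, sub_smul, sub_smul, mul_comm, mul_smul, natCast_zsmul]
      abel
    rw [h2]
    exact H.add_mem h.choose_spec (H.zsmul_mem hoe j)

/-- the elements of `A` outside, from those of `S` -/
theorem card_out_lf {H : AddSubgroup G} {e q₀ : G} {A S : Finset G} {z : G → ℤ} {o loss : ℕ}
    (hSA : S ⊆ A) (hloss : #A ≤ #S + loss) (w p q : ℤ) (d : ℕ) :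
    #(out A (lf H e q₀ S z o w) p q d) ≤ #(out S z (p + w) (q + w) d) + loss := by
  classical
  have h1 : out A (lf H e q₀ S z o w) p q d ⊆ out S z (p + w) (q + w) d ∪ (A \ S) := by
    intro x hx
    rw [mem_out] at hx
    rw [mem_union, mem_out, mem_sdiff]
    by_cases hxS : x ∈ S
    · rw [lf_of_mem hxS] at hx
      exact Or.inl ⟨hxS, by omega⟩
    · exact Or.inr ⟨hx.1, hxS⟩
  refine (card_le_card h1).trans ((card_union_le _ _).trans ?_)
  have h2 := card_sdiff_add_card_eq_card hSA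
  omega

/-- the rows of `A` contain the rows of `S` -/
theorem card_row_lf {H : AddSubgroup G} {e q₀ : G} {A S : Finset G} {z : G → ℤ} {o : ℕ}
    (hSA : S ⊆ A) (w i : ℤ) :
    #(row S z (i + w)) ≤ #(row A (lf H e q₀ S z o w) i) := by
  refine card_le_card fun x hx => ?_
  rw [mem_row] at hx ⊢
  rw [lf_of_mem hx.1]
  exact ⟨hSA hx.1, by omega⟩

theorem smul_mem_of_order {H : AddSubgroup G} {e : G} {o : ℕ} (h : addOrderOf (e : G ⧸ H) = o) :
    o • e ∈ H := by
  have h1 : o • (e : G ⧸ H) = 0 := by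
    rw [← h]
    exact addOrderOf_nsmul_eq_zero _
  rwa [← QuotientAddGroup.mk_nsmul, QuotientAddGroup.eq_zero_iff] at h1

end Pool.Agent.Lib.MPa7239a.RK
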