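import Pool.Agent.Lib.MP_a7239a_co.RK.LOW3a

/-!
# Theorem R, lower bound for a divisor `s` of `t * m` which does not divide `t`

`o = t m / s`, `t = b s + ρ`, the rows of the map to `ZMod o` have `h = m s` elements. Take the
rows `0, ..., b` without `x₀` elements of row `0` and `x` elements of row `b`, `y₁` elements of row
`b + 1` and `y₂` elements of row `- 1`, `y₁ + y₂ = Y`, `x₀ + x = P = (s - ρ - 1) m - 1 + Y`. The sums
of `n` elements are in an interval of length `b (m + 1) + Y < o` with upper end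
`C + (b + 1) y₁ - b x`; moving `(x, y₁)` from `(0, Y)` to `(P, 0)` in steps of `b` or `b + 1` we find
a position without multiples of `o`.
-/

open Finset

namespace Pool.Agent.Lib.MPa7239a.RK

open Pool.Agent.Lib.MPa7239a.GC

/-- a map onto `ZMod o` with fibres of `m s` elements -/
theorem exists_fibres {m t s o : ℕ} (hm : 0 < m) (ht : 0 < t) (hos : o * s = t * m) :
    ∃ φ : ZMod m × ZMod (t * m) →+ ZMod o, ∀ i : ZMod o, ∃ F : Finset (ZMod m × ZMod (t * m)),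
      #F = m * s ∧ ∀ x ∈ F, φ x = i := by
  have htm : 0 < t * m := Nat.mul_pos ht hm
  have ho : 0 < o := Nat.pos_of_mul_pos_right (by rw [hos]; exact htm)
  haveI : NeZero m := ⟨by omega⟩
  haveI : NeZero (t * m) := ⟨by omega⟩
  haveI : NeZero o := ⟨by omega⟩
  have hdvd : o ∣ t * m := ⟨s, hos.symm⟩
  let φ : ZMod m × ZMod (t * m) →+ ZMod o :=
    (ZMod.castHom hdvd (ZMod o)).toAddMonoidHom.comp (AddMonoidHom.snd _ _)
  have hsurj : Function.Surjective φ := by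
    intro i
    obtain ⟨y, hy⟩ := ZMod.castHom_surjective hdvd i
    exact ⟨(0, y), hy⟩
  refine ⟨φ, fun i => ⟨univ.filter (fun x => φ x = i), ?_, fun x hx => (mem_filter.1 hx).2⟩⟩
  have h1 : ∀ j : ZMod o, #(univ.filter (fun x => φ x = j)) = #(univ.filter (fun x => φ x = i)) :=
    fun j => AddMonoidHom.card_fiber_eq_of_mem_range φ (hsurj j) (hsurj i)
  have h2 : Fintype.card (ZMod m × ZMod (t * m)) =
      ∑ j : ZMod o, #(univ.filter (fun x => φ x = j)) := by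
    rw [← Finset.card_univ, Finset.card_eq_sum_card_fiberwise (f := φ) (t := univ)]
    intro x _
    simp
  rw [Finset.sum_congr rfl (fun j _ => h1 j), Finset.sum_const, Finset.card_univ,
    Fintype.card_prod, ZMod.card, ZMod.card, ZMod.card, smul_eq_mul] at h2
  have h3 : o * #(univ.filter (fun x => φ x = i)) = o * (m * s) := by
    calc o * #(univ.filter (fun x => φ x = i)) = m * (t * m) := h2.symm
      _ = m * (o * s) := congrArg (fun a => m * a) hos.symm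
      _ = o * (m * s) := by ring
  exact Nat.eq_of_mul_eq_mul_left ho h3

/-- the counting function -/
def cnt (h b x₀ x y₁ y₂ : ℕ) (i : ℤ) : ℕ :=
  (if 0 ≤ i ∧ i ≤ b then h else 0) - (if i = 0 then x₀ else 0) - (if i = b then x else 0) +
    (if i = b + 1 then y₁ else 0) + (if i = -1 then y₂ else 0)

theorem cnt_cast {h b x₀ x y₁ y₂ : ℕ} (hb : 1 ≤ b) (hx : x₀ + x ≤ h) (i : ℤ) :
    (cnt h b x₀ x y₁ y₂ i : ℤ) = (if 0 ≤ i ∧ i ≤ b then (h : ℤ) else 0) -
      (if i = 0 then (x₀ : ℤ) else 0) - (if i = b then (x : ℤ) else 0) +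
      (if i = b + 1 then (y₁ : ℤ) else 0) + (if i = -1 then (y₂ : ℤ) else 0) := by
  unfold cnt
  have hb' : (1 : ℤ) ≤ b := by exact_mod_cast hb
  by_cases h1 : 0 ≤ i ∧ i ≤ b
  · have e1 : ¬ (i = b + 1) := by omega
    have e2 : ¬ (i = -1) := by omega
    simp only [h1, e1, e2, and_self, if_true, if_false]
    split_ifs <;> omega
  · have e1 : ¬ (i = b) := by omega
    have e2 : ¬ (i = 0) := by omega
    simp only [h1, e1, e2, if_false]
    split_ifs <;> push_cast <;> ring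

theorem sum_ind (b : ℕ) (c : ℤ) (v : ℤ) {a : ℤ} (ha : -1 ≤ a) (ha' : a ≤ b + 1) :
    ∑ i ∈ Icc (-1 : ℤ) (b + 1), c * (if i = a then v else 0) = c * v := by
  rw [← mul_sum, Finset.sum_ite_eq' (Icc (-1 : ℤ) (b + 1)) a (fun _ => v),
    if_pos (Finset.mem_Icc.2 ⟨ha, ha'⟩)]

theorem sum_ind' (b : ℕ) (v : ℤ) {a : ℤ} (ha : -1 ≤ a) (ha' : a ≤ b + 1) :
    ∑ i ∈ Icc (-1 : ℤ) (b + 1), i * (if i = a then v else 0) = a * v := by
  have : ∀ i : ℤ, i * (if i = a then v else 0) = if i = a then a * v else 0 := by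
    intro i; split_ifs with h
    · rw [h]
    · ring
  rw [sum_congr rfl (fun i _ => this i),
    Finset.sum_ite_eq' (Icc (-1 : ℤ) (b + 1)) a (fun _ => a * v),
    if_pos (Finset.mem_Icc.2 ⟨ha, ha'⟩)]

theorem sum_cnt {h b x₀ x y₁ y₂ : ℕ} (hb : 1 ≤ b) (hx : x₀ + x ≤ h) :
    (∑ i ∈ Icc (-1 : ℤ) (b + 1), (cnt h b x₀ x y₁ y₂ i : ℤ)) =
      (b + 1) * h - x₀ - x + y₁ + y₂ := by
  have h1 : ∑ i ∈ Icc (-1 : ℤ) (b + 1), (if 0 ≤ i ∧ i ≤ b then (h : ℤ) else 0) = (b + 1) * h := by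
    rw [← Finset.sum_filter]
    have : (Icc (-1 : ℤ) (b + 1)).filter (fun i : ℤ => 0 ≤ i ∧ i ≤ (b : ℤ)) =
        Icc (0 : ℤ) (b : ℤ) := by
      ext i; simp only [mem_filter, mem_Icc]; omega
    rw [this, sum_const, Int.card_Icc, nsmul_eq_mul]
    have : ((b : ℤ) + 1 - 0).toNat = b + 1 := by omega
    rw [this]; push_cast; ring
  have h2 := sum_ind b 1 (x₀ : ℤ) (a := 0) (by omega) (by omega)
  have h3 := sum_ind b 1 (x : ℤ) (a := b) (by omega) (by omega)
  have h4 := sum_ind b 1 (y₁ : ℤ) (a := b + 1) (by omega) (by omega)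
  have h5 := sum_ind b 1 (y₂ : ℤ) (a := -1) (by omega) (by omega)
  simp only [one_mul] at h2 h3 h4 h5
  rw [sum_congr rfl (fun i _ => cnt_cast hb hx i), sum_add_distrib, sum_add_distrib,
    sum_sub_distrib, sum_sub_distrib, h1, h2, h3, h4, h5]

theorem sum_mul_cnt {h b x₀ x y₁ y₂ : ℕ} (hb : 1 ≤ b) (hx : x₀ + x ≤ h) :
    (∑ i ∈ Icc (-1 : ℤ) (b + 1), i * (cnt h b x₀ x y₁ y₂ i : ℤ)) =
      (∑ i ∈ Icc (-1 : ℤ) (b + 1), i * (if 0 ≤ i ∧ i ≤ b then (h : ℤ) else 0)) - b * x +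
        (b + 1) * y₁ - y₂ := by
  have h2 := sum_ind' b (x₀ : ℤ) (a := 0) (by omega) (by omega)
  have h3 := sum_ind' b (x : ℤ) (a := b) (by omega) (by omega)
  have h4 := sum_ind' b (y₁ : ℤ) (a := b + 1) (by omega) (by omega)
  have h5 := sum_ind' b (y₂ : ℤ) (a := -1) (by omega) (by omega)
  have h6 : ∀ i : ℤ, i * (cnt h b x₀ x y₁ y₂ i : ℤ) =
      i * (if 0 ≤ i ∧ i ≤ b then (h : ℤ) else 0) - i * (if i = 0 then (x₀ : ℤ) else 0) -
      i * (if i = b then (x : ℤ) else 0) + i * (if i = b + 1 then (y₁ : ℤ) else 0) +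
      i * (if i = -1 then (y₂ : ℤ) else 0) := fun i => by
    rw [cnt_cast hb hx i]; ring
  rw [sum_congr rfl (fun i _ => h6 i), sum_add_distrib, sum_add_distrib,
    sum_sub_distrib, sum_sub_distrib, h2, h3, h4, h5]
  ring

theorem cnt_le {h b x₀ x y₁ y₂ : ℕ} (hy₁ : y₁ ≤ h) (hy₂ : y₂ ≤ h) (i : ℤ) :
    cnt h b x₀ x y₁ y₂ i ≤ h := by
  unfold cnt
  have : (0 : ℤ) ≤ b := by positivity
  split_ifs <;> omega

theorem cnt_top {h b x₀ x y₁ y₂ : ℕ} : cnt h b x₀ x y₁ y₂ (b + 1) = y₁ := by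
  unfold cnt
  have : (0 : ℤ) ≤ b := by positivity
  split_ifs <;> omega

theorem cnt_bot {h b x₀ x y₁ y₂ : ℕ} : cnt h b x₀ x y₁ y₂ (-1) = y₂ := by
  unfold cnt
  have : (0 : ℤ) ≤ b := by positivity
  split_ifs <;> omega

/-- the construction with parameters -/
theorem low3_aux {m t s o b ρ r P Y : ℕ} (hm : 0 < m) (hb : 1 ≤ b) (ht : t = b * s + ρ)
    (hos : o * s = t * m) (ho : o = b * m + r) (hr : r * s = ρ * m)
    (hP : P + ρ * m + m + 1 = m * s + Y) (hPh : P ≤ m * s) (hYh : Y ≤ m * s)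
    (hr1 : Y + 2 * b + 2 ≤ r) (htrav : m + 2 ≤ P + Y) :
    ∃ A : Finset (ZMod m × ZMod (t * m)), #A = (t + 1) * m + 1 ∧ ¬ Hit A (t * m) 0 := by
  classical
  have ht0 : 0 < t := by
    rw [ht]
    have : 0 < m * s + Y := by omega
    rcases Nat.eq_zero_or_pos s with h | h
    · subst h
      simp only [mul_zero, zero_add] at hP hr ⊢
      omega
    · have := Nat.mul_pos (Nat.lt_of_lt_of_le Nat.zero_lt_one hb) h
      omega
  obtain ⟨φ, hφ⟩ := exists_fibres hm ht0 hos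
  choose F hF hFφ using hφ
  set C : ℤ := ∑ i ∈ Icc (-1 : ℤ) (b + 1), i * (if 0 ≤ i ∧ i ≤ b then ((m * s : ℕ) : ℤ) else 0)
    with hC
  -- the position
  let f : ℕ → ℤ := fun j => - C + b * (min j P : ℕ) - (b + 1) * (Y - (j - P) : ℕ)
  have hbm : 0 < b * m := Nat.mul_pos (by omega) hm
  obtain ⟨L, hL⟩ : ∃ L, r = L + 1 + b + Y := ⟨r - (1 + b + Y), by omega⟩
  obtain ⟨j, hj, k, hk₁, hk₂⟩ := exists_step (o := o) (L := L) (g := b + 1) (J := P + Y) (f := f)
    (by omega) (by omega) (by omega) (by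
      intro j hj
      show - C + b * (min (j + 1) P : ℕ) - (b + 1) * (Y - (j + 1 - P) : ℕ) ≤
        - C + b * (min j P : ℕ) - (b + 1) * (Y - (j - P) : ℕ) + ((b + 1 : ℕ) : ℤ)
      rcases lt_or_ge j P with h | h
      · have e1 : min (j + 1) P = j + 1 := by omega
        have e2 : min j P = j := by omega
        have e3 : Y - (j + 1 - P) = Y := by omega
        have e4 : Y - (j - P) = Y := by omega
        rw [e1, e2, e3, e4]
        push_cast
        linarith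
      · have e1 : min (j + 1) P = P := by omega
        have e2 : min j P = P := by omega
        obtain ⟨i, rfl⟩ : ∃ i, j = P + i := ⟨j - P, by omega⟩
        have e3 : ((Y - (P + i + 1 - P) : ℕ) : ℤ) = Y - (i + 1) := by omega
        have e4 : ((Y - (P + i - P) : ℕ) : ℤ) = Y - i := by omega
        rw [e1, e2, e3, e4]
        push_cast
        linarith) (by
      show - C + b * (min 0 P : ℕ) - (b + 1) * (Y - (0 - P) : ℕ) + (o - L) ≤
        - C + b * (min (P + Y) P : ℕ) - (b + 1) * (Y - (P + Y - P) : ℕ)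
      have e1 : min 0 P = 0 := by omega
      have e2 : min (P + Y) P = P := by omega
      have e3 : Y - (0 - P) = Y := by omega
      have e4 : Y - (P + Y - P) = 0 := by omega
      rw [e1, e2, e3, e4]
      have h1 : b * (m + 2) ≤ b * (P + Y) := Nat.mul_le_mul_left b htrav
      have h2 : ((b * (m + 2) : ℕ) : ℤ) ≤ ((b * (P + Y) : ℕ) : ℤ) := by exact_mod_cast h1
      have h3 : (o : ℤ) = b * m + (L + 1 + b + Y) := by rw [ho, hL]; push_cast; ring
      have h4 : (1 : ℤ) ≤ b := by exact_mod_cast hb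
      push_cast at h2 ⊢
      rw [h3]
      linarith) (by omega)
  set x : ℕ := min j P with hx
  set y₂ : ℕ := j - P with hy₂
  have hy₂Y : y₂ ≤ Y := by omega
  obtain ⟨y₁, hy₁⟩ : ∃ y₁, Y = y₁ + y₂ := ⟨Y - y₂, by omega⟩
  obtain ⟨x₀, hx₀⟩ : ∃ x₀, P = x₀ + x := ⟨P - x, by omega⟩
  have hfj : f j = - C + b * x - (b + 1) * y₁ := by
    show - C + b * (min j P : ℕ) - (b + 1) * (Y - (j - P) : ℕ) = _
    have e1 : Y - (j - P) = y₁ := by omega
    rw [e1, ← hx]
  rw [hfj] at hk₁ hk₂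
  -- the sets
  have hcle : ∀ i : ℤ, cnt (m * s) b x₀ x y₁ y₂ i ≤ #(F (i : ZMod o)) := fun i => by
    rw [hF]; exact cnt_le (by omega) (by omega) i
  choose S hSF hScard using fun i : ℤ => Finset.exists_subset_card_eq (hcle i)
  have hxh : x₀ + x ≤ m * s := by omega
  have hs1 := sum_cnt (h := m * s) (b := b) (x₀ := x₀) (x := x) (y₁ := y₁) (y₂ := y₂) hb hxh
  have hs2 := sum_mul_cnt (h := m * s) (b := b) (x₀ := x₀) (x := x) (y₁ := y₁) (y₂ := y₂) hb hxh
  rw [← hC] at hs2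
  have htm : (t * m : ℕ) = b * (m * s) + ρ * m := by rw [ht]; ring
  have hcard : ∑ i ∈ Icc (-1 : ℤ) (b + 1), #(S i) = t * m + (m + 1) := by
    have h1 : (∑ i ∈ Icc (-1 : ℤ) (b + 1), (#(S i) : ℤ)) = ((t * m + (m + 1) : ℕ) : ℤ) := by
      rw [sum_congr rfl (fun i _ => by rw [hScard i]), hs1]
      have h2 : ((P + ρ * m + m + 1 : ℕ) : ℤ) = ((m * s + Y : ℕ) : ℤ) := by exact_mod_cast hP
      rw [htm]
      push_cast at h2 ⊢
      have h3 : (P : ℤ) = x₀ + x := by exact_mod_cast hx₀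
      have h4 : (Y : ℤ) = y₁ + y₂ := by exact_mod_cast hy₁
      linarith
    exact_mod_cast h1
  have hmul : ∑ i ∈ Icc (-1 : ℤ) (b + 1), i * (#(S i) : ℤ) = C - b * x + (b + 1) * y₁ - y₂ := by
    rw [sum_congr rfl (fun i _ => by rw [hScard i]), hs2]
  have h4 : (Y : ℤ) = y₁ + y₂ := by exact_mod_cast hy₁
  have h3 : (o : ℤ) = b * m + (L + 1 + b + Y) := by rw [ho, hL]; push_cast; ring
  have hav := avoid (o := o) φ (b := b) S
    (fun i x hx => hFφ _ x (hSF i hx)) (by omega) (y₁ := y₁) (y₂ := y₂) (c := m + 1)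
    (n := t * m) (by rw [hScard]; exact cnt_top.le) (by rw [hScard]; exact cnt_bot.le) (k := k)
    hcard (by rw [hmul]; linarith) (by
      rw [hmul]
      have h5 : (k + 1) * (o : ℤ) = k * o + o := by ring
      rw [h5]
      nth_rewrite 2 [h3]
      push_cast
      linarith)
  refine ⟨_, ?_, hav.2⟩
  rw [hav.1]; ring

theorem low3 {m t s : ℕ} (ht : 2 ≤ t) (hm : 100 * t ^ 2 ≤ m) (hs : s ∣ t * m) (h3 : 3 ≤ s)
    (hst : s < t) (hnd : ¬ s ∣ t) :
    ∃ A : Finset (ZMod m × ZMod (t * m)), #A = (t + 1) * m + 1 ∧ ¬ Hit A (t * m) 0 := by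
  obtain ⟨o, ho⟩ := hs
  obtain ⟨b, ρ, hbρ, hρs⟩ : ∃ b ρ, t = b * s + ρ ∧ ρ < s :=
    ⟨t / s, t % s, by rw [mul_comm, Nat.div_add_mod], Nat.mod_lt _ (by omega)⟩
  have hρ : 1 ≤ ρ := by
    rcases Nat.eq_zero_or_pos ρ with h | h
    · exact absurd ⟨b, by rw [hbρ, h]; ring⟩ hnd
    · exact h
  have hb : 1 ≤ b := by
    rcases Nat.eq_zero_or_pos b with h | h
    · rw [h] at hbρ; omega
    · exact h
  have hmt : 100 * t ≤ m := by nlinarith
  have hm0 : 0 < m := by omega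
  -- `r`
  have hsr : s ∣ ρ * m := by
    have h1 : s ∣ t * m := ⟨o, ho⟩
    have h2 : t * m = s * (b * m) + ρ * m := by rw [hbρ]; ring
    rw [h2] at h1
    exact (Nat.dvd_add_right ⟨b * m, rfl⟩).1 h1
  obtain ⟨r, hr⟩ := hsr
  have hor : o = b * m + r := by
    have h1 : s * o = s * (b * m + r) := by
      rw [← ho, hbρ, mul_add, ← hr]; ring
    exact Nat.eq_of_mul_eq_mul_left (by omega) h1
  have hbt : b * s ≤ t := by omega
  have hb3 : 3 * b ≤ t := by nlinarith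
  by_cases hcase : ρ + 2 ≤ s
  · -- `Y = 2`
    obtain ⟨u, hu⟩ : ∃ u, s = ρ + 2 + u := ⟨s - (ρ + 2), by omega⟩
    have h1 : m * s = ρ * m + 2 * m + u * m := by rw [hu]; ring
    have hrbig : 2 + 2 * b + 2 ≤ r := by
      by_contra h
      push Not at h
      have h2 : s * r < t * (2 * t + 4) := by
        calc s * r ≤ t * r := Nat.mul_le_mul_right _ hst.le
          _ < t * (2 * t + 4) := Nat.mul_lt_mul_of_pos_left (by omega) (by omega)
      have h3 : m ≤ ρ * m := Nat.le_mul_of_pos_left m hρ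
      nlinarith
    exact low3_aux (o := o) (b := b) (ρ := ρ) (r := r) (P := m + u * m + 1) (Y := 2) hm0 hb hbρ
      (by rw [ho]; ring) hor (by rw [hr]; ring) (by rw [h1]; ring) (by rw [h1]; nlinarith)
      (by rw [h1]; nlinarith) hrbig (by nlinarith)
  · -- `ρ = s - 1`, `Y = (m + 4) / 2`
    have hs1 : s = ρ + 1 := by omega
    have h1 : m * s = ρ * m + m := by rw [hs1]; ring
    obtain ⟨Y, hY1, hY2⟩ : ∃ Y, m + 3 ≤ 2 * Y ∧ 2 * Y ≤ m + 4 :=
      ⟨(m + 4) / 2, by omega, by omega⟩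
    have hρm : m ≤ ρ * m := Nat.le_mul_of_pos_left m hρ
    have hrbig : 2 * m ≤ 3 * r := by
      by_contra h
      push Not at h
      have h2 : (ρ + 1) * r = ρ * m := by rw [← hs1, ← hr]
      nlinarith
    exact low3_aux (o := o) (b := b) (ρ := ρ) (r := r) (P := Y - 1) (Y := Y) hm0 hb hbρ
      (by rw [ho]; ring) hor (by rw [hr]; ring) (by rw [h1]; omega) (by rw [h1]; omega)
      (by rw [h1]; omega) (by omega) (by omega)

end Pool.Agent.Lib.MPa7239a.RK
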