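import Pool.Agent.Lib.MP_a7239a_co.RK.Defs

/-!
# Theorem R, lower bound for a divisor `s` of `t * m` which does not divide `t`: the obstruction

`S i` is a set of elements with image `i` in `ZMod o`, `- 1 ≤ i ≤ b + 1`, with at most `y₂` elements
for `i = - 1` and at most `y₁` for `i = b + 1`. The sums of `n` elements of the union are, modulo
`o`, in an interval without multiples of `o`.
-/

open Finset

namespace Pool.Agent.Lib.MPa7239a.RK

open Pool.Agent.Lib.MPa7239a.GC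

theorem intCast_inj_of_lt {o : ℕ} {i j : ℤ} (h : (i : ZMod o) = (j : ZMod o))
    (h₁ : j - i < o) (h₂ : i - j < o) : i = j := by
  have h3 := (ZMod.intCast_eq_intCast_iff_dvd_sub i j o).1 h
  obtain ⟨k, hk⟩ := h3
  have h4 : k = 0 := by
    rcases lt_trichotomy k 0 with h5 | h5 | h5
    · nlinarith [(by positivity : (0 : ℤ) ≤ o)]
    · exact h5
    · nlinarith [(by positivity : (0 : ℤ) ≤ o)]
  rw [h4, mul_zero] at hk
  omega

theorem avoid {G : Type*} [AddCommGroup G] [DecidableEq G] {o : ℕ} (φ : G →+ ZMod o) {b : ℕ}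
    (S : ℤ → Finset G) (hS : ∀ i, ∀ x ∈ S i, φ x = (i : ZMod o)) (hbo : b + 3 ≤ o)
    {y₁ y₂ c n : ℕ} (h₁ : #(S (b + 1)) ≤ y₁) (h₂ : #(S (-1)) ≤ y₂) {k : ℤ}
    (hc : ∑ i ∈ Icc (-1 : ℤ) (b + 1), #(S i) = n + c)
    (hk₁ : k * o + 1 ≤ - (∑ i ∈ Icc (-1 : ℤ) (b + 1), i * #(S i) + y₂))
    (hk₂ : - (∑ i ∈ Icc (-1 : ℤ) (b + 1), i * #(S i) + y₂) + (b * c + y₁ + y₂) + 1
      ≤ (k + 1) * o) :
    #((Icc (-1 : ℤ) (b + 1)).biUnion S) = n + c ∧
      ¬ Hit ((Icc (-1 : ℤ) (b + 1)).biUnion S) n 0 := by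
  have hdisj : ∀ i ∈ Icc (-1 : ℤ) (b + 1), ∀ j ∈ Icc (-1 : ℤ) (b + 1), i ≠ j →
      Disjoint (S i) (S j) := by
    intro i hi j hj hij
    rw [Finset.disjoint_left]
    intro x hx hx'
    have h3 : (i : ZMod o) = (j : ZMod o) := by rw [← hS i x hx, hS j x hx']
    have hi' := Finset.mem_Icc.1 hi
    have hj' := Finset.mem_Icc.1 hj
    exact hij (intCast_inj_of_lt h3 (by omega) (by omega))
  refine ⟨by rw [card_biUnion hdisj, hc], ?_⟩
  rintro ⟨T, hT, hTn, hT0⟩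
  have hTu : T = (Icc (-1 : ℤ) (b + 1)).biUnion (fun i => T ∩ S i) := by
    ext x
    simp only [mem_biUnion, mem_inter]
    constructor
    · intro hx
      obtain ⟨i, hi, hxi⟩ := Finset.mem_biUnion.1 (hT hx)
      exact ⟨i, hi, hx, hxi⟩
    · rintro ⟨i, _, hx, _⟩; exact hx
  have hdT : ∀ i ∈ Icc (-1 : ℤ) (b + 1), ∀ j ∈ Icc (-1 : ℤ) (b + 1), i ≠ j →
      Disjoint (T ∩ S i) (T ∩ S j) := fun i hi j hj hij =>
    Disjoint.mono inter_subset_right inter_subset_right (hdisj i hi j hj hij)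
  have hcT : ∑ i ∈ Icc (-1 : ℤ) (b + 1), #(T ∩ S i) = n := by
    rw [← card_biUnion hdT, ← hTu, hTn]
  have hsum : ((∑ i ∈ Icc (-1 : ℤ) (b + 1), i * #(T ∩ S i) : ℤ) : ZMod o) = 0 := by
    have h3 : φ (∑ x ∈ T, x) = 0 := by rw [hT0, map_zero]
    rw [map_sum, hTu, sum_biUnion hdT] at h3
    rw [← h3]
    push_cast
    refine sum_congr rfl fun i _ => ?_
    rw [sum_congr rfl (fun x hx => hS i x (mem_inter.1 hx).2), sum_const, nsmul_eq_mul,
      mul_comm]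
  obtain ⟨q, hq⟩ := (ZMod.intCast_zmod_eq_zero_iff_dvd _ o).1 hsum
  -- the differences
  have hle : ∀ i, #(T ∩ S i) ≤ #(S i) := fun i => card_le_card inter_subset_right
  have hd : ∑ i ∈ Icc (-1 : ℤ) (b + 1), ((#(S i) : ℤ) - #(T ∩ S i)) = c := by
    rw [sum_sub_distrib]
    have h3 : (∑ i ∈ Icc (-1 : ℤ) (b + 1), (#(S i) : ℤ)) = n + c := by exact_mod_cast hc
    have h4 : (∑ i ∈ Icc (-1 : ℤ) (b + 1), (#(T ∩ S i) : ℤ)) = n := by exact_mod_cast hcT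
    rw [h3, h4]; ring
  have hl : - (y₂ : ℤ) ≤ ∑ i ∈ Icc (-1 : ℤ) (b + 1), i * ((#(S i) : ℤ) - #(T ∩ S i)) := by
    have h3 : ∑ i ∈ Icc (-1 : ℤ) (b + 1), (if i = -1 then - (y₂ : ℤ) else 0) = - (y₂ : ℤ) := by
      rw [Finset.sum_ite_eq' (Icc (-1 : ℤ) (b + 1)) (-1) (fun _ => - (y₂ : ℤ)), if_pos]
      exact Finset.mem_Icc.2 ⟨le_rfl, by omega⟩
    rw [← h3]
    refine sum_le_sum fun i hi => ?_
    have hi' := Finset.mem_Icc.1 hi
    have h4 : (0 : ℤ) ≤ (#(S i) : ℤ) - #(T ∩ S i) := by have := hle i; omega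
    split_ifs with h5
    · subst h5
      have h6 : (#(S (-1)) : ℤ) ≤ y₂ := by exact_mod_cast h₂
      have h7 : (0 : ℤ) ≤ #(T ∩ S (-1)) := Int.natCast_nonneg _
      linarith
    · exact mul_nonneg (by omega) h4
  have hu : ∑ i ∈ Icc (-1 : ℤ) (b + 1), i * ((#(S i) : ℤ) - #(T ∩ S i)) ≤ b * c + y₁ := by
    have h3 : ∑ i ∈ Icc (-1 : ℤ) (b + 1), (if i = b + 1 then (y₁ : ℤ) else 0) = (y₁ : ℤ) := by
      rw [Finset.sum_ite_eq' (Icc (-1 : ℤ) (b + 1)) (b + 1 : ℤ) (fun _ => (y₁ : ℤ)), if_pos]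
      exact Finset.mem_Icc.2 ⟨by omega, le_rfl⟩
    rw [← h3, ← hd, mul_sum, ← sum_add_distrib]
    refine sum_le_sum fun i hi => ?_
    have hi' := Finset.mem_Icc.1 hi
    have h4 : (0 : ℤ) ≤ (#(S i) : ℤ) - #(T ∩ S i) := by have := hle i; omega
    split_ifs with h5
    · subst h5
      have h6 : (#(S (b + 1)) : ℤ) ≤ y₁ := by exact_mod_cast h₁
      have h7 : (0 : ℤ) ≤ #(T ∩ S (b + 1)) := Int.natCast_nonneg _
      nlinarith
    · have h6 : i ≤ b := by omega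
      rw [add_zero]
      exact mul_le_mul_of_nonneg_right h6 h4
  have hsplit : ∑ i ∈ Icc (-1 : ℤ) (b + 1), i * ((#(S i) : ℤ) - #(T ∩ S i)) =
      ∑ i ∈ Icc (-1 : ℤ) (b + 1), i * #(S i) - ∑ i ∈ Icc (-1 : ℤ) (b + 1), i * #(T ∩ S i) := by
    rw [← sum_sub_distrib]
    exact sum_congr rfl fun i _ => by ring
  rw [hsplit, hq] at hl hu
  have ho : (0 : ℤ) < o := by have : 0 < o := by omega
                              exact_mod_cast this
  have h5 : k * o < o * (-q) := by linarith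
  have h6 : o * (-q) < (k + 1) * o := by linarith
  have h7 : k < -q := by
    by_contra h8
    push Not at h8
    nlinarith
  have h8 : -q < k + 1 := by
    by_contra h8
    push Not at h8
    nlinarith
  omega

/-- discrete intermediate values modulo `o` -/
theorem exists_step {o L g J : ℕ} {f : ℕ → ℤ} (ho : 0 < o) (hL : L ≤ o) (hg : g ≤ L)
    (hstep : ∀ j < J, f (j + 1) ≤ f j + g) (hJ : f 0 + (o - L) ≤ f J) (hL1 : 1 ≤ L) :
    ∃ j ≤ J, ∃ k : ℤ, k * o + 1 ≤ f j ∧ f j ≤ k * o + L := by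
  classical
  -- `k` = least with `f 0 ≤ k o + L`
  set k : ℤ := - ((L - f 0) / o) with hk
  have ho' : (0 : ℤ) < o := by exact_mod_cast ho
  have h1 := Int.emod_add_mul_ediv ((L : ℤ) - f 0) o
  have h2 := Int.emod_nonneg ((L : ℤ) - f 0) (ne_of_gt ho')
  have h3 := Int.emod_lt_of_pos ((L : ℤ) - f 0) ho'
  have hko : k * o = - (o * (((L : ℤ) - f 0) / o)) := by rw [hk]; ring
  have h4 : f 0 ≤ k * o + L := by linarith
  have h5 : k * o + L < f 0 + o := by linarith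
  by_cases h0 : k * o + 1 ≤ f 0
  · exact ⟨0, Nat.zero_le _, k, h0, h4⟩
  push Not at h0
  have hex : ∃ j, j ≤ J ∧ k * o + 1 ≤ f j := ⟨J, le_rfl, by linarith⟩
  obtain ⟨hjJ, hj⟩ := Nat.find_spec hex
  set j := Nat.find hex with hjdef
  have hj0 : j ≠ 0 := by
    intro h6
    rw [h6] at hj
    linarith
  obtain ⟨i, hi⟩ := Nat.exists_eq_succ_of_ne_zero hj0
  have h6 : ¬ (i ≤ J ∧ k * o + 1 ≤ f i) := Nat.find_min hex (by rw [← hjdef, hi]; omega)
  have h7 : f i ≤ k * o := by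
    by_contra h8
    push Not at h8
    exact h6 ⟨by omega, by linarith⟩
  refine ⟨j, hjJ, k, hj, ?_⟩
  have h8 := hstep i (by omega)
  have h9 : (g : ℤ) ≤ L := by exact_mod_cast hg
  rw [hi]
  show f (i + 1) ≤ _
  linarith

end Pool.Agent.Lib.MPa7239a.RK
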