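import Pool.Agent.Lib.MP_a7239a_co.RK.LOW3
import Pool.Agent.Lib.MP_a7239a_co.RK.CST

/-!
# Theorem R: the lower bound with an explicit formula, for a divisor `s` of `t * m` which does not
divide `t`
-/

open Finset

namespace Pool.Agent.Lib.MPa7239a.RK

open Pool.Agent.Lib.MPa7239a.GC

/-- the sums of `n` elements avoid the kernel of `φ` -/
theorem avoid_phi {G : Type*} [AddCommGroup G] [DecidableEq G] {o : ℕ} (φ : G →+ ZMod o) {b : ℕ}
    (S : ℤ → Finset G) (hS : ∀ i, ∀ x ∈ S i, φ x = (i : ZMod o)) (hbo : b + 3 ≤ o)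
    {y₁ y₂ c n : ℕ} (h₁ : #(S (b + 1)) ≤ y₁) (h₂ : #(S (-1)) ≤ y₂) {k : ℤ}
    (hc : ∑ i ∈ Icc (-1 : ℤ) (b + 1), #(S i) = n + c)
    (hk₁ : k * o + 1 ≤ - (∑ i ∈ Icc (-1 : ℤ) (b + 1), i * #(S i) + y₂))
    (hk₂ : - (∑ i ∈ Icc (-1 : ℤ) (b + 1), i * #(S i) + y₂) + (b * c + y₁ + y₂) + 1
      ≤ (k + 1) * o) :
    #((Icc (-1 : ℤ) (b + 1)).biUnion S) = n + c ∧
      ∀ T ⊆ (Icc (-1 : ℤ) (b + 1)).biUnion S, #T = n → φ (∑ x ∈ T, x) ≠ 0 := by
  have hdisj : ∀ i ∈ Icc (-1 : ℤ) (b + 1), ∀ j ∈ Icc (-1 : ℤ) (b + 1), i ≠ j →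
      Disjoint (S i) (S j) := by
    intro i hi j hj hij
    rw [Finset.disjoint_left]
    intro x hx hx'
    have h3 : (i : ZMod o) = (j : ZMod o) := by rw [← hS i x hx, hS j x hx']
    have hi' := Finset.mem_Icc.1 hi
    have hj' := Finset.mem_Icc.1 hj
    exact hij (intCast_inj_of_lt h3 (by omega) (by omega))
  refine ⟨by rw [card_biUnion hdisj, hc], ?_⟩
  intro T hT hTn hT0
  have hTu : T = (Icc (-1 : ℤ) (b + 1)).biUnion (fun i => T ∩ S i) := by
    ext x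
    simp only [mem_biUnion, mem_inter]
    constructor
    · intro hx
      obtain ⟨i, hi, hxi⟩ := Finset.mem_biUnion.1 (hT hx)
      exact ⟨i, hi, hx, hxi⟩
    · rintro ⟨i, _, hx, _⟩; exact hx
  have hdT : ∀ i ∈ Icc (-1 : ℤ) (b + 1), ∀ j ∈ Icc (-1 : ℤ) (b + 1), i ≠ j →
      Disjoint (T ∩ S i) (T ∩ S j) := fun i hi j hj hij =>
    Disjoint.mono inter_subset_right inter_subset_right (hdisj i hi j hj hij)
  have hcT : ∑ i ∈ Icc (-1 : ℤ) (b + 1), #(T ∩ S i) = n := by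
    rw [← card_biUnion hdT, ← hTu, hTn]
  have hsum : ((∑ i ∈ Icc (-1 : ℤ) (b + 1), i * #(T ∩ S i) : ℤ) : ZMod o) = 0 := by
    have h3 := hT0
    rw [map_sum, hTu, sum_biUnion hdT] at h3
    rw [← h3]
    push_cast
    refine sum_congr rfl fun i _ => ?_
    rw [sum_congr rfl (fun x hx => hS i x (mem_inter.1 hx).2), sum_const, nsmul_eq_mul,
      mul_comm]
  obtain ⟨q, hq⟩ := (ZMod.intCast_zmod_eq_zero_iff_dvd _ o).1 hsum
  -- the differences
  have hle : ∀ i, #(T ∩ S i) ≤ #(S i) := fun i => card_le_card inter_subset_right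
  have hd : ∑ i ∈ Icc (-1 : ℤ) (b + 1), ((#(S i) : ℤ) - #(T ∩ S i)) = c := by
    rw [sum_sub_distrib]
    have h3 : (∑ i ∈ Icc (-1 : ℤ) (b + 1), (#(S i) : ℤ)) = n + c := by exact_mod_cast hc
    have h4 : (∑ i ∈ Icc (-1 : ℤ) (b + 1), (#(T ∩ S i) : ℤ)) = n := by exact_mod_cast hcT
    rw [h3, h4]; ring
  have hl : - (y₂ : ℤ) ≤ ∑ i ∈ Icc (-1 : ℤ) (b + 1), i * ((#(S i) : ℤ) - #(T ∩ S i)) := by
    have h3 : ∑ i ∈ Icc (-1 : ℤ) (b + 1), (if i = -1 then - (y₂ : ℤ) else 0) = - (y₂ : ℤ) := by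
      rw [Finset.sum_ite_eq' (Icc (-1 : ℤ) (b + 1)) (-1) (fun _ => - (y₂ : ℤ)), if_pos]
      exact Finset.mem_Icc.2 ⟨le_rfl, by omega⟩
    rw [← h3]
    refine sum_le_sum fun i hi => ?_
    have hi' := Finset.mem_Icc.1 hi
    have h4 : (0 : ℤ) ≤ (#(S i) : ℤ) - #(T ∩ S i) := by have := hle i; omega
    split_ifs with h5
    · subst h5
      have h6 : (#(S (-1)) : ℤ) ≤ y₂ := by exact_mod_cast h₂
      have h7 : (0 : ℤ) ≤ #(T ∩ S (-1)) := Int.natCast_nonneg _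
      linarith
    · exact mul_nonneg (by omega) h4
  have hu : ∑ i ∈ Icc (-1 : ℤ) (b + 1), i * ((#(S i) : ℤ) - #(T ∩ S i)) ≤ b * c + y₁ := by
    have h3 : ∑ i ∈ Icc (-1 : ℤ) (b + 1), (if i = b + 1 then (y₁ : ℤ) else 0) = (y₁ : ℤ) := by
      rw [Finset.sum_ite_eq' (Icc (-1 : ℤ) (b + 1)) (b + 1 : ℤ) (fun _ => (y₁ : ℤ)), if_pos]
      exact Finset.mem_Icc.2 ⟨by omega, le_rfl⟩
    rw [← h3, ← hd, mul_sum, ← sum_add_distrib]
    refine sum_le_sum fun i hi => ?_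
    have hi' := Finset.mem_Icc.1 hi
    have h4 : (0 : ℤ) ≤ (#(S i) : ℤ) - #(T ∩ S i) := by have := hle i; omega
    split_ifs with h5
    · subst h5
      have h6 : (#(S (b + 1)) : ℤ) ≤ y₁ := by exact_mod_cast h₁
      have h7 : (0 : ℤ) ≤ #(T ∩ S (b + 1)) := Int.natCast_nonneg _
      nlinarith
    · have h6 : i ≤ b := by omega
      rw [add_zero]
      exact mul_le_mul_of_nonneg_right h6 h4
  have hsplit : ∑ i ∈ Icc (-1 : ℤ) (b + 1), i * ((#(S i) : ℤ) - #(T ∩ S i)) =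
      ∑ i ∈ Icc (-1 : ℤ) (b + 1), i * #(S i) - ∑ i ∈ Icc (-1 : ℤ) (b + 1), i * #(T ∩ S i) := by
    rw [← sum_sub_distrib]
    exact sum_congr rfl fun i _ => by ring
  rw [hsplit, hq] at hl hu
  have ho : (0 : ℤ) < o := by
    have : 0 < o := by omega
    exact_mod_cast this
  have h5 : k * o < o * (-q) := by linarith
  have h6 : o * (-q) < (k + 1) * o := by linarith
  have h7 : k < -q := by
    by_contra h8
    push Not at h8
    nlinarith
  have h8 : -q < k + 1 := by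
    by_contra h8
    push Not at h8
    nlinarith
  omega

/-- the sum of the classes of the full rows -/
noncomputable def cen (b h : ℕ) : ℤ :=
  ∑ i ∈ Icc (-1 : ℤ) (b + 1), i * (if 0 ≤ i ∧ i ≤ b then (h : ℤ) else 0)

theorem two_cen (b h : ℕ) : 2 * cen b h = b * (b + 1) * h := by
  have h0 : ∑ i ∈ Icc (-1 : ℤ) (b + 1), (if 0 ≤ i ∧ i ≤ (b : ℤ) then (h : ℤ) else 0) =
      (b + 1) * h := by
    rw [← Finset.sum_filter]
    have : (Icc (-1 : ℤ) (b + 1)).filter (fun i : ℤ => 0 ≤ i ∧ i ≤ (b : ℤ)) =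
        Icc (0 : ℤ) (b : ℤ) := by
      ext i; simp only [mem_filter, mem_Icc]; omega
    rw [this, sum_const, Int.card_Icc, nsmul_eq_mul]
    have : ((b : ℤ) + 1 - 0).toNat = b + 1 := by omega
    rw [this]; push_cast; ring
  have h1 : cen b h = ∑ i ∈ Icc (-1 : ℤ) (b + 1),
      ((b : ℤ) - i) * (if 0 ≤ i ∧ i ≤ (b : ℤ) then (h : ℤ) else 0) := by
    unfold cen
    refine Finset.sum_nbij' (fun i => (b : ℤ) - i) (fun i => (b : ℤ) - i) ?_ ?_ ?_ ?_ ?_
    · intro i hi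
      rw [mem_Icc] at hi ⊢
      omega
    · intro i hi
      rw [mem_Icc] at hi ⊢
      omega
    · intro i _
      ring
    · intro i _
      ring
    · intro i _
      have e1 : (b : ℤ) - (b - i) = i := by ring
      rw [e1]
      congr 1
      have e2 : (0 ≤ (b : ℤ) - i ∧ (b : ℤ) - i ≤ b) ↔ (0 ≤ i ∧ i ≤ (b : ℤ)) := by
        constructor <;> intro h <;> omega
      simp only [e2]
  have h2 : cen b h + cen b h = ∑ i ∈ Icc (-1 : ℤ) (b + 1),
      (b : ℤ) * (if 0 ≤ i ∧ i ≤ (b : ℤ) then (h : ℤ) else 0) := by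
    conv_lhs => rw [h1]
    conv_lhs =>
      arg 2
      rw [← h1]
    unfold cen
    rw [← sum_add_distrib]
    exact sum_congr rfl fun i _ => by ring
  rw [two_mul, h2, ← mul_sum, h0]
  ring

/-- the set with given numbers of elements in the rows -/
theorem build {m t s o b ρ c x₀ x y₁ y₂ : ℕ} (hm : 0 < m) (hb : 1 ≤ b) (hs : 0 < s)
    (ht : t = b * s + ρ) (hos : o * s = t * m) (hcard : x₀ + x + ρ * m + c = m * s + (y₁ + y₂))
    (hxh : x₀ + x ≤ m * s) (hy₁ : y₁ ≤ m * s) (hy₂ : y₂ ≤ m * s) (hbo : b + 3 ≤ o) {k : ℤ}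
    (hk₁ : k * o + 1 ≤ - cen b (m * s) + b * x - (b + 1) * y₁)
    (hk₂ : - cen b (m * s) + b * x - (b + 1) * y₁ + (b * c + (y₁ + y₂)) + 1 ≤ (k + 1) * o) :
    ∃ A : Finset (ZMod m × ZMod (t * m)), #A = t * m + c ∧ CycFree A (t * m) := by
  classical
  have ht0 : 0 < t := by
    rw [ht]
    have := Nat.mul_pos (Nat.lt_of_lt_of_le Nat.zero_lt_one hb) hs
    omega
  obtain ⟨φ, hφ⟩ := exists_fibres hm ht0 hos
  choose F hF hFφ using hφ
  have hcle : ∀ i : ℤ, cnt (m * s) b x₀ x y₁ y₂ i ≤ #(F (i : ZMod o)) := fun i => by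
    rw [hF]; exact cnt_le hy₁ hy₂ i
  choose S hSF hScard using fun i : ℤ => Finset.exists_subset_card_eq (hcle i)
  have hs1 := sum_cnt (h := m * s) (b := b) (x₀ := x₀) (x := x) (y₁ := y₁) (y₂ := y₂) hb hxh
  have hs2 := sum_mul_cnt (h := m * s) (b := b) (x₀ := x₀) (x := x) (y₁ := y₁) (y₂ := y₂) hb hxh
  have hC : (∑ i ∈ Icc (-1 : ℤ) (b + 1), i * (if 0 ≤ i ∧ i ≤ b then ((m * s : ℕ) : ℤ) else 0)) =
    cen b (m * s) := rfl
  rw [hC] at hs2
  have htm : (t * m : ℕ) = b * (m * s) + ρ * m := by rw [ht]; ring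
  have hcard' : ∑ i ∈ Icc (-1 : ℤ) (b + 1), #(S i) = t * m + c := by
    have h1 : (∑ i ∈ Icc (-1 : ℤ) (b + 1), (#(S i) : ℤ)) = ((t * m + c : ℕ) : ℤ) := by
      rw [sum_congr rfl (fun i _ => by rw [hScard i]), hs1]
      have h2 : ((x₀ + x + ρ * m + c : ℕ) : ℤ) = ((m * s + (y₁ + y₂) : ℕ) : ℤ) := by
        exact_mod_cast hcard
      rw [htm]
      push_cast at h2 ⊢
      linarith
    exact_mod_cast h1
  have hmul : ∑ i ∈ Icc (-1 : ℤ) (b + 1), i * (#(S i) : ℤ) =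
      cen b (m * s) - b * x + (b + 1) * y₁ - y₂ := by
    rw [sum_congr rfl (fun i _ => by rw [hScard i]), hs2]
  have hav := avoid_phi (o := o) φ (b := b) S
    (fun i x hx => hFφ _ x (hSF i hx)) hbo (y₁ := y₁) (y₂ := y₂) (c := c)
    (n := t * m) (by rw [hScard]; exact cnt_top.le) (by rw [hScard]; exact cnt_bot.le) (k := k)
    hcard' (by rw [hmul]; linarith) (by rw [hmul]; linarith)
  refine ⟨_, hav.1, o, φ, by omega, ?_, hav.2⟩
  intro z
  have h1 : 0 < #(F z) := by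
    rw [hF]
    exact Nat.mul_pos hm hs
  obtain ⟨x, hx⟩ := card_pos.1 h1
  exact ⟨x, hFφ z x hx⟩

/-- the first value that is not below the window lies in it -/
theorem exists_in {f : ℕ → ℤ} {lo hi g : ℤ} {J : ℕ} (hstep : ∀ j < J, f (j + 1) ≤ f j + g)
    (h0 : f 0 ≤ hi) (hJ : lo ≤ f J) (hg : lo + g ≤ hi + 1) : ∃ j ≤ J, lo ≤ f j ∧ f j ≤ hi := by
  classical
  have hex : ∃ j, lo ≤ f j := ⟨J, hJ⟩
  have hle : Nat.find hex ≤ J := Nat.find_min' hex hJ
  refine ⟨Nat.find hex, hle, Nat.find_spec hex, ?_⟩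
  rcases Nat.eq_zero_or_pos (Nat.find hex) with h | h
  · rw [h]
    exact h0
  · obtain ⟨i, hi'⟩ : ∃ i, Nat.find hex = i + 1 := ⟨Nat.find hex - 1, by omega⟩
    have h1 : ¬ lo ≤ f i := Nat.find_min hex (by omega)
    have h2 := hstep i (by omega)
    rw [hi']
    linarith [not_le.1 h1]

/-- the conditions on the numbers -/
structure LowNum (m t s o b ρ e c : ℕ) : Prop where
  m0 : 0 < m
  b1 : 1 ≤ b
  s3 : 3 ≤ s
  ht : t = b * s + ρ
  hos : o * s = t * m
  hms : m * s = ρ * m + m * e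
  hbc : b * c + 2 * b ≤ o
  hc2 : c + 2 ≤ 2 * m
  hbo : b + 3 ≤ o

theorem LowNum.mid {m t s o b ρ e c : ℕ} (h : LowNum m t s o b ρ e c) :
    (b : ℤ) * (b + 1) * (m * s) = b * s * o + b * (m * e) := by
  have h1 : ((o * s : ℕ) : ℤ) = ((t * m : ℕ) : ℤ) := by exact_mod_cast h.hos
  have h2 : ((m * s : ℕ) : ℤ) = ((ρ * m + m * e : ℕ) : ℤ) := by exact_mod_cast h.hms
  rw [h.ht] at h1
  push_cast at h1 h2
  have h3 : (b : ℤ) * s * o = b * ((b * s + ρ) * m) := by rw [← h1]; ring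
  have h4 : (m : ℤ) * e = m * s - ρ * m := by linarith
  rw [h3, h4]
  ring

/-- `Y = 0` -/
theorem LowNum.case_zero {m t s o b ρ e c : ℕ} (h : LowNum m t s o b ρ e c) (hc : c ≤ m * e)
    {j : ℕ} (hj : j + c ≤ m * e) {k : ℤ} (hk₁ : k * o + 1 ≤ - cen b (m * s) + b * j)
    (hk₂ : - cen b (m * s) + b * j + b * c + 1 ≤ (k + 1) * o) :
    ∃ A : Finset (ZMod m × ZMod (t * m)), #A = t * m + c ∧ CycFree A (t * m) := by
  have hms := h.hms
  refine build (x₀ := m * e - c - j) (x := j) (y₁ := 0) (y₂ := 0) h.m0 h.b1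
    (by have := h.s3; omega) h.ht h.hos (by omega) (by omega) (Nat.zero_le _) (Nat.zero_le _)
    h.hbo (k := k) ?_ ?_
  · push_cast at hk₁ ⊢
    linarith
  · push_cast at hk₂ ⊢
    linarith

theorem LowNum.even_zero {m t s o b ρ e c : ℕ} (h : LowNum m t s o b ρ e c)
    (hc : 2 * c + 1 ≤ m * e) :
    ∃ A : Finset (ZMod m × ZMod (t * m)), #A = t * m + c ∧ CycFree A (t * m) := by
  have hbc := h.hbc
  have hb := h.b1
  obtain ⟨L, hL⟩ : ∃ L, o = L + 1 + b * c := ⟨o - (1 + b * c), by omega⟩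
  obtain ⟨j, hj, k, hk₁, hk₂⟩ := exists_step (o := o) (L := L) (g := b) (J := m * e - c)
    (f := fun j => - cen b (m * s) + b * (j : ℕ)) (by omega) (by omega) (by omega) (by
      intro j _
      show - cen b (m * s) + b * ((j + 1 : ℕ) : ℤ) ≤ - cen b (m * s) + b * (j : ℤ) + b
      push_cast
      linarith) (by
      show - cen b (m * s) + b * ((0 : ℕ) : ℤ) + (o - L) ≤ - cen b (m * s) + b * ((m * e - c : ℕ) : ℤ)
      obtain ⟨P, hP⟩ : ∃ P, m * e - c = c + 1 + P := ⟨m * e - c - (c + 1), by omega⟩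
      have h1 : (o : ℤ) = L + 1 + b * c := by exact_mod_cast hL
      have h2 : (1 : ℤ) ≤ b := by exact_mod_cast hb
      have h3 : (0 : ℤ) ≤ b * P := by positivity
      rw [hP, h1]
      push_cast
      nlinarith) (by omega)
  refine h.case_zero (by omega) (j := j) (by omega) (k := k) hk₁ ?_
  have h1 : (o : ℤ) = L + 1 + b * c := by exact_mod_cast hL
  have h5 : (k + 1) * (o : ℤ) = k * o + o := by ring
  rw [h5]
  nth_rewrite 2 [h1]
  linarith

theorem LowNum.even_pos {m t s o b ρ e c : ℕ} (h : LowNum m t s o b ρ e c)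
    (hc : m * e ≤ 2 * c) (hcap : 2 * (b * c) + 2 * c + 4 * b + 4 ≤ 2 * o + m * e) :
    ∃ A : Finset (ZMod m × ZMod (t * m)), #A = t * m + c ∧ CycFree A (t * m) := by
  have hbc := h.hbc
  have hb := h.b1
  have hms := h.hms
  have hc2 := h.hc2
  have hms3 : m * 3 ≤ m * s := Nat.mul_le_mul_left m h.s3
  obtain ⟨Y, hY1, hY2⟩ : ∃ Y, 2 * c + 1 ≤ m * e + 2 * Y ∧ m * e + 2 * Y ≤ 2 * c + 2 :=
    ⟨(2 * c + 2 - m * e) / 2, by omega, by omega⟩
  obtain ⟨P, hP⟩ : ∃ P, P + c = m * e + Y := ⟨m * e + Y - c, by omega⟩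
  obtain ⟨L, hL⟩ : ∃ L, o = L + 1 + b * c + Y := ⟨o - (1 + b * c + Y), by omega⟩
  obtain ⟨j, hj, k, hk₁, hk₂⟩ := exists_step (o := o) (L := L) (g := b + 1) (J := P + Y)
    (f := fun j => - cen b (m * s) + b * (min j P : ℕ) - (b + 1) * (Y - (j - P) : ℕ))
    (by omega) (by omega) (by omega) (by
      intro j hj
      show - cen b (m * s) + b * (min (j + 1) P : ℕ) - (b + 1) * (Y - (j + 1 - P) : ℕ) ≤
        - cen b (m * s) + b * (min j P : ℕ) - (b + 1) * (Y - (j - P) : ℕ) + ((b + 1 : ℕ) : ℤ)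
      rcases lt_or_ge j P with h | h
      · have e1 : min (j + 1) P = j + 1 := by omega
        have e2 : min j P = j := by omega
        have e3 : Y - (j + 1 - P) = Y := by omega
        have e4 : Y - (j - P) = Y := by omega
        rw [e1, e2, e3, e4]
        push_cast
        linarith
      · have e1 : min (j + 1) P = P := by omega
        have e2 : min j P = P := by omega
        obtain ⟨i, rfl⟩ : ∃ i, j = P + i := ⟨j - P, by omega⟩
        have e3 : ((Y - (P + i + 1 - P) : ℕ) : ℤ) = Y - (i + 1) := by omega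
        have e4 : ((Y - (P + i - P) : ℕ) : ℤ) = Y - i := by omega
        rw [e1, e2, e3, e4]
        push_cast
        linarith) (by
      show - cen b (m * s) + b * (min 0 P : ℕ) - (b + 1) * (Y - (0 - P) : ℕ) + (o - L) ≤
        - cen b (m * s) + b * (min (P + Y) P : ℕ) - (b + 1) * (Y - (P + Y - P) : ℕ)
      have e1 : min 0 P = 0 := by omega
      have e2 : min (P + Y) P = P := by omega
      have e3 : Y - (0 - P) = Y := by omega
      have e4 : Y - (P + Y - P) = 0 := by omega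
      rw [e1, e2, e3, e4]
      have h1 : b * (c + 1) ≤ b * (P + Y) := Nat.mul_le_mul_left b (by omega)
      have h2 : ((b * (c + 1) : ℕ) : ℤ) ≤ ((b * (P + Y) : ℕ) : ℤ) := by exact_mod_cast h1
      have h3 : (o : ℤ) = L + 1 + b * c + Y := by exact_mod_cast hL
      have h4 : (1 : ℤ) ≤ b := by exact_mod_cast hb
      push_cast at h2 ⊢
      rw [h3]
      linarith) (by omega)
  set x : ℕ := min j P with hx
  set y₂ : ℕ := j - P with hy₂
  obtain ⟨y₁, hy₁⟩ : ∃ y₁, Y = y₁ + y₂ := ⟨Y - y₂, by omega⟩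
  obtain ⟨x₀, hx₀⟩ : ∃ x₀, P = x₀ + x := ⟨P - x, by omega⟩
  have e5 : Y - y₂ = y₁ := by omega
  rw [e5] at hk₁ hk₂
  have h3 : (o : ℤ) = L + 1 + b * c + Y := by exact_mod_cast hL
  have h4 : (Y : ℤ) = y₁ + y₂ := by exact_mod_cast hy₁
  refine build (x₀ := x₀) (x := x) (y₁ := y₁) (y₂ := y₂) h.m0 hb
    (by have := h.s3; omega) h.ht h.hos (by omega) (by omega) (by omega) (by omega)
    h.hbo (k := k) hk₁ ?_
  have h5 : (k + 1) * (o : ℤ) = k * o + o := by ring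
  rw [h5]
  nth_rewrite 2 [h3]
  linarith

theorem LowNum.odd_zero {m t s o b ρ e c q : ℕ} (h : LowNum m t s o b ρ e c)
    (hq : b * s = 2 * q + 1) (hc : c ≤ m * e) :
    ∃ A : Finset (ZMod m × ZMod (t * m)), #A = t * m + c ∧ CycFree A (t * m) := by
  have hbc := h.hbc
  have hb := h.b1
  have hmid := h.mid
  have hcen := two_cen b (m * s)
  push_cast at hcen
  rw [hmid] at hcen
  have hq' : (b : ℤ) * s = 2 * q + 1 := by exact_mod_cast hq
  rw [hq'] at hcen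
  have hbc' : (b : ℤ) * c + 2 * b ≤ o := by exact_mod_cast hbc
  have hb' : (1 : ℤ) ≤ b := by exact_mod_cast hb
  have hc' : (b : ℤ) * c ≤ b * (m * e) := by
    have : b * c ≤ b * (m * e) := Nat.mul_le_mul_left b hc
    exact_mod_cast this
  obtain ⟨j, hj, hj₁, hj₂⟩ := exists_in (f := fun j => - cen b (m * s) + b * (j : ℕ))
    (lo := -((q : ℤ) + 1) * o + 1) (hi := -((q : ℤ) + 1) * o + (o - 1 - b * c)) (g := b)
    (J := m * e - c) (by
      intro j _
      show - cen b (m * s) + b * ((j + 1 : ℕ) : ℤ) ≤ - cen b (m * s) + b * (j : ℤ) + b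
      push_cast
      linarith) (by
      show - cen b (m * s) + b * ((0 : ℕ) : ℤ) ≤ _
      push_cast
      linarith) (by
      show _ ≤ - cen b (m * s) + b * ((m * e - c : ℕ) : ℤ)
      rw [Nat.cast_sub hc]
      push_cast
      linarith) (by linarith)
  refine h.case_zero hc (j := j) (by omega) (k := -((q : ℤ) + 1)) hj₁ ?_
  have h5 : (-((q : ℤ) + 1) + 1) * (o : ℤ) = -((q : ℤ) + 1) * o + o := by ring
  rw [h5]
  linarith

theorem LowNum.odd_pos {m t s o b ρ e c q : ℕ} (h : LowNum m t s o b ρ e c)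
    (hq : b * s = 2 * q + 1) (hc : m * e < c)
    (hcap : 2 * (b * c) + 2 * c + 4 * b + 4 ≤ 2 * o + 2 * (m * e)) :
    ∃ A : Finset (ZMod m × ZMod (t * m)), #A = t * m + c ∧ CycFree A (t * m) := by
  have hbc := h.hbc
  have hb := h.b1
  have hms := h.hms
  have hc2 := h.hc2
  have hms3 : m * 3 ≤ m * s := Nat.mul_le_mul_left m h.s3
  have hmid := h.mid
  have hcen := two_cen b (m * s)
  push_cast at hcen
  rw [hmid] at hcen
  have hq' : (b : ℤ) * s = 2 * q + 1 := by exact_mod_cast hq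
  rw [hq'] at hcen
  have hbc' : (b : ℤ) * c + 2 * b ≤ o := by exact_mod_cast hbc
  have hb' : (1 : ℤ) ≤ b := by exact_mod_cast hb
  have hc' : (b : ℤ) * (m * e) ≤ b * c := by
    have : b * (m * e) ≤ b * c := Nat.mul_le_mul_left b hc.le
    exact_mod_cast this
  obtain ⟨Y, hY⟩ : ∃ Y, c = m * e + Y := ⟨c - m * e, by omega⟩
  have hY' : (c : ℤ) = m * e + Y := by exact_mod_cast hY
  have hcap' : 2 * ((b : ℤ) * c) + 2 * c + 4 * b + 4 ≤ 2 * o + 2 * (m * e) := by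
    exact_mod_cast hcap
  have hbY : (b : ℤ) * c = b * (m * e) + b * Y := by rw [hY']; ring
  obtain ⟨j, hj, hj₁, hj₂⟩ := exists_in
    (f := fun j => - cen b (m * s) - (b + 1) * ((Y : ℤ) - (j : ℕ)))
    (lo := -((q : ℤ) + 1) * o + 1) (hi := -((q : ℤ) + 1) * o + (o - 1 - b * c - Y))
    (g := b + 1) (J := Y) (by
      intro j _
      show - cen b (m * s) - (b + 1) * ((Y : ℤ) - ((j + 1 : ℕ) : ℤ)) ≤
        - cen b (m * s) - (b + 1) * ((Y : ℤ) - (j : ℤ)) + (b + 1)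
      push_cast
      linarith) (by
      show - cen b (m * s) - (b + 1) * ((Y : ℤ) - ((0 : ℕ) : ℤ)) ≤ _
      push_cast
      linarith) (by
      show _ ≤ - cen b (m * s) - (b + 1) * ((Y : ℤ) - (Y : ℤ))
      linarith) (by linarith)
  have e1 : ((Y - j : ℕ) : ℤ) = (Y : ℤ) - j := by omega
  refine build (x₀ := 0) (x := 0) (y₁ := Y - j) (y₂ := j) h.m0 hb
    (by have := h.s3; omega) h.ht h.hos (by omega) (by omega) (by omega) (by omega)
    h.hbo (k := -((q : ℤ) + 1)) ?_ ?_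
  · rw [e1]
    push_cast
    linarith
  · rw [e1]
    have h5 : (-((q : ℤ) + 1) + 1) * (o : ℤ) = -((q : ℤ) + 1) * o + o := by ring
    rw [h5]
    push_cast
    linarith

/-- **The lower bound with the formula.** -/
theorem low_formula {m t s c : ℕ} (ht : 2 ≤ t) (hm : 100 * t ^ 2 ≤ m) (hs : s ∣ t * m)
    (h3 : 3 ≤ s) (hst : s < t) (hnd : ¬ s ∣ t) (hc : c + 2 = cstar m t s) :
    ∃ A : Finset (ZMod m × ZMod (t * m)), #A = t * m + c ∧ CycFree A (t * m) := by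
  obtain ⟨o, ho⟩ := hs
  obtain ⟨b, ρ, hbρ, hρs, hdiv⟩ : ∃ b ρ, t = b * s + ρ ∧ ρ < s ∧ t / s = b :=
    ⟨t / s, t % s, by rw [mul_comm, Nat.div_add_mod], Nat.mod_lt _ (by omega), rfl⟩
  have hρ : 1 ≤ ρ := by
    rcases Nat.eq_zero_or_pos ρ with h | h
    · exact absurd ⟨b, by rw [hbρ, h]; ring⟩ hnd
    · exact h
  have hb : 1 ≤ b := by
    rcases Nat.eq_zero_or_pos b with h | h
    · rw [h] at hbρ; omega
    · exact h
  have hm4 : 400 ≤ m := by nlinarith
  obtain ⟨e, he⟩ : ∃ e, s = ρ + e := ⟨s - ρ, by omega⟩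
  have hodiv : t * m / s = o := by rw [ho, Nat.mul_div_cancel_left _ (by omega)]
  have he' : (b + 1) * s - t = e := by
    rw [hbρ]
    have : (b + 1) * s = b * s + ρ + e := by rw [add_mul, one_mul]; omega
    omega
  unfold cstar at hc
  rw [hodiv, hdiv, he'] at hc
  have h1 : c + 2 ≤ o / b := by rw [hc]; exact Nat.min_le_left _ _
  have h2 : c + 2 ≤ (2 * o + (if Even (s * b) then 1 else 2) * (m * e)) / (2 * (b + 1)) := by
    rw [hc]; exact Nat.min_le_right _ _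
  have h1' : (c + 2) * b ≤ o := (Nat.le_div_iff_mul_le (by omega)).1 h1
  have h2' : (c + 2) * (2 * (b + 1)) ≤ 2 * o + (if Even (s * b) then 1 else 2) * (m * e) :=
    (Nat.le_div_iff_mul_le (by omega)).1 h2
  have e1 : (c + 2) * b = b * c + 2 * b := by ring
  have e2 : (c + 2) * (2 * (b + 1)) = 2 * (b * c) + 2 * c + 4 * b + 4 := by ring
  rw [e1] at h1'
  rw [e2] at h2'
  have hos : o * s = t * m := by rw [ho]; ring
  -- `o < 2 b m`, `b m ≤ o`
  have h5 : b * m ≤ o := by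
    have h6 : (b * m) * s ≤ o * s := by
      rw [hos, hbρ]
      nlinarith
    exact Nat.le_of_mul_le_mul_right h6 (by omega)
  have h6 : o < 2 * (b * m) := by
    have h7 : o * s < 2 * (b * m) * s := by
      rw [hos]
      have h8 : t < 2 * b * s := by
        have : s ≤ b * s := Nat.le_mul_of_pos_left s hb
        have : 2 * b * s = b * s + b * s := by ring
        omega
      calc t * m < 2 * b * s * m := Nat.mul_lt_mul_of_pos_right h8 (by omega)
        _ = 2 * (b * m) * s := by ring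
    exact Nat.lt_of_mul_lt_mul_right h7
  have hc2 : c + 2 ≤ 2 * m := by
    have h7 : (c + 2) * b ≤ 2 * m * b := by
      rw [e1]
      have : 2 * m * b = 2 * (b * m) := by ring
      omega
    exact Nat.le_of_mul_le_mul_right h7 hb
  have hN : LowNum m t s o b ρ e c := by
    refine ⟨by omega, hb, h3, hbρ, hos, by rw [he]; ring, h1', hc2, ?_⟩
    have : b * 400 ≤ b * m := Nat.mul_le_mul_left b hm4
    omega
  by_cases hev : Even (s * b)
  · rw [if_pos hev] at h2'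
    rcases Nat.lt_or_ge (2 * c) (m * e) with h | h
    · exact hN.even_zero h
    · exact hN.even_pos h (by omega)
  · rw [if_neg hev] at h2'
    obtain ⟨q, hq⟩ := Nat.not_even_iff_odd.1 hev
    have hq' : b * s = 2 * q + 1 := by rw [mul_comm]; exact hq
    rcases Nat.lt_or_ge (m * e) c with h | h
    · exact hN.odd_pos hq' h (by omega)
    · exact hN.odd_zero hq' h

end Pool.Agent.Lib.MPa7239a.RK
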