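import Pool.Agent.Lib.MP_a7239a_co.GC.MainE
import Pool.Agent.Lib.MP_a7239a_co.RK.Defs

/-!
# Theorem R (exponent `t * m`): the parameters and linear growth

`params`: for `n = t * m`, `2 ≤ t ≤ log m` and `log m ≥ 10000000` (logarithms to base 2) there are
parameters with linear growth for all sets.  If `n` has a divisor between `L` and `n / L`,
`L = 12 * Λ₀`, then `linear_growth` applies, else `n = m' * q` with `q` prime and `m' < L`, and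
`linear_prime` applies.
-/

open Finset

namespace Pool.Agent.Lib.MPa7239a.RK

open Pool.Agent.Lib.MPa7239a.GC

lemma par_pow (L : ℕ) (hL : 24 ≤ L) : (133 + 30 * L) * (549 + 120 * L) + 1 ≤ 2 ^ (L - 1) := by
  induction L, hL using Nat.le_induction with
  | base => norm_num
  | succ L hL ih =>
    have h1 : 2 ^ (L + 1 - 1) = 2 * 2 ^ (L - 1) := by
      rw [← pow_succ']; congr 1; omega
    rw [h1]
    nlinarith

/-- the divisor of `n` below the square root -/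
theorem exists_small_dvd {n L : ℕ} (hn0 : n ≠ 0) (hd : ∃ d, d ∣ n ∧ L ≤ d ∧ d * L ≤ n) :
    ∃ M₀, M₀ ∣ n ∧ L ≤ M₀ ∧ M₀ ^ 2 ≤ n := by
  obtain ⟨d, hdn, hd1, hd2⟩ := hd
  rcases Nat.le_total (d ^ 2) n with h1 | h1
  · exact ⟨d, hdn, hd1, h1⟩
  · obtain ⟨a, ha⟩ := hdn
    have hd0 : 0 < d := by
      rcases Nat.eq_zero_or_pos d with h2 | h2
      · rw [h2, zero_mul] at ha
        omega
      · exact h2
    refine ⟨a, Dvd.intro_left d ha.symm, ?_, ?_⟩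
    · have h4 : d * L ≤ d * a := hd2.trans (le_of_eq ha)
      exact Nat.le_of_mul_le_mul_left h4 hd0
    · have h2 : a ≤ d := by
        have h3 : d * a ≤ d * d := by
          rw [← sq]
          exact (le_of_eq ha.symm).trans h1
        exact Nat.le_of_mul_le_mul_left h3 hd0
      calc a ^ 2 = a * a := sq a
        _ ≤ d * a := Nat.mul_le_mul_right _ h2
        _ = n := ha.symm

/-- linear growth, the case of a divisor in the middle -/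
theorem lin_divisor {n ℓ w Λ₀ Λ κ M₀ : ℕ} [NeZero n] (hw₂ : n ≤ Λ₀ * w) (hΛ₀ : 1000 ≤ Λ₀)
    (hΛ : 7 * Λ₀ ≤ Λ) (hbig : (4 * Λ ^ 2) ^ (4 * κ + 13) ≤ n) (hM₀ : M₀ ∣ n)
    (hM₁ : 12 * Λ₀ ≤ M₀) (hM₂ : M₀ ^ 2 ≤ n) (A' : Finset (ZMod n × ZMod n)) :
    Lin A' ℓ w Λ κ := by
  have hn0 : n ≠ 0 := NeZero.ne n
  have hΛ1 : 1 ≤ Λ := by omega
  have hP : 1 ≤ 4 * Λ ^ 2 := by
    have : 1 ≤ Λ ^ 2 := Nat.one_le_pow _ _ hΛ1
    omega
  intro H R S V _ _ hcl _ hbox hS k hk1 hk2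
  have hn : 1 ≤ n := by omega
  have hSne : S.Nonempty := card_pos.1 (by omega)
  have hDH : n ≤ #(Dif H S) * Nat.card H := hS.trans (card_le_Dif H S)
  have h7 := linear_growth H (zero_mem_Dif hSne) neg_mem_Dif
    (Y := 12 * Λ₀ * (2 * (4 * Λ ^ 2) ^ (κ + 1)))
    (R₀ := 2 * (4 * Λ ^ 2) ^ (κ + 1)) hw₂ (tf hbox hcl le_rfl) hM₀ hM₁ hM₂ hDH ?_ ?_ le_rfl
    k hk1 hk2
  · exact h7.trans (Nat.mul_le_mul_right _ hΛ)
  · refine le_trans ?_ hbig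
    have e1 : 81 * Λ₀ ^ 2 * (12 * Λ₀ * (2 * (4 * Λ ^ 2) ^ (κ + 1))) ^ 4 =
        (81 * 24 ^ 4 * Λ₀ ^ 6) * (4 * Λ ^ 2) ^ (4 * κ + 4) := by
      rw [show 4 * κ + 4 = (κ + 1) * 4 by ring, pow_mul]
      ring
    have e2 : (4 * Λ ^ 2) ^ (4 * κ + 13) =
        (4 ^ 9 * Λ ^ 18) * (4 * Λ ^ 2) ^ (4 * κ + 4) := by
      rw [show 4 * κ + 13 = 9 + (4 * κ + 4) by ring, pow_add]
      ring
    rw [e1, e2]
    apply Nat.mul_le_mul_right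
    have h1 : Λ₀ ^ 6 ≤ Λ ^ 6 := Nat.pow_le_pow_left (by omega) _
    have h2 : Λ ^ 18 = Λ ^ 12 * Λ ^ 6 := by rw [← pow_add]
    have h3 : 1000 ^ 12 ≤ Λ ^ 12 := Nat.pow_le_pow_left (by omega) _
    rw [h2]
    calc 81 * 24 ^ 4 * Λ₀ ^ 6 ≤ 4 ^ 9 * 1000 ^ 12 * Λ ^ 6 := Nat.mul_le_mul (by norm_num) h1
      _ = 4 ^ 9 * (1000 ^ 12 * Λ ^ 6) := by ring
      _ ≤ 4 ^ 9 * (Λ ^ 12 * Λ ^ 6) := Nat.mul_le_mul_left _ (Nat.mul_le_mul_right _ h3)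
  · have h1 : 1 ≤ (4 * Λ ^ 2) ^ (κ + 1) := Nat.one_le_pow _ _ hP
    nlinarith

/-- linear growth, the case `n = m' * q` with `q` prime and `m'` small -/
theorem lin_prime {n m' q ℓ w Λ₀ Λ κ : ℕ} [NeZero n] (hn : n = m' * q) (hq : q.Prime)
    (hℓ : n < 2 ^ ℓ) (hw : w ≤ n) (hw₂ : n ≤ Λ₀ * w) (hΛm : 84 * ℓ * m' * Λ₀ ≤ Λ)
    (hR₀ : 14 * ℓ * (2 * (4 * Λ ^ 2) ^ (κ + 1)) ≤ w)
    (hbig' : (14 * ℓ * 301 * 600 * m' ^ 3) ^ 3 * (27 * q ^ 2) ≤ w ^ 3)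
    (A' : Finset (ZMod n × ZMod n)) : Lin A' ℓ w Λ κ := by
  have hn0 : n ≠ 0 := NeZero.ne n
  have hw0 : 0 < w := by
    rcases Nat.eq_zero_or_pos w with h | h
    · rw [h, mul_zero] at hw₂
      omega
    · exact h
  intro H R S V _ hfill _ hcl hbox hS k hk1 hk2
  have h1 := linear_prime hn hq hfill hcl hbox le_rfl hℓ.le hS hw hbig' k hk1
    ((Nat.mul_le_mul_left _ hk2).trans hR₀)
  have h2 : 84 * ℓ * m' ^ 2 * q * k ≤ w * (Λ * k) := by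
    calc 84 * ℓ * m' ^ 2 * q * k = 84 * ℓ * m' * k * (m' * q) := by ring
      _ = 84 * ℓ * m' * k * n := by rw [← hn]
      _ ≤ 84 * ℓ * m' * k * (Λ₀ * w) := Nat.mul_le_mul_left _ hw₂
      _ = (84 * ℓ * m' * Λ₀) * (w * k) := by ring
      _ ≤ Λ * (w * k) := Nat.mul_le_mul_right _ hΛm
      _ = w * (Λ * k) := by ring
  exact Nat.le_of_mul_le_mul_left (h1.trans h2) hw0

/-- MODULE PAR: the parameters for `n = t * m`, `log m ≥ 10000000`, `2 ≤ t ≤ log m` -/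
theorem params {m t n : ℕ} (hm : 10000000 ≤ Nat.log 2 m) (ht : 2 ≤ t) (htm : t ≤ Nat.log 2 m)
    (hn : n = t * m) : ∃ ℓ w Λ₀ Λ κ : ℕ, t ≤ ℓ ∧ n < 2 ^ ℓ ∧
      (3 * ℓ + 1) * n ^ 2 < 2 ^ (3 * ℓ) ∧ 100000000 * ℓ ^ 7 * w ≤ n ∧ n ≤ Λ₀ * w ∧ 1000 ≤ Λ₀ ∧
      Λ₀ ≤ Λ ∧ 7 * Λ ^ 2 ≤ 2 ^ κ ∧ (4 * Λ ^ 2) ^ (4 * κ + 13) ≤ n ∧ 100000000 * ℓ ^ 8 ≤ m ∧
      (∀ A' : Finset (ZMod n × ZMod n), Lin A' ℓ w Λ κ) := by
  obtain ⟨T, hT⟩ : ∃ T : ℕ, T = 10000000 := ⟨_, rfl⟩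
  have hm0 : m ≠ 0 := by
    rintro rfl
    rw [Nat.log_zero_right] at hm
    omega
  have hmn : m ≤ n := by
    rw [hn]; exact Nat.le_mul_of_pos_left m (by omega)
  have hn0 : n ≠ 0 := by omega
  have : NeZero n := ⟨hn0⟩
  obtain ⟨a, ha⟩ : ∃ a, a = Nat.log 2 m := ⟨_, rfl⟩
  obtain ⟨N, hN⟩ : ∃ N, N = Nat.log 2 n := ⟨_, rfl⟩
  obtain ⟨s, hs⟩ : ∃ s, s = N + 1 := ⟨_, rfl⟩
  obtain ⟨L, hL⟩ : ∃ L, L = Nat.log 2 s + 1 := ⟨_, rfl⟩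
  rw [← ha] at hm htm
  have haT : T ≤ a := by rw [hT]; exact hm
  have haN : a ≤ N := by
    rw [ha, hN]; exact Nat.log_mono_right hmn
  have h1 : n < 2 ^ s := by
    rw [hs, hN]; exact Nat.lt_pow_succ_log_self (by norm_num) n
  have h2 : 2 ^ N ≤ n := by
    rw [hN]; exact Nat.pow_log_le_self 2 hn0
  have h3 : 2 ^ a ≤ m := by
    rw [ha]; exact Nat.pow_log_le_self 2 hm0
  have h4 : m < 2 ^ (a + 1) := by
    rw [ha]; exact Nat.lt_pow_succ_log_self (by norm_num) m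
  -- `N ≤ 2 * a`
  have hN2 : N ≤ 2 * a := by
    have b1 : t < 2 ^ a := lt_of_le_of_lt htm a.lt_two_pow_self
    have b2 : n < 2 ^ (2 * a + 1) := by
      have b3 : 2 ^ (2 * a + 1) = 2 ^ a * 2 ^ (a + 1) := by rw [← pow_add]; congr 1; ring
      rw [b3, hn]
      exact Nat.mul_lt_mul_of_lt_of_lt b1 h4
    by_contra hlt
    push Not at hlt
    have b4 : 2 ^ (2 * a + 1) ≤ 2 ^ N := Nat.pow_le_pow_right (by norm_num) hlt
    omega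
  have hL1 : s < 2 ^ L := by
    rw [hL]; exact Nat.lt_pow_succ_log_self (by norm_num) _
  have hL2 : 2 ^ (L - 1) ≤ s := by
    rw [hL, Nat.add_sub_cancel]; exact Nat.pow_log_le_self 2 (by omega)
  have hL3 : 24 ≤ L := by
    have : 23 ≤ Nat.log 2 s := Nat.le_log_of_pow_le (by norm_num) (by norm_num; omega)
    omega
  have hL4 := par_pow L hL3
  have hs1 : 1 ≤ s := by omega
  have hsT : 10000000 ≤ s := by omega
  -- the constants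
  obtain ⟨Λ₀, hΛ₀⟩ : ∃ Λ₀ : ℕ, Λ₀ = 200000000 * s ^ 7 := ⟨_, rfl⟩
  obtain ⟨Λ, hΛ⟩ : ∃ Λ : ℕ, Λ = 84 * s * (12 * Λ₀) * Λ₀ := ⟨_, rfl⟩
  have hs7 : 1 ≤ s ^ 7 := Nat.one_le_pow _ _ hs1
  have hΛ₀1 : 1000 ≤ Λ₀ := by omega
  have hΛ' : Λ = 40320000000000000000 * s ^ 15 := by
    rw [hΛ, hΛ₀]; ring
  have hΛ7 : 7 * Λ₀ ≤ Λ := by
    have b1 : 1 ≤ s * (12 * Λ₀) := Nat.mul_pos (by omega) (by omega)
    calc 7 * Λ₀ = 7 * 1 * Λ₀ := by ring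
      _ ≤ 84 * (s * (12 * Λ₀)) * Λ₀ := by gcongr; norm_num
      _ = Λ := by rw [hΛ]; ring
  have hs15 : s ^ 15 ≤ 2 ^ (15 * L) := by
    rw [mul_comm 15 L, pow_mul]
    exact Nat.pow_le_pow_left hL1.le 15
  have hΛsq : 4 * Λ ^ 2 ≤ 2 ^ (133 + 30 * L) := by
    have b1 : 2 ^ (133 + 30 * L) = 2 ^ 133 * (2 ^ (15 * L)) ^ 2 := by
      rw [← pow_mul, ← pow_add]; congr 1; ring
    have b2 : 4 * Λ ^ 2 = (4 * 40320000000000000000 ^ 2) * (s ^ 15) ^ 2 := by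
      rw [hΛ']; ring
    rw [b1, b2]
    exact Nat.mul_le_mul (by norm_num) (Nat.pow_le_pow_left hs15 2)
  have hκ : 7 * Λ ^ 2 ≤ 2 ^ (134 + 30 * L) := by
    have b1 : 2 ^ (134 + 30 * L) = 2 * 2 ^ (133 + 30 * L) := by
      rw [← pow_succ']; congr 1; ring
    rw [b1]
    omega
  have hbig : (4 * Λ ^ 2) ^ (4 * (134 + 30 * L) + 13) ≤ n := by
    calc (4 * Λ ^ 2) ^ (4 * (134 + 30 * L) + 13)
        ≤ (2 ^ (133 + 30 * L)) ^ (4 * (134 + 30 * L) + 13) := Nat.pow_le_pow_left hΛsq _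
      _ = 2 ^ ((133 + 30 * L) * (549 + 120 * L)) := by
          rw [← pow_mul]; congr 1; ring
      _ ≤ 2 ^ N := Nat.pow_le_pow_right (by norm_num) (by omega)
      _ ≤ n := h2
  have hΛpos : 1 ≤ Λ := by omega
  have hBpos : 1 ≤ 4 * Λ ^ 2 := by
    have : 1 ≤ Λ ^ 2 := Nat.one_le_pow _ _ hΛpos
    omega
  -- `4 * Λ ^ 2` is larger than the other powers
  have hΛlow : 14000000000 * s * Λ₀ ^ 4 ≤ 4 * Λ ^ 2 := by
    have b1 : 4 * Λ ^ 2 = (4064256 * s) * s * Λ₀ ^ 4 := by rw [hΛ]; ring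
    rw [b1]
    exact Nat.mul_le_mul_right _ (Nat.mul_le_mul_right _ (by omega))
  have hB1 : 4 * Λ ^ 2 ≤ (4 * Λ ^ 2) ^ (4 * (134 + 30 * L) + 13) := Nat.le_self_pow (by omega) _
  have h8 : 3 * s + 1 ≤ 2 ^ s := by
    have a1 : s * 4 ≤ s * s := Nat.mul_le_mul_left _ (by omega)
    have a2 : ∀ m : ℕ, 4 ≤ m → m ^ 2 ≤ 2 ^ m := by
      intro m hm
      induction m, hm using Nat.le_induction with
      | base => norm_num
      | succ m hm ih => rw [pow_succ 2 m]; nlinarith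
    have a3 := a2 s (by omega)
    nlinarith
  have hΛ₀n : Λ₀ ≤ n := by
    have b1 : Λ ≤ Λ ^ 2 := Nat.le_self_pow (by norm_num) Λ
    omega
  have hs7' : 0 < 100000000 * s ^ 7 := by positivity
  have hw1 : n ≤ Λ₀ * (n / (100000000 * s ^ 7)) := by
    have a1 := Nat.div_add_mod n (100000000 * s ^ 7)
    have a2 := Nat.mod_lt n hs7'
    have a3 : Λ₀ * (n / (100000000 * s ^ 7)) =
        2 * (100000000 * s ^ 7 * (n / (100000000 * s ^ 7))) := by rw [hΛ₀]; ring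
    have a4 : Λ₀ = 2 * (100000000 * s ^ 7) := by rw [hΛ₀]; ring
    omega
  have hR₀ : 14 * s * (2 * (4 * Λ ^ 2) ^ (134 + 30 * L + 1)) ≤ n / (100000000 * s ^ 7) := by
    rw [Nat.le_div_iff_mul_le hs7']
    have a0 : 28 * s * (100000000 * s ^ 7) ≤ 4 * Λ ^ 2 := by
      refine le_trans ?_ hΛlow
      have b1 : Λ₀ * 1 ≤ Λ₀ * Λ₀ ^ 3 := Nat.mul_le_mul_left _ (Nat.one_le_pow _ _ (by omega))
      have b2 : Λ₀ * Λ₀ ^ 3 = Λ₀ ^ 4 := by ring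
      calc 28 * s * (100000000 * s ^ 7) = 14 * s * Λ₀ := by rw [hΛ₀]; ring
        _ ≤ 14000000000 * s * Λ₀ ^ 4 := by
            refine Nat.mul_le_mul (Nat.mul_le_mul_right _ (by norm_num)) ?_
            omega
    calc 14 * s * (2 * (4 * Λ ^ 2) ^ (134 + 30 * L + 1)) * (100000000 * s ^ 7)
        = (4 * Λ ^ 2) ^ (134 + 30 * L + 1) * (28 * s * (100000000 * s ^ 7)) := by ring
      _ ≤ (4 * Λ ^ 2) ^ (134 + 30 * L + 1) * (4 * Λ ^ 2) := Nat.mul_le_mul_left _ a0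
      _ = (4 * Λ ^ 2) ^ (134 + 30 * L + 2) := by rw [← pow_succ]
      _ ≤ (4 * Λ ^ 2) ^ (4 * (134 + 30 * L) + 13) := Nat.pow_le_pow_right hBpos (by omega)
      _ ≤ n := hbig
  refine ⟨s, n / (100000000 * s ^ 7), Λ₀, Λ, 134 + 30 * L, by omega, h1, ?_,
    Nat.mul_div_le _ _, hw1, hΛ₀1, by omega, hκ, hbig, ?_, ?_⟩
  · have a1 : n ^ 2 < (2 ^ s) ^ 2 := Nat.pow_lt_pow_left h1 two_ne_zero
    have a2 : 2 ^ (3 * s) = 2 ^ s * (2 ^ s) ^ 2 := by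
      rw [← pow_mul, ← pow_add]; congr 1; ring
    rw [a2]
    calc (3 * s + 1) * n ^ 2 < (3 * s + 1) * (2 ^ s) ^ 2 :=
          Nat.mul_lt_mul_of_pos_left a1 (by omega)
      _ ≤ 2 ^ s * (2 ^ s) ^ 2 := Nat.mul_le_mul_right _ h8
  · -- `100000000 * s ^ 8 ≤ m`
    refine le_trans ?_ h3
    have hs8 : s ^ 8 ≤ 2 ^ (8 * L) := by
      rw [mul_comm 8 L, pow_mul]
      exact Nat.pow_le_pow_left hL1.le 8
    calc 100000000 * s ^ 8 ≤ 2 ^ 27 * 2 ^ (8 * L) := Nat.mul_le_mul (by norm_num) hs8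
      _ = 2 ^ (27 + 8 * L) := by rw [← pow_add]
      _ ≤ 2 ^ a := by
          refine Nat.pow_le_pow_right (by norm_num) ?_
          have b1 : (133 + 30 * L) * 549 ≤ (133 + 30 * L) * (549 + 120 * L) :=
            Nat.mul_le_mul_left _ (by omega)
          omega
  · -- linear growth
    intro A'
    have hc : (12 * Λ₀) ^ 3 ≤ n := by
      refine le_trans ?_ (hB1.trans hbig)
      refine le_trans ?_ hΛlow
      have b1 : Λ₀ ^ 3 * 1 ≤ Λ₀ ^ 3 * Λ₀ := Nat.mul_le_mul_left _ (by omega)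
      calc (12 * Λ₀) ^ 3 = 1728 * Λ₀ ^ 3 := by ring
        _ ≤ 14000000000 * s * (Λ₀ ^ 3 * Λ₀) :=
            Nat.mul_le_mul (by omega) (by omega)
        _ = 14000000000 * s * Λ₀ ^ 4 := by ring
    by_cases hd : ∃ d, d ∣ n ∧ 12 * Λ₀ ≤ d ∧ d * (12 * Λ₀) ≤ n
    · obtain ⟨M₀, hM₀, hM₁, hM₂⟩ := exists_small_dvd hn0 hd
      exact lin_divisor hw1 hΛ₀1 hΛ7 hbig hM₀ hM₁ hM₂ A'
    · obtain ⟨m', q, hq, hmq, hm1, hm2⟩ := exists_prime_mul (by omega) hc hd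
      have hqn : q ≤ n := by rw [hmq]; exact Nat.le_mul_of_pos_left q hm1
      refine lin_prime hmq hq h1 (Nat.div_le_self _ _) hw1 ?_ hR₀ ?_ A'
      · rw [hΛ]
        gcongr
      · have hL0 : 0 < Λ₀ ^ 3 := by positivity
        have a1 : (14 * s * 301 * 600 * m' ^ 3) ^ 3 * 27 * Λ₀ ^ 3 ≤ n := by
          have b1 : m' ^ 3 ≤ (12 * Λ₀) ^ 3 := Nat.pow_le_pow_left hm2.le 3
          have b2 : 14 * s * 301 * 600 * m' ^ 3 * 3 * Λ₀ ≤ 4 * Λ ^ 2 := by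
            refine le_trans ?_ hΛlow
            calc 14 * s * 301 * 600 * m' ^ 3 * 3 * Λ₀
                ≤ 14 * s * 301 * 600 * (12 * Λ₀) ^ 3 * 3 * Λ₀ := by gcongr
              _ = 13107225600 * s * Λ₀ ^ 4 := by ring
              _ ≤ 14000000000 * s * Λ₀ ^ 4 := by gcongr; norm_num
          calc (14 * s * 301 * 600 * m' ^ 3) ^ 3 * 27 * Λ₀ ^ 3
              = (14 * s * 301 * 600 * m' ^ 3 * 3 * Λ₀) ^ 3 := by ring
            _ ≤ (4 * Λ ^ 2) ^ 3 := Nat.pow_le_pow_left b2 3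
            _ ≤ (4 * Λ ^ 2) ^ (4 * (134 + 30 * L) + 13) :=
                Nat.pow_le_pow_right hBpos (by omega)
            _ ≤ n := hbig
        have a2 : (14 * s * 301 * 600 * m' ^ 3) ^ 3 * (27 * q ^ 2) * Λ₀ ^ 3 ≤
            (n / (100000000 * s ^ 7)) ^ 3 * Λ₀ ^ 3 := by
          calc (14 * s * 301 * 600 * m' ^ 3) ^ 3 * (27 * q ^ 2) * Λ₀ ^ 3
              = (14 * s * 301 * 600 * m' ^ 3) ^ 3 * 27 * Λ₀ ^ 3 * q ^ 2 := by ring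
            _ ≤ n * n ^ 2 := Nat.mul_le_mul a1 (Nat.pow_le_pow_left hqn 2)
            _ = n ^ 3 := by ring
            _ ≤ (Λ₀ * (n / (100000000 * s ^ 7))) ^ 3 := Nat.pow_le_pow_left hw1 3
            _ = (n / (100000000 * s ^ 7)) ^ 3 * Λ₀ ^ 3 := by rw [mul_pow, mul_comm]
        exact Nat.le_of_mul_le_mul_right a2 hL0

end Pool.Agent.Lib.MPa7239a.RK
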