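import Pool.Agent.Lib.MP_a7239a_co.RK.AMB
import Pool.Agent.Lib.MP_a7239a_co.RK.STR0
import Pool.Agent.Lib.MP_a7239a_co.RK.STRR
import Pool.Agent.Lib.MP_a7239a_co.RK.ENDP
import Pool.Agent.Lib.MP_a7239a_co.RK.ENDQ
import Pool.Agent.Lib.MP_a7239a_co.RK.ENDS
import Pool.Agent.Lib.MP_a7239a_co.RK.PAR
import Pool.Agent.Lib.MP_a7239a_co.RK.EMB
import Pool.Agent.Lib.MP_a7239a_co.RK.FULL
import Pool.Agent.Lib.MP_a7239a_co.RK.ENDR

/-!
# Theorem R: the upper bounds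
-/

open Finset

namespace Pool.Agent.Lib.MPa7239a.RK

open Pool.Agent.Lib.MPa7239a.GC

/-- the numbers -/
theorem small {n m t ℓ w loss : ℕ} (ht : 2 ≤ t) (htℓ : t ≤ ℓ) (hn : n = t * m)
    (hw₁ : 100000000 * ℓ ^ 7 * w ≤ n) (hw0 : 1 ≤ w) (hm8 : 100000000 * ℓ ^ 8 ≤ m)
    (hloss : loss = (2 * ℓ + 1) * (w * (2 * (3 * ℓ)))) :
    ∃ E L : ℕ, E = (t + 3) * (loss + 1) ∧ L = (t + 2) * (E + 10) ∧
      100 * (t + 1) * (t + 1) * (L + 2 * E + 600 * ℓ ^ 3 + 10) ≤ m := by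
  refine ⟨_, _, rfl, rfl, ?_⟩
  have hℓ2 : 2 ≤ ℓ := ht.trans htℓ
  have h1 : loss ≤ 18 * (ℓ ^ 2 * w) := by
    rw [hloss]
    calc (2 * ℓ + 1) * (w * (2 * (3 * ℓ))) ≤ (3 * ℓ) * (w * (2 * (3 * ℓ))) :=
          Nat.mul_le_mul_right _ (by omega)
      _ = 18 * (ℓ ^ 2 * w) := by ring
  have hp : ∀ k : ℕ, 1 ≤ ℓ ^ k * w := fun k =>
    Nat.mul_pos (Nat.pow_pos (by omega)) hw0
  have h2 : (t + 3) * (loss + 1) ≤ 57 * (ℓ ^ 3 * w) := by
    calc (t + 3) * (loss + 1) ≤ (3 * ℓ) * (19 * (ℓ ^ 2 * w)) :=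
          Nat.mul_le_mul (by omega) (by have := hp 2; omega)
      _ = 57 * (ℓ ^ 3 * w) := by ring
  obtain ⟨E, hE⟩ : ∃ E, E = (t + 3) * (loss + 1) := ⟨_, rfl⟩
  rw [← hE] at h2 ⊢
  have h3 : (t + 2) * (E + 10) ≤ 134 * (ℓ ^ 4 * w) := by
    calc (t + 2) * (E + 10) ≤ (2 * ℓ) * (67 * (ℓ ^ 3 * w)) :=
          Nat.mul_le_mul (by omega) (by have := hp 3; omega)
      _ = 134 * (ℓ ^ 4 * w) := by ring
  have h4 : ℓ ^ 3 * w ≤ ℓ ^ 4 * w :=
    Nat.mul_le_mul_right _ (Nat.pow_le_pow_right (by omega) (by norm_num))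
  have h5 : 1 ≤ ℓ ^ 3 := Nat.pow_pos (by omega)
  have h6 : 100 * (t + 1) * (t + 1) ≤ 400 * ℓ ^ 2 := by
    calc 100 * (t + 1) * (t + 1) ≤ 100 * (2 * ℓ) * (2 * ℓ) :=
          Nat.mul_le_mul (Nat.mul_le_mul_left _ (by omega)) (by omega)
      _ = 400 * ℓ ^ 2 := by ring
  have h7 : 100000000 * (ℓ ^ 6 * w) ≤ m := by
    have h8 : ℓ * (100000000 * (ℓ ^ 6 * w)) ≤ ℓ * m := by
      calc ℓ * (100000000 * (ℓ ^ 6 * w)) = 100000000 * ℓ ^ 7 * w := by ring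
        _ ≤ t * m := hw₁.trans hn.le
        _ ≤ ℓ * m := Nat.mul_le_mul_right _ htℓ
    exact Nat.le_of_mul_le_mul_left h8 (by omega)
  have h8 : ℓ ^ 5 ≤ ℓ ^ 8 := Nat.pow_le_pow_right (by omega) (by norm_num)
  calc 100 * (t + 1) * (t + 1) * ((t + 2) * (E + 10) + 2 * E + 600 * ℓ ^ 3 + 10)
      ≤ (400 * ℓ ^ 2) * (248 * (ℓ ^ 4 * w) + 610 * ℓ ^ 3) := Nat.mul_le_mul h6 (by omega)
    _ = 99200 * (ℓ ^ 6 * w) + 244000 * ℓ ^ 5 := by ring
    _ ≤ m := by omega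

/-- the case `s ∣ t` -/
theorem hit_div {n m t c ℓ loss s o k t' E L : ℕ} [NeZero n] (ht : 2 ≤ t)
    (hℓ : n < 2 ^ ℓ) (hb : (3 * ℓ + 1) * n ^ 2 < 2 ^ (3 * ℓ))
    (hE : E = (t + 3) * (loss + 1)) (hL : L = (t + 2) * (E + 10))
    (hbig : 100 * (t + 1) * (t + 1) * (L + 2 * E + 600 * ℓ ^ 3 + 10) ≤ m)
    {A S : Finset (ZMod n × ZMod n)} {H : AddSubgroup (ZMod n × ZMod n)} {e q₀ : ZMod n × ZMod n}
    {z : ZMod n × ZMod n → ℤ} {u v : ℤ} (h : Amb H e q₀ A S z m t n c s o loss k t' u v)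
    (hmc : m ≤ c) (hst : s ∣ t) (hcase : m + 1 ≤ c ∨ Even t ∨ Odd m) : Hit A n 0 := by
  have hFF := fatFull hℓ hb H
  have hn0 : ∀ x : ZMod n × ZMod n, n • x = 0 := n_nsmul
  obtain ⟨b, hbs⟩ := hst
  have hs1 := h.s1
  have hb1 : 1 ≤ b := by
    rcases Nat.eq_zero_or_pos b with h1 | h1
    · rw [h1, mul_zero] at hbs
      omega
    · exact h1
  have hbt : b ≤ t := by
    rw [hbs]
    exact Nat.le_mul_of_pos_left b hs1
  have h2 : 100 * (b + 1) ≤ 100 * (t + 1) * (t + 1) := by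
    calc 100 * (b + 1) = 100 * (b + 1) * 1 := (mul_one _).symm
      _ ≤ 100 * (t + 1) * (t + 1) := Nat.mul_le_mul (Nat.mul_le_mul_left _ (by omega)) (by omega)
  have hE' : (b + 3) * (loss + 1) ≤ E := by
    rw [hE]
    exact Nat.mul_le_mul_right _ (by omega)
  have hL' : (b + 2) * (E + 10) ≤ L := by
    rw [hL]
    exact Nat.mul_le_mul_right _ (by omega)
  have hm1 : 100 * (b + 1) * (L + 10) ≤ m := (Nat.mul_le_mul h2 (by omega)).trans hbig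
  have hm2 : 100 * (b + 1) * ((L + 2 * E) + 600 * ℓ ^ 3 + 10) ≤ m :=
    (Nat.mul_le_mul h2 le_rfl).trans hbig
  have hm3 : 100 * (b + 1) * (L + 600 * ℓ ^ 3 + 10) ≤ m := (Nat.mul_le_mul h2 (by omega)).trans hbig
  rcases Nat.lt_or_ge s 2 with hs | hs
  · have hs' : s = 1 := by omega
    subst hs'
    rw [one_mul] at hbs
    subst hbs
    obtain ⟨q₁, z', hP | hQ⟩ := str1 h hn0 ht hmc hE' hL' hm1
    · exact end_S hP ht hn0 hFF hm2 hcase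
    · exact end_Q hQ hn0 hFF hL' hm3
  · obtain ⟨q₁, z', hP | hQ⟩ := str0 h hn0 hs (hbs.trans (mul_comm s b)) hmc hE' hL' hm1
    · exact end_P hP hs hFF hm2
    · exact end_Q hQ hn0 hFF hL' hm3

/-- the numbers in the case `s ∤ t` -/
theorem div_numbers {t s : ℕ} (hst : s ≤ t) (hs : ¬ s ∣ t) (hs1 : 1 ≤ s) :
    ∃ b ρ : ℕ, t = b * s + ρ ∧ 1 ≤ b ∧ 1 ≤ ρ ∧ ρ < s ∧ b ≤ t := by
  refine ⟨t / s, t % s, ?_, ?_, ?_, Nat.mod_lt _ hs1, Nat.div_le_self t s⟩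
  · rw [mul_comm]
    exact (Nat.div_add_mod t s).symm
  · exact Nat.div_pos hst hs1
  · rcases Nat.eq_zero_or_pos (t % s) with h | h
    · exact absurd (Nat.dvd_of_mod_eq_zero h) hs
    · exact h

/-- the exact upper bound in the ambient group -/
theorem ambient_exact {m t n c : ℕ} (hm : 10000000 ≤ Nat.log 2 m) (ht : 2 ≤ t)
    (htm : t ≤ Nat.log 2 m) (hn : n = t * m) (hgood : ∀ s, s ∣ t * m → 3 ≤ s → s < t → s ∣ t)
    (Γ : AddSubgroup (ZMod n × ZMod n)) (hΓ : Nat.card Γ = m * n)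
    {A : Finset (ZMod n × ZMod n)} (hAΓ : ∀ x ∈ A, x ∈ Γ) (hA : #A = n + c)
    (hc : (¬ (Odd t ∧ Even m) ∧ c = m) ∨ c = m + 1) : Hit A n 0 := by
  obtain ⟨ℓ, w, Λ₀, Λ, κ, htℓ, hℓ, hb, hw₁, hw₂, hΛ₀, hΛ, hκ, hbig, hm8, hlin⟩ :=
    params hm ht htm hn
  have hm0 : 1 ≤ m := by
    have h1 : 1 ≤ ℓ ^ 8 := Nat.pow_pos (by omega)
    omega
  have hn0 : n ≠ 0 := by
    rw [hn]
    exact Nat.mul_ne_zero (by omega) (by omega)
  have : NeZero n := ⟨hn0⟩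
  have hw0 : 1 ≤ w := by
    rcases Nat.eq_zero_or_pos w with h | h
    · rw [h, mul_zero] at hw₂
      omega
    · exact h
  obtain ⟨loss, hloss⟩ : ∃ loss, loss = (2 * ℓ + 1) * (w * (2 * (3 * ℓ))) := ⟨_, rfl⟩
  obtain ⟨E, L, hE, hL, hnum⟩ := small ht htℓ hn hw₁ hw0 hm8 hloss
  have hlossm : 1000 * (loss + 1) ≤ m := by
    refine le_trans ?_ hnum
    have h1 : loss + 1 ≤ E := by
      rw [hE]
      exact Nat.le_mul_of_pos_left _ (by omega)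
    have h2 : 900 ≤ 100 * (t + 1) * (t + 1) := by nlinarith
    calc 1000 * (loss + 1) ≤ 900 * (2 * E) := by omega
      _ ≤ _ := Nat.mul_le_mul h2 (by omega)
  have hmc : m ≤ c := by omega
  have h2m : 2 * m ≤ n := by
    rw [hn]
    exact Nat.mul_le_mul_right _ ht
  by_contra hno
  obtain ⟨H, e, q₀, S, z, s, o, k, t', u, v, hHΓ, heΓ, h⟩ := amb ht htℓ hn hℓ hb hw₁ hw₂ hΛ₀ hΛ hκ
    hbig hlin hloss Γ hΓ hAΓ hA hmc (by omega) hno
  apply hno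
  by_cases hst : s ∣ t
  · refine hit_div ht hℓ hb hE hL hnum h hmc hst ?_
    rcases hc with ⟨h1, h2⟩ | h1
    · rcases Nat.even_or_odd t with h3 | h3
      · exact Or.inr (Or.inl h3)
      · rcases Nat.even_or_odd m with h4 | h4
        · exact absurd ⟨h3, h4⟩ h1
        · exact Or.inr (Or.inr h4)
    · exact Or.inl h1.ge
  · have hs1 := h.s1
    have hs3 : s < 3 := by
      by_contra hlt
      push Not at hlt
      refine hst (hgood s ?_ hlt ?_)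
      · rw [← hn, ← h.os]
        exact Dvd.intro_left o rfl
      · refine lt_of_le_of_ne h.st ?_
        rintro rfl
        exact hst dvd_rfl
    obtain ⟨b, ρ, h1, h2, h3, h4, h5⟩ := div_numbers h.st hst hs1
    have hs2 : s = 2 := by omega
    subst hs2
    have hρ : ρ = 1 := by omega
    subst hρ
    have h6 : 100 * 2 * (b + 1) ≤ 100 * (t + 1) * (t + 1) := by
      have : 100 * 2 * (b + 1) = 100 * 2 * (b + 1) := rfl
      nlinarith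
    have hE' : (b + 3) * (loss + 1) ≤ E := by
      rw [hE]
      exact Nat.mul_le_mul_right _ (by omega)
    have hm1 : 100 * 2 * (b + 1) * (E + 10) ≤ m := (Nat.mul_le_mul h6 (by omega)).trans hnum
    have hm2 : 200 * (b + 1) * (E + 600 * ℓ ^ 3 + 10) ≤ m :=
      (Nat.mul_le_mul h6 (by omega)).trans hnum
    obtain ⟨q₁, z', hR⟩ := strR h n_nsmul h1 le_rfl (by norm_num) hmc hE' hm1
    exact end_R2 hR (fatFull hℓ hb H) hm2

/-- the upper bound up to one in the ambient group -/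
theorem ambient_cyc {m t n c : ℕ} (hm : 10000000 ≤ Nat.log 2 m) (ht : 2 ≤ t)
    (htm : t ≤ Nat.log 2 m) (hn : n = t * m)
    (Γ : AddSubgroup (ZMod n × ZMod n)) (hΓ : Nat.card Γ = m * n)
    {A : Finset (ZMod n × ZMod n)} (hAΓ : ∀ x ∈ A, x ∈ Γ) (hA : #A = n + c) (hmc : m ≤ c)
    (hodd : Odd t → m + 1 ≤ c)
    (hcyc : ∀ (H : AddSubgroup (ZMod n × ZMod n)) (e : ZMod n × ZMod n), H ≤ Γ → e ∈ Γ →
      Nat.card H * addOrderOf (e : (ZMod n × ZMod n) ⧸ H) = m * n →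
      1 < addOrderOf (e : (ZMod n × ZMod n) ⧸ H) →
      ∀ x ∈ A, ∃ T ⊆ A.erase x, #T = n ∧ ∑ y ∈ T, y ∈ H) : Hit A n 0 := by
  obtain ⟨ℓ, w, Λ₀, Λ, κ, htℓ, hℓ, hb, hw₁, hw₂, hΛ₀, hΛ, hκ, hbig, hm8, hlin⟩ :=
    params hm ht htm hn
  have hm0 : 1000 ≤ m := by
    have h1 : 1 ≤ ℓ ^ 8 := Nat.pow_pos (by omega)
    omega
  have hn0 : n ≠ 0 := by
    rw [hn]
    exact Nat.mul_ne_zero (by omega) (by omega)
  have : NeZero n := ⟨hn0⟩
  have hw0 : 1 ≤ w := by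
    rcases Nat.eq_zero_or_pos w with h | h
    · rw [h, mul_zero] at hw₂
      omega
    · exact h
  obtain ⟨loss, hloss⟩ : ∃ loss, loss = (2 * ℓ + 1) * (w * (2 * (3 * ℓ))) := ⟨_, rfl⟩
  obtain ⟨E, L, hE, hL, hnum⟩ := small ht htℓ hn hw₁ hw0 hm8 hloss
  have hlossm : 1000 * t * (loss + 1) ≤ m := by
    refine le_trans ?_ hnum
    have h1 : 5 * (loss + 1) ≤ E := by
      rw [hE]
      exact Nat.mul_le_mul_right _ (by omega)
    have h3 : 200 * t ≤ 100 * (t + 1) * (t + 1) := by nlinarith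
    calc 1000 * t * (loss + 1) = 200 * t * (5 * (loss + 1)) := by ring
      _ ≤ 100 * (t + 1) * (t + 1) * E := Nat.mul_le_mul h3 h1
      _ ≤ _ := Nat.mul_le_mul_left _ (by omega)
  have h2m : 2 * m ≤ n := by
    rw [hn]
    exact Nat.mul_le_mul_right _ ht
  have hl3 : 1000 * (loss + 1) ≤ m := by
    refine le_trans (Nat.mul_le_mul_right _ ?_) hlossm
    omega
  by_contra hno
  by_cases hcn : c + 3 * loss ≤ n
  · obtain ⟨H, e, q₀, S, z, s, o, k, t', u, v, hHΓ, heΓ, h⟩ := amb ht htℓ hn hℓ hb hw₁ hw₂ hΛ₀ hΛ hκ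
      hbig hlin hloss Γ hΓ hAΓ hA hmc hcn hno
    apply hno
    by_cases hst : s ∣ t
    · refine hit_div ht hℓ hb hE hL hnum h hmc hst ?_
      rcases Nat.even_or_odd t with h3 | h3
      · exact Or.inr (Or.inl h3)
      · exact Or.inl (hodd h3)
    · have hs1 := h.s1
      obtain ⟨b, ρ, h1, h2, h3, h4, h5⟩ := div_numbers h.st hst hs1
      have h6 : 100 * s * (b + 1) ≤ 100 * (t + 1) * (t + 1) := by
        have := h.st
        exact Nat.mul_le_mul (Nat.mul_le_mul_left _ (by omega)) (by omega)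
      have hE' : (b + 3) * (loss + 1) ≤ E := by
        rw [hE]
        exact Nat.mul_le_mul_right _ (by omega)
      have hm1 : 100 * s * (b + 1) * (E + 10) ≤ m := (Nat.mul_le_mul h6 (by omega)).trans hnum
      have hm2 : 100 * s * (b + 1) * (E + 600 * ℓ ^ 3 + 10) ≤ m :=
        (Nat.mul_le_mul h6 (by omega)).trans hnum
      obtain ⟨q₁, z', hR⟩ := strR h n_nsmul h1 h3 h4 hmc hE' hm1
      have ho1 : m ≤ o := by
        have h7 : m * s ≤ o * s := by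
          rw [h.os, hn, mul_comm t m]
          exact Nat.mul_le_mul_left _ h.st
        exact Nat.le_of_mul_le_mul_right h7 hs1
      refine end_R hR n_nsmul (fatFull hℓ hb H) hm2 (hcyc H e hHΓ heΓ ?_ ?_)
      · rw [h.order, h.cardH, mul_assoc, mul_comm s o, h.os]
      · rw [h.order]
        omega
  · push Not at hcn
    obtain ⟨c₁, hc₁⟩ : ∃ c₁, c₁ + 3 * loss = n := ⟨n - 3 * loss, by omega⟩
    have hle : m ≤ c₁ := by omega
    obtain ⟨B, hB, hBc⟩ := exists_subset_card_eq (s := A) (n := n + c₁) (by omega)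
    have hnoB : ¬ Hit B n 0 := fun h => hno (Hit.mono hB h)
    obtain ⟨H, e, q₀, S, z, s, o, k, t', u, v, hHΓ, heΓ, h⟩ := amb ht htℓ hn hℓ hb hw₁ hw₂ hΛ₀ hΛ hκ
      hbig hlin hloss Γ hΓ (fun x hx => hAΓ x (hB hx)) hBc hle hc₁.le hnoB
    exact big_c h ht hlossm hc₁

end Pool.Agent.Lib.MPa7239a.RK
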