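import Pool.Agent.Lib.MP_a7239a_co.RK.CNT

/-!
# The lifted set: representatives on `A \ S` and the elements outside `[u, v]`
-/

open Finset

namespace Pool.Agent.Lib.MPa7239a.RK

open Pool.Agent.Lib.MPa7239a.GC

/-- the shifted lift of `A`: on `S` it is `z - u`, on the rest the representative of least
absolute value -/
theorem exists_lift {G : Type*} [AddCommGroup G] [DecidableEq G] {H : AddSubgroup G} {e q₀ : G}
    {A S : Finset G} {z : G → ℤ} {o : ℕ} (u : ℤ) (ho : 0 < o)
    (hlift : ∀ x ∈ S, x - q₀ - z x • e ∈ H) (gen : ∀ x ∈ A, ∃ a : ℤ, x - q₀ - a • e ∈ H)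
    (order : addOrderOf (e : G ⧸ H) = o) :
    ∃ z' : G → ℤ, (∀ x ∈ S, z' x = z x - u) ∧
      (∀ x ∈ A, x - (q₀ + u • e) - z' x • e ∈ H) ∧
      ∀ x ∈ A, x ∉ S → 2 * |z' x| ≤ o := by
  classical
  have hoe : o • e ∈ H := by
    have h1 := addOrderOf_nsmul_eq_zero (e : G ⧸ H)
    rw [order] at h1
    have h2 : ((o • e : G) : G ⧸ H) = 0 := by
      rw [QuotientAddGroup.mk_nsmul]
      exact h1
    exact (QuotientAddGroup.eq_zero_iff _).1 h2
  choose! a ha using gen
  refine ⟨fun x => if x ∈ S then z x - u else Int.bmod (a x - u) o, ?_, ?_, ?_⟩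
  · intro x hx
    simp only [hx, if_true]
  · intro x hx
    by_cases hxS : x ∈ S
    · simp only [hxS, if_true]
      have h1 := hlift x hxS
      have h2 : x - (q₀ + u • e) - (z x - u) • e = x - q₀ - z x • e := by
        rw [sub_smul]
        abel
      rw [h2]
      exact h1
    · simp only [hxS, if_false]
      have h1 := ha x hx
      obtain ⟨q, hq⟩ : ∃ q : ℤ, a x - u = Int.bmod (a x - u) o + o * q := by
        have h3 := Int.bmod_add_bdiv (a x - u) o
        exact ⟨Int.bdiv (a x - u) o, h3.symm⟩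
      have h2 : x - (q₀ + u • e) - Int.bmod (a x - u) o • e =
          (x - q₀ - a x • e) + q • (o • e) := by
        have h4 : Int.bmod (a x - u) o = a x - u - o * q := by linarith
        rw [h4, sub_smul, sub_smul, mul_comm (o : ℤ) q, mul_smul, natCast_zsmul]
        abel
      rw [h2]
      exact H.add_mem h1 (H.zsmul_mem hoe q)
  · intro x _ hxS
    simp only [hxS, if_false]
    have h1 := Int.bmod_lt (x := a x - u) ho
    have h2 := Int.le_bmod (x := a x - u) ho
    rcases abs_cases (Int.bmod (a x - u) o) with ⟨h3, _⟩ | ⟨h3, _⟩ <;> rw [h3] <;> omega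

/-- the total distance from `[u, v]` -/
def dist {G : Type*} (S : Finset G) (z : G → ℤ) (u v : ℤ) : ℤ :=
  ∑ x ∈ S.filter (fun x => v < z x), (z x - v) + ∑ x ∈ S.filter (fun x => z x < u), (u - z x)

/-- `d` times the number of the elements at distance `≥ d` -/
theorem mul_card_out_le {G : Type*} (S : Finset G) (z : G → ℤ) (u v : ℤ) {d : ℕ}
    (hd : 1 ≤ d) : (d : ℤ) * #(out S z u v d) ≤ dist S z u v := by
  classical
  have h1 : out S z u v d = S.filter (fun x => v + d ≤ z x) ∪ S.filter (fun x => z x ≤ u - d) := by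
    ext x
    rw [mem_out, mem_union, mem_filter, mem_filter]
    tauto
  have h2 : #(out S z u v d) ≤ #(S.filter (fun x => v + d ≤ z x)) +
      #(S.filter (fun x => z x ≤ u - d)) := by
    rw [h1]
    exact card_union_le _ _
  have h3 : (d : ℤ) * #(S.filter (fun x => v + d ≤ z x)) ≤
      ∑ x ∈ S.filter (fun x => v < z x), (z x - v) := by
    calc (d : ℤ) * #(S.filter (fun x => v + d ≤ z x))
        = ∑ x ∈ S.filter (fun x => v + d ≤ z x), (d : ℤ) := by
          rw [sum_const, nsmul_eq_mul, mul_comm]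
      _ ≤ ∑ x ∈ S.filter (fun x => v + d ≤ z x), (z x - v) := by
          refine sum_le_sum fun x hx => ?_
          rw [mem_filter] at hx
          linarith [hx.2]
      _ ≤ _ := by
          refine sum_le_sum_of_subset_of_nonneg ?_ ?_
          · intro x hx
            rw [mem_filter] at hx ⊢
            exact ⟨hx.1, by omega⟩
          · intro x hx _
            rw [mem_filter] at hx
            linarith [hx.2]
  have h4 : (d : ℤ) * #(S.filter (fun x => z x ≤ u - d)) ≤
      ∑ x ∈ S.filter (fun x => z x < u), (u - z x) := by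
    calc (d : ℤ) * #(S.filter (fun x => z x ≤ u - d))
        = ∑ x ∈ S.filter (fun x => z x ≤ u - d), (d : ℤ) := by
          rw [sum_const, nsmul_eq_mul, mul_comm]
      _ ≤ ∑ x ∈ S.filter (fun x => z x ≤ u - d), (u - z x) := by
          refine sum_le_sum fun x hx => ?_
          rw [mem_filter] at hx
          linarith [hx.2]
      _ ≤ _ := by
          refine sum_le_sum_of_subset_of_nonneg ?_ ?_
          · intro x hx
            rw [mem_filter] at hx ⊢
            exact ⟨hx.1, by omega⟩
          · intro x hx _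
            rw [mem_filter] at hx
            linarith [hx.2]
  have h5 : (d : ℤ) * #(out S z u v d) ≤ d * (#(S.filter (fun x => v + d ≤ z x)) +
      #(S.filter (fun x => z x ≤ u - d)) : ℕ) :=
    mul_le_mul_of_nonneg_left (by exact_mod_cast h2) (by positivity)
  rw [dist]
  push_cast at h5
  linarith

theorem dist_nonneg' {G : Type*} (S : Finset G) (z : G → ℤ) (u v : ℤ) :
    0 ≤ dist S z u v := by
  have h1 := mul_card_out_le S z u v (le_refl 1)
  have h2 : (0 : ℤ) ≤ #(out S z u v 1) := by positivity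
  push_cast at h1
  linarith

/-- the distance of one element -/
theorem le_dist {G : Type*} {S : Finset G} {z : G → ℤ} {u v : ℤ} {d : ℕ}
    (hd : 1 ≤ d) {x : G} (hx : x ∈ S) (hz : z x = v + d ∨ z x = u - d) :
    (d : ℤ) ≤ dist S z u v := by
  have h1 := mul_card_out_le S z u v hd
  have h2 : 1 ≤ #(out S z u v d) := by
    refine card_pos.2 ⟨x, mem_out.2 ⟨hx, ?_⟩⟩
    rcases hz with hz | hz
    · exact Or.inr hz.ge
    · exact Or.inl hz.le
  have h3 : (1 : ℤ) ≤ #(out S z u v d) := by exact_mod_cast h2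
  nlinarith

/-- the elements of `S` inside `[u, v]` -/
theorem card_le_out {G : Type*} [AddCommGroup G] [Finite G] {H : AddSubgroup G} {e q₀ : G}
    {S : Finset G} {z : G → ℤ} (hlift : ∀ x ∈ S, x - q₀ - z x • e ∈ H) {u v : ℤ} (huv : u ≤ v) :
    (#S : ℤ) ≤ dist S z u v + (v - u + 1) * Nat.card H := by
  classical
  have h1 := card_rows S z (p := u) (q := v) (by omega)
  have h2 := card_out S z (p := u) (q := v) (by omega)
  have h3 := mul_card_out_le S z u v (le_refl 1)
  have h4 : ∑ i ∈ Icc u v, #(row S z i) ≤ #(Icc u v) * Nat.card H := by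
    refine (sum_le_card_nsmul _ _ (Nat.card H) fun j _ => card_row_le hlift j).trans ?_
    rw [smul_eq_mul]
  have h5 : (#(Icc u v) : ℤ) = v - u + 1 := by
    rw [Int.card_Icc, Int.toNat_of_nonneg (by omega)]
    ring
  have h6 : ((∑ i ∈ Icc u v, #(row S z i) : ℕ) : ℤ) ≤ (v - u + 1) * Nat.card H := by
    rw [← h5]
    exact_mod_cast h4
  have h7 : (#S : ℤ) = #(out S z u v 1) + (∑ i ∈ Icc u v, #(row S z i) : ℕ) := by
    rw [h1, h2]
    push_cast
    ring
  push_cast at h3
  linarith

/-- the elements of `A` outside, in terms of those of `S` -/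
theorem card_out_le {G : Type*} [DecidableEq G] {A S : Finset G} {z z' : G → ℤ} {u : ℤ}
    (hz' : ∀ x ∈ S, z' x = z x - u) {loss : ℕ} (hSA : S ⊆ A) (hloss : #A ≤ #S + loss) (p q : ℤ)
    (d : ℕ) : #(out A z' p q d) ≤ #(out S z (p + u) (q + u) d) + loss := by
  classical
  have h1 : out A z' p q d ⊆ out S z (p + u) (q + u) d ∪ (A \ S) := by
    intro x hx
    rw [mem_out] at hx
    rw [mem_union, mem_sdiff, mem_out]
    by_cases hxS : x ∈ S
    · left
      refine ⟨hxS, ?_⟩
      rw [hz' x hxS] at hx
      rcases hx.2 with h | h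
      · left
        linarith
      · right
        linarith
    · exact Or.inr ⟨hx.1, hxS⟩
  have h2 := (card_le_card h1).trans (card_union_le _ _)
  have h3 := card_sdiff_add_card_eq_card hSA
  omega

end Pool.Agent.Lib.MPa7239a.RK
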